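import Pool.Agent.TH935.HM3
import Pool.Agent.TH894.PV8
import Pool.Agent.Y958.RM.Rnd

set_option autoImplicit false

/-! The least primes in almost all classes: from the bad moduli for the least primes to the bad moduli for the variance. -/

namespace Pool.Agent.R501.LP
open Finset
open Pool.Agent.TH894.PV (G noP lp_det psiAP)
open Pool.Agent.TH935.HM (cheb)
open Pool.Agent.Y958.RM (BadQ)

open Classical in
/-- the property of the modulus `Q` -/
def LpG0 (ε : ℝ) (κ Q : ℕ) : Prop :=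
  ∀ x : ℝ, (Q : ℝ) ≤ x → x ≤ Q * Real.log Q ^ κ →
    ((noP x Q).card : ℝ) * (x + (Nat.totient Q : ℝ) * Real.log Q) ≤ (1 + ε) * (Nat.totient Q : ℝ) * ((Nat.totient Q : ℝ) * Real.log Q) ∧
    ∀ η : ℝ, 0 < η → (((range Q).filter (fun b => Nat.Coprime b Q ∧ η * (x / (Nat.totient Q : ℝ)) ≤
      |psiAP x Q b - x / (Nat.totient Q : ℝ)|)).card : ℝ) ≤ (1 + ε) * (Nat.totient Q : ℝ) * ((Nat.totient Q : ℝ) * Real.log Q) / (x * η ^ 2)

open Classical in
/-- the property of the modulus in other words -/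
def LpG (ε : ℝ) (κ Q : ℕ) : Prop :=
  ∀ x : ℝ, (Q : ℝ) ≤ x → x ≤ Q * Real.log Q ^ κ →
    (((range Q).filter (fun b => Nat.Coprime b Q ∧ ∀ p : ℕ, p.Prime → (p : ℝ) ≤ x → ¬ p % Q = b)).card : ℝ) *
      (1 + x / (Nat.totient Q * Real.log Q)) ≤ (1 + ε) * Nat.totient Q ∧
    ∀ η : ℝ, 0 < η → (((range Q).filter (fun b => Nat.Coprime b Q ∧ η * (x / (Nat.totient Q : ℝ)) ≤
      |psiAP x Q b - x / (Nat.totient Q : ℝ)|)).card : ℝ) * (η ^ 2 * (x / (Nat.totient Q * Real.log Q))) ≤ (1 + ε) * Nat.totient Q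

open Classical in
theorem lpg_iff (ε : ℝ) (κ Q : ℕ) (hQ : 2 ≤ Q) : LpG0 ε κ Q ↔ LpG ε κ Q := by
  have hφ : (0 : ℝ) < (Nat.totient Q : ℝ) := by exact_mod_cast Nat.totient_pos.2 (by omega)
  have hl : 0 < Real.log (Q : ℝ) := Real.log_pos (by exact_mod_cast (by omega : 1 < Q))
  have hQ0 : (0 : ℝ) < Q := by exact_mod_cast (by omega : 0 < Q)
  have hs : 0 < (Nat.totient Q : ℝ) * Real.log Q := by positivity
  unfold LpG0 LpG
  apply forall_congr'
  intro x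
  apply forall_congr'
  intro hx1
  apply forall_congr'
  intro _
  have hx0 : 0 < x := by linarith
  have e0 : noP x Q = (range Q).filter (fun b => Nat.Coprime b Q ∧ ∀ p : ℕ, p.Prime → (p : ℝ) ≤ x → ¬ p % Q = b) := by
    unfold noP
    rw [filter_filter]
  have e1 : 1 + x / ((Nat.totient Q : ℝ) * Real.log Q) = (x + (Nat.totient Q : ℝ) * Real.log Q) / ((Nat.totient Q : ℝ) * Real.log Q) := by
    field_simp
    ring
  rw [e0]
  apply and_congr
  · rw [e1, mul_div_assoc', div_le_iff₀ hs]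
  · apply forall_congr'
    intro η
    apply forall_congr'
    intro hη
    rw [le_div_iff₀ (by positivity)]
    have e2 : ∀ N : ℝ, N * (η ^ 2 * (x / ((Nat.totient Q : ℝ) * Real.log Q))) = N * (x * η ^ 2) / ((Nat.totient Q : ℝ) * Real.log Q) := by
      intro N
      field_simp
    rw [e2, div_le_iff₀ hs]

/-- from the variance to the least primes -/
theorem lpg_of_var (κ : ℕ) (ε : ℝ) (hε : 0 < ε) (hε1 : ε ≤ 1) : ∃ Q₀ : ℕ, ∀ Q : ℕ, Q₀ ≤ Q →
    (∀ x : ℝ, (Q : ℝ) ≤ x → x ≤ Q * Real.log Q ^ κ → |G x Q - x * Real.log Q| ≤ ε / 4 * (x * Real.log Q)) → LpG0 ε κ Q := by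
  obtain ⟨n1, h1⟩ := lp_det κ ε hε hε1
  refine ⟨n1 + 3, fun Q hQ hvar x hx1 hx2 => ?_⟩
  have hQ3 : (3 : ℝ) ≤ Q := by exact_mod_cast (by omega : 3 ≤ Q)
  have hQ0 : (0 : ℝ) < Q := by linarith
  have hlog1 : 1 ≤ Real.log Q := by
    rw [Real.le_log_iff_exp_le hQ0]
    have := Real.exp_one_lt_d9
    linarith
  have hx0 : 0 < x := by linarith
  have hv := hvar x hx1 hx2
  refine ⟨h1 Q (by omega) Q le_rfl (le_mul_of_one_le_right hQ0.le (one_le_pow₀ hlog1)) x hx1 hx2 hv, fun η hη => ?_⟩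
  have hG : G x Q ≤ (1 + ε) * (x * Real.log Q) := by
    have h6 := le_abs_self (G x Q - x * Real.log Q)
    have h7 : 0 ≤ x * Real.log Q := by positivity
    nlinarith
  have h5 := cheb Q x η _ (by omega) hx0 hη hG
  refine h5.trans (le_of_eq ?_)
  have hφ : (0 : ℝ) < (Nat.totient Q : ℝ) := by exact_mod_cast Nat.totient_pos.2 (by omega)
  field_simp

/-- an integer which is bad for the least primes is bad for the variance -/
theorem badq_of_lp (b r κ : ℕ) (hb : 2 ≤ b) (ε : ℝ) (hε : 0 < ε) (hε1 : ε ≤ 1) : ∃ k₀ : ℕ, ∀ k : ℕ, k₀ ≤ k → ∀ Q : ℤ,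
    (b : ℤ) ^ k ≤ Q * (k : ℤ) ^ κ → Q ≤ (b : ℤ) ^ (k + r) → ¬ LpG ε κ Q.toNat → BadQ (ε / 4) (κ + 1) k b Q := by
  obtain ⟨N₀, h0⟩ := lpg_of_var κ ε hε hε1
  -- the modulus is large
  have hlim : ∃ k₂ : ℕ, ∀ k : ℕ, k₂ ≤ k → (((N₀ + 3 : ℕ) : ℝ)) * (k : ℝ) ^ κ < (b : ℝ) ^ k := by
    have hb1 : (1 : ℝ) < b := by exact_mod_cast (by omega : 1 < b)
    have h := (isLittleO_pow_const_const_pow_of_one_lt (R := ℝ) κ hb1).bound
      (show 0 < 1 / (2 * ((N₀ + 3 : ℕ) : ℝ)) by positivity)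
    obtain ⟨x0, hx0⟩ := Filter.eventually_atTop.1 h
    refine ⟨x0, fun k hk => ?_⟩
    have h3 := hx0 k hk
    have hbk : (0 : ℝ) < (b : ℝ) ^ k := by positivity
    rw [Real.norm_of_nonneg (by positivity), Real.norm_of_nonneg hbk.le] at h3
    have hN : (0 : ℝ) < ((N₀ + 3 : ℕ) : ℝ) := by positivity
    calc ((N₀ + 3 : ℕ) : ℝ) * (k : ℝ) ^ κ ≤ ((N₀ + 3 : ℕ) : ℝ) * (1 / (2 * ((N₀ + 3 : ℕ) : ℝ)) * (b : ℝ) ^ k) :=
          mul_le_mul_of_nonneg_left h3 hN.le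
      _ = (b : ℝ) ^ k / 2 := by field_simp
      _ < _ := by linarith
  obtain ⟨k₂, h2⟩ := hlim
  refine ⟨k₂ + r + (2 * b) ^ κ + 1, fun k hk Q hQ1 hQ2 hbad => ?_⟩
  have hk1 : 1 ≤ k := by omega
  have hk1r : (1 : ℝ) ≤ k := by exact_mod_cast hk1
  have hk0 : (0 : ℝ) < k := by linarith
  have hQpos : 0 < Q := by
    by_contra hcon
    push Not at hcon
    have e1 : Q * (k : ℤ) ^ κ ≤ 0 := mul_nonpos_of_nonpos_of_nonneg hcon (by positivity)
    have e2 : (0 : ℤ) < (b : ℤ) ^ k := by positivity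
    linarith
  obtain ⟨q, hq⟩ : ∃ q : ℕ, q = Q.toNat := ⟨_, rfl⟩
  have hqQ : (q : ℤ) = Q := by rw [hq]; exact Int.toNat_of_nonneg hQpos.le
  have hqr : (Q : ℝ) = (q : ℝ) := by rw [← hqQ]; push_cast; rfl
  rw [← hq] at hbad
  have hqbig : N₀ + 3 ≤ q := by
    by_contra hcon
    push Not at hcon
    have e1 := h2 k (by omega)
    have e2 : ((b : ℝ)) ^ k ≤ (q : ℝ) * (k : ℝ) ^ κ := by
      have : (b : ℤ) ^ k ≤ (q : ℤ) * (k : ℤ) ^ κ := by rw [hqQ]; exact hQ1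
      exact_mod_cast this
    have e3 : (q : ℝ) * (k : ℝ) ^ κ ≤ ((N₀ + 3 : ℕ) : ℝ) * (k : ℝ) ^ κ :=
      mul_le_mul_of_nonneg_right (by exact_mod_cast hcon.le) (by positivity)
    linarith
  have hq3 : (3 : ℝ) ≤ q := by exact_mod_cast (by omega : 3 ≤ q)
  have hq0 : (0 : ℝ) < q := by linarith
  have hlog1 : 1 ≤ Real.log q := by
    rw [Real.le_log_iff_exp_le hq0]
    have := Real.exp_one_lt_d9
    linarith
  have hlogk : Real.log q ^ κ ≤ (k : ℝ) ^ (κ + 1) := by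
    have e1 : Real.log q ≤ 2 * b * k := by
      have g1 : (q : ℝ) ≤ (b : ℝ) ^ (k + r) := by
        have : (q : ℤ) ≤ (b : ℤ) ^ (k + r) := by rw [hqQ]; exact hQ2
        exact_mod_cast this
      have g2 := Real.log_le_log hq0 g1
      rw [Real.log_pow] at g2
      have hb0 : (0 : ℝ) < b := by exact_mod_cast (by omega : 0 < b)
      have g3 : Real.log (b : ℝ) ≤ b := (Real.log_le_sub_one_of_pos hb0).trans (by linarith)
      have g4 : ((k + r : ℕ) : ℝ) ≤ 2 * k := by exact_mod_cast (by omega : k + r ≤ 2 * k)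
      have g5 : 0 ≤ Real.log (b : ℝ) := Real.log_natCast_nonneg _
      calc Real.log q ≤ ((k + r : ℕ) : ℝ) * Real.log b := g2
        _ ≤ (2 * k) * b := mul_le_mul g4 g3 g5 (by positivity)
        _ = _ := by ring
    calc Real.log q ^ κ ≤ (2 * b * k) ^ κ := pow_le_pow_left₀ (by linarith) e1 _
      _ = (2 * b : ℝ) ^ κ * (k : ℝ) ^ κ := mul_pow _ _ _
      _ ≤ k * (k : ℝ) ^ κ := by
          apply mul_le_mul_of_nonneg_right _ (by positivity)
          have : (2 * b) ^ κ ≤ k := by omega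
          exact_mod_cast this
      _ = _ := by ring
  by_contra hcon
  apply hbad
  rw [← lpg_iff ε κ q (by omega)]
  apply h0 q (by omega)
  intro y hy1 hy2
  by_contra hcon2
  apply hcon
  refine ⟨?_, y, by rw [hqr]; exact hy1, ?_, ?_⟩
  · refine hQ1.trans ?_
    apply mul_le_mul_of_nonneg_left _ hQpos.le
    exact pow_le_pow_right₀ (by exact_mod_cast hk1) (by omega)
  · rw [hqr]
    exact hy2.trans (mul_le_mul_of_nonneg_left hlogk hq0.le)
  · rw [← hq, hqr]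
    exact hcon2

end Pool.Agent.R501.LP
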