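import Pool.Agent.R501.PV2
import Pool.Agent.R501.LP1

set_option autoImplicit false

/-! The least primes in almost all classes, for moduli with mirror-dependent digits. -/

namespace Pool.Agent.R501.PV
open Finset
open Pool.Agent.TH872
open Pool.Agent.R501.LP (LpG)

/-- what is needed from the laws of all the multiples -/
theorem pal_rare_lp (b B κ U : ℕ) (hb : 2 ≤ b) (κ₀ : ℤ) (hκ₀ : κ₀ ≠ 0) (ε : ℝ) (hε : 0 < ε) (hε1 : ε ≤ 1) :
    Tr.Rare b B U κ₀ (fun k bad => ∀ n : ℤ, bad n → (b : ℤ) ^ k ≤ n * (k : ℤ) ^ κ ∧ ¬ LpG ε κ n.toNat) := by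
  classical
  intro η hη s hs
  obtain ⟨m1, h1⟩ := pal_rare b B (κ + 1) U hb κ₀ hκ₀ (ε / 4) (by linarith) (by linarith) η hη s hs
  obtain ⟨k2, h2⟩ := Pool.Agent.R501.LP.badq_of_lp b (B + 3 * κ₀.natAbs) κ hb ε hε hε1
  refine ⟨m1 + k2, fun m hm w hw cc hcc bad hbad E _ hE => ?_⟩
  refine h1 m (by omega) w hw cc hcc _ (fun n hn => hn) E (fun g hg hEg => ?_)
  obtain ⟨g1, g2⟩ := hbad _ (hE g hg hEg)
  refine h2 (2 * m + s) (by omega) _ g1 ?_ g2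
  have h0 : ((Mir.val b (2 * m + s) g : ℕ) : ℤ) < 2 * (b : ℤ) ^ (2 * m + s) := by
    have := Mir.val_lt b m s (by omega) g hg
    exact_mod_cast this
  calc cc + κ₀ * (Mir.val b (2 * m + s) g : ℕ) ≤ |cc + κ₀ * (Mir.val b (2 * m + s) g : ℕ)| := le_abs_self _
    _ ≤ |cc| + |κ₀ * (Mir.val b (2 * m + s) g : ℕ)| := abs_add_le _ _
    _ = |cc| + |κ₀| * (Mir.val b (2 * m + s) g : ℕ) := by
        rw [abs_mul, abs_of_nonneg (by positivity : (0 : ℤ) ≤ ((Mir.val b (2 * m + s) g : ℕ) : ℤ))]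
    _ ≤ |cc| + |κ₀| * (2 * (b : ℤ) ^ (2 * m + s)) := by
        have := mul_le_mul_of_nonneg_left h0.le (abs_nonneg κ₀)
        linarith
    _ ≤ _ := hcc

end Pool.Agent.R501.PV
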