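import Pool.Agent.R501.PV4
import Pool.Agent.TH872.An2
import Pool.Agent.Y958.RM.Rnd
import Pool.Agent.Y958.RM.Cor

set_option autoImplicit false

/-! Hooley's variance conjecture for the rearrangements of the digits of an integer. -/

namespace Pool.Agent.R501.PV
open Finset
open Pool.Agent.H807R2.Dav
open Pool.Agent.Y885 (TLaw)
open Pool.Agent.TH872
open Pool.Agent.TH872.Mir (Far farCount)
open Pool.Agent.TH872.An (V Spread GG GG_pos far_pair char_small eta_le V_lt)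
open Pool.Agent.Y958.RM (COR BadQ eH)

/-- a large value of the characteristic function of the permuted digits: few positions are far -/
lemma far_of_large_perm (b : ℕ) (hb : 2 ≤ b) (η : ℝ) (hη : 0 < η) : ∃ v : ℕ, 1 ≤ v ∧ ∀ (k : ℕ) (d : Fin k → ℕ), 1 ≤ k → Spread b k η d →
    ∀ (θ : ℝ) (n : ℕ), 4 * ((v : ℝ) * n) ≤ η * k →
    (1 / (b : ℝ)) ^ n < ‖∑ σ : Equiv.Perm (Fin k), (((1 : ℝ) / k.factorial : ℝ) : ℂ) * ee ((V b d σ : ℝ) * θ)‖ →
    farCount b (GG b) k θ < 2 * (v * n) + 2 := by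
  classical
  have hbr : (2 : ℝ) ≤ b := by exact_mod_cast hb
  have hb0 : (0 : ℝ) < b := by linarith
  have hG0 : (0 : ℝ) < GG b := by exact_mod_cast GG_pos b hb
  have hG1 : (1 : ℝ) ≤ GG b := by exact_mod_cast GG_pos b hb
  obtain ⟨δ, hδ⟩ : ∃ δ, δ = 1 / ((b : ℝ) ^ 2 * GG b) := ⟨_, rfl⟩
  have hδ0 : 0 < δ := by rw [hδ]; positivity
  have hδ1 : δ ≤ 1 / 2 := by
    rw [hδ]
    apply div_le_div_of_nonneg_left (by norm_num) (by norm_num)
    nlinarith
  obtain ⟨γ, hγ⟩ : ∃ γ, γ = 1 - 2 * δ ^ 2 * (η / 2) := ⟨_, rfl⟩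
  have hγ1 : γ < 1 := by
    rw [hγ]
    have : 0 < 2 * δ ^ 2 * (η / 2) := by positivity
    linarith
  obtain ⟨v, hv⟩ : ∃ v : ℕ, (max γ 0) ^ v < 1 / b :=
    exists_pow_lt_of_lt_one (show (0 : ℝ) < 1 / b by positivity) (max_lt hγ1 one_pos)
  have hv1 : 1 ≤ v := by
    by_contra hcon
    have : v = 0 := by omega
    rw [this, pow_zero, lt_div_iff₀ hb0] at hv
    linarith
  refine ⟨v, hv1, fun k d hk0 hd θ n hn hlarge => ?_⟩
  have hη1 := eta_le hd hk0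
  have hγ0 : 0 ≤ γ := by
    rw [hγ]
    have h1 : δ ^ 2 ≤ (1 / 2) ^ 2 := pow_le_pow_left₀ hδ0.le hδ1 2
    nlinarith [sq_nonneg δ]
  by_contra hcon
  push Not at hcon
  obtain ⟨R, hR⟩ : ∃ R, R = v * n := ⟨_, rfl⟩
  rw [← hR] at hcon
  obtain ⟨T, hT⟩ : ∃ T : Finset ℕ, T = (range (k - 1)).filter (fun j => Far (1 / (b : ℝ) ^ 2) ((GG b : ℝ) * ((b : ℝ) ^ j * θ))) := ⟨_, rfl⟩
  have hTc : 2 * R + 1 ≤ T.card := by
    have h2 : (range k).filter (fun j => Far (1 / (b : ℝ) ^ 2) ((GG b : ℝ) * ((b : ℝ) ^ j * θ))) ⊆ insert (k - 1) T := by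
      intro j hj
      rw [mem_filter, mem_range] at hj
      rw [mem_insert, hT, mem_filter, mem_range]
      by_cases c : j = k - 1
      · left; exact c
      · right; exact ⟨by omega, hj.2⟩
    have h3 := (card_le_card h2).trans (card_insert_le _ _)
    unfold farCount at hcon
    omega
  have hpar : ∃ r : ℕ, R ≤ (T.filter (fun j => j % 2 = r)).card := by
    have h2 := card_filter_add_card_filter_not (s := T) (fun j => j % 2 = 0)
    by_cases c : R ≤ (T.filter (fun j => j % 2 = 0)).card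
    · exact ⟨0, c⟩
    · refine ⟨1, ?_⟩
      have h3 : (T.filter (fun j => j % 2 = 1)).card = (T.filter (fun j => ¬ j % 2 = 0)).card := by
        congr 1
        apply filter_congr
        intro j _
        omega
      omega
  obtain ⟨r, hr⟩ := hpar
  obtain ⟨J, hJs, hJc⟩ := exists_subset_card_eq hr
  have hJT : ∀ j ∈ J, j + 1 < k ∧ j % 2 = r ∧ Far (1 / (b : ℝ) ^ 2) ((GG b : ℝ) * ((b : ℝ) ^ j * θ)) := by
    intro j hj
    have h2 := hJs hj
    rw [mem_filter, hT, mem_filter, mem_range] at h2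
    exact ⟨by omega, h2.2, h2.1.2⟩
  obtain ⟨x, hx⟩ : ∃ x : ℕ → Fin k, ∀ j, j + 1 < k → ((x j : Fin k) : ℕ) = j + 1 := by
    refine ⟨fun j => if h : j + 1 < k then ⟨j + 1, h⟩ else ⟨0, hk0⟩, fun j hj => ?_⟩
    simp only [hj, dif_pos]
  obtain ⟨y, hy⟩ : ∃ y : ℕ → Fin k, ∀ j, j + 1 < k → ((y j : Fin k) : ℕ) = j := by
    refine ⟨fun j => if h : j + 1 < k then ⟨j, by omega⟩ else ⟨0, hk0⟩, fun j hj => ?_⟩
    simp only [hj, dif_pos]
  have hdec := char_small b hd hη.le θ δ hδ0.le hδ1 x y J (by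
      intro i hi j hj hcon
      have a1 := hJT i hi
      have a2 := hJT j hj
      have a3 := congrArg Fin.val hcon
      rw [hx i a1.1, hy j a2.1] at a3
      omega) (by
      intro i hi j hj hcon
      have a1 := hJT i hi
      have a2 := hJT j hj
      have a3 := congrArg Fin.val hcon
      rw [hx i a1.1, hx j a2.1] at a3
      omega) (by
      intro i hi j hj hcon
      have a1 := hJT i hi
      have a2 := hJT j hj
      have a3 := congrArg Fin.val hcon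
      rw [hy i a1.1, hy j a2.1] at a3
      omega) (by
      rw [hJc, hR]
      push_cast
      linarith) (by
      intro j hj D hD0 hD
      have a1 := hJT j hj
      rw [hx j a1.1, hy j a1.1, hδ]
      exact far_pair b hb j θ a1.2.2 D hD0 hD)
  rw [← hγ, hJc, hR] at hdec
  have h5 : γ ^ (v * n) ≤ (1 / (b : ℝ)) ^ n := by
    rw [pow_mul]
    apply pow_le_pow_left₀ (by positivity)
    refine (pow_le_pow_left₀ hγ0 (le_max_left γ 0) v).trans hv.le
  linarith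

/-- all the multiples of an integer with permuted digits have a thin large spectrum -/
theorem perm_lawh (b : ℕ) (hb : 2 ≤ b) (η : ℝ) (hη : 0 < η) (κ₀ : ℤ) (hκ₀ : κ₀ ≠ 0) (W V' : ℕ) :
    ∃ c k₀ : ℕ, ∀ k : ℕ, k₀ ≤ k → ∀ e : ℕ, (e : ℝ) ≤ W * Real.log (k : ℝ) → ∀ h : ℕ, 1 ≤ h → Nat.log b h ≤ e →
      ∀ d : Fin k → ℕ, Spread b k η d → ∀ cc : ℤ,
      TLaw b 15 c V' (k + e) (univ : Finset (Equiv.Perm (Fin k))) (fun _ => 1 / (k.factorial : ℝ))
        (fun σ => (h : ℤ) * (cc + κ₀ * (V b d σ : ℕ))) := by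
  classical
  obtain ⟨v, hv1, hv⟩ := far_of_large_perm b hb η hη
  obtain ⟨c, k₀, h0⟩ := gen_lawh b (GG b) (2 * v * V' + 2) hb (GG_pos b hb) κ₀ hκ₀ W V'
  obtain ⟨τ, hτ⟩ := exists_nat_ge (4 * (v * V' : ℕ) / η : ℝ)
  obtain ⟨k3, hk3⟩ := Pool.Agent.TH872.Mir.room b hb (2 * τ) 0
  have hlim : ∃ k₂ : ℕ, ∀ k : ℕ, k₂ ≤ k → W * Real.log k ≤ k := by
    have h := (Real.isLittleO_log_id_atTop).bound (show 0 < (1 : ℝ) / (W + 1) by positivity)
    have h2 := (tendsto_natCast_atTop_atTop (R := ℝ)).eventually h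
    obtain ⟨x0, hx0⟩ := Filter.eventually_atTop.1 h2
    refine ⟨x0 + 1, fun k hk => ?_⟩
    have h3 := hx0 k (by omega)
    have hk0 : (0 : ℝ) < k := by exact_mod_cast (by omega : 0 < k)
    simp only [id, Real.norm_eq_abs, abs_of_pos hk0] at h3
    have h4 := (le_abs_self _).trans h3
    have g1 : 0 ≤ Real.log k := Real.log_natCast_nonneg _
    have g2 : W * Real.log k ≤ (W + 1) * Real.log k := by nlinarith
    refine g2.trans ((mul_le_mul_of_nonneg_left h4 (by positivity)).trans (le_of_eq ?_))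
    field_simp
  obtain ⟨k₂, h2⟩ := hlim
  refine ⟨c, k₀ + k3 + k₂ + 1, fun k hk e he h hh hle d hd cc => ?_⟩
  have hfac : (0 : ℝ) < (k.factorial : ℝ) := by exact_mod_cast k.factorial_pos
  have hek : e ≤ k := by
    have : (e : ℝ) ≤ k := he.trans (h2 k (by omega))
    exact_mod_cast this
  refine h0 k (by omega) e he h hh hle (Equiv.Perm (Fin k)) univ (fun _ => 1 / (k.factorial : ℝ)) (fun σ => ((V b d σ : ℕ) : ℤ))
    (fun _ _ => by positivity) (by
      rw [sum_const, card_univ, Fintype.card_perm, Fintype.card_fin, nsmul_eq_mul, mul_one_div, div_self hfac.ne']) (fun θ hθ => ?_) cc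
  obtain ⟨Lg, hLg⟩ : ∃ Lg, Lg = Nat.log b (k + e) + 1 := ⟨_, rfl⟩
  have hroom := hk3 (k + e) (by omega)
  rw [← hLg] at hroom ⊢
  have hKpos : (0 : ℝ) < ((k + e : ℕ) : ℝ) := by exact_mod_cast (by omega : 0 < k + e)
  have h5 : (1 / (b : ℝ)) ^ (V' * Lg) ≤ 1 / ((k + e : ℕ) : ℝ) ^ V' := by
    rw [one_div_pow]
    apply div_le_div_of_nonneg_left (by norm_num) (by positivity)
    have h7 : ((k + e : ℕ) : ℝ) ≤ (b : ℝ) ^ Lg := by
      have := Nat.lt_pow_succ_log_self (b := b) (by omega) (k + e)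
      rw [hLg]
      exact_mod_cast this.le
    calc ((k + e : ℕ) : ℝ) ^ V' ≤ ((b : ℝ) ^ Lg) ^ V' := pow_le_pow_left₀ (Nat.cast_nonneg _) h7 _
      _ = _ := by rw [← pow_mul]; congr 1; ring
  have h6 := hv k d (by omega) hd θ (V' * Lg) (by
    have e1 : ((τ * Lg : ℕ) : ℝ) ≤ k := by
      have : 2 * (τ * Lg) ≤ 2 * k := by
        have e0 : 2 * τ * Lg = 2 * (τ * Lg) := by ring
        omega
      exact_mod_cast (by omega : τ * Lg ≤ k)
    have e2 : 4 * ((v * V' : ℕ) : ℝ) ≤ τ * η := by rwa [div_le_iff₀ hη] at hτ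
    have e3 : (0 : ℝ) ≤ Lg := Nat.cast_nonneg _
    have e4 := mul_le_mul_of_nonneg_right e2 e3
    have e5 := mul_le_mul_of_nonneg_left e1 hη.le
    push_cast at e4 e5 ⊢
    nlinarith) (by
    refine lt_of_le_of_lt h5 ?_
    push_cast at hθ ⊢
    exact hθ)
  have e1 : 2 * (v * (V' * Lg)) + 2 ≤ (2 * v * V' + 2) * Lg := by
    have : 1 ≤ Lg := by omega
    have e0 : (2 * v * V' + 2) * Lg = 2 * (v * (V' * Lg)) + 2 * Lg := by ring
    omega
  omega

/-- the exceptional rearrangements -/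
theorem perm_rare (b B κ U : ℕ) (hb : 2 ≤ b) (κ₀ : ℤ) (hκ₀ : κ₀ ≠ 0) (η : ℝ) (hη : 0 < η) (ε : ℝ) (hε : 0 < ε) (hε1 : ε ≤ 1) :
    ∃ k₀ : ℕ, ∀ k : ℕ, k₀ ≤ k → ∀ d : Fin k → ℕ, Spread b k η d → ∀ cc : ℤ, |cc| ≤ B * (b : ℤ) ^ k →
      ∀ E : Equiv.Perm (Fin k) → Prop, [DecidablePred E] → (∀ σ, E σ → BadQ ε κ k b (cc + κ₀ * (V b d σ : ℕ))) →
      ((univ.filter E).card : ℝ) ≤ k.factorial / (k : ℝ) ^ U := by
  classical
  obtain ⟨r, hr⟩ : ∃ r, r = B + κ₀.natAbs := ⟨_, rfl⟩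
  obtain ⟨V₁, hV⟩ := Pool.Agent.Y958.RM.main Pool.Agent.Y958.RM.cor (κ + 1) U b 15 hb (by norm_num)
  obtain ⟨H, hH⟩ : ∃ H, H = 2 * (κ + 1 + 1) := ⟨_, rfl⟩
  rw [← hH] at hV
  obtain ⟨c, m1, h1⟩ := perm_lawh b hb η hη κ₀ hκ₀ (4 * H + 2 * r + 2) V₁
  obtain ⟨k2, h2⟩ := hV ε hε hε1 c
  obtain ⟨k3, h3⟩ := Pool.Agent.Y958.RM.eH_le b r H hb
  refine ⟨m1 + k2 + k3 + b ^ (2 * r) + 1, fun k hk d hd cc hcc E _ hE => ?_⟩
  have hk1 : 1 ≤ k := by omega
  have hfac : (0 : ℝ) < (k.factorial : ℝ) := by exact_mod_cast k.factorial_pos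
  obtain ⟨e, he⟩ : ∃ e, e = eH b H (k + 2 * r) := ⟨_, rfl⟩
  have hke : k + 2 * r + e = k + (2 * r + e) := by ring
  have hbz : (1 : ℤ) ≤ b := by exact_mod_cast (by omega : 1 ≤ b)
  have hY : ∀ σ ∈ (univ : Finset (Equiv.Perm (Fin k))), |cc + κ₀ * (V b d σ : ℕ)| ≤ (b : ℤ) ^ (k + 2 * r) := by
    intro σ _
    have h0 : ((V b d σ : ℕ) : ℤ) ≤ (b : ℤ) ^ k := by exact_mod_cast (V_lt hd (by omega) σ).le
    have h4 : ((r : ℕ) : ℤ) ≤ (b : ℤ) ^ r := by exact_mod_cast (Nat.lt_pow_self (by omega : 1 < b)).le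
    calc |cc + κ₀ * (V b d σ : ℕ)| ≤ |cc| + |κ₀ * (V b d σ : ℕ)| := abs_add_le _ _
      _ = |cc| + |κ₀| * (V b d σ : ℕ) := by rw [abs_mul, abs_of_nonneg (Int.natCast_nonneg _)]
      _ ≤ B * (b : ℤ) ^ k + |κ₀| * (b : ℤ) ^ k := add_le_add hcc (mul_le_mul_of_nonneg_left h0 (abs_nonneg κ₀))
      _ = (r : ℤ) * (b : ℤ) ^ k := by rw [hr]; push_cast; ring
      _ ≤ (b : ℤ) ^ r * (b : ℤ) ^ k := mul_le_mul_of_nonneg_right h4 (by positivity)
      _ = (b : ℤ) ^ (k + r) := by rw [← pow_add]; congr 1; ring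
      _ ≤ _ := pow_le_pow_right₀ hbz (by omega)
  have key := h2 (k + 2 * r) (by omega) (Equiv.Perm (Fin k)) univ (fun _ => 1 / (k.factorial : ℝ))
    (fun σ => cc + κ₀ * (V b d σ : ℕ)) (by
      rw [sum_const, card_univ, Fintype.card_perm, Fintype.card_fin, nsmul_eq_mul, mul_one_div, div_self hfac.ne']) (by
      intro h hh1 hh2
      rw [← he] at hh2 ⊢
      rw [hke]
      exact h1 k (by omega) (2 * r + e) (by rw [he]; exact h3 k (by omega)) h hh1 (by omega) d hd cc) hY E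
    (fun _ => Classical.propDecidable _) (by
      intro σ _ hEg
      obtain ⟨g2, x, g3, g4, g5⟩ := hE σ hEg
      obtain ⟨Q, hQ⟩ : ∃ Q : ℤ, Q = cc + κ₀ * (V b d σ : ℕ) := ⟨_, rfl⟩
      simp only [← hQ] at g2 g3 g4 g5 ⊢
      have hQ0 : 0 ≤ Q := by
        by_contra hcon
        push Not at hcon
        have e1 : Q * (k : ℤ) ^ κ ≤ 0 := mul_nonpos_of_nonpos_of_nonneg hcon.le (by positivity)
        have e2 : (0 : ℤ) < (b : ℤ) ^ k := by positivity
        linarith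
      refine ⟨?_, x, g3, g4.trans ?_, g5⟩
      · have e1 : (b : ℤ) ^ (k + 2 * r) ≤ (Q * (k : ℤ) ^ κ) * (k : ℤ) := by
          rw [pow_add]
          apply mul_le_mul g2 _ (by positivity) (mul_nonneg hQ0 (by positivity))
          exact_mod_cast (by omega : b ^ (2 * r) ≤ k)
        have e2 : (Q * (k : ℤ) ^ κ) * (k : ℤ) ≤ Q * ((k + 2 * r : ℕ) : ℤ) ^ (κ + 1) := by
          rw [mul_assoc, ← pow_succ]
          apply mul_le_mul_of_nonneg_left _ hQ0
          apply pow_le_pow_left₀ (by positivity)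
          push_cast
          have : (0 : ℤ) ≤ (r : ℤ) := Int.natCast_nonneg _
          linarith
        exact e1.trans e2
      · apply mul_le_mul_of_nonneg_left _ (by exact_mod_cast hQ0)
        have e1 : (1 : ℝ) ≤ k := by exact_mod_cast hk1
        have e2 : (k : ℝ) ≤ ((k + 2 * r : ℕ) : ℝ) := by exact_mod_cast (by omega : k ≤ k + 2 * r)
        calc (k : ℝ) ^ κ ≤ (k : ℝ) ^ (κ + 1) := pow_le_pow_right₀ e1 (by omega)
          _ ≤ _ := pow_le_pow_left₀ (by positivity) e2 _)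
  have key2 : ((univ.filter E).card : ℝ) * (1 / (k.factorial : ℝ)) ≤ 1 / ((k + 2 * r : ℕ) : ℝ) ^ U := by
    have e0 : ((univ.filter E).card : ℝ) * (1 / (k.factorial : ℝ)) = ∑ σ : Equiv.Perm (Fin k), if E σ then 1 / (k.factorial : ℝ) else 0 := by
      rw [← nsmul_eq_mul, ← sum_const]
      exact sum_filter _ _
    rw [e0]
    refine (le_trans (le_of_eq ?_) key)
    apply sum_congr rfl
    intro σ _
    congr
  have h5 : 1 / ((k + 2 * r : ℕ) : ℝ) ^ U ≤ 1 / (k : ℝ) ^ U := by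
    have e1 : (1 : ℝ) ≤ k := by exact_mod_cast hk1
    apply one_div_le_one_div_of_le (by positivity)
    apply pow_le_pow_left₀ (by positivity)
    exact_mod_cast (by omega : k ≤ k + 2 * r)
  have h6 := key2.trans h5
  rw [mul_one_div, div_le_iff₀ hfac] at h6
  refine h6.trans (le_of_eq ?_)
  ring

end Pool.Agent.R501.PV
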