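import Pool.Agent.TH872.GQ.BT
import Pool.Agent.R501.PV5
import Pool.Agent.R501.PV3

set_option autoImplicit false

/-! The Brun–Titchmarsh inequality with the constant `1` for almost all classes, from the variance. -/

namespace Pool.Agent.R501.BT
open Finset
open Pool.Agent.TH872
open Pool.Agent.TH872.GQ.BT (cnt det)
open Pool.Agent.Y958.RM (BadQ)

open Classical in
/-- the inequality holds for almost all classes modulo `q`, all the intervals -/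
def Bt (ε : ℝ) (U B D q : ℕ) : Prop :=
  (((range q).filter (fun l => Nat.Coprime l q ∧ ∃ x y : ℝ, q * Real.log q ^ B ≤ y ∧ y ≤ x ∧
    x ≤ q * Real.log q ^ (B + D) ∧ (1 + ε) * (y / (Nat.totient q * Real.log q)) < cnt x y q l)).card : ℝ) ≤
    Nat.totient q / Real.log q ^ U

/-- an integer which is bad for the inequality is bad for the variance -/
theorem badq_of_bt (b r κ : ℕ) (hb : 2 ≤ b) (ε : ℝ) (hε : 0 < ε) (hε1 : ε ≤ 1) (B D U : ℕ) (hB : 2 * D + U + 2 ≤ B) :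
    ∃ k₀ : ℕ, ∀ k : ℕ, k₀ ≤ k → ∀ Q : ℤ, (b : ℤ) ^ k ≤ Q * (k : ℤ) ^ κ → Q ≤ (b : ℤ) ^ (k + r) → ¬ Bt ε U B D Q.toNat →
      BadQ 1 (κ + (B + D + 2)) k b Q := by
  obtain ⟨N₀, h0⟩ := det ε hε hε1 B D U hB
  -- the modulus is large
  have hlim : ∃ k₂ : ℕ, ∀ k : ℕ, k₂ ≤ k → (((N₀ + 3 : ℕ) : ℝ)) * (k : ℝ) ^ κ < (b : ℝ) ^ k := by
    have hb1 : (1 : ℝ) < b := by exact_mod_cast (by omega : 1 < b)
    have h := (isLittleO_pow_const_const_pow_of_one_lt (R := ℝ) κ hb1).bound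
      (show 0 < 1 / (2 * ((N₀ + 3 : ℕ) : ℝ)) by positivity)
    obtain ⟨x0, hx0⟩ := Filter.eventually_atTop.1 h
    refine ⟨x0, fun k hk => ?_⟩
    have h3 := hx0 k hk
    have hbk : (0 : ℝ) < (b : ℝ) ^ k := by positivity
    rw [Real.norm_of_nonneg (by positivity), Real.norm_of_nonneg hbk.le] at h3
    have hN : (0 : ℝ) < ((N₀ + 3 : ℕ) : ℝ) := by positivity
    calc ((N₀ + 3 : ℕ) : ℝ) * (k : ℝ) ^ κ ≤ ((N₀ + 3 : ℕ) : ℝ) * (1 / (2 * ((N₀ + 3 : ℕ) : ℝ)) * (b : ℝ) ^ k) :=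
          mul_le_mul_of_nonneg_left h3 hN.le
      _ = (b : ℝ) ^ k / 2 := by field_simp
      _ < _ := by linarith
  obtain ⟨k₂, h2⟩ := hlim
  obtain ⟨κ', hκ'⟩ : ∃ κ', κ' = B + D + 1 := ⟨_, rfl⟩
  rw [show B + D + 2 = κ' + 1 by omega]
  rw [← hκ'] at h0
  refine ⟨k₂ + r + (2 * b) ^ κ' + 1, fun k hk Q hQ1 hQ2 hbad => ?_⟩
  have hk1 : 1 ≤ k := by omega
  have hk1r : (1 : ℝ) ≤ k := by exact_mod_cast hk1
  have hk0 : (0 : ℝ) < k := by linarith
  have hQpos : 0 < Q := by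
    by_contra hcon
    push Not at hcon
    have e1 : Q * (k : ℤ) ^ κ ≤ 0 := mul_nonpos_of_nonpos_of_nonneg hcon (by positivity)
    have e2 : (0 : ℤ) < (b : ℤ) ^ k := by positivity
    linarith
  obtain ⟨q, hq⟩ : ∃ q : ℕ, q = Q.toNat := ⟨_, rfl⟩
  have hqQ : (q : ℤ) = Q := by rw [hq]; exact Int.toNat_of_nonneg hQpos.le
  have hqr : (Q : ℝ) = (q : ℝ) := by rw [← hqQ]; push_cast; rfl
  rw [← hq] at hbad
  have hqbig : N₀ + 3 ≤ q := by
    by_contra hcon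
    push Not at hcon
    have e1 := h2 k (by omega)
    have e2 : ((b : ℝ)) ^ k ≤ (q : ℝ) * (k : ℝ) ^ κ := by
      have : (b : ℤ) ^ k ≤ (q : ℤ) * (k : ℤ) ^ κ := by rw [hqQ]; exact hQ1
      exact_mod_cast this
    have e3 : (q : ℝ) * (k : ℝ) ^ κ ≤ ((N₀ + 3 : ℕ) : ℝ) * (k : ℝ) ^ κ :=
      mul_le_mul_of_nonneg_right (by exact_mod_cast hcon.le) (by positivity)
    linarith
  have hq3 : (3 : ℝ) ≤ q := by exact_mod_cast (by omega : 3 ≤ q)
  have hq0 : (0 : ℝ) < q := by linarith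
  have hlog1 : 1 ≤ Real.log q := by
    rw [Real.le_log_iff_exp_le hq0]
    have := Real.exp_one_lt_d9
    linarith
  have hlogk : Real.log q ^ κ' ≤ (k : ℝ) ^ (κ' + 1) := by
    have e1 : Real.log q ≤ 2 * b * k := by
      have g1 : (q : ℝ) ≤ (b : ℝ) ^ (k + r) := by
        have : (q : ℤ) ≤ (b : ℤ) ^ (k + r) := by rw [hqQ]; exact hQ2
        exact_mod_cast this
      have g2 := Real.log_le_log hq0 g1
      rw [Real.log_pow] at g2
      have hb0 : (0 : ℝ) < b := by exact_mod_cast (by omega : 0 < b)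
      have g3 : Real.log (b : ℝ) ≤ b := (Real.log_le_sub_one_of_pos hb0).trans (by linarith)
      have g4 : ((k + r : ℕ) : ℝ) ≤ 2 * k := by exact_mod_cast (by omega : k + r ≤ 2 * k)
      have g5 : 0 ≤ Real.log (b : ℝ) := Real.log_natCast_nonneg _
      calc Real.log q ≤ ((k + r : ℕ) : ℝ) * Real.log b := g2
        _ ≤ (2 * k) * b := mul_le_mul g4 g3 g5 (by positivity)
        _ = _ := by ring
    calc Real.log q ^ κ' ≤ (2 * b * k) ^ κ' := pow_le_pow_left₀ (by linarith) e1 _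
      _ = (2 * b : ℝ) ^ κ' * (k : ℝ) ^ κ' := mul_pow _ _ _
      _ ≤ k * (k : ℝ) ^ κ' := by
          apply mul_le_mul_of_nonneg_right _ (by positivity)
          have : (2 * b) ^ κ' ≤ k := by omega
          exact_mod_cast this
      _ = _ := by ring
  by_contra hcon
  apply hbad
  apply h0 q (by omega)
  intro x hx1 hx2
  by_contra hcon2
  push Not at hcon2
  apply hcon
  refine ⟨?_, x, by rw [hqr]; exact hx1, ?_, ?_⟩
  · refine hQ1.trans ?_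
    apply mul_le_mul_of_nonneg_left _ hQpos.le
    exact pow_le_pow_right₀ (by exact_mod_cast hk1) (by omega)
  · rw [hqr]
    refine hx2.trans (mul_le_mul_of_nonneg_left (hlogk.trans ?_) hq0.le)
    exact pow_le_pow_right₀ hk1r (by omega)
  · rw [← hq, hqr]
    intro h
    have h' := (abs_le.1 h).2
    have h'' : 2 * (x * Real.log q) < Pool.Agent.Results.MP_5d318d_nt.ThinFamilyModuli.G x q := hcon2
    have h3 : Pool.Agent.Results.MP_5d318d_nt.ThinFamilyModuli.G x q - x * Real.log q ≤ 1 * (x * Real.log q) := h'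
    linarith

/-- moduli with mirror-dependent digits -/
theorem pal_rare_bt (b F κ V : ℕ) (hb : 2 ≤ b) (κ₀ : ℤ) (hκ₀ : κ₀ ≠ 0) (ε : ℝ) (hε : 0 < ε) (hε1 : ε ≤ 1) (B D U : ℕ)
    (hB : 2 * D + U + 2 ≤ B) :
    Tr.Rare b F V κ₀ (fun k bad => ∀ n : ℤ, bad n → (b : ℤ) ^ k ≤ n * (k : ℤ) ^ κ ∧ ¬ Bt ε U B D n.toNat) := by
  classical
  intro η hη s hs
  obtain ⟨m1, h1⟩ := Pool.Agent.R501.PV.pal_rare b F (κ + (B + D + 2)) V hb κ₀ hκ₀ 1 one_pos le_rfl η hη s hs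
  obtain ⟨k2, h2⟩ := badq_of_bt b (F + 3 * κ₀.natAbs) κ hb ε hε hε1 B D U hB
  refine ⟨m1 + k2, fun m hm w hw cc hcc bad hbad E _ hE => ?_⟩
  refine h1 m (by omega) w hw cc hcc _ (fun n hn => hn) E (fun g hg hEg => ?_)
  obtain ⟨g1, g2⟩ := hbad _ (hE g hg hEg)
  refine h2 (2 * m + s) (by omega) _ g1 ?_ g2
  have h0 : ((Mir.val b (2 * m + s) g : ℕ) : ℤ) < 2 * (b : ℤ) ^ (2 * m + s) := by
    have := Mir.val_lt b m s (by omega) g hg
    exact_mod_cast this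
  calc cc + κ₀ * (Mir.val b (2 * m + s) g : ℕ) ≤ |cc + κ₀ * (Mir.val b (2 * m + s) g : ℕ)| := le_abs_self _
    _ ≤ |cc| + |κ₀ * (Mir.val b (2 * m + s) g : ℕ)| := abs_add_le _ _
    _ = |cc| + |κ₀| * (Mir.val b (2 * m + s) g : ℕ) := by
        rw [abs_mul, abs_of_nonneg (by positivity : (0 : ℤ) ≤ ((Mir.val b (2 * m + s) g : ℕ) : ℤ))]
    _ ≤ |cc| + |κ₀| * (2 * (b : ℤ) ^ (2 * m + s)) := by
        have := mul_le_mul_of_nonneg_left h0.le (abs_nonneg κ₀)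
        linarith
    _ ≤ _ := hcc

end Pool.Agent.R501.BT
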