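import Pool.Agent.R501.CP3

set_option autoImplicit false

/-! One linear factor whose constant term is any integer near a member of a family given by digits. -/

namespace Pool.Agent.R501.CP
open Finset
open Pool.Agent.R459.Fams
open Pool.Agent.R459.Shift (Good Near Weights lam)
open Pool.Agent.TH872

/-- one polynomial -/
def One (B T U N k : ℕ) (f : Polynomial ℤ) (α : ℕ) (h : ℤ) : Prop :=
  Chowla B T U N k (fun _ : Fin 1 => f) (fun _ : Fin 1 => α) (fun _ : Fin 1 => h)

lemma one_of (B T U N k : ℕ) (hk : 3 ≤ k) (hN : k ^ (U + 1) ≤ N) (f : Polynomial ℤ) (α : ℕ) (hα : 1 ≤ α) :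
    ∃ (M : ℕ) (g g' : Fin M → ℕ → ℂ), Weights (3 * T + 1) k (fun _ : Fin M => α) g ∧ Weights (3 * T + 1) k (fun _ : Fin M => α) g' ∧
      ∀ x : ℤ, Good2 B (U + 1) N k (fun _ : Fin M => α) g x ∧ Good2 B (U + 1) N k (fun _ : Fin M => α) g' (-x) →
        One B T U N k f α x := by
  obtain ⟨M, g, g', hg, hg', h2⟩ := goodAt_of B (U + 1) N k (k ^ T) (fun _ : Fin 1 => f) (fun _ : Fin 1 => α) (fun _ => hα) 0
    (3 * T + 1) (by omega) (by
      calc 1 * (2 ^ 1 * (k ^ T * k ^ T)) = 2 * (k ^ T * k ^ T) := by ring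
        _ ≤ k * (k ^ T * k ^ T) := Nat.mul_le_mul_right _ (by omega)
        _ = k ^ (2 * T + 1) := by ring
        _ ≤ k ^ (3 * T + 1) := Nat.pow_le_pow_right (by omega) (by omega)) (fun _ => 0)
  refine ⟨M, g, g', hg, hg', fun x hx => ?_⟩
  refine chowla_of B T U N k hk hN _ _ _ fun i => ?_
  have hi : i = 0 := Subsingleton.elim _ _
  subst hi
  refine goodAt_congr (fun j hj => ?_) (h2 x hx)
  exact absurd hj (by simp)

theorem dig_near (b B T W U : ℕ) (hb : 2 ≤ b) (γ : ℤ) (hγ : γ ≠ 0) (η : ℝ) (hη : 0 < η) :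
    ∃ k₀ : ℕ, ∀ k : ℕ, k₀ ≤ k → ∀ c : ℤ, |c| ≤ B * (b : ℤ) ^ k → ∀ L : ℕ, L ≤ k ^ T → ∀ (f : Fin L → Polynomial ℤ)
      (α : Fin L → ℕ), (∀ l, 1 ≤ α l) →
      Digits b k U γ c η (Near W k (fun h => ∀ l, One B T U (b ^ k) k (f l) (α l) h)) := by
  classical
  obtain ⟨k1, h1⟩ := dig3 b (B + 1 + γ.natAbs) (3 * T + 1) (U + T + W + 2) hb η hη
  obtain ⟨k2, h2⟩ := pow_ev' b W hb
  obtain ⟨k3, h3⟩ := pow_ev' b (U + T + W + 3) hb
  refine ⟨k1 + k2 + k3 + 3, fun k hk c hc L hL f α hα => ?_⟩
  have hW : (k : ℤ) ^ W ≤ (b : ℤ) ^ k := by exact_mod_cast h2 k (by omega)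
  have hk1 : 1 ≤ k := by omega
  have hbk : (0 : ℤ) < (b : ℤ) ^ k := by positivity
  have key : Digits b k U γ c η (fun v => ∀ v' : ℤ, |v' - v| ≤ (k : ℤ) ^ W → ∀ l, One B T U (b ^ k) k (f l) (α l) v') := by
    apply Digits.near (by omega)
    intro t ht
    have h4 : Digits b k (U + W + 1) γ (c + t) η
        (fun v => ∀ l ∈ (univ : Finset (Fin L)), One B T U (b ^ k) k (f l) (α l) v) := by
      apply Digits.interT (T := T) _ _ hk1
      · rw [card_univ, Fintype.card_fin]
        exact_mod_cast hL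
      · intro l _
        obtain ⟨M, g, g', hg, hg', h5⟩ := one_of B T U (b ^ k) k (by omega)
          ((Nat.pow_le_pow_right hk1 (by omega)).trans (h3 k (by omega))) (f l) (α l) (hα l)
        have h6 := h1 k (by omega) γ hγ (by
          rw [Int.abs_eq_natAbs]
          push_cast
          omega) (c + t) (by
          have g1 := abs_add_le c t
          have g2 : |t| ≤ (b : ℤ) ^ k := ht.trans hW
          push_cast
          have g3 : (0 : ℤ) ≤ |γ| * (b : ℤ) ^ k := by positivity
          linarith) M _ g g' hg hg'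
        have e : U + T + W + 2 = (U + W + 1 + T) + 1 := by ring
        have h7 : Digits b k (U + W + 1 + T) γ (c + t) η (fun v =>
            Good2 (B + 1 + γ.natAbs) (U + T + W + 2) (b ^ k) k (fun _ : Fin M => α l) g v ∧
            Good2 (B + 1 + γ.natAbs) (U + T + W + 2) (b ^ k) k (fun _ : Fin M => α l) g' (-v)) := by
          rw [e] at h6
          have := Digits.and (by omega) h6 h6
          rw [← e] at this
          exact this.mono fun v hv => hv.1
        refine h7.mono fun v hv => h5 v ⟨?_, ?_⟩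
        · intro l' X hX
          have h8 := hv.1 l' X (hX.trans (Nat.mul_le_mul_right _ (by omega)))
          refine h8.trans ?_
          apply div_le_div_of_nonneg_left (Nat.cast_nonneg _) (by positivity)
          exact pow_le_pow_right₀ (by exact_mod_cast hk1) (by omega)
        · intro l' X hX
          have h8 := hv.2 l' X (hX.trans (Nat.mul_le_mul_right _ (by omega)))
          refine h8.trans ?_
          apply div_le_div_of_nonneg_left (Nat.cast_nonneg _) (by positivity)
          exact pow_le_pow_right₀ (by exact_mod_cast hk1) (by omega)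
    exact h4.mono fun v hv l => hv l (mem_univ _)
  exact key

lemma Quadratics.near {b k U W : ℕ} {κ β c : ℤ} {P : ℤ → Prop} (hk : 3 ≤ k)
    (h : ∀ t : ℤ, |t| ≤ (k : ℤ) ^ W → Quadratics b k (U + W + 1) κ β (c + t) P) :
    Quadratics b k U κ β c (fun v => ∀ v' : ℤ, |v' - v| ≤ (k : ℤ) ^ W → P v') := by
  intro D hD
  refine (count_union _ (Ts W k) _ (fun t m => ¬ P (GQ.value κ β (c + t) m)) ?_).trans ?_
  · intro m _ hm
    push Not at hm
    obtain ⟨v', hv', hP⟩ := hm
    refine ⟨v' - GQ.value κ β c m, (Ts_mem _ _ _).2 hv', ?_⟩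
    convert hP using 2
    unfold GQ.value
    ring
  · exact sum_bound _ _ _ (Nat.cast_nonneg _) W U k hk (Ts_card W k hk) fun t ht =>
      h t ((Ts_mem _ _ _).1 ht) D hD

theorem quad_near (b B T W U : ℕ) (hb : 2 ≤ b) (γ β : ℤ) (hγ : γ ≠ 0) :
    ∃ k₀ : ℕ, ∀ k : ℕ, k₀ ≤ k → ∀ c : ℤ, |c| ≤ B * (b : ℤ) ^ (2 * k) → ∀ L : ℕ, L ≤ k ^ T → ∀ (f : Fin L → Polynomial ℤ)
      (α : Fin L → ℕ), (∀ l, 1 ≤ α l) →
      Quadratics b k U γ β c (Near W k (fun h => ∀ l, One B T U (b ^ (2 * k)) k (f l) (α l) h)) := by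
  classical
  obtain ⟨k1, h1⟩ := quad3 b (B + 1 + γ.natAbs + β.natAbs) (3 * T + 1) (U + T + W + 2) hb
  obtain ⟨k2, h2⟩ := pow_ev' b W hb
  obtain ⟨k3, h3⟩ := pow_ev' b (U + T + W + 3) hb
  refine ⟨k1 + k2 + k3 + 3, fun k hk c hc L hL f α hα => ?_⟩
  have hb2 : b ^ k ≤ b ^ (2 * k) := Nat.pow_le_pow_right (by omega) (by omega)
  have hW : (k : ℤ) ^ W ≤ (b : ℤ) ^ (2 * k) := by exact_mod_cast (h2 k (by omega)).trans hb2
  have hk1 : 1 ≤ k := by omega
  have hbk : (0 : ℤ) < (b : ℤ) ^ (2 * k) := by positivity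
  have key : Quadratics b k U γ β c
      (fun v => ∀ v' : ℤ, |v' - v| ≤ (k : ℤ) ^ W → ∀ l, One B T U (b ^ (2 * k)) k (f l) (α l) v') := by
    apply Quadratics.near (by omega)
    intro t ht
    have h4 : Quadratics b k (U + W + 1) γ β (c + t)
        (fun v => ∀ l ∈ (univ : Finset (Fin L)), One B T U (b ^ (2 * k)) k (f l) (α l) v) := by
      apply Quadratics.interT (T := T) _ _ hk1
      · rw [card_univ, Fintype.card_fin]
        exact_mod_cast hL
      · intro l _
        obtain ⟨M, g, g', hg, hg', h5⟩ := one_of B T U (b ^ (2 * k)) k (by omega)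
          (((Nat.pow_le_pow_right hk1 (by omega)).trans (h3 k (by omega))).trans hb2) (f l) (α l) (hα l)
        have h6 := h1 k (by omega) γ β hγ (by
          rw [Int.abs_eq_natAbs, Nat.cast_le]
          omega) (by
          rw [Int.abs_eq_natAbs, Nat.cast_le]
          omega) (c + t) (by
          have g1 := abs_add_le c t
          have g2 : |t| ≤ (b : ℤ) ^ (2 * k) := ht.trans hW
          push_cast
          have g3 : (0 : ℤ) ≤ |γ| * (b : ℤ) ^ (2 * k) := by positivity
          have g4 : (0 : ℤ) ≤ |β| * (b : ℤ) ^ (2 * k) := by positivity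
          linarith) M _ g g' hg hg'
        have e : U + T + W + 2 = (U + W + 1 + T) + 1 := by ring
        have h7 : Quadratics b k (U + W + 1 + T) γ β (c + t) (fun v =>
            Good2 (B + 1 + γ.natAbs + β.natAbs) (U + T + W + 2) (b ^ (2 * k)) k (fun _ : Fin M => α l) g v ∧
            Good2 (B + 1 + γ.natAbs + β.natAbs) (U + T + W + 2) (b ^ (2 * k)) k (fun _ : Fin M => α l) g' (-v)) := by
          rw [e] at h6
          have := Quadratics.and (by omega) h6 h6
          rw [← e] at this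
          exact this.mono fun v hv => hv.1
        refine h7.mono fun v hv => h5 v ⟨?_, ?_⟩
        · intro l' X hX
          have h8 := hv.1 l' X (hX.trans (Nat.mul_le_mul_right _ (by omega)))
          refine h8.trans ?_
          apply div_le_div_of_nonneg_left (Nat.cast_nonneg _) (by positivity)
          exact pow_le_pow_right₀ (by exact_mod_cast hk1) (by omega)
        · intro l' X hX
          have h8 := hv.2 l' X (hX.trans (Nat.mul_le_mul_right _ (by omega)))
          refine h8.trans ?_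
          apply div_le_div_of_nonneg_left (Nat.cast_nonneg _) (by positivity)
          exact pow_le_pow_right₀ (by exact_mod_cast hk1) (by omega)
    exact h4.mono fun v hv l => hv l (mem_univ _)
  exact key

end Pool.Agent.R501.CP
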