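import Mathlib

set_option autoImplicit false

/-! Powers of an integer modulo `a ^ n m`: divisibility. -/

namespace Pool.Agent.R501.FR
open Finset

/-- `(1 + y) ^ (a ^ s) - 1` is divisible by `a ^ s y` if `a ∣ y` -/
lemma pow_dvd (a : ℕ) (y : ℤ) (h : (a : ℤ) ∣ y) (s : ℕ) : (a : ℤ) ^ s * y ∣ (1 + y) ^ (a ^ s) - 1 := by
  induction s with
  | zero => simp
  | succ s ih =>
    obtain ⟨w, hw⟩ := ih
    obtain ⟨z, hz⟩ : ∃ z, z = (a : ℤ) ^ s * y * w := ⟨_, rfl⟩
    have h1 : (1 + y) ^ (a ^ s) = 1 + z := by rw [hz, ← hw]; ring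
    have haz : (a : ℤ) ∣ z := by
      rw [hz]
      exact Dvd.dvd.mul_right (Dvd.dvd.mul_left h _) _
    rw [pow_succ a s, pow_mul, h1]
    have h2 : (1 + z) ^ a - 1 = z * ∑ i ∈ range a, (1 + z) ^ i := by
      have := mul_geom_sum (1 + z) a
      rw [← this]; ring
    have h3 : (a : ℤ) ∣ ∑ i ∈ range a, (1 + z) ^ i := by
      have h4 : ∑ i ∈ range a, (1 + z) ^ i = ∑ i ∈ range a, ((1 + z) ^ i - 1) + a := by
        rw [sum_sub_distrib]; simp
      rw [h4]
      apply dvd_add _ dvd_rfl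
      apply dvd_sum
      intro i _
      have h5 : z ∣ (1 + z) ^ i - 1 := by
        have := sub_dvd_pow_sub_pow (1 + z) 1 i
        simpa using this
      exact haz.trans h5
    obtain ⟨u, hu⟩ := h3
    rw [h2, hu, hz]
    exact ⟨w * u, by rw [pow_succ]; ring⟩

/-- lifting the exponent -/
lemma lte_dvd {p : ℕ} (hp : p.Prime) {B : ℤ} (hpB : (p : ℤ) ∣ B - 1) (h4 : p = 2 → (4 : ℤ) ∣ B - 1) (k v : ℕ)
    (h : (p : ℤ) ^ v ∣ B ^ k - 1) : (p : ℤ) ^ v ∣ (B - 1) * k := by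
  have hpint : Prime (p : ℤ) := Nat.prime_iff_prime_int.1 hp
  have hnB : ¬ (p : ℤ) ∣ B := by
    intro h1
    have h2 : (p : ℤ) ∣ 1 := by
      have := dvd_sub h1 hpB
      simpa using this
    exact hpint.not_isUnit (isUnit_of_dvd_one h2)
  have hmul : emultiplicity (p : ℤ) (B ^ k - 1 ^ k) = emultiplicity (p : ℤ) (B - 1) +
      emultiplicity (p : ℤ) (k : ℤ) := by
    rcases hp.eq_two_or_odd' with rfl | hodd
    · have := Int.two_pow_sub_pow' k (x := B) (y := 1) (h4 rfl) (by exact_mod_cast hnB)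
      exact_mod_cast this
    · have := Int.emultiplicity_pow_sub_pow hp hodd (x := B) (y := 1) hpB hnB k
      rw [this]
      congr 1
      exact (Int.natCast_emultiplicity p k).symm
  rw [one_pow] at hmul
  rw [pow_dvd_iff_le_emultiplicity] at h ⊢
  rw [emultiplicity_mul hpint, ← hmul]
  exact h

/-- the leading coefficient is not an integer -/
lemma lead {a b n k s D L : ℕ} (ha : 2 ≤ a) (hb : 2 ≤ b) (hab : Nat.Coprime a b) (hD : 1 ≤ D)
    (hkn : k * s + 1 ≤ n)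
    (hsize : L * (b ^ (a ^ 2).totient - 1) ^ k * D ^ k ≤ 2 ^ (n - 1 - k * s))
    {c : ℤ} (hc : ¬ (a : ℤ) ∣ c) {l : ℕ} (hl : 1 ≤ l) (hlL : l ≤ L) (n₀ : ℕ)
    (hz : (a : ℤ) ^ n ∣ l * c * b ^ n₀ * ((b : ℤ) ^ ((a ^ 2).totient * D * a ^ s) - 1) ^ k) : False := by
  classical
  have hc0 : c ≠ 0 := by
    rintro rfl
    exact hc (dvd_zero _)
  obtain ⟨cn, hcn⟩ : ∃ cn, cn = c.natAbs := ⟨_, rfl⟩
  have hcn0 : cn ≠ 0 := by rw [hcn]; exact Int.natAbs_ne_zero.2 hc0
  have hacn : ¬ a ∣ cn := by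
    rw [hcn]
    intro h
    exact hc (Int.natCast_dvd.2 h)
  rw [Nat.dvd_iff_prime_pow_dvd_dvd] at hacn
  push Not at hacn
  obtain ⟨p, j, hp, hpj, hpc⟩ := hacn
  obtain ⟨f, hf⟩ : ∃ f : ℕ → ℕ, f = fun x => x.factorization p := ⟨_, rfl⟩
  have fmul : ∀ x y : ℕ, x ≠ 0 → y ≠ 0 → f (x * y) = f x + f y := by
    intro x y hx hy
    rw [hf]
    simp only
    rw [Nat.factorization_mul hx hy]
    rfl
  have fpow : ∀ x m : ℕ, f (x ^ m) = m * f x := by
    intro x m
    rw [hf]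
    simp only
    rw [Nat.factorization_pow]
    rfl
  have fle : ∀ x y : ℕ, x ≠ 0 → y ≠ 0 → x ∣ y → f x ≤ f y := by
    intro x y hx hy h
    rw [hf]
    exact (Nat.factorization_le_iff_dvd hx hy).2 h p
  have fpp : ∀ v x : ℕ, x ≠ 0 → p ^ v ∣ x → v ≤ f x := by
    intro v x hx h
    rw [hf]
    exact (hp.pow_dvd_iff_le_factorization hx).1 h
  have fsz : ∀ x : ℕ, x ≠ 0 → p ^ f x ≤ x := by
    intro x hx
    rw [hf]
    exact Nat.ordProj_le p hx
  have ha0 : a ≠ 0 := by omega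
  have hb0 : b ≠ 0 := by omega
  have hfa : j ≤ f a := fpp j a ha0 hpj
  have hfc : f cn < j := by
    by_contra hcon
    push Not at hcon
    apply hpc
    rw [hp.pow_dvd_iff_le_factorization hcn0]
    rw [hf] at hcon
    exact hcon
  have hj1 : 1 ≤ f a := by omega
  have hpa : p ∣ a := (dvd_pow_self p (by omega : j ≠ 0)).trans hpj
  have hpb : ¬ p ∣ b := by
    intro h
    have := Nat.dvd_gcd hpa h
    rw [hab] at this
    exact hp.one_lt.ne' (Nat.dvd_one.1 this)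
  have hfb : f b = 0 := by
    rw [hf]
    exact Nat.factorization_eq_zero_of_not_dvd hpb
  obtain ⟨g, hg⟩ : ∃ g, g = (a ^ 2).totient := ⟨_, rfl⟩
  have hg0 : 0 < g := by rw [hg]; exact Nat.totient_pos.2 (by positivity)
  rw [← hg] at hsize hz
  obtain ⟨A, hA⟩ : ∃ A, A = b ^ g - 1 := ⟨_, rfl⟩
  have hbg : 2 ≤ b ^ g := hb.trans (Nat.le_self_pow hg0.ne' b)
  have hA0 : A ≠ 0 := by omega
  rw [← hA] at hsize
  have hAz : (A : ℤ) = (b : ℤ) ^ g - 1 := by
    rw [hA, Nat.cast_sub (by omega)]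
    push_cast
    ring
  have hadvd : (a : ℤ) ^ 2 ∣ (A : ℤ) := by
    have h1 : b ^ g ≡ 1 [MOD a ^ 2] := by
      rw [hg]
      exact Nat.ModEq.pow_totient (hab.symm.pow_right 2)
    have h2 := (Nat.modEq_iff_dvd' (by omega)).1 h1.symm
    rw [← hA] at h2
    exact_mod_cast h2
  have hmpos : 1 ≤ g * D * a ^ s := Nat.mul_pos (Nat.mul_pos hg0 (by omega)) (by positivity)
  obtain ⟨X, hX⟩ : ∃ X, X = b ^ (g * D * a ^ s) - 1 := ⟨_, rfl⟩
  have hbX : 2 ≤ b ^ (g * D * a ^ s) := hb.trans (Nat.le_self_pow (by omega) b)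
  have hX0 : X ≠ 0 := by omega
  have hXz : (X : ℤ) = (b : ℤ) ^ (g * D * a ^ s) - 1 := by
    rw [hX, Nat.cast_sub (by omega)]
    push_cast
    ring
  -- the bound for the valuation of `X`
  have hV : f X ≤ f A + f D + s * f a := by
    have h1 : (p : ℤ) ^ f X ∣ ((b : ℤ) ^ g) ^ (D * a ^ s) - 1 := by
      rw [← pow_mul, ← mul_assoc, ← hXz]
      have : p ^ f X ∣ X := by rw [hf]; exact Nat.ordProj_dvd X p
      exact_mod_cast this
    have hpA : (p : ℤ) ∣ (b : ℤ) ^ g - 1 := by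
      rw [← hAz]
      exact (Int.natCast_dvd_natCast.2 hpa).trans ((dvd_pow_self _ two_ne_zero).trans hadvd)
    have h4 : p = 2 → (4 : ℤ) ∣ (b : ℤ) ^ g - 1 := by
      intro h2
      rw [← hAz]
      refine dvd_trans ?_ hadvd
      have h5 : (2 : ℤ) ∣ (a : ℤ) := by
        rw [h2] at hpa
        exact_mod_cast hpa
      have := pow_dvd_pow_of_dvd h5 2
      norm_num at this
      exact this
    have h2 := lte_dvd hp hpA h4 (D * a ^ s) (f X) h1
    rw [← hAz] at h2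
    have h3 : p ^ f X ∣ A * (D * a ^ s) := by exact_mod_cast h2
    have h5 := fpp _ _ (by positivity) h3
    rw [fmul _ _ hA0 (by positivity), fmul _ _ (by omega) (by positivity), fpow] at h5
    omega
  have hnat : a ^ n ∣ l * cn * b ^ n₀ * X ^ k := by
    have h1 : (a : ℤ) ^ n ∣ l * c * b ^ n₀ * (X : ℤ) ^ k := by rw [hXz]; exact hz
    have h2 := Int.natAbs_dvd_natAbs.2 h1
    rw [Int.natAbs_pow, Int.natAbs_mul, Int.natAbs_mul, Int.natAbs_mul, Int.natAbs_pow, Int.natAbs_pow, ← hcn] at h2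
    simpa using h2
  have h1 := fle _ _ (by positivity) (by
    have : l ≠ 0 := by omega
    positivity) hnat
  rw [fmul _ _ (by have : l ≠ 0 := by omega
                   positivity) (by positivity),
    fmul _ _ (by have : l ≠ 0 := by omega
                 positivity) (by positivity), fmul _ _ (by omega) hcn0, fpow, fpow, fpow, hfb, mul_zero, add_zero] at h1
  have h2 : (n - 1 - k * s) * f a + 1 ≤ f l + k * f A + k * f D := by
    have h3 : k * f X ≤ k * f A + k * f D + k * s * f a := by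
      calc k * f X ≤ k * (f A + f D + s * f a) := Nat.mul_le_mul_left _ hV
        _ = _ := by ring
    have h4 : n * f a = (n - 1 - k * s) * f a + f a + k * s * f a := by
      obtain ⟨r, hr⟩ : ∃ r, n = r + 1 + k * s := ⟨n - 1 - k * s, by omega⟩
      have : n - 1 - k * s = r := by omega
      rw [this, hr]
      ring
    omega
  have h3 : 2 ^ (n - 1 - k * s) < 2 ^ (n - 1 - k * s) := by
    calc 2 ^ (n - 1 - k * s) ≤ p ^ (n - 1 - k * s) := Nat.pow_le_pow_left hp.two_le _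
      _ ≤ p ^ ((n - 1 - k * s) * f a) := Nat.pow_le_pow_right hp.pos (Nat.le_mul_of_pos_right _ (by omega))
      _ < p ^ ((n - 1 - k * s) * f a + 1) := Nat.pow_lt_pow_right hp.one_lt (by omega)
      _ ≤ p ^ (f l + k * f A + k * f D) := Nat.pow_le_pow_right hp.pos h2
      _ = p ^ f l * (p ^ f A) ^ k * (p ^ f D) ^ k := by
          rw [pow_add, pow_add, ← pow_mul, ← pow_mul, mul_comm k, mul_comm k]
      _ ≤ L * A ^ k * D ^ k :=
          Nat.mul_le_mul (Nat.mul_le_mul ((fsz l (by omega)).trans hlL) (Nat.pow_le_pow_left (fsz A hA0) k))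
            (Nat.pow_le_pow_left (fsz D (by omega)) k)
      _ ≤ _ := hsize
  exact lt_irrefl _ h3

/-- the binomial expansion, truncated -/
lemma binom_trunc (y : ℤ) (t k : ℕ) : y ^ (k + 1) ∣ (1 + y) ^ t - ∑ i ∈ range (k + 1), (t.choose i : ℤ) * y ^ i := by
  have h1 : (1 + y) ^ t = ∑ i ∈ range (t + k + 2), (t.choose i : ℤ) * y ^ i := by
    rw [add_comm 1 y, add_pow]
    rw [← sum_subset (range_mono (by omega : t + 1 ≤ t + k + 2))]
    · apply sum_congr rfl
      intro i _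
      rw [one_pow, mul_one]
      ring
    · intro i _ hi
      rw [mem_range, not_lt] at hi
      rw [Nat.choose_eq_zero_of_lt (by omega)]
      simp
  rw [h1]
  have h2 : ∑ i ∈ range (t + k + 2), (t.choose i : ℤ) * y ^ i - ∑ i ∈ range (k + 1), (t.choose i : ℤ) * y ^ i =
      ∑ i ∈ Ico (k + 1) (t + k + 2), (t.choose i : ℤ) * y ^ i := by
    rw [sum_Ico_eq_sub _ (by omega)]
  rw [h2]
  apply dvd_sum
  intro i hi
  rw [mem_Ico] at hi
  exact Dvd.dvd.mul_left (pow_dvd_pow y hi.1) _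

end Pool.Agent.R501.FR
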