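import Pool.Agent.R501.FR1
import Pool.Agent.TH869.LPS.WeylQ
import Pool.Agent.Y943.Fu.Orb
import Pool.Agent.Y943.Fu.Dens

set_option autoImplicit false

/-! Exponential sums along short orbits of fractions with denominators `a ^ n m`. -/

namespace Pool.Agent.R501.FR
open Finset Polynomial Pool.Agent.H332R2.Lit

noncomputable def pol (k : ℕ) (β Y : ℝ) : ℝ[X] := C β * ∑ i ∈ range (k + 1), C (Y ^ i / i.factorial) * descPochhammer ℝ i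

lemma pol_natDegree (k : ℕ) (β Y : ℝ) : (pol k β Y).natDegree ≤ k := by
  unfold pol
  refine (natDegree_C_mul_le _ _).trans ?_
  apply natDegree_sum_le_of_forall_le
  intro i hi
  rw [mem_range] at hi
  refine (natDegree_C_mul_le _ _).trans ?_
  rw [descPochhammer_natDegree]
  omega

lemma pol_coeff (k : ℕ) (β Y : ℝ) : (pol k β Y).coeff k = β * (Y ^ k / k.factorial) := by
  unfold pol
  rw [coeff_C_mul, finsetSum_coeff, sum_range_succ]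
  have h1 : ∑ i ∈ range k, (C (Y ^ i / i.factorial) * descPochhammer ℝ i).coeff k = 0 := by
    apply sum_eq_zero
    intro i hi
    rw [mem_range] at hi
    rw [coeff_C_mul, coeff_eq_zero_of_natDegree_lt, mul_zero]
    rw [descPochhammer_natDegree]
    exact hi
  have h2 : (descPochhammer ℝ k).coeff k = 1 := by
    have h3 := monic_descPochhammer ℝ k
    unfold Monic leadingCoeff at h3
    rwa [descPochhammer_natDegree] at h3
  rw [h1, zero_add, coeff_C_mul, h2, mul_one]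

lemma pol_eval (k : ℕ) (β Y : ℝ) (t : ℕ) :
    (pol k β Y).eval (t : ℝ) = β * ∑ i ∈ range (k + 1), (t.choose i : ℝ) * Y ^ i := by
  unfold pol
  rw [eval_mul, eval_C, eval_finsetSum]
  congr 1
  apply sum_congr rfl
  intro i _
  rw [eval_mul, eval_C, descPochhammer_eval_eq_descFactorial, Nat.descFactorial_eq_factorial_mul_choose]
  push_cast
  have : (i.factorial : ℝ) ≠ 0 := by positivity
  field_simp

/-- **exponential sums along short orbits** -/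
theorem sum_small (κ : ℝ) (hκ : 0 < κ) (hκ1 : κ ≤ 1) (d : ℕ) : ∃ L : ℕ, 1 ≤ L ∧
    ∀ (a b n s D H T n₀ m : ℕ) (c : ℤ), 2 ≤ a → 2 ≤ b → Nat.Coprime a b → 1 ≤ D → 1 ≤ m →
      (d + 1) * s + 1 ≤ n → n ≤ (d + 2) * s →
      L * H * (b ^ (a ^ 2).totient - 1) ^ (d + 1) * D ^ (d + 1) ≤ 2 ^ (n - 1 - (d + 1) * s) →
      L * ((d + 1).factorial * a ^ (n - (d + 1) * s)) ≤ T → ¬ (a : ℤ) ∣ c →
      m ∣ b ^ n₀ * (b ^ ((a ^ 2).totient * D) - 1) → ∀ h : ℕ, 1 ≤ h → h ≤ H →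
      ‖∑ t ∈ range T, e ((h : ℝ) * ((b : ℝ) ^ (n₀ + (a ^ 2).totient * D * a ^ s * t) * (c / ((a ^ n * m : ℕ) : ℝ))))‖ ≤ κ * T := by
  obtain ⟨C₀, hC₀, hW⟩ := Pool.Agent.TH869.LPS.weylQ d
  obtain ⟨R, hR⟩ : ∃ R : ℝ, R = C₀ * (1 / κ) ^ C₀ := ⟨_, rfl⟩
  have hR1 : 1 ≤ R := by
    rw [hR]
    have h1 : (1 : ℝ) ≤ C₀ := by exact_mod_cast hC₀
    have h2 : 1 ≤ 1 / κ := by rw [le_div_iff₀ hκ]; linarith
    have h3 : 1 ≤ (1 / κ) ^ C₀ := one_le_pow₀ h2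
    nlinarith
  refine ⟨⌈R⌉₊, Nat.one_le_iff_ne_zero.2 (Nat.ceil_pos.2 (by linarith)).ne', ?_⟩
  intro a b n s D H T n₀ m c ha hb hab hD hm hn1 hn2 hsize hT hc hdvd h hh hhH
  obtain ⟨L, hL⟩ : ∃ L, L = ⌈R⌉₊ := ⟨_, rfl⟩
  rw [← hL] at hsize hT
  have hRL : R ≤ L := by rw [hL]; exact Nat.le_ceil R
  have hL1 : 1 ≤ L := by
    have : (1 : ℝ) ≤ L := by linarith
    exact_mod_cast this
  obtain ⟨g, hg⟩ : ∃ g, g = (a ^ 2).totient := ⟨_, rfl⟩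
  rw [← hg] at hdvd ⊢
  obtain ⟨K₀, hK₀⟩ : ∃ K₀, K₀ = (d + 1).factorial * a ^ (n - (d + 1) * s) := ⟨_, rfl⟩
  rw [← hK₀] at hT
  have hK₀pos : 1 ≤ K₀ := by rw [hK₀]; exact Nat.mul_pos (Nat.factorial_pos _) (by positivity)
  have hT1 : 1 ≤ T := le_trans (Nat.mul_pos hL1 hK₀pos) hT
  have hTr : (0 : ℝ) < T := by exact_mod_cast hT1
  have haR : (0 : ℝ) < a := by exact_mod_cast (by omega : 0 < a)
  have hmR : (0 : ℝ) < m := by exact_mod_cast hm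
  have ham : ((a ^ n * m : ℕ) : ℝ) ≠ 0 := by
    push_cast
    positivity
  -- the integers
  obtain ⟨Y, hY⟩ : ∃ Y : ℤ, Y = (b : ℤ) ^ (g * D) - 1 := ⟨_, rfl⟩
  obtain ⟨X, hX⟩ : ∃ X : ℤ, X = (b : ℤ) ^ (g * D * a ^ s) - 1 := ⟨_, rfl⟩
  have haY : (a : ℤ) ∣ Y := by
    have h1 : b ^ g ≡ 1 [MOD a ^ 2] := by
      rw [hg]
      exact Nat.ModEq.pow_totient (hab.symm.pow_right 2)
    have h2 : b ^ (g * D) ≡ 1 [MOD a ^ 2] := by
      rw [pow_mul]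
      have := h1.pow D
      rwa [one_pow] at this
    have h3 : b ^ (g * D) ≡ 1 [MOD a] := h2.of_dvd (dvd_pow_self a two_ne_zero)
    have h4 := Nat.modEq_iff_dvd.1 h3.symm
    rw [hY]
    push_cast at h4
    exact h4
  obtain ⟨w, hw⟩ : (a : ℤ) ^ s * Y ∣ X := by
    have h1 := pow_dvd a Y haY s
    have h2 : (1 + Y) ^ (a ^ s) - 1 = X := by
      have e1 : 1 + Y = (b : ℤ) ^ (g * D) := by rw [hY]; ring
      rw [e1, hX, ← pow_mul]
    rwa [h2] at h1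
  obtain ⟨u, hu⟩ : (m : ℤ) ∣ b ^ n₀ * Y := by
    have h1 : 1 ≤ b ^ (g * D) := Nat.one_le_pow _ _ (by omega)
    have h2 : ((b ^ n₀ * (b ^ (g * D) - 1) : ℕ) : ℤ) = b ^ n₀ * Y := by
      rw [hY]
      push_cast [Nat.cast_sub h1]
      ring
    rw [← h2]
    exact_mod_cast hdvd
  obtain ⟨β, hβ⟩ : ∃ β : ℝ, β = h * c * b ^ n₀ / ((a ^ n * m : ℕ) : ℝ) := ⟨_, rfl⟩
  -- the phases
  have hph : ∀ t : ℕ, e ((h : ℝ) * ((b : ℝ) ^ (n₀ + g * D * a ^ s * t) * (c / ((a ^ n * m : ℕ) : ℝ)))) =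
      e ((pol (d + 1) β (X : ℝ)).eval (t : ℝ)) := by
    intro t
    obtain ⟨v, hv⟩ := binom_trunc X t (d + 1)
    have h1 : (b : ℝ) ^ (n₀ + g * D * a ^ s * t) =
        b ^ n₀ * (∑ i ∈ range (d + 1 + 1), (t.choose i : ℝ) * (X : ℝ) ^ i + (X : ℝ) ^ (d + 1 + 1) * v) := by
      rw [pow_add, pow_mul]
      congr 1
      have h2 : ((1 + X : ℤ) : ℝ) = (b : ℝ) ^ (g * D * a ^ s) := by rw [hX]; push_cast; ring
      rw [← h2]
      have h3 : (((1 + X) ^ t : ℤ) : ℝ) = ((∑ i ∈ range (d + 1 + 1), (t.choose i : ℤ) * X ^ i + X ^ (d + 1 + 1) * v : ℤ) : ℝ) := by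
        rw [← hv]
        congr 1
        ring
      push_cast at h3 ⊢
      exact h3
    -- the integer part
    obtain ⟨j, hj⟩ : ∃ j : ℤ, (a : ℤ) ^ n * m * j = b ^ n₀ * X ^ (d + 1 + 1) := by
      refine ⟨(a : ℤ) ^ ((d + 2) * s - n) * u * Y ^ (d + 1) * w ^ (d + 2), ?_⟩
      rw [hw]
      have h2 : (a : ℤ) ^ n * (a : ℤ) ^ ((d + 2) * s - n) = (a : ℤ) ^ ((d + 2) * s) := by
        rw [← pow_add]
        congr 1
        omega
      calc (a : ℤ) ^ n * m * ((a : ℤ) ^ ((d + 2) * s - n) * u * Y ^ (d + 1) * w ^ (d + 2))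
          = ((a : ℤ) ^ n * (a : ℤ) ^ ((d + 2) * s - n)) * (m * u) * Y ^ (d + 1) * w ^ (d + 2) := by ring
        _ = (a : ℤ) ^ ((d + 2) * s) * (b ^ n₀ * Y) * Y ^ (d + 1) * w ^ (d + 2) := by rw [h2, hu]
        _ = b ^ n₀ * ((a : ℤ) ^ s * Y * w) ^ (d + 1 + 1) := by
            rw [mul_comm (d + 2) s, pow_mul]
            ring
    have hjR : ((a ^ n * m : ℕ) : ℝ) * j = b ^ n₀ * (X : ℝ) ^ (d + 1 + 1) := by
      have : (((a : ℤ) ^ n * m * j : ℤ) : ℝ) = ((b ^ n₀ * X ^ (d + 1 + 1) : ℤ) : ℝ) := by rw [hj]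
      push_cast at this ⊢
      exact this
    have h2 : (h : ℝ) * ((b : ℝ) ^ (n₀ + g * D * a ^ s * t) * (c / ((a ^ n * m : ℕ) : ℝ))) =
        (pol (d + 1) β (X : ℝ)).eval (t : ℝ) + ((h * c * (j * v) : ℤ) : ℝ) := by
      rw [pol_eval, h1, hβ]
      have h3 : (h : ℝ) * (b ^ n₀ * (∑ i ∈ range (d + 1 + 1), (t.choose i : ℝ) * (X : ℝ) ^ i + (X : ℝ) ^ (d + 1 + 1) * v) *
          (c / ((a ^ n * m : ℕ) : ℝ))) = (h * c * b ^ n₀ / ((a ^ n * m : ℕ) : ℝ)) *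
          ∑ i ∈ range (d + 1 + 1), (t.choose i : ℝ) * (X : ℝ) ^ i +
          h * c * v * ((b ^ n₀ * (X : ℝ) ^ (d + 1 + 1)) / ((a ^ n * m : ℕ) : ℝ)) := by ring
      rw [h3, ← hjR, mul_div_cancel_left₀ _ ham]
      push_cast
      ring
    rw [h2, Pool.Agent.Y943.Fu.e_add', Pool.Agent.Y943.Fu.e_int', mul_one]
  rw [sum_congr rfl fun t _ => hph t]
  apply hW κ hκ hκ1 (pol (d + 1) β X) (pol_natDegree _ _ _) T hT1
  rw [← hR]
  intro l hl hlR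
  have hlL : l ≤ L := by
    have : (l : ℝ) ≤ L := hlR.trans hRL
    exact_mod_cast this
  obtain ⟨z, hz⟩ : ∃ z, z = round ((l : ℝ) * (pol (d + 1) β (X : ℝ)).coeff (d + 1)) := ⟨_, rfl⟩
  rw [← hz, pol_coeff]
  -- an integer
  obtain ⟨W, hWd⟩ : ∃ W : ℤ, (K₀ : ℝ) * (l * (β * ((X : ℝ) ^ (d + 1) / (d + 1).factorial))) = W := by
    refine ⟨l * h * c * (u * Y ^ d * w ^ (d + 1)), ?_⟩
    have h1 : (K₀ : ℝ) = (d + 1).factorial * a ^ (n - (d + 1) * s) := by rw [hK₀]; push_cast; ring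
    have h2 : (a : ℝ) ^ (n - (d + 1) * s) * (a : ℝ) ^ ((d + 1) * s) = (a : ℝ) ^ n := by
      rw [← pow_add]
      congr 1
      omega
    have h3 : (b : ℝ) ^ n₀ * (X : ℝ) ^ (d + 1) = m * u * Y ^ d * (a : ℝ) ^ ((d + 1) * s) * w ^ (d + 1) := by
      have h4 : ((b ^ n₀ * X ^ (d + 1) : ℤ) : ℝ) = ((m * u * Y ^ d * (a : ℤ) ^ ((d + 1) * s) * w ^ (d + 1) : ℤ) : ℝ) := by
        rw [← hu, hw, mul_comm (d + 1) s, pow_mul]
        congr 1
        ring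
      push_cast at h4
      exact h4
    have hfac : ((d + 1).factorial : ℝ) ≠ 0 := by positivity
    have h5 : (K₀ : ℝ) * (l * (β * ((X : ℝ) ^ (d + 1) / (d + 1).factorial))) =
        l * h * c * (a : ℝ) ^ (n - (d + 1) * s) * (b ^ n₀ * (X : ℝ) ^ (d + 1)) / ((a ^ n * m : ℕ) : ℝ) := by
      rw [h1, hβ]
      field_simp
    rw [h5, h3]
    have h6 : (l : ℝ) * h * c * (a : ℝ) ^ (n - (d + 1) * s) * (m * u * Y ^ d * (a : ℝ) ^ ((d + 1) * s) * w ^ (d + 1)) =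
        ((a : ℝ) ^ (n - (d + 1) * s) * (a : ℝ) ^ ((d + 1) * s)) * m * (l * h * c * (u * Y ^ d * w ^ (d + 1))) := by ring
    rw [h6, h2]
    push_cast
    field_simp
  have hK₀R : (0 : ℝ) < K₀ := by exact_mod_cast hK₀pos
  have hne : W - K₀ * z ≠ 0 := by
    intro h0
    have h1 : (W : ℝ) = K₀ * z := by
      have : W = K₀ * z := by linarith
      exact_mod_cast this
    rw [h1] at hWd
    have h2 : (l : ℝ) * (β * ((X : ℝ) ^ (d + 1) / (d + 1).factorial)) = z := mul_left_cancel₀ hK₀R.ne' hWd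
    rw [hβ] at h2
    have hfac : ((d + 1).factorial : ℝ) ≠ 0 := by positivity
    have h3 : (l : ℝ) * h * c * b ^ n₀ * (X : ℝ) ^ (d + 1) = a ^ n * (m * ((d + 1).factorial * z)) := by
      rw [← h2]
      push_cast
      field_simp
    have h4 : (((l * h : ℕ) : ℤ)) * c * (b : ℤ) ^ n₀ * X ^ (d + 1) = (a : ℤ) ^ n * (m * ((d + 1).factorial * z)) := by
      have h5 : ((((l * h : ℕ) : ℤ) * c * (b : ℤ) ^ n₀ * X ^ (d + 1) : ℤ) : ℝ) = (((a : ℤ) ^ n * (m * ((d + 1).factorial * z)) : ℤ) : ℝ) := by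
        push_cast
        exact h3
      exact_mod_cast h5
    rw [hX, hg] at h4
    exact lead (L := L * H) ha hb hab hD hn1 (by rw [← hg] at hsize ⊢; exact hsize) hc (l := l * h) (Nat.mul_pos hl hh)
      (Nat.mul_le_mul hlL hhH) n₀ ⟨_, h4⟩
  have h1 : (1 : ℝ) ≤ |((W - K₀ * z : ℤ) : ℝ)| := by
    have := Int.one_le_abs hne
    exact_mod_cast this
  have h2 : ((W - K₀ * z : ℤ) : ℝ) = K₀ * (l * (β * ((X : ℝ) ^ (d + 1) / (d + 1).factorial)) - z) := by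
    push_cast
    rw [mul_sub, hWd]
  rw [h2, abs_mul, abs_of_pos hK₀R] at h1
  rw [div_le_iff₀ hTr]
  have h3 : (L : ℝ) * K₀ ≤ T := by exact_mod_cast hT
  obtain ⟨δ, hδ⟩ : ∃ δ, δ = |l * (β * ((X : ℝ) ^ (d + 1) / (d + 1).factorial)) - z| := ⟨_, rfl⟩
  rw [← hδ] at h1 ⊢
  have hδ0 : 0 ≤ δ := by rw [hδ]; exact abs_nonneg _
  calc R ≤ L := hRL
    _ = L * 1 := (mul_one _).symm
    _ ≤ L * (K₀ * δ) := mul_le_mul_of_nonneg_left h1 (by positivity)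
    _ = δ * (L * K₀) := by ring
    _ ≤ δ * T := mul_le_mul_of_nonneg_left h3 hδ0

end Pool.Agent.R501.FR
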