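import Pool.Agent.R501.FR2

set_option autoImplicit false

/-! Short orbits of fractions with denominators `a ^ n m` are nearly dense. -/

namespace Pool.Agent.R501.FR
open Finset Filter Pool.Agent.H332R2.Lit

lemma big (x θ C : ℝ) (hx : 1 < x) (hθ : 0 < θ) : ∃ N : ℕ, ∀ n : ℕ, N ≤ n → C ≤ x ^ (θ * n) := by
  have h1 : 1 < x ^ θ := Real.one_lt_rpow hx hθ
  have h2 := (tendsto_pow_atTop_atTop_of_one_lt h1).eventually_ge_atTop C
  obtain ⟨N, hN⟩ := eventually_atTop.1 h2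
  refine ⟨N, fun n hn => ?_⟩
  have h3 := hN n hn
  rwa [← Real.rpow_natCast, ← Real.rpow_mul (by linarith)] at h3

/-- **short orbits are nearly dense** -/
theorem dense_short {a b : ℕ} (ha : 2 ≤ a) (hb : 2 ≤ b) (hab : Nat.Coprime a b) {ρ : ℝ} (hρ : 0 < ρ) :
    ∃ δ : ℝ, 0 < δ ∧ ∀ ε : ℝ, 0 < ε → ∃ N₀ : ℕ, ∀ n : ℕ, N₀ ≤ n → ∀ (c : ℤ) (m n₀ D : ℕ), ¬ (a : ℤ) ∣ c → 1 ≤ m → 1 ≤ D →
      (n₀ : ℝ) ≤ (a : ℝ) ^ (δ * n) → (D : ℝ) ≤ (a : ℝ) ^ (δ * n) → m ∣ b ^ n₀ * (b ^ D - 1) → ∀ y : ℝ,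
      ∃ i : ℕ, (i : ℝ) ≤ (a : ℝ) ^ (ρ * n) ∧ ∃ z : ℤ, |(b : ℝ) ^ i * (c / ((a ^ n * m : ℕ) : ℝ)) - y - z| < ε := by
  obtain ⟨d, hd⟩ : ∃ d : ℕ, 4 / ρ ≤ d + 1 := by
    obtain ⟨d, hd⟩ := exists_nat_ge (4 / ρ)
    exact ⟨d, by linarith⟩
  obtain ⟨k, hk⟩ : ∃ k, k = d + 1 := ⟨_, rfl⟩
  have hk1 : 1 ≤ k := by omega
  have hkR : (1 : ℝ) ≤ k := by exact_mod_cast hk1
  have hkρ : 2 / ((k : ℝ) + 1) ≤ ρ / 2 := by
    rw [div_le_div_iff₀ (by positivity) (by norm_num)]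
    rw [div_le_iff₀ hρ] at hd
    have : (k : ℝ) = d + 1 := by rw [hk]; push_cast; ring
    rw [this]
    nlinarith
  have haR : (2 : ℝ) ≤ a := by exact_mod_cast ha
  have ha0 : (0 : ℝ) < a := by linarith
  have ha1 : (1 : ℝ) ≤ a := by linarith
  have hla : 0 < Real.log a := Real.log_pos (by linarith)
  have hl2 : 0 < Real.log 2 := Real.log_pos (by norm_num)
  obtain ⟨δ, hδ⟩ : ∃ δ, δ = min (ρ / 4) (Real.log 2 / (2 * k * (k + 1) * Real.log a)) := ⟨_, rfl⟩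
  have hδ0 : 0 < δ := by rw [hδ]; exact lt_min (by positivity) (by positivity)
  have hδ1 : δ ≤ ρ / 4 := by rw [hδ]; exact min_le_left _ _
  have hδ2 : k * (δ * Real.log a) ≤ Real.log 2 / (2 * (k + 1)) := by
    have h1 : δ ≤ Real.log 2 / (2 * k * (k + 1) * Real.log a) := by rw [hδ]; exact min_le_right _ _
    rw [le_div_iff₀ (by positivity)] at h1 ⊢
    linarith
  refine ⟨δ, hδ0, fun ε hε => ?_⟩
  obtain ⟨H, κ, hκ, hκ1, hdense⟩ := Pool.Agent.Y943.Fu.dense_of_sums ε hε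
  obtain ⟨L, hL1, hsum⟩ := sum_small κ hκ hκ1 d
  obtain ⟨g, hg⟩ : ∃ g, g = (a ^ 2).totient := ⟨_, rfl⟩
  obtain ⟨A, hA⟩ : ∃ A, A = b ^ g - 1 := ⟨_, rfl⟩
  obtain ⟨N₁, hN₁⟩ := big 2 (1 / (2 * (k + 1))) ((L * H * A ^ k : ℕ) * 2 ^ (k + 2)) (by norm_num) (by positivity)
  obtain ⟨N₂, hN₂⟩ := big a (ρ / 4) (1 + g * a * L * k.factorial) (by linarith) (by positivity)
  refine ⟨N₁ + N₂ + (k + 1) ^ 2, fun n hn c m n₀ D hc hm hD hn₀ hDle hdvd y => ?_⟩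
  obtain ⟨r, hr⟩ : ∃ r, r = n / (k + 1) := ⟨_, rfl⟩
  have hr1 : (k + 1) * r ≤ n := by rw [hr]; exact Nat.mul_div_le n (k + 1)
  have hr2 : n < (k + 1) * (r + 1) := by
    rw [hr]
    exact Nat.lt_mul_div_succ n (by omega)
  have hrk : k + 1 ≤ r := by
    rw [hr, Nat.le_div_iff_mul_le (by omega)]
    calc (k + 1) * (k + 1) = (k + 1) ^ 2 := by ring
      _ ≤ n := by omega
  obtain ⟨s, hs⟩ : ∃ s, s = r + 1 := ⟨_, rfl⟩
  have e1 : (k + 1) * r = k * r + r := by ring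
  have e2 : k * s = k * r + k := by rw [hs]; ring
  have e3 : (k + 1) * (r + 1) = k * r + k + r + 1 := by ring
  have e4 : (k + 1) * s = k * r + k + r + 1 := by rw [hs]; ring
  have hnR : (0 : ℝ) ≤ n := Nat.cast_nonneg n
  have hrR : (n : ℝ) / (k + 1) - 1 ≤ r := by
    rw [sub_le_iff_le_add, div_le_iff₀ (by positivity)]
    have : (n : ℝ) < ((k + 1) * (r + 1) : ℕ) := by exact_mod_cast hr2
    push_cast at this
    linarith
  have hrR' : (r : ℝ) ≤ n / (k + 1) := by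
    rw [le_div_iff₀ (by positivity)]
    have : (((k + 1) * r : ℕ) : ℝ) ≤ n := by exact_mod_cast hr1
    push_cast at this
    linarith
  have hsize : L * H * A ^ k * D ^ k ≤ 2 ^ (n - 1 - k * s) := by
    have h1 : r - k - 1 ≤ n - 1 - k * s := by omega
    refine le_trans ?_ (Nat.pow_le_pow_right (by norm_num) h1)
    have h2 : ((L * H * A ^ k : ℕ) : ℝ) * 2 ^ (k + 2) ≤ 2 ^ (1 / (2 * ((k : ℝ) + 1)) * n) := hN₁ n (by omega)
    have h3 : (D : ℝ) ^ k ≤ 2 ^ (1 / (2 * ((k : ℝ) + 1)) * n) := by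
      calc (D : ℝ) ^ k ≤ ((a : ℝ) ^ (δ * n)) ^ k := pow_le_pow_left₀ (Nat.cast_nonneg _) hDle k
        _ = Real.exp (k * (δ * Real.log a) * n) := by
            rw [← Real.rpow_natCast, ← Real.rpow_mul ha0.le, Real.rpow_def_of_pos ha0]
            congr 1
            ring
        _ ≤ Real.exp (Real.log 2 / (2 * (k + 1)) * n) := by
            apply Real.exp_le_exp.2
            exact mul_le_mul_of_nonneg_right hδ2 hnR
        _ = _ := by
            rw [Real.rpow_def_of_pos (by norm_num)]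
            congr 1
            ring
    have h4 : ((L * H * A ^ k * D ^ k : ℕ) : ℝ) * 2 ^ (k + 2) ≤ (2 : ℝ) ^ (r + 1) := by
      calc ((L * H * A ^ k * D ^ k : ℕ) : ℝ) * 2 ^ (k + 2) = (((L * H * A ^ k : ℕ) : ℝ) * 2 ^ (k + 2)) * (D : ℝ) ^ k := by
            push_cast; ring
        _ ≤ 2 ^ (1 / (2 * ((k : ℝ) + 1)) * n) * 2 ^ (1 / (2 * ((k : ℝ) + 1)) * n) :=
            mul_le_mul h2 h3 (by positivity) (by positivity)
        _ = (2 : ℝ) ^ ((n : ℝ) / (k + 1)) := by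
            rw [← Real.rpow_add (by norm_num)]
            congr 1
            field_simp
            ring
        _ ≤ (2 : ℝ) ^ (((r + 1 : ℕ)) : ℝ) := by
            apply Real.rpow_le_rpow_of_exponent_le (by norm_num)
            push_cast
            linarith
        _ = _ := Real.rpow_natCast _ _
    have h5 : (2 : ℝ) ^ (r + 1) = 2 ^ (r - k - 1) * 2 ^ (k + 2) := by
      rw [← pow_add]
      congr 1
      omega
    rw [h5] at h4
    have h6 := le_of_mul_le_mul_right h4 (by positivity)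
    exact_mod_cast h6
  obtain ⟨T, hT⟩ : ∃ T, T = L * (k.factorial * a ^ (n - k * s)) := ⟨_, rfl⟩
  have hT1 : 1 ≤ T := by
    rw [hT]
    exact Nat.mul_pos hL1 (Nat.mul_pos (Nat.factorial_pos _) (by positivity))
  have hdvd' : m ∣ b ^ n₀ * (b ^ (g * D) - 1) := by
    refine hdvd.trans (Nat.mul_dvd_mul_left _ ?_)
    have := Nat.sub_dvd_pow_sub_pow (b ^ D) 1 g
    rwa [one_pow, ← pow_mul, mul_comm D g] at this
  have h1 := hdense T (fun t => (b : ℝ) ^ (n₀ + g * D * a ^ s * t) * (c / ((a ^ n * m : ℕ) : ℝ))) hT1 (fun h hh hhH => by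
    have h2 := hsum a b n s D H T n₀ m c ha hb hab hD hm (by rw [← hk]; omega)
      (by
        have : (d + 2) * s = (k + 1) * s := by rw [hk]
        rw [this]; omega) (by rw [← hk, ← hg, ← hA]; exact hsize) (by rw [← hk, hT]) hc (by rw [← hg]; exact hdvd') h hh hhH
    rw [← hg] at h2
    exact h2) y
  obtain ⟨t, ht, z, hz⟩ := h1
  refine ⟨n₀ + g * D * a ^ s * t, ?_, z, hz⟩
  -- the length
  have hTle : (T : ℝ) ≤ L * k.factorial * (a : ℝ) ^ r := by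
    rw [hT]
    push_cast
    rw [← mul_assoc]
    apply mul_le_mul_of_nonneg_left _ (by positivity)
    exact pow_le_pow_right₀ ha1 (by omega)
  have hX1 : 1 ≤ (a : ℝ) ^ (δ * n) := Real.one_le_rpow ha1 (by positivity)
  obtain ⟨Z, hZ⟩ : ∃ Z, Z = (a : ℝ) ^ r := ⟨_, rfl⟩
  have hZ1 : 1 ≤ Z := by rw [hZ]; exact one_le_pow₀ ha1
  rw [← hZ] at hTle
  obtain ⟨E, hE⟩ : ∃ E, E = (a : ℝ) ^ (δ * n) := ⟨_, rfl⟩
  rw [← hE] at hX1 hn₀ hDle
  have htT : (t : ℝ) ≤ T := by exact_mod_cast ht.le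
  have hmain : (((n₀ + g * D * a ^ s * t : ℕ)) : ℝ) ≤ (1 + g * a * L * k.factorial) * (E * (Z * Z)) := by
    have e5 : (a : ℝ) ^ s = Z * a := by rw [hs, pow_succ, hZ]
    push_cast
    rw [e5]
    have h2 : (g : ℝ) * D * (Z * a) * t ≤ g * E * (Z * a) * (L * k.factorial * Z) := by
      apply mul_le_mul _ (htT.trans hTle) (by positivity) (by positivity)
      apply mul_le_mul_of_nonneg_right _ (by positivity)
      exact mul_le_mul_of_nonneg_left hDle (Nat.cast_nonneg _)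
    have h3 : E ≤ E * (Z * Z) := le_mul_of_one_le_right (by linarith) (by nlinarith)
    calc (n₀ : ℝ) + g * D * (Z * a) * t ≤ E * (Z * Z) + g * E * (Z * a) * (L * k.factorial * Z) := by linarith
      _ = _ := by ring
  refine hmain.trans ?_
  have h2 : E * (Z * Z) ≤ (a : ℝ) ^ (ρ / 4 * n + ρ / 2 * n) := by
    have e5 : Z = (a : ℝ) ^ (r : ℝ) := by rw [hZ, Real.rpow_natCast]
    rw [hE, e5, ← Real.rpow_add ha0, ← Real.rpow_add ha0]
    apply Real.rpow_le_rpow_of_exponent_le ha1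
    have h3 : δ * n ≤ ρ / 4 * n := mul_le_mul_of_nonneg_right hδ1 hnR
    have h4 : (r : ℝ) + r ≤ ρ / 2 * n := by
      calc (r : ℝ) + r ≤ 2 * (n / (k + 1)) := by linarith
        _ = 2 / ((k : ℝ) + 1) * n := by ring
        _ ≤ ρ / 2 * n := mul_le_mul_of_nonneg_right hkρ hnR
    linarith
  have h3 : (1 + (g : ℝ) * a * L * k.factorial) ≤ (a : ℝ) ^ (ρ / 4 * n) := hN₂ n (by omega)
  calc (1 + (g : ℝ) * a * L * k.factorial) * (E * (Z * Z)) ≤ (a : ℝ) ^ (ρ / 4 * n) * (a : ℝ) ^ (ρ / 4 * n + ρ / 2 * n) := by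
        apply mul_le_mul h3 h2 (by positivity) (by positivity)
    _ = (a : ℝ) ^ (ρ * n) := by
        rw [← Real.rpow_add ha0]
        congr 1
        ring

/-- the base `b` expansion of `1 / m` has a short preperiod and a short period -/
lemma period (b : ℕ) (hb : 1 ≤ b) (m : ℕ) (hm : 1 ≤ m) : ∃ n₀ D : ℕ, 1 ≤ D ∧ n₀ ≤ m ∧ D ≤ m ∧ m ∣ b ^ n₀ * (b ^ D - 1) := by
  obtain ⟨i, hi, j, hj, hij, h⟩ := Finset.exists_ne_map_eq_of_card_lt_of_maps_to (s := range (m + 1)) (t := range m)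
    (by simp) (f := fun i => b ^ i % m) (fun i _ => by
      simp only [Finset.coe_range, Set.mem_Iio]
      exact Nat.mod_lt _ hm)
  rw [mem_range] at hi hj
  have key : ∀ i j : ℕ, i < j → j < m + 1 → b ^ i % m = b ^ j % m →
      ∃ n₀ D : ℕ, 1 ≤ D ∧ n₀ ≤ m ∧ D ≤ m ∧ m ∣ b ^ n₀ * (b ^ D - 1) := by
    intro i j hij hj h
    refine ⟨i, j - i, by omega, by omega, by omega, ?_⟩
    have h1 : m ∣ b ^ j - b ^ i := (Nat.modEq_iff_dvd' (Nat.pow_le_pow_right hb hij.le)).1 h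
    have h2 : b ^ i * (b ^ (j - i) - 1) = b ^ j - b ^ i := by
      rw [Nat.mul_sub, mul_one, ← pow_add]
      congr 2
      omega
    rwa [h2]
  rcases lt_or_gt_of_ne hij with h1 | h1
  · exact key i j h1 hj h
  · exact key j i h1 hi h.symm

/-- **dense orbits** -/
theorem dense_orbit {a b : ℕ} (ha : 2 ≤ a) (hb : 2 ≤ b) (hab : Nat.Coprime a b) {ρ : ℝ} (hρ : 0 < ρ) :
    ∃ δ : ℝ, 0 < δ ∧ ∀ x : ℝ, (∀ K : ℕ, ∃ n : ℕ, K ≤ n ∧ ∃ (c : ℤ) (m n₀ D : ℕ), ¬ (a : ℤ) ∣ c ∧ 1 ≤ m ∧ 1 ≤ D ∧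
      (n₀ : ℝ) ≤ (a : ℝ) ^ (δ * n) ∧ (D : ℝ) ≤ (a : ℝ) ^ (δ * n) ∧ m ∣ b ^ n₀ * (b ^ D - 1) ∧
      |x - c / ((a ^ n * m : ℕ) : ℝ)| ≤ Real.exp (-(a : ℝ) ^ (ρ * n))) → Pool.Agent.Y943.Fu.orb b x = Set.Icc 0 1 := by
  obtain ⟨δ, hδ, h⟩ := dense_short ha hb hab (show 0 < ρ / 2 by positivity)
  refine ⟨δ, hδ, fun x hx => ?_⟩
  apply Pool.Agent.Y943.Fu.orb_of_fractions
  intro ε hε
  obtain ⟨N₀, hN₀⟩ := h ε hε
  have haR : (2 : ℝ) ≤ a := by exact_mod_cast ha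
  have ha0 : (0 : ℝ) < a := by linarith
  have hbR : (2 : ℝ) ≤ b := by exact_mod_cast hb
  obtain ⟨N₁, hN₁⟩ := big a (ρ / 2) (1 + Real.log b + |Real.log ε|) (by linarith) (by positivity)
  obtain ⟨n, hn, c, m, n₀, D, hc, hm, hD, hn₀, hDle, hdvd, hclose⟩ := hx (N₀ + N₁)
  obtain ⟨E, hE⟩ : ∃ E, E = (a : ℝ) ^ (ρ / 2 * n) := ⟨_, rfl⟩
  have hE0 : 0 < E := by rw [hE]; positivity
  refine ⟨c, a ^ n * m, ⌊E⌋₊, fun i hi => ?_, fun y => ?_⟩
  · have hiE : (i : ℝ) ≤ E := (Nat.le_floor_iff hE0.le).1 hi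
    have hE1 : 1 + Real.log b + |Real.log ε| ≤ E := by rw [hE]; exact hN₁ n (by omega)
    have hEE : (a : ℝ) ^ (ρ * n) = E * E := by
      rw [hE, ← Real.rpow_add ha0]
      congr 1
      ring
    have hlb : 0 ≤ Real.log b := Real.log_nonneg (by linarith)
    rw [abs_mul, abs_of_pos (by positivity : (0 : ℝ) < (b : ℝ) ^ i)]
    have h1 : (b : ℝ) ^ i ≤ Real.exp (E * Real.log b) := by
      rw [← Real.rpow_natCast, Real.rpow_def_of_pos (by linarith)]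
      apply Real.exp_le_exp.2
      rw [mul_comm]
      exact mul_le_mul_of_nonneg_right hiE hlb
    calc (b : ℝ) ^ i * |x - c / ((a ^ n * m : ℕ) : ℝ)| ≤ Real.exp (E * Real.log b) * Real.exp (-(a : ℝ) ^ (ρ * n)) :=
          mul_le_mul h1 hclose (abs_nonneg _) (Real.exp_pos _).le
      _ = Real.exp (E * Real.log b - E * E) := by rw [← Real.exp_add, hEE]; congr 1
      _ < Real.exp (Real.log ε) := by
          apply Real.exp_lt_exp.2
          have h2 := abs_nonneg (Real.log ε)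
          have h3 := neg_abs_le (Real.log ε)
          have h4 : 1 ≤ E := by linarith
          nlinarith
      _ = ε := Real.exp_log hε
  · obtain ⟨i, hi, z, hz⟩ := hN₀ n (by omega) c m n₀ D hc hm hD hn₀ hDle hdvd y
    exact ⟨i, Nat.le_floor (by rw [hE]; exact hi), z, hz⟩

end Pool.Agent.R501.FR
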