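import Pool.Agent.Y951.TU.Dioph
import Pool.Agent.R459.Eq6

set_option autoImplicit false

/-! Multiples of algebraic numbers by integers given by their digits: the frequencies. -/

namespace Pool.Agent.R501.MT
open Finset Real
open Pool.Agent.TH419.WI (Smooth)
open Pool.Agent.TH872.Mir (Far farCount)

/-- `θ` is far from the rational numbers whose denominators are products of a small integer and of a power of `g` -/
def FarG (g : ℕ) (η δ L θ : ℝ) : Prop :=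
  ∀ (i : ℕ) (q P : ℤ), (i : ℝ) ≤ L → q ≠ 0 → |(q : ℝ)| ≤ exp (η * L) →
    exp (-(δ * L)) < |(q : ℝ) * ((g : ℝ) ^ i * θ) - P|

lemma smooth_mul {S : Finset ℕ} {a b : ℕ} (ha : Smooth S a) (hb : Smooth S b) : Smooth S (a * b) :=
  ⟨mul_ne_zero ha.1 hb.1, by
    rw [Nat.primeFactors_mul ha.1 hb.1]
    exact Finset.union_subset ha.2 hb.2⟩

lemma smooth_pow {S : Finset ℕ} {a : ℕ} (ha : Smooth S a) (i : ℕ) : Smooth S (a ^ i) := by
  induction i with
  | zero => exact ⟨by simp, by simp⟩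
  | succ i ih => rw [pow_succ]; exact smooth_mul ih ha

theorem far_freq {r : ℕ} (α : Fin r → ℝ) (halg : ∀ j, IsAlgebraic ℚ (α j))
    (hind : ∀ c : Fin r → ℤ, c ≠ 0 → Irrational (∑ j, (c j : ℝ) * α j)) (S : Finset ℕ)
    (hS : ∀ p ∈ S, 0 < p) (g : ℕ) (hg : 1 ≤ g) (hgS : g.primeFactors ⊆ S) (k : ℕ) (A δ : ℝ) (hA : 0 ≤ A) (hδ : 0 < δ) :
    ∃ η : ℝ, 0 < η ∧ ∃ L0 : ℝ, ∀ L : ℝ, L0 ≤ L → ∀ (s : Fin k → ℕ) (c : Fin k → Fin r → ℤ)
      (h : Fin k → ℤ), (∀ i, Smooth S (s i)) → (∀ i, (s i : ℝ) ≤ exp (A * L)) →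
      (∀ i, |(h i : ℝ)| ≤ exp (η * L)) → (∀ i j, |(c i j : ℝ)| ≤ exp (η * L)) →
      (fun j => ∑ i, h i * (s i * c i j)) ≠ (0 : Fin r → ℤ) →
      FarG g η δ L (∑ j, ((∑ i, h i * (s i * c i j) : ℤ) : ℝ) * α j) := by
  have hg0 : (0 : ℝ) < g := by exact_mod_cast hg
  have hg1 : (1 : ℝ) ≤ g := by exact_mod_cast hg
  have hlog : 0 ≤ log (g : ℝ) := Real.log_nonneg hg1
  obtain ⟨η, hη, L0, H⟩ := Pool.Agent.Y951.TU.dioph α halg S hS k (A + log g) δ (by positivity) hδ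
  refine ⟨η / 2, by positivity, max L0 0, fun L hL s c h hs hsA hh hc hne i₀ q P hi hq hqη => ?_⟩
  have hL0 : 0 ≤ L := (le_max_right _ _).trans hL
  have hhalf : exp (η / 2 * L) ≤ exp (η * L) := by
    apply exp_le_exp.2
    nlinarith
  obtain ⟨u, hu⟩ : ∃ u, u = g ^ i₀ := ⟨_, rfl⟩
  have huS : Smooth S u := hu ▸ smooth_pow ⟨by omega, hgS⟩ i₀
  have hu0 : u ≠ 0 := huS.1
  have hua : (u : ℝ) ≤ exp (log g * L) := by
    rw [hu]
    push_cast
    rw [← Real.exp_log (pow_pos hg0 i₀), Real.log_pow]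
    apply exp_le_exp.2
    rw [mul_comm]
    exact mul_le_mul_of_nonneg_left hi hlog
  have e0 : ∀ j, (∑ i, (q * h i) * (((u * s i : ℕ) : ℤ) * c i j) : ℤ) = (q * u) * ∑ i, h i * (s i * c i j) := by
    intro j
    rw [mul_sum]
    apply sum_congr rfl
    intro i _
    push_cast
    ring
  have key := H L ((le_max_left _ _).trans hL) (fun i => u * s i) c (fun i => q * h i) P
    (fun i => smooth_mul huS (hs i)) (fun i => ?_) (fun i => ?_) (fun i j => (hc i j).trans hhalf) ?_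
  · have e1 : ∑ j, ((∑ i, (q * h i) * (((u * s i : ℕ) : ℤ) * c i j) : ℤ) : ℝ) * α j =
        q * (((g : ℝ) ^ i₀) * ∑ j, ((∑ i, h i * (s i * c i j) : ℤ) : ℝ) * α j) := by
      rw [mul_sum, mul_sum]
      apply sum_congr rfl
      intro j _
      rw [e0, hu]
      push_cast
      ring
    rw [e1] at key
    exact key
  · push_cast
    rw [add_mul, exp_add, mul_comm]
    exact mul_le_mul (hsA i) hua (Nat.cast_nonneg _) (exp_pos _).le
  · push_cast
    rw [abs_mul]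
    have : exp (η * L) = exp (η / 2 * L) * exp (η / 2 * L) := by
      rw [← exp_add]
      congr 1
      ring
    rw [this]
    exact mul_le_mul hqη (hh i) (abs_nonneg _) (exp_pos _).le
  · have := hind (fun j => (q * u) * ∑ i, h i * (s i * c i j)) (by
      intro h0
      apply hne
      funext j
      have h1 := congrFun h0 j
      simp only [Pi.zero_apply] at h1 ⊢
      have h2 : (q * (u : ℤ)) ≠ 0 := mul_ne_zero hq (by exact_mod_cast hu0)
      exact (mul_eq_zero.1 h1).resolve_left h2)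
    simp only [e0]
    exact this

/-- a run of places which are not far from the integers -/
lemma run (g F : ℕ) (hg : 2 ≤ g) (θ : ℝ) (j₀ L : ℕ) (hL : 1 ≤ L)
    (h : ∀ j, j₀ ≤ j → j < j₀ + L → ¬ Far (1 / (g : ℝ) ^ 2) ((F : ℝ) * ((g : ℝ) ^ j * θ))) :
    ∃ n : ℤ, |(F : ℝ) * ((g : ℝ) ^ j₀ * θ) - n| < 1 / (g : ℝ) ^ (L + 1) := by
  have hg0 : (0 : ℝ) < g := by exact_mod_cast (by omega : 0 < g)
  have h1 : ∀ t : ℕ, t < L → round ((F : ℝ) * ((g : ℝ) ^ (j₀ + t) * θ)) = (g : ℤ) ^ t * round ((F : ℝ) * ((g : ℝ) ^ j₀ * θ)) := by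
    intro t ht
    induction t with
    | zero => simp
    | succ t ih =>
      have h2 := (Pool.Agent.R459.Eq.round_far g hg ((F : ℝ) * ((g : ℝ) ^ (j₀ + t) * θ))).2 (h _ (by omega) (by omega))
      have e1 : (g : ℝ) * ((F : ℝ) * ((g : ℝ) ^ (j₀ + t) * θ)) = (F : ℝ) * ((g : ℝ) ^ (j₀ + (t + 1)) * θ) := by
        rw [← add_assoc, pow_succ]
        ring
      rw [e1, sub_eq_zero] at h2
      rw [h2, ih (by omega), pow_succ]
      ring
  obtain ⟨t, rfl⟩ : ∃ t, L = t + 1 := ⟨L - 1, by omega⟩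
  have h2 := h (j₀ + t) (by omega) (by omega)
  unfold Far at h2
  push Not at h2
  obtain ⟨n, hn⟩ := h2
  have h3 := (round_le ((F : ℝ) * ((g : ℝ) ^ (j₀ + t) * θ)) n).trans_lt hn
  rw [h1 t (by omega)] at h3
  refine ⟨round ((F : ℝ) * ((g : ℝ) ^ j₀ * θ)), ?_⟩
  have e2 : (F : ℝ) * ((g : ℝ) ^ (j₀ + t) * θ) - (((g : ℤ) ^ t * round ((F : ℝ) * ((g : ℝ) ^ j₀ * θ)) : ℤ) : ℝ) =
      (g : ℝ) ^ t * ((F : ℝ) * ((g : ℝ) ^ j₀ * θ) - round ((F : ℝ) * ((g : ℝ) ^ j₀ * θ))) := by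
    push_cast
    rw [pow_add]
    ring
  rw [e2, abs_mul, abs_of_pos (by positivity)] at h3
  rw [lt_div_iff₀ (by positivity)] at h3 ⊢
  calc |(F : ℝ) * ((g : ℝ) ^ j₀ * θ) - round ((F : ℝ) * ((g : ℝ) ^ j₀ * θ))| * (g : ℝ) ^ (t + 1 + 1) =
        (g : ℝ) ^ t * |(F : ℝ) * ((g : ℝ) ^ j₀ * θ) - round ((F : ℝ) * ((g : ℝ) ^ j₀ * θ))| * (g : ℝ) ^ 2 := by ring
    _ < 1 := h3

/-- frequencies which are far from the rational numbers are far from the integers at many places -/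
theorem far_count {η δ : ℝ} (g F J : ℕ) (hg : 2 ≤ g) (hF : 1 ≤ F) (hJ : 1 ≤ J)
    (hδ : δ ≤ log g / J) (k : ℕ) (hk : J ≤ k) (hFk : (F : ℝ) ≤ exp (η * k)) (θ : ℝ)
    (h : FarG g η δ k θ) : J ≤ farCount g F k θ := by
  classical
  by_contra hcon
  push Not at hcon
  unfold farCount at hcon
  obtain ⟨T, hT⟩ : ∃ T, T = (range k).filter (fun j => Far (1 / (g : ℝ) ^ 2) ((F : ℝ) * ((g : ℝ) ^ j * θ))) := ⟨_, rfl⟩
  rw [← hT] at hcon
  obtain ⟨L, hL⟩ : ∃ L, L = k / J := ⟨_, rfl⟩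
  have hL1 : 1 ≤ L := by
    rw [hL]
    exact (Nat.one_le_div_iff (by omega)).2 hk
  have hLk : L * J ≤ k := by
    rw [hL]
    exact Nat.div_mul_le_self k J
  have hLk' : k < (L + 1) * J := by
    rw [hL, mul_comm]
    exact Nat.lt_mul_div_succ k (by omega : 0 < J)
  obtain ⟨i, hi, hiT⟩ : ∃ i ∈ range J, i ∉ T.image (fun j => j / L) := by
    by_contra hc
    push Not at hc
    have h1 : range J ⊆ T.image (fun j => j / L) := fun i hi => hc i hi
    have h2 := (card_le_card h1).trans card_image_le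
    rw [card_range] at h2
    omega
  rw [mem_range] at hi
  have hrun := run g F hg θ (i * L) L hL1 (by
    intro j hj1 hj2 hfar
    apply hiT
    rw [mem_image]
    refine ⟨j, ?_, ?_⟩
    · rw [hT, mem_filter, mem_range]
      refine ⟨?_, hfar⟩
      have : (i + 1) * L ≤ J * L := Nat.mul_le_mul_right _ (by omega)
      nlinarith
    · apply Nat.div_eq_of_lt_le
      · exact hj1
      · rw [add_mul, one_mul]; exact hj2)
  obtain ⟨n, hn⟩ := hrun
  have hg0 : (0 : ℝ) < g := by exact_mod_cast (by omega : 0 < g)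
  have hg1 : (1 : ℝ) < g := by exact_mod_cast (by omega : 1 < g)
  have hlog : 0 < log (g : ℝ) := Real.log_pos hg1
  have hiL : i * L ≤ k := by nlinarith
  have h1 := h (i * L) F n (by exact_mod_cast hiL) (by exact_mod_cast (by omega : F ≠ 0)) (by
    rw [show ((F : ℤ) : ℝ) = (F : ℝ) by push_cast; rfl, abs_of_nonneg (Nat.cast_nonneg _)]
    exact hFk)
  push_cast at h1
  have h2 := h1.trans hn
  have h3 : 1 / (g : ℝ) ^ (L + 1) = exp (-((L + 1 : ℕ) * log g)) := by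
    rw [Real.exp_neg, ← Real.log_pow, Real.exp_log (by positivity), one_div]
  rw [h3] at h2
  have h4 := exp_lt_exp.1 h2
  have hJ0 : (0 : ℝ) < J := by exact_mod_cast hJ
  have h5 : (k : ℝ) ≤ ((L + 1 : ℕ) : ℝ) * J := by exact_mod_cast hLk'.le
  have h6 : δ * k ≤ (L + 1 : ℕ) * log g := by
    calc δ * k ≤ log g / J * k := mul_le_mul_of_nonneg_right hδ (Nat.cast_nonneg _)
      _ ≤ log g / J * (((L + 1 : ℕ) : ℝ) * J) := mul_le_mul_of_nonneg_left h5 (by positivity)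
      _ = (L + 1 : ℕ) * log g := by field_simp
  linarith

end Pool.Agent.R501.MT
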