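import Pool.Agent.Y951.TU.Norm
import Pool.Agent.R501.MT1

set_option autoImplicit false

/-! Multiples of algebraic numbers by integers given by their digits: weighted families and tests on pairs of words. -/

namespace Pool.Agent.R501.MT
open Finset Real MeasureTheory
open Pool.Agent.Y933.KD (e e_zero e_add norm_e e_sum Leb wd wd_lt wd_eq_iff WS ind)
open Pool.Agent.Y933.KE (WE WE_empty measurableSet_WE)
open Pool.Agent.Y951.TU
open Pool.Agent.TH419.WI (Smooth)

/-- the measure with the weights `w i` at the points `x i` -/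
noncomputable def wm {ι X : Type} [MeasurableSpace X] (Ω : Finset ι) (w : ι → ℝ) (x : ι → X) : Measure X :=
  ∑ i ∈ Ω, ENNReal.ofReal (w i) • Measure.dirac (x i)

lemma wm_prob {ι X : Type} [MeasurableSpace X] {Ω : Finset ι} {w : ι → ℝ} (h0 : ∀ i ∈ Ω, 0 ≤ w i)
    (h1 : ∑ i ∈ Ω, w i = 1) (x : ι → X) : IsProbabilityMeasure (wm Ω w x) := by
  refine ⟨?_⟩
  unfold wm
  rw [Measure.finsetSum_apply]
  simp only [Measure.smul_apply, measure_univ, smul_eq_mul, mul_one]
  rw [← ENNReal.ofReal_sum_of_nonneg h0, h1, ENNReal.ofReal_one]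

lemma wm_int {ι X : Type} [MeasurableSpace X] [MeasurableSingletonClass X] {Ω : Finset ι} {w : ι → ℝ} (h0 : ∀ i ∈ Ω, 0 ≤ w i)
    (x : ι → X) {E : Type} [NormedAddCommGroup E] [NormedSpace ℝ E] [CompleteSpace E] (f : X → E) :
    ∫ t, f t ∂(wm Ω w x) = ∑ i ∈ Ω, w i • f (x i) := by
  unfold wm
  rw [integral_finsetSum_measure]
  · apply sum_congr rfl
    intro i hi
    rw [integral_smul_measure, integral_dirac, ENNReal.toReal_ofReal (h0 i hi)]
  · intro i _
    refine Integrable.smul_measure ?_ ENNReal.ofReal_ne_top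
    exact integrable_dirac (by simp)

lemma hat_wm {ι : Type} {r : ℕ} {Ω : Finset ι} {w : ι → ℝ} (h0 : ∀ i ∈ Ω, 0 ≤ w i) (v : ι → ℤ) (α y : Fin r → ℝ)
    (l : Fin r → ℤ) : ‖hat (lin r) (wm Ω w (fun i j => v i * α j + y j)) l‖ =
      ‖∑ i ∈ Ω, (w i : ℂ) * e (v i * ∑ j, l j * α j)‖ := by
  unfold hat
  rw [wm_int h0]
  have h1 : ∑ i ∈ Ω, w i • e (lin r l (fun j => v i * α j + y j)) =
      e (∑ j, l j * y j) * ∑ i ∈ Ω, (w i : ℂ) * e (v i * ∑ j, l j * α j) := by
    rw [mul_sum]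
    apply sum_congr rfl
    intro i _
    have e1 : lin r l (fun j => v i * α j + y j) = (∑ j, l j * y j) + v i * ∑ j, l j * α j := by
      rw [lin_apply, mul_sum, ← sum_add_distrib]
      apply sum_congr rfl
      intro j _
      ring
    rw [e1, e_add, Complex.real_smul]
    ring
  rw [h1, norm_mul, norm_e, one_mul]

/-- tests on two words -/
theorem two_words {r : ℕ} (α : Fin r → ℝ) (halg : ∀ j, IsAlgebraic ℚ (α j))
    (hind : ∀ c : Fin r → ℤ, c ≠ 0 → Irrational (∑ j, (c j : ℝ) * α j)) (b : Fin r → ℕ) (hb : ∀ j, 1 ≤ b j)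
    (S : Finset ℕ) (hS : ∀ p ∈ S, 0 < p) (hbS : ∀ j, (b j).primeFactors ⊆ S) (g : ℕ) (hg : 1 ≤ g) (hgS : g.primeFactors ⊆ S)
    (A₀ A₁ δ : ℝ) (hA₀ : 0 ≤ A₀) (hA₁ : 0 ≤ A₁) (hδ : 0 < δ) (K : ℕ) (hK : 0 < K) :
    ∃ (η : ℝ) (k₀ : ℕ), 0 < η ∧ ∀ k : ℕ, k₀ ≤ k → ∀ (ι : Type) (Ω : Finset ι) (w : ι → ℝ) (v : ι → ℤ) (Δ : ℝ),
      (∀ i ∈ Ω, 0 ≤ w i) → ∑ i ∈ Ω, w i = 1 → 0 ≤ Δ →
      (∀ θ, FarG g η δ k θ → ‖∑ i ∈ Ω, (w i : ℂ) * e (v i * θ)‖ ≤ Δ) →
      ∀ (y : Fin r → ℝ) (s : Fin r → ℕ) (J : ℕ), (∀ j, (s j : ℝ) ≤ A₀ * k) → ∀ (n l c : Fin 2 → ℕ),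
      (∀ i, (n i : ℝ) ≤ A₁ * k) → (∀ i, n i + l i ≤ J) →
      |((wm Ω w (fun i j => v i * α j + y j)).map (Psi b J s)).real (WE (∏ j, b j) n l c) -
        Leb.real (WE (∏ j, b j) n l c)| ≤ (2 * (K : ℝ) ^ 3 + 1) ^ (2 * r) * Δ + (2 * r : ℕ) * (12 / K + 5 * Δ) := by
  obtain ⟨B, hB⟩ := exists_ge (fun j => (b j : ℝ))
  obtain ⟨B1, hB1⟩ : ∃ B1, B1 = max B 1 := ⟨_, rfl⟩
  have hB1' : 1 ≤ B1 := hB1 ▸ le_max_right _ _
  have hbB : ∀ j, (b j : ℝ) ≤ B1 := fun j => (hB j).trans (hB1 ▸ le_max_left _ _)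
  have hlogB : 0 ≤ log B1 := Real.log_nonneg hB1'
  obtain ⟨η, hη, L0, H⟩ := far_freq α halg hind S hS g hg hgS (2 * r) ((A₀ + A₁) * log B1) δ (by positivity) hδ
  have hlim : Filter.Tendsto (fun k : ℕ => exp (η * k)) Filter.atTop Filter.atTop := by
    apply Real.tendsto_exp_atTop.comp
    exact Filter.Tendsto.const_mul_atTop hη tendsto_natCast_atTop_atTop
  obtain ⟨k1, hk1⟩ := Filter.eventually_atTop.1 (hlim.eventually_ge_atTop ((K : ℝ) ^ 3 + 1))
  obtain ⟨k2, hk2⟩ := exists_nat_ge L0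
  refine ⟨η, k1 + k2, hη, fun k hk ι Ω w v Δ h0 h1 hΔ hchar y s J hs n l c hn hnJ => ?_⟩
  have hkL : L0 ≤ k := hk2.trans (by exact_mod_cast (by omega : k2 ≤ k))
  have hke := hk1 k (by omega)
  obtain ⟨P, hP⟩ : ∃ P, P = wm Ω w (fun i j => v i * α j + y j) := ⟨_, rfl⟩
  rw [← hP]
  have hPp : IsProbabilityMeasure P := hP ▸ wm_prob h0 h1 _
  have hprob := Measure.isProbabilityMeasure_map (μ := P) (measurable_Psi b J s).aemeasurable
  have hq : 1 ≤ ∏ j, b j := prod_pos' hb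
  have hR0 : 0 ≤ (2 * (K : ℝ) ^ 3 + 1) ^ (2 * r) * Δ + (2 * r : ℕ) * (12 / K + 5 * Δ) := by positivity
  by_cases hc : ∃ i, (∏ j, b j) ^ l i ≤ c i
  · obtain ⟨i, hi⟩ := hc
    rw [WE_empty hq hi, measureReal_empty, measureReal_empty, sub_self, abs_zero]
    exact hR0
  push Not at hc
  choose V hV hV2 using fun i => mix_surj hb (l i) (c i) (hc i)
  rw [← Cube_WE hb s n l c, map_measureReal_apply (measurable_Psi b J s) (measurableSet_WE _ _ _ _)]
  have h1 : Psi b J s ⁻¹' WE (∏ j, b j) n l c =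
      {x | ∀ i, mix b (l i) (tw b (l i) (fun j => s j + n i) x) = c i} := by
    ext x
    unfold WE
    simp only [Set.mem_preimage, Set.mem_ofPred_eq]
    exact forall_congr' fun i => by rw [wd_Psi hb (hnJ i)]
  have h2 : {x : Fin r → ℝ | ∀ i, mix b (l i) (tw b (l i) (fun j => s j + n i) x) = c i} =
      {x | ∀ i, tw b (l i) (fun j => s j + n i) x = V i} := by
    ext x
    simp only [Set.mem_ofPred_eq]
    refine forall_congr' fun i => ?_
    rw [← hV2 i]
    constructor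
    · intro h
      exact mix_inj hb (l i) _ _ (tw_lt hb _ _ _) (hV i) h
    · intro h
      rw [h]
  rw [h1, h2, Ev_tq hb]
  rw [← integral_ind (fun q => measurable_lin q) P, ← integral_ind (fun q => measurable_lin q) (Cube r)]
  refine test hK (fun q => measurable_lin q) P (Cube r) (fun q hq => hat_Cube q hq) (tq b s n) ?_ Δ ?_ hΔ _ _
    (fun p => by positivity) (fun p => ?_)
  · intro p h hh h3
    have h4 := congrFun h3 (finProdFinEquiv.symm p).2
    unfold tq at h4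
    simp only [Pi.smul_apply, smul_eq_mul, Pi.zero_apply, Pi.single_eq_same, mul_one] at h4
    rcases mul_eq_zero.1 h4 with h5 | h5
    · exact hh h5
    · have : b (finProdFinEquiv.symm p).2 ^ (s (finProdFinEquiv.symm p).2 + n (finProdFinEquiv.symm p).1) = 0 := by
        exact_mod_cast h5
      exact pow_ne_zero _ (Nat.pos_iff_ne_zero.1 (hb _)) this
  · intro h hh hne
    rw [hP, hat_wm h0]
    apply hchar
    have e1 : ∀ j, (∑ p, h p • tq b s n p) j = ∑ p, h p * (((b (finProdFinEquiv.symm p).2 ^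
        (s (finProdFinEquiv.symm p).2 + n (finProdFinEquiv.symm p).1) : ℕ) : ℤ) *
        (Pi.single (finProdFinEquiv.symm p).2 1 : Fin r → ℤ) j) := by
      intro j
      rw [Finset.sum_apply]
      apply sum_congr rfl
      intro p _
      rw [Pi.smul_apply, smul_eq_mul]
      rfl
    have key := H k hkL (fun p => b (finProdFinEquiv.symm p).2 ^
        (s (finProdFinEquiv.symm p).2 + n (finProdFinEquiv.symm p).1))
      (fun p => (Pi.single (finProdFinEquiv.symm p).2 1 : Fin r → ℤ)) h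
      (fun p => smooth_pow ⟨Nat.pos_iff_ne_zero.1 (hb _), hbS _⟩ _) (fun p => ?_) (fun p => ?_) (fun p j => ?_) ?_
    · simp only [e1]
      exact key
    · set j := (finProdFinEquiv.symm p).2
      set i := (finProdFinEquiv.symm p).1
      have hbj : (1 : ℝ) ≤ b j := by exact_mod_cast hb j
      have h3 : ((s j + n i : ℕ) : ℝ) ≤ (A₀ + A₁) * k := by
        push_cast
        have h4 := hs j
        have h5 := hn i
        linarith
      push_cast
      calc (b j : ℝ) ^ (s j + n i) ≤ B1 ^ (s j + n i) := by gcongr; exact hbB j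
        _ = B1 ^ ((s j + n i : ℕ) : ℝ) := (Real.rpow_natCast _ _).symm
        _ ≤ B1 ^ ((A₀ + A₁) * k) := Real.rpow_le_rpow_of_exponent_le hB1' h3
        _ = exp ((A₀ + A₁) * log B1 * k) := by
            rw [Real.rpow_def_of_pos (by linarith)]
            congr 1
            ring
    · have h3 : |(h p : ℝ)| ≤ (K : ℝ) ^ 3 := by exact_mod_cast hh p
      linarith
    · have h3 : (1 : ℝ) ≤ exp (η * k) := by
        have : (0 : ℝ) ≤ (K : ℝ) ^ 3 := by positivity
        linarith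
      by_cases hj : j = (finProdFinEquiv.symm p).2
      · rw [hj, Pi.single_eq_same]
        simpa using h3
      · rw [Pi.single_eq_of_ne hj]
        simp only [Int.cast_zero, abs_zero]
        linarith
    · intro h3
      apply hne
      funext j
      rw [e1]
      exact congrFun h3 j
  · have h3 := hV (finProdFinEquiv.symm p).1 (finProdFinEquiv.symm p).2
    have hb0 : (0 : ℝ) < b (finProdFinEquiv.symm p).2 := by
      have := hb (finProdFinEquiv.symm p).2
      exact_mod_cast this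
    rw [div_le_one (by positivity)]
    exact_mod_cast h3

end Pool.Agent.R501.MT
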