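import Pool.Agent.R501.MT2

set_option autoImplicit false

/-! Multiples of algebraic numbers by integers given by their digits: frequencies of words in windows. -/

namespace Pool.Agent.R501.MT
open Finset Real MeasureTheory
open Pool.Agent.Y933.KD (e Leb wd wd_lt WS measurable_WS abs_WS_le Xw sq_sum_le ci ci_le ci_sum WS_ci)
open Pool.Agent.Y933.KE (WE mom_diffW)
open Pool.Agent.Y951.TU

variable {r : ℕ}

/-- every tuple of words of at most `w` digits stands with the right frequency in all the windows inside the first `A` places,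
up to an error `T` -/
def GoodV (b : Fin r → ℕ) (w : ℕ) (T A : ℝ) (s : Fin r → ℕ) (x : Fin r → ℝ) : Prop :=
  ∀ (l : ℕ) (D : Fin r → ℕ) (u N : ℕ), 1 ≤ l → l ≤ w → (∀ j, D j < b j ^ l) → (u : ℝ) + N ≤ A →
    |(((range N).filter (fun i => tw b l (fun j => s j + (u + i)) x = D)).card : ℝ) - N / ((∏ j, b j : ℕ) : ℝ) ^ l| ≤ T

lemma WS_add (B l : ℕ) (G : ℕ → ℝ) (u N : ℕ) (x : ℝ) : WS B l G 0 (u + N) x = WS B l G 0 u x + WS B l G u N x := by
  unfold WS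
  rw [sum_range_add]
  simp only [zero_add]

lemma good_of_prefix {b : Fin r → ℕ} (hb : ∀ j, 1 ≤ b j) {w J : ℕ} {T A : ℝ} (s : Fin r → ℕ) (x : Fin r → ℝ)
    (hJ : A + w ≤ J) (h : ∀ l c N : ℕ, 1 ≤ l → l ≤ w → c < (∏ j, b j) ^ l → (N : ℝ) ≤ A →
      |WS (∏ j, b j) l (ci (∏ j, b j) l c) 0 N (Psi b J s x)| ≤ T / 2) : GoodV b w T A s x := by
  intro l D u N hl hlw hD huN
  have hq : 1 ≤ ∏ j, b j := prod_pos' hb
  have hN0 : (0 : ℝ) ≤ N := Nat.cast_nonneg _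
  have hc := mix_lt hb l D
  have h1 := h l (mix b l D) (u + N) hl hlw hc (by push_cast; exact huN)
  have h2 := h l (mix b l D) u hl hlw hc (by linarith)
  rw [WS_add] at h1
  have h3 : |WS (∏ j, b j) l (ci (∏ j, b j) l (mix b l D)) u N (Psi b J s x)| ≤ T := by
    rw [abs_le] at h1 h2 ⊢
    constructor <;> linarith [h1.1, h1.2, h2.1, h2.2]
  rw [WS_ci hq] at h3
  have h4 : (range N).filter (fun i => wd (∏ j, b j) l (u + i) (Psi b J s x) = mix b l D) =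
      (range N).filter (fun i => tw b l (fun j => s j + (u + i)) x = D) := by
    apply filter_congr
    intro i hi
    rw [mem_range] at hi
    have h5 : (u + i) + l ≤ J := by
      have h6 : (((u + i) + l : ℕ) : ℝ) ≤ J := by
        push_cast
        have h7 : (i : ℝ) ≤ N := by exact_mod_cast hi.le
        have h8 : (l : ℝ) ≤ w := by exact_mod_cast hlw
        linarith
      exact_mod_cast h6
    rw [wd_Psi hb h5]
    constructor
    · intro h6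
      exact mix_inj hb l _ _ (tw_lt hb _ _ _) hD h6
    · intro h6
      rw [h6]
  rw [h4] at h3
  exact h3

lemma prefix_of_grid {B l c n t I : ℕ} (hB : 1 ≤ B) (ht : 1 ≤ t) {T : ℝ} (htT : (t : ℝ) ≤ T / 4) (x : ℝ) (hn : n / t ≤ I)
    (h : ∀ i ≤ I, |WS B l (ci B l c) 0 (i * t) x| ≤ T / 4) : |WS B l (ci B l c) 0 n x| ≤ T / 2 := by
  have h1 := h (n / t) hn
  have h2 : n = n / t * t + n % t := (Nat.div_add_mod' n t).symm
  rw [h2, WS_add]
  have h3 := abs_WS_le (b := B) (w := l) (ci_le hB l c) (n / t * t) (n % t) x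
  have h4 : ((n % t : ℕ) : ℝ) ≤ t := by exact_mod_cast (Nat.mod_lt n (by omega)).le
  refine (abs_add_le _ _).trans ?_
  linarith

lemma second_moment {B l c N : ℕ} (hB : 1 ≤ B) (hc : c < B ^ l) (P : Measure ℝ) [IsProbabilityMeasure P] {Δ : ℝ} (hΔ : 0 ≤ Δ)
    (h : ∀ n c' : Fin 2 → ℕ, (∀ i, n i ≤ 0 + N) →
      |P.real (WE B n (fun _ => l) c') - Leb.real (WE B n (fun _ => l) c')| ≤ Δ) :
    ∫ x, WS B l (ci B l c) 0 N x ^ 2 ∂P ≤ 2 * l * N + (N * (B : ℝ) ^ l) ^ 2 * Δ := by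
  have h1 := mom_diffW hB (ci_le hB l c) 0 N 2 P Leb hΔ h
  have h2 : ∫ x, WS B l (ci B l c) 0 N x ^ 2 ∂Leb ≤ 2 * l * N := by
    have h3 := sq_sum_le (K := 1) hB (ci_le hB l c) (ci_sum hB hc) (range N)
    have h4 : ∀ x, WS B l (ci B l c) 0 N x = ∑ n ∈ range N, Xw B l (ci B l c) n x := by
      intro x
      unfold WS Xw
      simp only [zero_add]
    simp only [h4]
    rw [card_range] at h3
    refine h3.trans (le_of_eq (by ring))
  have h5 := (abs_le.1 h1).2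
  rw [mul_one] at h5
  linarith

/-- the primes of the bases -/
def Sg (b : Fin r → ℕ) (g : ℕ) : Finset ℕ := (univ.biUnion fun j => (b j).primeFactors) ∪ g.primeFactors

lemma Sg_pos (b : Fin r → ℕ) (g : ℕ) : ∀ p ∈ Sg b g, 0 < p := by
  intro p hp
  unfold Sg at hp
  rw [mem_union, mem_biUnion] at hp
  rcases hp with ⟨j, _, hj⟩ | hp
  · exact (Nat.prime_of_mem_primeFactors hj).pos
  · exact (Nat.prime_of_mem_primeFactors hp).pos

lemma Sg_left (b : Fin r → ℕ) (g : ℕ) (j : Fin r) : (b j).primeFactors ⊆ Sg b g := fun _ hp =>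
  mem_union_left _ (mem_biUnion.2 ⟨j, mem_univ j, hp⟩)

lemma Sg_right (b : Fin r → ℕ) (g : ℕ) : g.primeFactors ⊆ Sg b g := fun _ hp => mem_union_right _ hp

theorem engine (α : Fin r → ℝ) (halg : ∀ j, IsAlgebraic ℚ (α j))
    (hind : ∀ c : Fin r → ℤ, c ≠ 0 → Irrational (∑ j, (c j : ℝ) * α j)) (b : Fin r → ℕ) (hb : ∀ j, 1 ≤ b j) (g : ℕ)
    (hg : 1 ≤ g) (w : ℕ) (A ε : ℝ) (hA : 0 < A) (hε : 0 < ε) :
    ∃ Δ : ℝ, 0 < Δ ∧ ∀ δ : ℝ, 0 < δ → ∃ (η : ℝ) (k₀ : ℕ), 0 < η ∧ ∀ k : ℕ, k₀ ≤ k →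
      ∀ (ι : Type) (Ω : Finset ι) (wt : ι → ℝ) (v : ι → ℤ), (∀ i ∈ Ω, 0 ≤ wt i) → ∑ i ∈ Ω, wt i = 1 →
      (∀ θ, FarG g η δ k θ → ‖∑ i ∈ Ω, (wt i : ℂ) * e (v i * θ)‖ ≤ Δ) →
      ∀ (y : Fin r → ℝ) (s : Fin r → ℕ), (∀ j, (s j : ℝ) ≤ A * k) → ∀ E : Finset ι, E ⊆ Ω →
      (∀ i ∈ E, ¬ GoodV b w (ε * k) (A * k) s (fun j => v i * α j + y j)) → ∑ i ∈ E, wt i ≤ ε := by
  classical
  have hq : 1 ≤ ∏ j, b j := prod_pos' hb
  obtain ⟨B, hB⟩ : ∃ B, B = ∏ j, b j := ⟨_, rfl⟩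
  rw [← hB] at hq
  have hB0 : (0 : ℝ) < B := by exact_mod_cast hq
  have hB1 : (1 : ℝ) ≤ B := by exact_mod_cast hq
  obtain ⟨I, hI⟩ : ∃ I, I = ⌈8 * A / ε⌉₊ := ⟨_, rfl⟩
  obtain ⟨Q, hQ⟩ : ∃ Q : ℕ, Q = w * (B ^ w * (I + 1)) := ⟨_, rfl⟩
  obtain ⟨A₂, hA₂⟩ : ∃ A₂, A₂ = 2 * A + ε := ⟨_, rfl⟩
  have hA₂0 : 0 < A₂ := by rw [hA₂]; positivity
  obtain ⟨C1, hC1⟩ : ∃ C1 : ℝ, C1 = Q * 16 * A₂ ^ 2 * ((B : ℝ) ^ w) ^ 2 / ε ^ 2 + 1 := ⟨_, rfl⟩
  have hC10 : 0 < C1 := by rw [hC1]; positivity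
  obtain ⟨D2, hD2⟩ : ∃ D2, D2 = ε / (2 * C1) := ⟨_, rfl⟩
  have hD20 : 0 < D2 := by rw [hD2]; positivity
  obtain ⟨K, hK⟩ : ∃ K : ℕ, K = ⌈48 * (r : ℝ) / D2⌉₊ + 1 := ⟨_, rfl⟩
  have hK0 : 0 < K := by omega
  have hKR : (0 : ℝ) < K := by exact_mod_cast hK0
  have hK1 : 24 * (r : ℝ) / K ≤ D2 / 2 := by
    have h1 : 48 * (r : ℝ) / D2 ≤ K := by
      rw [hK]
      push_cast
      linarith [Nat.le_ceil (48 * (r : ℝ) / D2)]
    rw [div_le_iff₀ hD20] at h1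
    rw [div_le_iff₀ hKR]
    linarith
  obtain ⟨M, hM⟩ : ∃ M : ℝ, M = (2 * (K : ℝ) ^ 3 + 1) ^ (2 * r) + 10 * r + 1 := ⟨_, rfl⟩
  have hM0 : 0 < M := by rw [hM]; positivity
  refine ⟨D2 / (2 * M), by positivity, fun δ hδ => ?_⟩
  obtain ⟨η, k1, hη, H⟩ := two_words α halg hind b hb (Sg b g) (Sg_pos b g) (Sg_left b g) g hg (Sg_right b g) A A₂ δ hA.le hA₂0.le hδ K hK0
  obtain ⟨k2, hk2⟩ := exists_nat_ge (8 / ε)
  obtain ⟨k3, hk3⟩ := exists_nat_ge (Q * 64 * w * A₂ / ε ^ 3)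
  refine ⟨η, k1 + k2 + k3 + 1, hη, fun k hk ι Ω wt v h0 h1 hchar y s hs E hE hbad => ?_⟩
  have hkR : (0 : ℝ) < k := by exact_mod_cast (by omega : 0 < k)
  have hk2' : 8 / ε ≤ k := hk2.trans (by exact_mod_cast (by omega : k2 ≤ k))
  have hk3' : Q * 64 * w * A₂ / ε ^ 3 ≤ k := hk3.trans (by exact_mod_cast (by omega : k3 ≤ k))
  have hεk : 8 ≤ ε * k := by
    rw [div_le_iff₀ hε] at hk2'
    linarith
  obtain ⟨t, ht⟩ : ∃ t, t = ⌊ε * k / 4⌋₊ := ⟨_, rfl⟩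
  have ht1 : (t : ℝ) ≤ ε * k / 4 := by rw [ht]; exact Nat.floor_le (by positivity)
  have ht2 : ε * k / 8 ≤ t := by
    have := Nat.lt_floor_add_one (ε * k / 4)
    rw [← ht] at this
    linarith
  have ht3 : 1 ≤ t := by
    have : (0 : ℝ) < t := by linarith
    exact_mod_cast this
  obtain ⟨J, hJ⟩ : ∃ J, J = ⌈A₂ * k⌉₊ + w := ⟨_, rfl⟩
  have hJ1 : A₂ * k + w ≤ J := by
    rw [hJ]
    push_cast
    linarith [Nat.le_ceil (A₂ * k)]
  have hAA : A * k ≤ A₂ * k := by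
    rw [hA₂]
    nlinarith
  obtain ⟨Δ₂, hΔ₂⟩ : ∃ Δ₂, Δ₂ = (2 * (K : ℝ) ^ 3 + 1) ^ (2 * r) * (D2 / (2 * M)) + (2 * r : ℕ) * (12 / K + 5 * (D2 / (2 * M))) := ⟨_, rfl⟩
  have hΔ₂0 : 0 ≤ Δ₂ := by rw [hΔ₂]; positivity
  have hΔ₂D : Δ₂ ≤ D2 := by
    have e1 : Δ₂ = ((2 * (K : ℝ) ^ 3 + 1) ^ (2 * r) + 10 * r) * (D2 / (2 * M)) + 24 * (r : ℝ) / K := by
      rw [hΔ₂]
      push_cast
      ring
    have e2 : ((2 * (K : ℝ) ^ 3 + 1) ^ (2 * r) + 10 * r) * (D2 / (2 * M)) ≤ M * (D2 / (2 * M)) := by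
      apply mul_le_mul_of_nonneg_right _ (by positivity)
      rw [hM]
      linarith
    have e3 : M * (D2 / (2 * M)) = D2 / 2 := by field_simp
    rw [e1]
    linarith
  obtain ⟨X, hX⟩ : ∃ X : ι → ℝ, X = fun i => Psi b J s (fun j => v i * α j + y j) := ⟨_, rfl⟩
  -- the second moments
  have hmom : ∀ l c i : ℕ, 1 ≤ l → l ≤ w → c < B ^ l → i ≤ I →
      ∑ m ∈ Ω, wt m * (WS B l (ci B l c) 0 (i * t) (X m)) ^ 2 ≤ 2 * w * A₂ * k + (A₂ * k * (B : ℝ) ^ w) ^ 2 * Δ₂ := by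
    intro l c i hl hlw hc hi
    have hPp : IsProbabilityMeasure (wm Ω wt (fun i j => v i * α j + y j)) := wm_prob h0 h1 _
    have hprob := Measure.isProbabilityMeasure_map (μ := wm Ω wt (fun i j => v i * α j + y j)) (measurable_Psi b J s).aemeasurable
    have hN : ((i * t : ℕ) : ℝ) ≤ A₂ * k := by
      push_cast
      have g1 : (i : ℝ) ≤ 8 * A / ε + 1 := by
        have : (I : ℝ) ≤ 8 * A / ε + 1 := by rw [hI]; exact (Nat.ceil_lt_add_one (by positivity)).le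
        have h3 : (i : ℝ) ≤ I := by exact_mod_cast hi
        linarith
      calc (i : ℝ) * t ≤ (8 * A / ε + 1) * (ε * k / 4) := mul_le_mul g1 ht1 (Nat.cast_nonneg _) (by positivity)
        _ = 2 * A * k + ε * k / 4 := by field_simp; ring
        _ ≤ A₂ * k := by rw [hA₂]; nlinarith
    have hsm := second_moment (N := i * t) hq hc ((wm Ω wt (fun i j => v i * α j + y j)).map (Psi b J s)) hΔ₂0 (by
      intro n c' hn
      rw [hB, hΔ₂]
      refine H k (by omega) ι Ω wt v _ h0 h1 (by positivity) hchar y s J hs n (fun _ => l) c' ?_ ?_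
      · intro i'
        have : ((n i' : ℕ) : ℝ) ≤ ((i * t : ℕ) : ℝ) := by
          have h3 := hn i'
          rw [zero_add] at h3
          exact_mod_cast h3
        linarith
      · intro i'
        have h3 : ((n i' : ℕ) : ℝ) ≤ ((i * t : ℕ) : ℝ) := by
          have h3 := hn i'
          rw [zero_add] at h3
          exact_mod_cast h3
        have h4 : ((n i' + l : ℕ) : ℝ) ≤ J := by
          push_cast
          have h5 : (l : ℝ) ≤ w := by exact_mod_cast hlw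
          linarith
        exact_mod_cast h4)
    rw [integral_map (measurable_Psi b J s).aemeasurable ((measurable_WS _ _ _ _ _).pow_const 2).aestronglyMeasurable,
      wm_int h0] at hsm
    have e1 : ∑ m ∈ Ω, wt m * (WS B l (ci B l c) 0 (i * t) (X m)) ^ 2 =
        ∑ m ∈ Ω, wt m • (WS B l (ci B l c) 0 (i * t) (Psi b J s (fun j => v m * α j + y j))) ^ 2 := by
      apply sum_congr rfl
      intro m _
      rw [hX, smul_eq_mul]
    rw [e1]
    refine hsm.trans ?_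
    have g1 : 2 * (l : ℝ) * ((i * t : ℕ) : ℝ) ≤ 2 * w * A₂ * k := by
      have h5 : (l : ℝ) ≤ w := by exact_mod_cast hlw
      calc 2 * (l : ℝ) * ((i * t : ℕ) : ℝ) ≤ 2 * w * (A₂ * k) := by
            apply mul_le_mul (by linarith) hN (Nat.cast_nonneg _) (by positivity)
        _ = _ := by ring
    have g2 : (((i * t : ℕ) : ℝ) * (B : ℝ) ^ l) ^ 2 * Δ₂ ≤ (A₂ * k * (B : ℝ) ^ w) ^ 2 * Δ₂ := by
      apply mul_le_mul_of_nonneg_right _ hΔ₂0
      apply pow_le_pow_left₀ (by positivity)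
      exact mul_le_mul hN (pow_le_pow_right₀ hB1 hlw) (by positivity) (by positivity)
    linarith
  -- the exceptional set
  obtain ⟨τ, hτ⟩ : ∃ τ : ℝ, τ = ε * k / 4 := ⟨_, rfl⟩
  have hτ0 : 0 < τ := by rw [hτ]; positivity
  obtain ⟨TT, hTT⟩ : ∃ TT : Finset (ℕ × (ℕ × ℕ)), TT = (Icc 1 w ×ˢ (range (B ^ w) ×ˢ range (I + 1))).filter (fun p => p.2.1 < B ^ p.1) := ⟨_, rfl⟩
  have hTTc : (TT.card : ℝ) ≤ Q := by
    have h3 : TT.card ≤ Q := by
      rw [hTT, hQ]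
      refine (card_filter_le _ _).trans (le_of_eq ?_)
      rw [card_product, card_product, card_range, card_range, Nat.card_Icc, Nat.add_sub_cancel]
    exact_mod_cast h3
  have hone : ∀ m ∈ E, 1 ≤ ∑ p ∈ TT, (WS B p.1 (ci B p.1 p.2.1) 0 (p.2.2 * t) (X m) / τ) ^ 2 := by
    intro m hm
    by_contra hcon
    push Not at hcon
    apply hbad m hm
    refine good_of_prefix hb (J := J) s _ (by linarith) ?_
    intro l c n hl hlw hc hn
    rw [← hB] at hc ⊢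
    refine prefix_of_grid (t := t) (I := I) hq ht3 (by linarith) _ ?_ ?_
    · have h3 : ((n / t : ℕ) : ℝ) ≤ I := by
        refine (Nat.cast_div_le).trans ?_
        have h4 : (n : ℝ) / t ≤ (A * k) / (ε * k / 8) := by
          apply div_le_div₀ (by positivity) hn (by positivity) ht2
        have h5 : (A * k) / (ε * k / 8) = 8 * A / ε := by field_simp
        rw [h5] at h4
        refine h4.trans ?_
        rw [hI]
        exact Nat.le_ceil _
      exact_mod_cast h3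
    · intro i hi
      by_contra hbig
      push Not at hbig
      have hmem : (l, (c, i)) ∈ TT := by
        rw [hTT, mem_filter, mem_product, mem_product, mem_Icc, mem_range, mem_range]
        refine ⟨⟨⟨hl, hlw⟩, ?_, Nat.lt_succ_of_le hi⟩, hc⟩
        exact hc.trans_le (Nat.pow_le_pow_right hq hlw)
      have h3 := single_le_sum (f := fun p : ℕ × (ℕ × ℕ) => (WS B p.1 (ci B p.1 p.2.1) 0 (p.2.2 * t) (X m) / τ) ^ 2)
        (fun p _ => sq_nonneg _) hmem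
      simp only at h3
      have h4 : 1 < (WS B l (ci B l c) 0 (i * t) (X m) / τ) ^ 2 := by
        rw [← sq_abs, abs_div, abs_of_pos hτ0]
        apply one_lt_pow₀ _ (by norm_num)
        rw [one_lt_div hτ0, hτ, hX]
        exact hbig
      linarith
  calc ∑ m ∈ E, wt m ≤ ∑ m ∈ E, wt m * ∑ p ∈ TT, (WS B p.1 (ci B p.1 p.2.1) 0 (p.2.2 * t) (X m) / τ) ^ 2 := by
        apply sum_le_sum
        intro m hm
        exact le_mul_of_one_le_right (h0 m (hE hm)) (hone m hm)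
    _ ≤ ∑ m ∈ Ω, wt m * ∑ p ∈ TT, (WS B p.1 (ci B p.1 p.2.1) 0 (p.2.2 * t) (X m) / τ) ^ 2 :=
        sum_le_sum_of_subset_of_nonneg hE fun m hm _ => mul_nonneg (h0 m hm) (sum_nonneg fun p _ => sq_nonneg _)
    _ = ∑ p ∈ TT, (1 / τ ^ 2) * ∑ m ∈ Ω, wt m * (WS B p.1 (ci B p.1 p.2.1) 0 (p.2.2 * t) (X m)) ^ 2 := by
        simp only [mul_sum]
        rw [sum_comm]
        apply sum_congr rfl
        intro p _
        apply sum_congr rfl
        intro m _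
        rw [div_pow]
        ring
    _ ≤ ∑ _p ∈ TT, (1 / τ ^ 2) * (2 * w * A₂ * k + (A₂ * k * (B : ℝ) ^ w) ^ 2 * Δ₂) := by
        apply sum_le_sum
        intro p hp
        rw [hTT, mem_filter, mem_product, mem_product, mem_Icc, mem_range, mem_range] at hp
        apply mul_le_mul_of_nonneg_left _ (by positivity)
        exact hmom p.1 p.2.1 p.2.2 hp.1.1.1 hp.1.1.2 hp.2 (Nat.lt_succ_iff.1 hp.1.2.2)
    _ = TT.card * ((1 / τ ^ 2) * (2 * w * A₂ * k + (A₂ * k * (B : ℝ) ^ w) ^ 2 * Δ₂)) := by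
        rw [sum_const, nsmul_eq_mul]
    _ ≤ Q * ((1 / τ ^ 2) * (2 * w * A₂ * k + (A₂ * k * (B : ℝ) ^ w) ^ 2 * D2)) := by
        apply mul_le_mul hTTc _ (by positivity) (Nat.cast_nonneg _)
        apply mul_le_mul_of_nonneg_left _ (by positivity)
        have := mul_le_mul_of_nonneg_left hΔ₂D (by positivity : (0 : ℝ) ≤ (A₂ * k * (B : ℝ) ^ w) ^ 2)
        linarith
    _ = (Q * 64 * w * A₂ / ε ^ 3) / k * (ε / 2) + Q * 16 * A₂ ^ 2 * ((B : ℝ) ^ w) ^ 2 / ε ^ 2 * D2 := by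
        rw [hτ]
        field_simp
        ring
    _ ≤ 1 * (ε / 2) + C1 * D2 := by
        apply add_le_add
        · apply mul_le_mul_of_nonneg_right _ (by positivity)
          rw [div_le_one hkR]
          exact hk3'
        · apply mul_le_mul_of_nonneg_right _ hD20.le
          rw [hC1]
          linarith
    _ = ε := by
        rw [hD2]
        field_simp
        ring

end Pool.Agent.R501.MT
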