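import Pool.Agent.R501.MT3

set_option autoImplicit false

/-! Multiples of algebraic numbers by integers given by their digits: the families. -/

namespace Pool.Agent.R501.MT
open Finset Real MeasureTheory
open Pool.Agent.Y933.KD (e)
open Pool.Agent.H807R2.Dav (ee ee_eq)
open Pool.Agent.R459.Eq (Decays Almost almost_of)
open Pool.Agent.TH872.An (GG GG_pos)

variable {r : ℕ}

lemma e_ee (x : ℝ) : e x = ee x := by
  rw [ee_eq]
  rfl

/-- one type of families -/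
theorem decays_good (α : Fin r → ℝ) (halg : ∀ j, IsAlgebraic ℚ (α j))
    (hind : ∀ c : Fin r → ℤ, c ≠ 0 → Irrational (∑ j, (c j : ℝ) * α j)) (b : Fin r → ℕ) (hb : ∀ j, 1 ≤ b j) (g : ℕ)
    (hg : 2 ≤ g) (w : ℕ) (A ε : ℝ) (hA : 0 < A) (hε : 0 < ε) (F A' : ℕ) (hF : 1 ≤ F) (γ : ℝ) (hγ0 : 0 < γ) (hγ1 : γ < 1) :
    ∃ k₀ : ℕ, ∀ k : ℕ, k₀ ≤ k → ∀ (y : Fin r → ℝ) (s : Fin r → ℕ), (∀ j, (s j : ℝ) ≤ A * k) →
      ∀ (ι : Type) (Ω : Finset ι) (wt : ι → ℝ) (v : ι → ℤ), Decays g F A' k γ 1 Ω wt v → ∀ E : Finset ι, E ⊆ Ω →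
      (∀ i ∈ E, ¬ GoodV b w (ε * k) (A * k) s (fun j => v i * α j + y j)) → ∑ i ∈ E, wt i ≤ ε := by
  obtain ⟨Δ, hΔ, H⟩ := engine α halg hind b hb g (by omega) w A ε hA hε
  obtain ⟨N, hN⟩ := exists_pow_lt_of_lt_one hΔ hγ1
  obtain ⟨J, hJ⟩ : ∃ J, J = A' * (N + 1) + 1 := ⟨_, rfl⟩
  have hJ0 : (0 : ℝ) < J := by exact_mod_cast (by omega : 0 < J)
  have hlog : 0 < log (g : ℝ) := Real.log_pos (by exact_mod_cast (by omega : 1 < g))
  obtain ⟨η, k1, hη, H1⟩ := H (log g / J) (by positivity)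
  have hlim : Filter.Tendsto (fun k : ℕ => exp (η * k)) Filter.atTop Filter.atTop := by
    apply Real.tendsto_exp_atTop.comp
    exact Filter.Tendsto.const_mul_atTop hη tendsto_natCast_atTop_atTop
  obtain ⟨k2, hk2⟩ := Filter.eventually_atTop.1 (hlim.eventually_ge_atTop (F : ℝ))
  refine ⟨k1 + k2 + J, fun k hk y s hs ι Ω wt v hdec E hE hbad => ?_⟩
  refine H1 k (by omega) ι Ω wt v hdec.nonneg hdec.sum (fun θ hθ => ?_) y s hs E hE hbad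
  have h1 := far_count g F J hg hF (by omega) le_rfl k (by omega) (hk2 k (by omega)) θ hθ
  have h2 := hdec.char θ N (by
    rw [show ((1 : ℤ) : ℝ) * θ = θ by push_cast; ring]
    omega) (by
    have : A' * N ≤ A' * (N + 1) := Nat.mul_le_mul_left _ (by omega)
    omega)
  have e1 : ∑ i ∈ Ω, (wt i : ℂ) * e (v i * θ) = ∑ i ∈ Ω, (wt i : ℂ) * ee ((v i : ℝ) * θ) := by
    apply sum_congr rfl
    intro i _
    rw [e_ee]
  rw [e1]
  exact h2.trans hN.le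

/-- all the families -/
theorem almost_good (α : Fin r → ℝ) (halg : ∀ j, IsAlgebraic ℚ (α j))
    (hind : ∀ c : Fin r → ℤ, c ≠ 0 → Irrational (∑ j, (c j : ℝ) * α j)) (b : Fin r → ℕ) (hb : ∀ j, 1 ≤ b j) (g : ℕ)
    (hg : 2 ≤ g) (w : ℕ) (A ε η : ℝ) (hA : 0 < A) (hε : 0 < ε) (hη : 0 < η) :
    ∃ k₀ : ℕ, ∀ k : ℕ, k₀ ≤ k → ∀ (y : Fin r → ℝ) (s : Fin r → ℕ), (∀ j, (s j : ℝ) ≤ A * k) →
      Almost g k 1 0 η ε (fun m => GoodV b w (ε * k) (A * k) s (fun j => m * α j + y j)) := by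
  obtain ⟨A₁, A₂, γ₁, γ₂, h1, h2, h3, h4, H⟩ := almost_of g hg η hη
  obtain ⟨k1, hk1⟩ := decays_good α halg hind b hb g hg w A ε hA hε (GG g) A₁ (GG_pos g hg) γ₁ h1 h2
  obtain ⟨k2, hk2⟩ := decays_good α halg hind b hb g hg w A ε hA hε (g ^ 4).factorial A₂ (Nat.factorial_pos _) γ₂ h3 h4
  refine ⟨k1 + k2 + 2, fun k hk y s hs => H k (by omega) 1 0 ε _ hε.le ?_⟩
  intro F A' γ hor ι Ω wt v hdec E hE hbad
  rcases hor with h | h
  · simp only [Prod.mk.injEq] at h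
    obtain ⟨rfl, rfl, rfl⟩ := h
    exact hk1 k (by omega) y s hs ι Ω wt v hdec E hE hbad
  · simp only [Prod.mk.injEq] at h
    obtain ⟨rfl, rfl, rfl⟩ := h
    exact hk2 k (by omega) y s hs ι Ω wt v hdec E hE hbad

end Pool.Agent.R501.MT
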