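import Pool.Agent.R501.MT4
import Pool.Agent.R318.ST.Dig

set_option autoImplicit false

/-! Multiples of algebraic numbers by integers with restricted digits. -/

namespace Pool.Agent.R501.MT
open Finset Real
open Pool.Agent.R318.ST (arrays wt dval Dist dig_decays)
open Pool.Agent.TH872.An (GG GG_pos)

variable {r : ℕ}

theorem restricted_good (α : Fin r → ℝ) (halg : ∀ j, IsAlgebraic ℚ (α j))
    (hind : ∀ c : Fin r → ℤ, c ≠ 0 → Irrational (∑ j, (c j : ℝ) * α j)) (b : Fin r → ℕ) (hb : ∀ j, 1 ≤ b j) (g : ℕ)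
    (hg : 2 ≤ g) (w : ℕ) (A ε : ℝ) (hA : 0 < A) (hε : 0 < ε) :
    ∃ k₀ : ℕ, ∀ k : ℕ, k₀ ≤ k → ∀ D : Fin k → Finset ℕ, (∀ i, D i ⊆ range g ∧ 2 ≤ (D i).card) →
      ∀ (y : Fin r → ℝ) (s : Fin r → ℕ), (∀ j, (s j : ℝ) ≤ A * k) →
      ∀ E : Finset (Fin k → ℕ), E ⊆ Fintype.piFinset D →
      (∀ a ∈ E, ¬ GoodV b w (ε * k) (A * k) s (fun j => ((∑ i : Fin k, a i * g ^ (i : ℕ) : ℕ) : ℝ) * α j + y j)) →
      (E.card : ℝ) ≤ ε * ((Fintype.piFinset D).card : ℝ) := by
  classical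
  obtain ⟨γ, hγ0, hγ1, hdec⟩ := dig_decays g hg (1 / 2) (by norm_num) (by norm_num)
  obtain ⟨k₀, H⟩ := decays_good α halg hind b hb g hg w A ε hA hε (GG g) 1 (GG_pos g hg) γ hγ0 hγ1
  refine ⟨k₀, fun k hk D hD y s hs E hE hbad => ?_⟩
  obtain ⟨u, hu⟩ : ∃ u : ℕ → ℕ → ℝ, u = fun i a => if h : i < k then (if a ∈ D ⟨i, h⟩ then 1 / ((D ⟨i, h⟩).card : ℝ) else 0) else 0 := ⟨_, rfl⟩
  have hcard : ∀ i : Fin k, (2 : ℝ) ≤ ((D i).card : ℝ) := fun i => by exact_mod_cast (hD i).2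
  have hdist : Dist g k (1 / 2) u := by
    refine ⟨fun i a => ?_, fun i hi => ?_, fun i hi => ?_⟩
    · rw [hu]
      simp only
      split_ifs <;> positivity
    · rw [hu]
      simp only [hi, dif_pos]
      rw [← sum_filter, sum_const, nsmul_eq_mul]
      have e1 : (range g).filter (fun a => a ∈ D ⟨i, hi⟩) = D ⟨i, hi⟩ := by
        ext a
        rw [mem_filter]
        exact ⟨fun h => h.2, fun h => ⟨(hD ⟨i, hi⟩).1 h, h⟩⟩
      rw [e1]
      have := hcard ⟨i, hi⟩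
      field_simp
    · rw [hu]
      simp only [hi, dif_pos]
      have e0 : ∀ a ∈ range g, (if a ∈ D ⟨i, hi⟩ then 1 / ((D ⟨i, hi⟩).card : ℝ) else 0) ^ 2 =
          if a ∈ D ⟨i, hi⟩ then (1 / ((D ⟨i, hi⟩).card : ℝ)) ^ 2 else 0 := by
        intro a _
        split_ifs <;> simp
      rw [sum_congr rfl e0, ← sum_filter, sum_const, nsmul_eq_mul]
      have e1 : (range g).filter (fun a => a ∈ D ⟨i, hi⟩) = D ⟨i, hi⟩ := by
        ext a
        rw [mem_filter]
        exact ⟨fun h => h.2, fun h => ⟨(hD ⟨i, hi⟩).1 h, h⟩⟩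
      rw [e1]
      have h2 := hcard ⟨i, hi⟩
      have e2 : ((D ⟨i, hi⟩).card : ℝ) * (1 / ((D ⟨i, hi⟩).card : ℝ)) ^ 2 = 1 / ((D ⟨i, hi⟩).card : ℝ) := by
        field_simp
      rw [e2]
      have : 1 / ((D ⟨i, hi⟩).card : ℝ) ≤ 1 / 2 := one_div_le_one_div_of_le (by norm_num) h2
      linarith
  have hval : ∀ a ∈ Fintype.piFinset D, wt u a = 1 / ((Fintype.piFinset D).card : ℝ) := by
    intro a ha
    rw [Fintype.mem_piFinset] at ha
    rw [Fintype.card_piFinset]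
    push_cast
    unfold wt
    rw [← prod_const_one, ← prod_div_distrib]
    apply prod_congr rfl
    intro i _
    rw [hu]
    simp only [i.2, dif_pos, Fin.eta]
    rw [if_pos (ha i)]
  have hsub : Fintype.piFinset D ⊆ arrays g k := by
    intro a ha
    rw [Fintype.mem_piFinset] at ha
    unfold arrays
    rw [Fintype.mem_piFinset]
    exact fun i => (hD i).1 (ha i)
  have h1 := H k hk y s hs _ (arrays g k) (wt u) _ (hdec k u hdist 0 1) E (hE.trans hsub) (by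
    intro a ha
    have h2 := hbad a ha
    have e1 : (fun j => ((0 + 1 * ((dval g a : ℕ) : ℤ) : ℤ) : ℝ) * α j + y j) =
        fun j => ((∑ i : Fin k, a i * g ^ (i : ℕ) : ℕ) : ℝ) * α j + y j := by
      funext j
      unfold dval
      push_cast
      ring
    rw [e1]
    exact h2)
  rw [sum_congr rfl fun a ha => hval a (hE ha), sum_const, nsmul_eq_mul] at h1
  have hpos : (0 : ℝ) < ((Fintype.piFinset D).card : ℝ) := by
    rw [Fintype.card_piFinset]
    push_cast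
    exact prod_pos fun i _ => by have := hcard i; linarith
  rw [mul_one_div, div_le_iff₀ hpos] at h1
  exact h1

end Pool.Agent.R501.MT
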