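import Pool.Agent.R501.MT3

set_option autoImplicit false

/-! The abstract second moment argument for words of digits. -/

namespace Pool.Agent.R501.MT
open Finset Real MeasureTheory
open Pool.Agent.Y933.KD (e Leb wd wd_lt WS measurable_WS abs_WS_le Xw sq_sum_le ci ci_le ci_sum WS_ci)
open Pool.Agent.Y933.KE (WE mom_diffW)

/-- all words of at most `w` digits stand with the right frequency in all the windows of the first `n ≤ T0` places, up to
an error `T` -/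
def GoodW (B w : ℕ) (T T0 x : ℝ) : Prop :=
  ∀ l c n : ℕ, 1 ≤ l → l ≤ w → c < B ^ l → (n : ℝ) ≤ T0 → |WS B l (ci B l c) 0 n x| ≤ T

lemma prefix_grid {B l c n t : ℕ} (hB : 1 ≤ B) (ht : 1 ≤ t) {T : ℝ} (htT : (t : ℝ) ≤ T / 4) (x : ℝ)
    (h : |WS B l (ci B l c) 0 (n / t * t) x| ≤ T / 4) : |WS B l (ci B l c) 0 n x| ≤ T / 2 := by
  have h2 : n = n / t * t + n % t := (Nat.div_add_mod' n t).symm
  rw [h2, WS_add]
  have h3 := abs_WS_le (b := B) (w := l) (ci_le hB l c) (n / t * t) (n % t) x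
  have h4 : ((n % t : ℕ) : ℝ) ≤ t := by exact_mod_cast (Nat.mod_lt n (by omega)).le
  refine (abs_add_le _ _).trans ?_
  linarith

theorem engine_abs (B : ℕ) (hq : 1 ≤ B) (w : ℕ) (A ε : ℝ) (hA : 0 < A) (hε : 0 < ε) :
    ∃ (D2 : ℝ) (k₀ : ℕ), 0 < D2 ∧ ∀ k : ℕ, k₀ ≤ k → ∀ T0 : ℝ, T0 ≤ A * k →
      ∀ (ι : Type) (Ω : Finset ι) (wt X : ι → ℝ), (∀ i ∈ Ω, 0 ≤ wt i) → ∑ i ∈ Ω, wt i = 1 →
      (∀ (l : ℕ) (n c : Fin 2 → ℕ), (∀ i, (n i : ℝ) ≤ T0) →
        |(wm Ω wt X).real (WE B n (fun _ => l) c) - Leb.real (WE B n (fun _ => l) c)| ≤ D2) →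
      ∀ E : Finset ι, E ⊆ Ω → (∀ i ∈ E, ¬ GoodW B w (ε * k / 2) T0 (X i)) → ∑ i ∈ E, wt i ≤ ε := by
  classical
  have hB0 : (0 : ℝ) < B := by exact_mod_cast hq
  have hB1 : (1 : ℝ) ≤ B := by exact_mod_cast hq
  obtain ⟨I, hI⟩ : ∃ I, I = ⌈8 * A / ε⌉₊ := ⟨_, rfl⟩
  obtain ⟨Q, hQ⟩ : ∃ Q : ℕ, Q = w * (B ^ w * (I + 1)) := ⟨_, rfl⟩
  obtain ⟨C1, hC1⟩ : ∃ C1 : ℝ, C1 = Q * 16 * A ^ 2 * ((B : ℝ) ^ w) ^ 2 / ε ^ 2 + 1 := ⟨_, rfl⟩
  have hC10 : 0 < C1 := by rw [hC1]; positivity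
  obtain ⟨D2, hD2⟩ : ∃ D2, D2 = ε / (2 * C1) := ⟨_, rfl⟩
  have hD20 : 0 < D2 := by rw [hD2]; positivity
  obtain ⟨k2, hk2⟩ := exists_nat_ge (8 / ε)
  obtain ⟨k3, hk3⟩ := exists_nat_ge (Q * 64 * w * A / ε ^ 3)
  refine ⟨D2, k2 + k3 + 1, hD20, fun k hk T0 hT0 ι Ω wt X h0 h1 H E hE hbad => ?_⟩
  have hkR : (0 : ℝ) < k := by exact_mod_cast (by omega : 0 < k)
  have hk2' : 8 / ε ≤ k := hk2.trans (by exact_mod_cast (by omega : k2 ≤ k))
  have hk3' : Q * 64 * w * A / ε ^ 3 ≤ k := hk3.trans (by exact_mod_cast (by omega : k3 ≤ k))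
  have hεk : 8 ≤ ε * k := by
    rw [div_le_iff₀ hε] at hk2'
    linarith
  obtain ⟨t, ht⟩ : ∃ t, t = ⌊ε * k / 4⌋₊ := ⟨_, rfl⟩
  have ht1 : (t : ℝ) ≤ ε * k / 4 := by rw [ht]; exact Nat.floor_le (by positivity)
  have ht2 : ε * k / 8 ≤ t := by
    have := Nat.lt_floor_add_one (ε * k / 4)
    rw [← ht] at this
    linarith
  have ht3 : 1 ≤ t := by
    have : (0 : ℝ) < t := by linarith
    exact_mod_cast this
  -- the second moments
  have hmom : ∀ l c i : ℕ, 1 ≤ l → l ≤ w → c < B ^ l → ((i * t : ℕ) : ℝ) ≤ T0 →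
      ∑ m ∈ Ω, wt m * (WS B l (ci B l c) 0 (i * t) (X m)) ^ 2 ≤ 2 * w * A * k + (A * k * (B : ℝ) ^ w) ^ 2 * D2 := by
    intro l c i hl hlw hc hi
    have hPp : IsProbabilityMeasure (wm Ω wt X) := wm_prob h0 h1 _
    have hN : ((i * t : ℕ) : ℝ) ≤ A * k := hi.trans hT0
    have hsm := second_moment (N := i * t) hq hc (wm Ω wt X) hD20.le (by
      intro n c' hn
      refine H l n c' fun i' => ?_
      have h3 := hn i'
      rw [zero_add] at h3
      have : ((n i' : ℕ) : ℝ) ≤ ((i * t : ℕ) : ℝ) := by exact_mod_cast h3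
      linarith)
    rw [wm_int h0] at hsm
    simp only [smul_eq_mul] at hsm
    refine hsm.trans ?_
    have g1 : 2 * (l : ℝ) * ((i * t : ℕ) : ℝ) ≤ 2 * w * A * k := by
      have h5 : (l : ℝ) ≤ w := by exact_mod_cast hlw
      calc 2 * (l : ℝ) * ((i * t : ℕ) : ℝ) ≤ 2 * w * (A * k) := by
            apply mul_le_mul (by linarith) hN (Nat.cast_nonneg _) (by positivity)
        _ = _ := by ring
    have g2 : (((i * t : ℕ) : ℝ) * (B : ℝ) ^ l) ^ 2 * D2 ≤ (A * k * (B : ℝ) ^ w) ^ 2 * D2 := by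
      apply mul_le_mul_of_nonneg_right _ hD20.le
      apply pow_le_pow_left₀ (by positivity)
      exact mul_le_mul hN (pow_le_pow_right₀ hB1 hlw) (by positivity) (by positivity)
    linarith
  -- the exceptional set
  obtain ⟨τ, hτ⟩ : ∃ τ : ℝ, τ = ε * k / 4 := ⟨_, rfl⟩
  have hτ0 : 0 < τ := by rw [hτ]; positivity
  obtain ⟨TT, hTT⟩ : ∃ TT : Finset (ℕ × (ℕ × ℕ)), TT = (Icc 1 w ×ˢ (range (B ^ w) ×ˢ range (I + 1))).filter
      (fun p => p.2.1 < B ^ p.1 ∧ ((p.2.2 * t : ℕ) : ℝ) ≤ T0) := ⟨_, rfl⟩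
  have hTTc : (TT.card : ℝ) ≤ Q := by
    have h3 : TT.card ≤ Q := by
      rw [hTT, hQ]
      refine (card_filter_le _ _).trans (le_of_eq ?_)
      rw [card_product, card_product, card_range, card_range, Nat.card_Icc, Nat.add_sub_cancel]
    exact_mod_cast h3
  have hone : ∀ m ∈ E, 1 ≤ ∑ p ∈ TT, (WS B p.1 (ci B p.1 p.2.1) 0 (p.2.2 * t) (X m) / τ) ^ 2 := by
    intro m hm
    by_contra hcon
    push Not at hcon
    apply hbad m hm
    intro l c n hl hlw hc hn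
    refine prefix_grid (t := t) hq ht3 (T := ε * k) (by linarith) _ ?_
    by_contra hbig
    push Not at hbig
    have hnt : ((n / t * t : ℕ) : ℝ) ≤ T0 := by
      have h3 : n / t * t ≤ n := Nat.div_mul_le_self n t
      have h4 : ((n / t * t : ℕ) : ℝ) ≤ n := by exact_mod_cast h3
      linarith
    have hmem : (l, (c, n / t)) ∈ TT := by
      rw [hTT, mem_filter, mem_product, mem_product, mem_Icc, mem_range, mem_range]
      refine ⟨⟨⟨hl, hlw⟩, ?_, Nat.lt_succ_of_le ?_⟩, hc, hnt⟩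
      · exact hc.trans_le (Nat.pow_le_pow_right hq hlw)
      · have h3 : ((n / t : ℕ) : ℝ) ≤ I := by
          refine (Nat.cast_div_le).trans ?_
          have h4 : (n : ℝ) / t ≤ (A * k) / (ε * k / 8) := by
            apply div_le_div₀ (by positivity) (by linarith) (by positivity) ht2
          have h5 : (A * k) / (ε * k / 8) = 8 * A / ε := by field_simp
          rw [h5] at h4
          refine h4.trans ?_
          rw [hI]
          exact Nat.le_ceil _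
        exact_mod_cast h3
    have h3 := single_le_sum (f := fun p : ℕ × (ℕ × ℕ) => (WS B p.1 (ci B p.1 p.2.1) 0 (p.2.2 * t) (X m) / τ) ^ 2)
      (fun p _ => sq_nonneg _) hmem
    simp only at h3
    have h4 : 1 < (WS B l (ci B l c) 0 (n / t * t) (X m) / τ) ^ 2 := by
      rw [← sq_abs, abs_div, abs_of_pos hτ0]
      apply one_lt_pow₀ _ (by norm_num)
      rw [one_lt_div hτ0, hτ]
      exact hbig
    linarith
  calc ∑ m ∈ E, wt m ≤ ∑ m ∈ E, wt m * ∑ p ∈ TT, (WS B p.1 (ci B p.1 p.2.1) 0 (p.2.2 * t) (X m) / τ) ^ 2 := by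
        apply sum_le_sum
        intro m hm
        exact le_mul_of_one_le_right (h0 m (hE hm)) (hone m hm)
    _ ≤ ∑ m ∈ Ω, wt m * ∑ p ∈ TT, (WS B p.1 (ci B p.1 p.2.1) 0 (p.2.2 * t) (X m) / τ) ^ 2 :=
        sum_le_sum_of_subset_of_nonneg hE fun m hm _ => mul_nonneg (h0 m hm) (sum_nonneg fun p _ => sq_nonneg _)
    _ = ∑ p ∈ TT, (1 / τ ^ 2) * ∑ m ∈ Ω, wt m * (WS B p.1 (ci B p.1 p.2.1) 0 (p.2.2 * t) (X m)) ^ 2 := by
        simp only [mul_sum]
        rw [sum_comm]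
        apply sum_congr rfl
        intro p _
        apply sum_congr rfl
        intro m _
        rw [div_pow]
        ring
    _ ≤ ∑ _p ∈ TT, (1 / τ ^ 2) * (2 * w * A * k + (A * k * (B : ℝ) ^ w) ^ 2 * D2) := by
        apply sum_le_sum
        intro p hp
        rw [hTT, mem_filter, mem_product, mem_product, mem_Icc, mem_range, mem_range] at hp
        apply mul_le_mul_of_nonneg_left _ (by positivity)
        exact hmom p.1 p.2.1 p.2.2 hp.1.1.1 hp.1.1.2 hp.2.1 hp.2.2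
    _ = TT.card * ((1 / τ ^ 2) * (2 * w * A * k + (A * k * (B : ℝ) ^ w) ^ 2 * D2)) := by
        rw [sum_const, nsmul_eq_mul]
    _ ≤ Q * ((1 / τ ^ 2) * (2 * w * A * k + (A * k * (B : ℝ) ^ w) ^ 2 * D2)) := by
        apply mul_le_mul hTTc le_rfl (by positivity) (Nat.cast_nonneg _)
    _ = (Q * 64 * w * A / ε ^ 3) / k * (ε / 2) + Q * 16 * A ^ 2 * ((B : ℝ) ^ w) ^ 2 / ε ^ 2 * D2 := by
        rw [hτ]
        field_simp
        ring
    _ ≤ 1 * (ε / 2) + C1 * D2 := by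
        apply add_le_add
        · apply mul_le_mul_of_nonneg_right _ (by positivity)
          rw [div_le_one hkR]
          exact hk3'
        · apply mul_le_mul_of_nonneg_right _ hD20.le
          rw [hC1]
          linarith
    _ = ε := by
        rw [hD2]
        field_simp
        ring

end Pool.Agent.R501.MT
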