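import Pool.Agent.R501.MT5
import Pool.Agent.R501.MT6
import Pool.Agent.Y933.KE.PowRes

set_option autoImplicit false

/-! Multiples of a power `p ^ N` by integers given by their digits in base `p`: their digits in base `q`. -/

namespace Pool.Agent.R501.MT
open Finset Real MeasureTheory
open Pool.Agent.Y933.KD (e e_zero e_add norm_e Leb hat_Leb wd wd_lt WS abs_WS_le ind ci ci_le WS_ci integral_ind)
open Pool.Agent.Y933.KE (WE WE_eq WE_empty measurableSet_WE powers_far wd_smear count_places)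
open Pool.Agent.R459.Eq (Decays Almost almost_of)
open Pool.Agent.TH872.An (GG GG_pos)

lemma hat_wm1 {ι : Type} {Ω : Finset ι} {w : ι → ℝ} (h0 : ∀ i ∈ Ω, 0 ≤ w i) (v : ι → ℤ) (a y : ℝ)
    (l : ℤ) : ‖Pool.Agent.Y933.KD.hat (wm Ω w (fun i => v i * a + y)) l‖ =
      ‖∑ i ∈ Ω, (w i : ℂ) * e (v i * (a * l))‖ := by
  unfold Pool.Agent.Y933.KD.hat
  rw [wm_int h0]
  have h1 : ∑ i ∈ Ω, w i • e (l * (v i * a + y)) = e (l * y) * ∑ i ∈ Ω, (w i : ℂ) * e (v i * (a * l)) := by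
    rw [mul_sum]
    apply sum_congr rfl
    intro i _
    have e1 : (l : ℝ) * (v i * a + y) = l * y + v i * (a * l) := by ring
    rw [e1, e_add, Complex.real_smul]
    ring
  rw [h1, norm_mul, norm_e, one_mul]

/-- the frequencies that occur are far from the rational numbers with small denominators -/
theorem far_pow {p q : ℕ} (hp : 2 ≤ p) (hq : 2 ≤ q) (hpq : p.Coprime q) (F K : ℕ) (hF : 1 ≤ F) (A δ : ℝ) (hA : 0 < A)
    (hδ : 0 < δ) :
    ∃ c k₀ : ℕ, ∀ k : ℕ, k₀ ≤ k → ∀ N J : ℕ, (N : ℝ) ≤ A * k → q ^ J ≤ p ^ N → ∀ n : Fin 2 → ℕ, (∀ i, n i + c ≤ J) →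
      ∀ h : Fin 2 → ℤ, (∀ i, |h i| ≤ (K : ℤ) ^ 3) → ∑ i, h i * (q : ℤ) ^ n i ≠ 0 →
      FarG p (log F / k) δ k ((p : ℝ) ^ N / (q : ℝ) ^ J * ((∑ i, h i * (q : ℤ) ^ n i : ℤ) : ℝ)) := by
  have hqR : (2 : ℝ) ≤ q := by exact_mod_cast hq
  have hq0 : (0 : ℝ) < q := by linarith
  have hpR : (2 : ℝ) ≤ p := by exact_mod_cast hp
  have hp0 : (0 : ℝ) < p := by linarith
  have hlq : 0 < log (q : ℝ) := Real.log_pos (by linarith)
  have hlp : 0 < log (p : ℝ) := Real.log_pos (by linarith)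
  obtain ⟨A₁, hA₁⟩ : ∃ A₁, A₁ = A + 1 + A * log p / log q := ⟨_, rfl⟩
  obtain ⟨η, hη, L0, H⟩ := powers_far hp hq hpq 2 A₁ δ hδ
  obtain ⟨c, hc⟩ : ∃ c : ℕ, F * (2 * K ^ 3) < q ^ c := ⟨F * (2 * K ^ 3), Nat.lt_pow_self (by omega)⟩
  have hlim : Filter.Tendsto (fun k : ℕ => exp (η * k)) Filter.atTop Filter.atTop := by
    apply Real.tendsto_exp_atTop.comp
    exact Filter.Tendsto.const_mul_atTop hη tendsto_natCast_atTop_atTop
  obtain ⟨k1, hk1⟩ := Filter.eventually_atTop.1 (hlim.eventually_ge_atTop ((F * K ^ 3 : ℕ) : ℝ))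
  refine ⟨c, L0 + k1 + 1, fun k hk N J hN hJ n hn h hh hne => ?_⟩
  have hkR : (0 : ℝ) < k := by exact_mod_cast (by omega : 0 < k)
  intro i₀ q' P hi₀ hq' hq'F
  have hFR : (0 : ℝ) < F := by exact_mod_cast hF
  have e0 : log (F : ℝ) / k * k = log F := by field_simp
  rw [e0, Real.exp_log hFR] at hq'F
  have hq'F' : |q'| ≤ (F : ℤ) := by exact_mod_cast hq'F
  have hJA : (J : ℝ) ≤ A * log p / log q * k := by
    have h3 : (q : ℝ) ^ J ≤ (p : ℝ) ^ N := by exact_mod_cast hJ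
    have h4 := Real.log_le_log (by positivity) h3
    rw [Real.log_pow, Real.log_pow] at h4
    have h5 : A * log p / log q * k = (A * k) * log p / log q := by ring
    rw [h5, le_div_iff₀ hlq]
    exact h4.trans (by gcongr)
  have e1 : ∑ i, (q' * h i) * (q : ℤ) ^ n i = q' * ∑ i, h i * (q : ℤ) ^ n i := by
    rw [mul_sum]
    apply sum_congr rfl
    intro i _
    ring
  have key := H k (by omega) (N + i₀) J n (fun i => q' * h i) P ?_ ?_ ?_ ?_ ?_
  · rw [e1] at key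
    have e2 : (p : ℝ) ^ (N + i₀) * (((q' * ∑ i, h i * (q : ℤ) ^ n i : ℤ) : ℝ) / (q : ℝ) ^ J) =
        q' * ((p : ℝ) ^ i₀ * ((p : ℝ) ^ N / (q : ℝ) ^ J * ((∑ i, h i * (q : ℤ) ^ n i : ℤ) : ℝ))) := by
      rw [Int.cast_mul, pow_add]
      ring
    rw [e2] at key
    exact key
  · rw [hA₁]
    push_cast
    have : 0 ≤ A * log p / log q * k := by positivity
    nlinarith
  · intro i
    have h3 : (n i : ℝ) ≤ J := by exact_mod_cast (by have := hn i; omega : n i ≤ J)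
    rw [hA₁]
    nlinarith
  · refine hJ.trans (Nat.pow_le_pow_right (by omega) (by omega))
  · intro i
    refine le_trans ?_ (hk1 k (by omega))
    push_cast
    rw [abs_mul]
    have h3 : |(h i : ℝ)| ≤ (K : ℝ) ^ 3 := by exact_mod_cast hh i
    exact mul_le_mul hq'F h3 (abs_nonneg _) hFR.le
  · rw [e1]
    intro hdvd
    have h3 : |q' * ∑ i, h i * (q : ℤ) ^ n i| < (q : ℤ) ^ J := by
      have hcJ : c ≤ J := by have := hn 0; omega
      have h4 : |∑ i, h i * (q : ℤ) ^ n i| ≤ 2 * (K : ℤ) ^ 3 * (q : ℤ) ^ (J - c) := by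
        refine (abs_sum_le_sum_abs _ _).trans ?_
        have h5 : ∀ i : Fin 2, |h i * (q : ℤ) ^ n i| ≤ (K : ℤ) ^ 3 * (q : ℤ) ^ (J - c) := by
          intro i
          rw [abs_mul, abs_of_nonneg (by positivity : (0 : ℤ) ≤ (q : ℤ) ^ n i)]
          apply mul_le_mul (hh i) _ (by positivity) (by positivity)
          apply pow_le_pow_right₀ (by exact_mod_cast (by omega : 1 ≤ q))
          have := hn i
          omega
        refine (sum_le_sum fun i _ => h5 i).trans (le_of_eq ?_)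
        rw [sum_const, card_univ, Fintype.card_fin]
        simp only [nsmul_eq_mul]
        push_cast
        ring
      rw [abs_mul]
      have h6 : (F : ℤ) * (2 * (K : ℤ) ^ 3) < (q : ℤ) ^ c := by exact_mod_cast hc
      calc |q'| * |∑ i, h i * (q : ℤ) ^ n i| ≤ F * (2 * (K : ℤ) ^ 3 * (q : ℤ) ^ (J - c)) :=
            mul_le_mul hq'F' h4 (abs_nonneg _) (by positivity)
        _ = F * (2 * (K : ℤ) ^ 3) * (q : ℤ) ^ (J - c) := by ring
        _ < (q : ℤ) ^ c * (q : ℤ) ^ (J - c) := by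
            apply mul_lt_mul_of_pos_right h6 (by positivity)
        _ = (q : ℤ) ^ J := by rw [← pow_add]; congr 1; omega
    have h4 := Int.eq_zero_of_abs_lt_dvd hdvd h3
    exact (mul_ne_zero hq' hne) h4

/-- one type of families -/
theorem decays_pow {p q : ℕ} (hp : 2 ≤ p) (hq : 2 ≤ q) (hpq : p.Coprime q) (w : ℕ) (A ε : ℝ) (hA : 0 < A) (hε : 0 < ε)
    (F A' : ℕ) (hF : 1 ≤ F) (γ : ℝ) (hγ0 : 0 < γ) (hγ1 : γ < 1) :
    ∃ c k₀ : ℕ, ∀ k : ℕ, k₀ ≤ k → ∀ (N J : ℕ) (y : ℝ), (N : ℝ) ≤ A * k → q ^ J ≤ p ^ N →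
      ∀ (ι : Type) (Ω : Finset ι) (wt : ι → ℝ) (v : ι → ℤ), Decays p F A' k γ 1 Ω wt v → ∀ E : Finset ι, E ⊆ Ω →
      (∀ i ∈ E, ¬ GoodW q w (ε * k / 2) ((J : ℝ) - c) (v i * ((p : ℝ) ^ N / (q : ℝ) ^ J) + y)) → ∑ i ∈ E, wt i ≤ ε := by
  have hqR : (2 : ℝ) ≤ q := by exact_mod_cast hq
  have hq0 : (0 : ℝ) < q := by linarith
  have hpR : (2 : ℝ) ≤ p := by exact_mod_cast hp
  have hp0 : (0 : ℝ) < p := by linarith
  have hlq : 0 < log (q : ℝ) := Real.log_pos (by linarith)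
  have hlp : 0 < log (p : ℝ) := Real.log_pos (by linarith)
  obtain ⟨A₂, hA₂⟩ : ∃ A₂, A₂ = A * log p / log q := ⟨_, rfl⟩
  have hA₂0 : 0 < A₂ := by rw [hA₂]; positivity
  obtain ⟨D2, k1, hD20, Heng⟩ := engine_abs q (by omega) w A₂ ε hA₂0 hε
  obtain ⟨K, hK⟩ : ∃ K : ℕ, K = ⌈48 / D2⌉₊ + 1 := ⟨_, rfl⟩
  have hK0 : 0 < K := by omega
  have hKR : (0 : ℝ) < K := by exact_mod_cast hK0
  have hK1 : 24 / (K : ℝ) ≤ D2 / 2 := by
    have h1 : 48 / D2 ≤ K := by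
      rw [hK]
      push_cast
      linarith [Nat.le_ceil (48 / D2)]
    rw [div_le_iff₀ hD20] at h1
    rw [div_le_iff₀ hKR]
    linarith
  obtain ⟨M, hM⟩ : ∃ M : ℝ, M = (2 * (K : ℝ) ^ 3 + 1) ^ 2 + 10 := ⟨_, rfl⟩
  have hM0 : 0 < M := by rw [hM]; positivity
  obtain ⟨Δ, hΔ⟩ : ∃ Δ, Δ = D2 / (2 * M) := ⟨_, rfl⟩
  have hΔ0 : 0 < Δ := by rw [hΔ]; positivity
  have hΔD : (2 * (K : ℝ) ^ 3 + 1) ^ 2 * Δ + 2 * (12 / K + 5 * Δ) ≤ D2 := by
    have e3 : M * Δ = D2 / 2 := by rw [hΔ]; field_simp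
    have e4 : (2 * (K : ℝ) ^ 3 + 1) ^ 2 * Δ + 2 * (12 / K + 5 * Δ) = M * Δ + 24 / K := by rw [hM]; ring
    rw [e4, e3]
    linarith
  obtain ⟨N₀, hN₀⟩ := exists_pow_lt_of_lt_one hΔ0 hγ1
  obtain ⟨J₀, hJ₀⟩ : ∃ J₀, J₀ = A' * (N₀ + 1) + 1 := ⟨_, rfl⟩
  have hJ0 : (0 : ℝ) < J₀ := by exact_mod_cast (by omega : 0 < J₀)
  obtain ⟨c, k2, Hfar⟩ := far_pow hp hq hpq F K hF A (log p / J₀) hA (by positivity)
  refine ⟨c, k1 + k2 + J₀, fun k hk N J y hN hJ ι Ω wt v hdec E hE hbad => ?_⟩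
  have hkR : (0 : ℝ) < k := by exact_mod_cast (by omega : 0 < k)
  have hJA : (J : ℝ) ≤ A₂ * k := by
    have h3 : (q : ℝ) ^ J ≤ (p : ℝ) ^ N := by exact_mod_cast hJ
    have h4 := Real.log_le_log (by positivity) h3
    rw [Real.log_pow, Real.log_pow] at h4
    have h5 : A₂ * k = (A * k) * log p / log q := by rw [hA₂]; ring
    rw [h5, le_div_iff₀ hlq]
    exact h4.trans (by gcongr)
  have h0 := hdec.nonneg
  have h1 := hdec.sum
  refine Heng k (by omega) ((J : ℝ) - c) (by linarith [(Nat.cast_nonneg c : (0 : ℝ) ≤ c)]) ι Ω wt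
    (fun i => v i * ((p : ℝ) ^ N / (q : ℝ) ^ J) + y) h0 h1 (fun l n cc hn => ?_) E hE hbad
  have hn' : ∀ i, n i + c ≤ J := by
    intro i
    have h3 := hn i
    have : ((n i + c : ℕ) : ℝ) ≤ J := by push_cast; linarith
    exact_mod_cast this
  have hPp : IsProbabilityMeasure (wm Ω wt (fun i => v i * ((p : ℝ) ^ N / (q : ℝ) ^ J) + y)) := wm_prob h0 h1 _
  by_cases hcc : ∃ i, q ^ l ≤ cc i
  · obtain ⟨i, hi⟩ := hcc
    rw [WE_empty (by omega) hi, measureReal_empty, measureReal_empty, sub_self, abs_zero]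
    exact hD20.le
  push Not at hcc
  have key := Pool.Agent.Y933.KD.test hK0 (wm Ω wt (fun i => v i * ((p : ℝ) ^ N / (q : ℝ) ^ J) + y)) Leb hat_Leb
    (fun i => (q : ℤ) ^ n i) (fun i => pow_ne_zero _ (by omega)) Δ (by
      intro h hh hne
      rw [hat_wm1 h0]
      have hfar := Hfar k (by omega) N J hN hJ n hn' h hh hne
      have h2 := far_count p F J₀ hp hF (by omega) le_rfl k (by omega) (by
        have : log (F : ℝ) / k * k = log F := by field_simp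
        rw [this, Real.exp_log (by exact_mod_cast hF)]) _ hfar
      have h3 := hdec.char ((p : ℝ) ^ N / (q : ℝ) ^ J * ((∑ i, h i * (q : ℤ) ^ n i : ℤ) : ℝ)) N₀ (by
        rw [Int.cast_one, one_mul]
        omega) (by
        have : A' * N₀ ≤ A' * (N₀ + 1) := Nat.mul_le_mul_left _ (by omega)
        omega)
      have e1 : ∀ θ : ℝ, ∑ i ∈ Ω, (wt i : ℂ) * e (v i * θ) = ∑ i ∈ Ω, (wt i : ℂ) * Pool.Agent.H807R2.Dav.ee ((v i : ℝ) * θ) := by
        intro θ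
        apply sum_congr rfl
        intro i _
        rw [e_ee]
      rw [e1]
      exact h3.trans hN₀.le) hΔ0.le (fun i => (cc i : ℝ) / (q : ℝ) ^ l) (fun i => ((cc i : ℝ) + 1) / (q : ℝ) ^ l)
      (fun i => by positivity) (fun i => by
        rw [div_le_one (by positivity)]
        exact_mod_cast hcc i)
  rw [integral_ind _ (fun _ => q) n _ _, integral_ind Leb (fun _ => q) n _ _, ← WE_eq (by omega) n (fun _ => l) cc] at key
  exact key.trans (by push_cast; exact hΔD)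

end Pool.Agent.R501.MT
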