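import Pool.Agent.R501.MT7

set_option autoImplicit false

/-! Multiples of a power `p ^ N` by integers given by their digits in base `p`: the places of integers and the
families. -/

namespace Pool.Agent.R501.MT
open Finset Real
open Pool.Agent.Y933.KD (wd WS abs_WS_le ci ci_le WS_ci)
open Pool.Agent.Y933.KE (count_places)
open Pool.Agent.R459.Eq (Decays Almost almost_of)
open Pool.Agent.TH872.An (GG GG_pos)
open Pool.Agent.R318.ST (arrays wt dval Dist dig_decays)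

/-- all words of at most `w` digits stand with the right frequency, up to an error of `T` places, in all the windows of
the `J` lowest places of the natural number `X` -/
def GoodN (q w : ℕ) (T : ℝ) (J X : ℕ) : Prop :=
  ∀ l j i₀ L : ℕ, 1 ≤ l → l ≤ w → j < q ^ l → i₀ + L + l ≤ J + 1 →
    |(((range L).filter (fun i => X / q ^ (i₀ + i) % q ^ l = j)).card : ℝ) - L / (q : ℝ) ^ l| ≤ T

lemma GoodW.mono {q w : ℕ} {T T0 T1 x : ℝ} (h : GoodW q w T T0 x) (h1 : T1 ≤ T0) : GoodW q w T T1 x :=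
  fun l c n hl hlw hc hn => h l c n hl hlw hc (hn.trans h1)

lemma goodN_of_W {q w J c : ℕ} (hq : 1 ≤ q) {T : ℝ} (hT : 0 ≤ T) (X : ℕ)
    (h : GoodW q w T ((J : ℝ) - c) ((X : ℝ) / (q : ℝ) ^ J)) : GoodN q w (2 * (T + c)) J X := by
  intro l j i₀ L hl hlw hj hJ
  have hc0 : (0 : ℝ) ≤ c := Nat.cast_nonneg c
  have pre : ∀ n : ℕ, n ≤ J → |WS q l (ci q l j) 0 n ((X : ℝ) / (q : ℝ) ^ J)| ≤ T + c := by
    intro n hn
    rcases le_or_gt (n + c) J with h1 | h1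
    · have h2 : (n : ℝ) ≤ (J : ℝ) - c := by
        have : ((n + c : ℕ) : ℝ) ≤ J := by exact_mod_cast h1
        push_cast at this
        linarith
      have h3 := h l j n hl hlw hj h2
      linarith
    · rcases le_or_gt c J with h2 | h2
      · obtain ⟨d, hd⟩ : ∃ d, n = (J - c) + d := ⟨n - (J - c), by omega⟩
        have hdc : (d : ℝ) ≤ c := by exact_mod_cast (by omega : d ≤ c)
        have h3 := h l j (J - c) hl hlw hj (by rw [Nat.cast_sub h2])
        have h4 := abs_WS_le (b := q) (w := l) (ci_le hq l j) (J - c) d ((X : ℝ) / (q : ℝ) ^ J)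
        rw [hd, WS_add]
        refine (abs_add_le _ _).trans ?_
        linarith
      · have h4 := abs_WS_le (b := q) (w := l) (ci_le hq l j) 0 n ((X : ℝ) / (q : ℝ) ^ J)
        have h5 : (n : ℝ) ≤ c := by exact_mod_cast (by omega : n ≤ c)
        linarith
  obtain ⟨s', hs'⟩ : ∃ s', s' + i₀ + L + l = J + 1 := ⟨J + 1 - (i₀ + L + l), by omega⟩
  have h1 := pre s' (by omega)
  have h2 := pre (s' + L) (by omega)
  rw [WS_add] at h2
  have h3 : |WS q l (ci q l j) s' L ((X : ℝ) / (q : ℝ) ^ J)| ≤ 2 * (T + c) := by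
    rw [abs_le] at h1 h2 ⊢
    constructor <;> linarith [h1.1, h1.2, h2.1, h2.2]
  rw [WS_ci hq] at h3
  have h4 := count_places hq j (s := i₀) hs' X (θ := 0) ⟨le_rfl, one_pos⟩
  rw [add_zero] at h4
  rw [h4] at h3
  exact h3

lemma goodN_mul {p q w N J c : ℕ} (hq : 2 ≤ q) {T : ℝ} (hT : 0 ≤ T) (m y : ℕ)
    (h : GoodW q w T ((J : ℝ) - c) ((m : ℝ) * ((p : ℝ) ^ N / (q : ℝ) ^ J) + (y : ℝ) / (q : ℝ) ^ J)) :
    GoodN q w (2 * (T + c)) J (m * p ^ N + y) := by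
  apply goodN_of_W (by omega) hT
  have e1 : ((m * p ^ N + y : ℕ) : ℝ) / (q : ℝ) ^ J =
      (m : ℝ) * ((p : ℝ) ^ N / (q : ℝ) ^ J) + (y : ℝ) / (q : ℝ) ^ J := by
    push_cast
    ring
  rw [e1]
  exact h

/-- all the families -/
theorem almost_pow {p q : ℕ} (hp : 2 ≤ p) (hq : 2 ≤ q) (hpq : p.Coprime q) (w : ℕ) (A ε η : ℝ) (hA : 0 < A) (hε : 0 < ε)
    (hη : 0 < η) : ∃ c k₀ : ℕ, ∀ k : ℕ, k₀ ≤ k → ∀ (N J : ℕ) (y : ℝ), (N : ℝ) ≤ A * k → q ^ J ≤ p ^ N →
      Almost p k 1 0 η ε (fun m => GoodW q w (ε * k / 2) ((J : ℝ) - c) (m * ((p : ℝ) ^ N / (q : ℝ) ^ J) + y)) := by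
  obtain ⟨A₁, A₂, γ₁, γ₂, h1, h2, h3, h4, H⟩ := almost_of p hp η hη
  obtain ⟨c1, k1, hk1⟩ := decays_pow hp hq hpq w A ε hA hε (GG p) A₁ (GG_pos p hp) γ₁ h1 h2
  obtain ⟨c2, k2, hk2⟩ := decays_pow hp hq hpq w A ε hA hε (p ^ 4).factorial A₂ (Nat.factorial_pos _) γ₂ h3 h4
  refine ⟨max c1 c2, k1 + k2 + 2, fun k hk N J y hN hJ => H k (by omega) 1 0 ε _ hε.le ?_⟩
  intro F A' γ hor ι Ω wt v hdec E hE hbad
  have e1 : (c1 : ℝ) ≤ ((max c1 c2 : ℕ) : ℝ) := by exact_mod_cast le_max_left c1 c2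
  have e2 : (c2 : ℝ) ≤ ((max c1 c2 : ℕ) : ℝ) := by exact_mod_cast le_max_right c1 c2
  rcases hor with h | h
  · simp only [Prod.mk.injEq] at h
    obtain ⟨rfl, rfl, rfl⟩ := h
    exact hk1 k (by omega) N J y hN hJ ι Ω wt v hdec E hE fun i hi hgood => hbad i hi (hgood.mono (by linarith))
  · simp only [Prod.mk.injEq] at h
    obtain ⟨rfl, rfl, rfl⟩ := h
    exact hk2 k (by omega) N J y hN hJ ι Ω wt v hdec E hE fun i hi hgood => hbad i hi (hgood.mono (by linarith))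

/-- integers with restricted digits -/
theorem restricted_pow {p q : ℕ} (hp : 2 ≤ p) (hq : 2 ≤ q) (hpq : p.Coprime q) (w : ℕ) (A ε : ℝ) (hA : 0 < A)
    (hε : 0 < ε) : ∃ c k₀ : ℕ, ∀ k : ℕ, k₀ ≤ k → ∀ D : Fin k → Finset ℕ, (∀ i, D i ⊆ range p ∧ 2 ≤ (D i).card) →
      ∀ (N J : ℕ) (y : ℝ), (N : ℝ) ≤ A * k → q ^ J ≤ p ^ N →
      ∀ E : Finset (Fin k → ℕ), E ⊆ Fintype.piFinset D →
      (∀ a ∈ E, ¬ GoodW q w (ε * k / 2) ((J : ℝ) - c)
        (((∑ i : Fin k, a i * p ^ (i : ℕ) : ℕ) : ℝ) * ((p : ℝ) ^ N / (q : ℝ) ^ J) + y)) →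
      (E.card : ℝ) ≤ ε * ((Fintype.piFinset D).card : ℝ) := by
  classical
  obtain ⟨γ, hγ0, hγ1, hdec⟩ := dig_decays p hp (1 / 2) (by norm_num) (by norm_num)
  obtain ⟨c, k₀, H⟩ := decays_pow hp hq hpq w A ε hA hε (GG p) 1 (GG_pos p hp) γ hγ0 hγ1
  refine ⟨c, k₀, fun k hk D hD N J y hN hJ E hE hbad => ?_⟩
  obtain ⟨u, hu⟩ : ∃ u : ℕ → ℕ → ℝ, u = fun i a => if h : i < k then (if a ∈ D ⟨i, h⟩ then 1 / ((D ⟨i, h⟩).card : ℝ) else 0) else 0 := ⟨_, rfl⟩
  have hcard : ∀ i : Fin k, (2 : ℝ) ≤ ((D i).card : ℝ) := fun i => by exact_mod_cast (hD i).2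
  have hdist : Dist p k (1 / 2) u := by
    refine ⟨fun i a => ?_, fun i hi => ?_, fun i hi => ?_⟩
    · rw [hu]
      simp only
      split_ifs <;> positivity
    · rw [hu]
      simp only [hi, dif_pos]
      rw [← sum_filter, sum_const, nsmul_eq_mul]
      have e1 : (range p).filter (fun a => a ∈ D ⟨i, hi⟩) = D ⟨i, hi⟩ := by
        ext a
        rw [mem_filter]
        exact ⟨fun h => h.2, fun h => ⟨(hD ⟨i, hi⟩).1 h, h⟩⟩
      rw [e1]
      have := hcard ⟨i, hi⟩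
      field_simp
    · rw [hu]
      simp only [hi, dif_pos]
      have e0 : ∀ a ∈ range p, (if a ∈ D ⟨i, hi⟩ then 1 / ((D ⟨i, hi⟩).card : ℝ) else 0) ^ 2 =
          if a ∈ D ⟨i, hi⟩ then (1 / ((D ⟨i, hi⟩).card : ℝ)) ^ 2 else 0 := by
        intro a _
        split_ifs <;> simp
      rw [sum_congr rfl e0, ← sum_filter, sum_const, nsmul_eq_mul]
      have e1 : (range p).filter (fun a => a ∈ D ⟨i, hi⟩) = D ⟨i, hi⟩ := by
        ext a
        rw [mem_filter]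
        exact ⟨fun h => h.2, fun h => ⟨(hD ⟨i, hi⟩).1 h, h⟩⟩
      rw [e1]
      have h2 := hcard ⟨i, hi⟩
      have e2 : ((D ⟨i, hi⟩).card : ℝ) * (1 / ((D ⟨i, hi⟩).card : ℝ)) ^ 2 = 1 / ((D ⟨i, hi⟩).card : ℝ) := by
        field_simp
      rw [e2]
      have : 1 / ((D ⟨i, hi⟩).card : ℝ) ≤ 1 / 2 := one_div_le_one_div_of_le (by norm_num) h2
      linarith
  have hval : ∀ a ∈ Fintype.piFinset D, wt u a = 1 / ((Fintype.piFinset D).card : ℝ) := by
    intro a ha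
    rw [Fintype.mem_piFinset] at ha
    rw [Fintype.card_piFinset]
    push_cast
    unfold wt
    rw [← prod_const_one, ← prod_div_distrib]
    apply prod_congr rfl
    intro i _
    rw [hu]
    simp only [i.2, dif_pos, Fin.eta]
    rw [if_pos (ha i)]
  have hsub : Fintype.piFinset D ⊆ arrays p k := by
    intro a ha
    rw [Fintype.mem_piFinset] at ha
    unfold arrays
    rw [Fintype.mem_piFinset]
    exact fun i => (hD i).1 (ha i)
  have h1 := H k hk N J y hN hJ _ (arrays p k) (wt u) _ (hdec k u hdist 0 1) E (hE.trans hsub) (by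
    intro a ha
    have h2 := hbad a ha
    have e1 : ((0 + 1 * ((dval p a : ℕ) : ℤ) : ℤ) : ℝ) = ((∑ i : Fin k, a i * p ^ (i : ℕ) : ℕ) : ℝ) := by
      unfold dval
      push_cast
      ring
    rw [e1]
    exact h2)
  rw [sum_congr rfl fun a ha => hval a (hE ha), sum_const, nsmul_eq_mul] at h1
  have hpos : (0 : ℝ) < ((Fintype.piFinset D).card : ℝ) := by
    rw [Fintype.card_piFinset]
    push_cast
    exact prod_pos fun i _ => by have := hcard i; linarith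
  rw [mul_one_div, div_le_iff₀ hpos] at h1
  exact h1

end Pool.Agent.R501.MT
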