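import Pool.Agent.R501.CP8

set_option autoImplicit false

/-! Sign patterns of the Liouville function: from the correlations of all orders to the equidistribution of the sign
patterns at the positions `h i`, along arbitrary sets of integers. -/

namespace Pool.Agent.R501.PT
open Finset
open Pool.Agent.R501.CP
open Pool.Agent.R459.Fams (count count_eq count_mono count_union)
open Pool.Agent.R459.Shift (Good Near Weights lam)

open Classical in
/-- the number of the `n ≤ X` in `E` with `λ(n + h i) = ε i` for all `i` -/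
noncomputable def occ {s : ℕ} (E : Set ℕ) (X : ℕ) (h : Fin s → ℕ) (ε : Fin s → ℤ) : ℕ :=
  ((Icc 1 X).filter (fun n => n ∈ E ∧ ∀ i, (-1 : ℤ) ^ ArithmeticFunction.cardFactors (n + h i) = ε i)).card

open Classical in
/-- the number of the positive integers `n ≤ X` in `E` -/
noncomputable def tot (E : Set ℕ) (X : ℕ) : ℕ := ((Icc 1 X).filter (fun n => n ∈ E)).card

/-- for all `l` and all `X ≤ B N`: each of the `2 ^ s` sign patterns occurs at the positions `h` for the proportion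
`1 / 2 ^ s` of the `n ≤ X` in `E l`, up to an error of at most `N / k ^ U` -/
def Equi (B U N k : ℕ) {s L : ℕ} (E : Fin L → Set ℕ) (h : Fin s → ℕ) : Prop :=
  ∀ l, ∀ X : ℕ, X ≤ B * N → ∀ ε : Fin s → ℤ, (∀ i, ε i = 1 ∨ ε i = -1) →
    |(occ (E l) X h ε : ℝ) - tot (E l) X / 2 ^ s| ≤ N / (k : ℝ) ^ U

lemma lam_nat (n h : ℕ) (hn : 1 ≤ n) : lam (((1 : ℕ) : ℤ) * (n : ℤ) + (h : ℤ)) =
    (-1 : ℤ) ^ ArithmeticFunction.cardFactors (n + h) := by
  unfold lam
  have e : ((1 : ℕ) : ℤ) * (n : ℤ) + (h : ℤ) = ((n + h : ℕ) : ℤ) := by push_cast; ring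
  rw [e, if_pos (by exact_mod_cast (by omega : 1 ≤ n + h)), Int.toNat_natCast]

lemma expand {s : ℕ} (lm ε : Fin s → ℤ) (hl : ∀ i, lm i = 1 ∨ lm i = -1) (hε : ∀ i, ε i = 1 ∨ ε i = -1)
    [Decidable (∀ i, lm i = ε i)] :
    (2 : ℂ) ^ s * (if ∀ i, lm i = ε i then 1 else 0) = ∑ I ∈ (univ : Finset (Fin s)).powerset, ∏ i ∈ I, ((ε i : ℂ) * (lm i : ℂ)) := by
  rw [← Finset.prod_one_add]
  split_ifs with h
  · rw [mul_one, prod_congr rfl (g := fun _ => (2 : ℂ))]
    · rw [prod_const, card_univ, Fintype.card_fin]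
    · intro i _
      rw [h i]
      rcases hε i with h1 | h1 <;> rw [h1] <;> norm_num
  · rw [mul_zero]
    push Not at h
    obtain ⟨i, hi⟩ := h
    symm
    apply prod_eq_zero (mem_univ i)
    rcases hε i with h1 | h1 <;> rcases hl i with h2 | h2
    · exact absurd (h2.trans h1.symm) hi
    · rw [h1, h2]; norm_num
    · rw [h1, h2]; norm_num
    · exact absurd (h2.trans h1.symm) hi

lemma equi_of_joint {B U N k s L : ℕ} (E : Fin L → Set ℕ) (g : Fin L → ℕ → ℂ) (hg : ∀ l n, n ∈ E l → g l n = 1)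
    (hg' : ∀ l n, n ∉ E l → g l n = 0) (h : Fin s → ℕ)
    (hj : Joint lam B U N k (fun _ : Fin L => 1) g (fun i => (h i : ℤ))) : Equi B U N k E h := by
  classical
  intro l X hX ε hε
  have hN : (0 : ℝ) ≤ (N : ℝ) / (k : ℝ) ^ U := by positivity
  have h1 : (2 : ℂ) ^ s * (occ (E l) X h ε : ℂ) = ∑ I ∈ (univ : Finset (Fin s)).powerset,
      (∏ i ∈ I, (ε i : ℂ)) * ∑ n ∈ Icc 1 X, g l n * ∏ i ∈ I, (lam (((1 : ℕ) : ℤ) * (n : ℤ) + (h i : ℤ)) : ℂ) := by
    have e1 : (occ (E l) X h ε : ℂ) = ∑ n ∈ Icc 1 X, g l n *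
        (if ∀ i, (-1 : ℤ) ^ ArithmeticFunction.cardFactors (n + h i) = ε i then 1 else 0) := by
      unfold occ
      rw [card_filter]
      push_cast
      apply sum_congr rfl
      intro n _
      by_cases hn : n ∈ E l
      · rw [hg l n hn, one_mul]
        simp only [hn, true_and]
      · rw [hg' l n hn, zero_mul]
        simp only [hn, false_and, if_false]
    rw [e1, mul_sum]
    simp_rw [mul_sum]
    rw [sum_comm]
    apply sum_congr rfl
    intro n hn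
    have hn1 := (mem_Icc.1 hn).1
    have e2 := expand (fun i => (-1 : ℤ) ^ ArithmeticFunction.cardFactors (n + h i)) ε (fun i => neg_one_pow_eq_or ℤ _) hε
    calc (2 : ℂ) ^ s * (g l n * (if ∀ i, (-1 : ℤ) ^ ArithmeticFunction.cardFactors (n + h i) = ε i then 1 else 0)) =
        g l n * ((2 : ℂ) ^ s * (if ∀ i, (-1 : ℤ) ^ ArithmeticFunction.cardFactors (n + h i) = ε i then 1 else 0)) := by ring
      _ = ∑ I ∈ (univ : Finset (Fin s)).powerset, (∏ i ∈ I, (ε i : ℂ)) * (g l n * ∏ i ∈ I, (lam (((1 : ℕ) : ℤ) * (n : ℤ) + (h i : ℤ)) : ℂ)) := by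
          rw [e2, mul_sum]
          apply sum_congr rfl
          intro I _
          rw [prod_mul_distrib]
          have : ∏ i ∈ I, (((-1 : ℤ) ^ ArithmeticFunction.cardFactors (n + h i) : ℤ) : ℂ) =
              ∏ i ∈ I, (lam (((1 : ℕ) : ℤ) * (n : ℤ) + (h i : ℤ)) : ℂ) := by
            apply prod_congr rfl
            intro i _
            rw [lam_nat n (h i) hn1]
          rw [this]
          ring
  have h2 : (tot (E l) X : ℂ) = ∑ n ∈ Icc 1 X, g l n := by
    unfold tot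
    rw [card_filter]
    push_cast
    apply sum_congr rfl
    intro n _
    by_cases hn : n ∈ E l
    · rw [hg l n hn, if_pos hn]
    · rw [hg' l n hn, if_neg hn]
  have h3 : (2 : ℂ) ^ s * (occ (E l) X h ε : ℂ) - tot (E l) X = ∑ I ∈ (univ : Finset (Fin s)).powerset.erase ∅,
      (∏ i ∈ I, (ε i : ℂ)) * ∑ n ∈ Icc 1 X, g l n * ∏ i ∈ I, (lam (((1 : ℕ) : ℤ) * (n : ℤ) + (h i : ℤ)) : ℂ) := by
    rw [h1, ← add_sum_erase _ _ (empty_mem_powerset _), h2]
    simp
  have h4 : ‖(2 : ℂ) ^ s * (occ (E l) X h ε : ℂ) - tot (E l) X‖ ≤ 2 ^ s * (N / (k : ℝ) ^ U) := by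
    rw [h3]
    refine (norm_sum_le _ _).trans ((sum_le_card_nsmul _ _ ((N : ℝ) / (k : ℝ) ^ U) fun I hI => ?_).trans ?_)
    · have hI' : I.Nonempty := nonempty_iff_ne_empty.2 (mem_erase.1 hI).1
      have h5 := hj l I hI' X (by simpa using hX)
      rw [norm_mul, norm_prod]
      have h6 : ∏ i ∈ I, ‖((ε i : ℤ) : ℂ)‖ = 1 := by
        apply prod_eq_one
        intro i _
        rcases hε i with h7 | h7 <;> rw [h7] <;> simp
      rw [h6, one_mul]
      exact h5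
    · rw [nsmul_eq_mul]
      apply mul_le_mul_of_nonneg_right _ hN
      have h8 : ((univ : Finset (Fin s)).powerset.erase ∅).card ≤ 2 ^ s := by
        refine (card_erase_le).trans ?_
        rw [card_powerset, card_univ, Fintype.card_fin]
      exact_mod_cast h8
  have h9 : ‖(2 : ℂ) ^ s * (occ (E l) X h ε : ℂ) - tot (E l) X‖ = 2 ^ s * |(occ (E l) X h ε : ℝ) - tot (E l) X / 2 ^ s| := by
    have e3 : (2 : ℂ) ^ s * (occ (E l) X h ε : ℂ) - tot (E l) X =
        (((2 : ℝ) ^ s * ((occ (E l) X h ε : ℝ) - tot (E l) X / 2 ^ s) : ℝ) : ℂ) := by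
      rw [mul_sub, mul_div_cancel₀ _ (by positivity : (2 : ℝ) ^ s ≠ 0)]
      push_cast
      ring
    rw [e3, Complex.norm_real, Real.norm_eq_abs, abs_mul, abs_of_nonneg (by positivity : (0 : ℝ) ≤ 2 ^ s)]
  rw [h9] at h4
  exact le_of_mul_le_mul_left h4 (by positivity)

lemma weights_ind {κ k L : ℕ} (hk : 1 ≤ k) (hL : L ≤ k ^ κ) (E : Fin L → Set ℕ) :
    ∃ g : Fin L → ℕ → ℂ, (∀ l n, n ∈ E l → g l n = 1) ∧ (∀ l n, n ∉ E l → g l n = 0) ∧
      Weights κ k (fun _ : Fin L => 1) g := by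
  classical
  refine ⟨fun l n => if n ∈ E l then 1 else 0, fun l n hn => if_pos hn, fun l n hn => if_neg hn, ?_, fun _ => le_refl _,
    fun l n => ?_⟩
  · exact_mod_cast hL
  · have hk1 : (1 : ℝ) ≤ (k : ℝ) ^ κ := one_le_pow₀ (by exact_mod_cast hk)
    show ‖(if n ∈ E l then (1 : ℂ) else 0)‖ ≤ (k : ℝ) ^ κ
    split_ifs
    · simpa using hk1
    · simp only [norm_zero]
      positivity

lemma equi_mono {B U U' N k : ℕ} (hk : 1 ≤ k) (hU : U ≤ U') {s L : ℕ} {E : Fin L → Set ℕ} {h : Fin s → ℕ}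
    (h1 : Equi B U' N k E h) : Equi B U N k E h := by
  intro l X hX ε hε
  refine (h1 l X hX ε hε).trans ?_
  apply div_le_div_of_nonneg_left (Nat.cast_nonneg _) (by positivity)
  exact pow_le_pow_right₀ (by exact_mod_cast hk) hU

/-- consequence: all patterns occur if `E l` is not too small -/
lemma occurs {B U N k s L κ : ℕ} {E : Fin L → Set ℕ} {h : Fin s → ℕ} (hk : 2 ≤ k) (hs : 2 ^ s ≤ k ^ κ)
    (h1 : Equi B (U + κ + 1) N k E h) (hN : 1 ≤ N) (l : Fin L) (X : ℕ) (hX : X ≤ B * N)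
    (hE : (N : ℝ) / (k : ℝ) ^ U ≤ tot (E l) X) (ε : Fin s → ℤ) (hε : ∀ i, ε i = 1 ∨ ε i = -1) :
    ∃ n, 1 ≤ n ∧ n ≤ X ∧ n ∈ E l ∧ ∀ i, (-1 : ℤ) ^ ArithmeticFunction.cardFactors (n + h i) = ε i := by
  classical
  have h2 := h1 l X hX ε hε
  have hk0 : (0 : ℝ) < k := by exact_mod_cast (by omega : 0 < k)
  have hk2 : (2 : ℝ) ≤ k := by exact_mod_cast hk
  have hN0 : (0 : ℝ) < N := by exact_mod_cast hN
  have h3 : (0 : ℝ) < occ (E l) X h ε := by
    have h4 := (abs_le.1 h2).1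
    have h5 : (N : ℝ) / (k : ℝ) ^ (U + κ + 1) < tot (E l) X / 2 ^ s := by
      have hs' : (2 : ℝ) ^ s ≤ (k : ℝ) ^ κ := by exact_mod_cast hs
      have h6 : (N : ℝ) / (k : ℝ) ^ U / (k : ℝ) ^ κ ≤ tot (E l) X / 2 ^ s := by
        have h7 : (0 : ℝ) ≤ (N : ℝ) / (k : ℝ) ^ U := by positivity
        calc (N : ℝ) / (k : ℝ) ^ U / (k : ℝ) ^ κ ≤ (N : ℝ) / (k : ℝ) ^ U / 2 ^ s :=
              div_le_div_of_nonneg_left h7 (by positivity) hs'
          _ ≤ _ := by gcongr
      refine lt_of_lt_of_le ?_ h6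
      rw [div_div, ← pow_add]
      apply div_lt_div_of_pos_left hN0 (by positivity)
      exact pow_lt_pow_right₀ (by linarith) (by omega)
    linarith
  have h8 : 0 < occ (E l) X h ε := by exact_mod_cast h3
  unfold occ at h8
  obtain ⟨n, hn⟩ := card_pos.1 h8
  rw [mem_filter, mem_Icc] at hn
  exact ⟨n, hn.1.1, hn.1.2, hn.2.1, hn.2.2⟩

end Pool.Agent.R501.PT
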