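import Pool.Agent.R501.PT1

set_option autoImplicit false

/-! Sign patterns at tuples of palindromes, of integers with permuted digits, of values of quadratic polynomials and of
members of thin families; the length of the tuples may grow. -/

namespace Pool.Agent.R501.PT
open Finset
open Pool.Agent.R501.CP
open Pool.Agent.TH872
open Pool.Agent.R459.Fams (count count_eq count_mono count_union Digits Quadratics pow_ev')
open Pool.Agent.R459.Shift (Good Near Weights lam lam_exI)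
open Pool.Agent.H373R2.T7 (energy)

lemma lam_le (m : ℤ) : |lam m| ≤ 1 := by
  unfold lam
  split_ifs
  · rw [abs_pow, abs_neg, abs_one, one_pow]
  · simp

/-- palindromes -/
theorem pal_equi (b B κ U : ℕ) (hb : 2 ≤ b) : ∃ k₀ : ℕ, ∀ k : ℕ, k₀ ≤ k → ∀ s L : ℕ, 2 ^ s ≤ k ^ κ → L ≤ k ^ κ →
    ∀ Pal : Finset ℕ, (∀ v, v ∈ Pal ↔ Tr.IsPalindrome b k v) →
    ∀ c γ : Fin s → ℕ, (∀ i, c i ≤ B * b ^ k) → (∀ i, 1 ≤ γ i ∧ γ i ≤ B) → ∀ E : Fin L → Set ℕ,
    count (Fintype.piFinset fun _ : Fin s => Pal) (fun v => ¬ Equi B U (b ^ k) k E (fun i => c i + γ i * v i)) ≤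
      (Fintype.piFinset fun _ : Fin s => Pal).card / (k : ℝ) ^ U := by
  classical
  obtain ⟨k1, h1⟩ := digU Pool.Agent.H373R2.T7.liR Pool.Agent.W93.LM.nice_liR lam lam_exI b B (2 * κ) (U + κ) hb 1 one_pos
  refine ⟨k1 + 3, fun k hk s L hs hL Pal hPal c γ hc hγ E => ?_⟩
  have hk1 : 1 ≤ k := by omega
  obtain ⟨g, hg, hg', hw⟩ := weights_ind hk1 hL E
  have hP : Pal = (range (b ^ k)).filter (fun v => Tr.IsPalindrome b k v) := by
    ext v
    rw [hPal, mem_filter, mem_range]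
    exact ⟨fun h => ⟨h.2.1, h⟩, fun h => h.2⟩
  have key := joint_tuples lam lam_le B κ U (b ^ k) k hk1 hs (fun _ : Fin L => 1) g hw (fun _ => Pal)
    (fun i v => (c i : ℤ) + γ i * v) (by
    intro i M a' g' hw'
    have h3 := (h1 k (by omega) (γ i) (by have := (hγ i).1; omega) (by
      rw [abs_of_nonneg (by positivity)]
      exact_mod_cast (hγ i).2) (c i) (by
      rw [abs_of_nonneg (by positivity)]
      exact_mod_cast hc i) M a' g' hw').2.1
    have e1 : (Tr.num b k (fun _ => True) : ℝ) = Pal.card := by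
      unfold Tr.num
      rw [hP]
      congr 2
      ext v
      simp
    have e2 : ∀ E : ℕ → Prop, (Tr.num b k E : ℝ) = count Pal E := by
      intro E
      unfold Tr.num
      rw [count_eq, hP, filter_filter]
    rw [e1, e2] at h3
    exact (count_mono fun v _ hv hcon => hv (goodB_mono hk1 le_rfl (by omega) hcon)).trans h3)
  refine (count_mono fun v _ hv hcon => hv ?_).trans key
  refine equi_of_joint E g hg hg' _ ?_
  convert hcon using 2
  push_cast
  rfl

/-- integers with permuted digits -/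
theorem perm_equi (b B κ U : ℕ) (hb : 2 ≤ b) (η : ℝ) (hη : 0 < η) : ∃ k₀ : ℕ, ∀ k : ℕ, k₀ ≤ k → ∀ s L : ℕ,
    2 ^ s ≤ k ^ κ → L ≤ k ^ κ → ∀ d : Fin s → Fin k → ℕ, (∀ i, An.Spread b k η (d i)) →
    ∀ c γ : Fin s → ℕ, (∀ i, c i ≤ B * b ^ k) → (∀ i, 1 ≤ γ i ∧ γ i ≤ B) → ∀ E : Fin L → Set ℕ,
    count (univ : Finset (Fin s → Equiv.Perm (Fin k)))
      (fun σ => ¬ Equi B U (b ^ k) k E (fun i => c i + γ i * An.V b (d i) (σ i))) ≤
      (k.factorial : ℝ) ^ s / (k : ℝ) ^ U := by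
  classical
  obtain ⟨k1, h1⟩ := digU Pool.Agent.H373R2.T7.liR Pool.Agent.W93.LM.nice_liR lam lam_exI b B (2 * κ) (U + κ) hb η hη
  refine ⟨k1 + 3, fun k hk s L hs hL d hd c γ hc hγ E => ?_⟩
  have hk1 : 1 ≤ k := by omega
  obtain ⟨g, hg, hg', hw⟩ := weights_ind hk1 hL E
  have key := joint_tuples lam lam_le B κ U (b ^ k) k hk1 hs (fun _ : Fin L => 1) g hw
    (fun _ => (univ : Finset (Equiv.Perm (Fin k))))
    (fun i σ => (c i : ℤ) + γ i * (An.V b (d i) σ : ℕ)) (by
    intro i M a' g' hw'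
    have h3 := (h1 k (by omega) (γ i) (by have := (hγ i).1; omega) (by
      rw [abs_of_nonneg (by positivity)]
      exact_mod_cast (hγ i).2) (c i) (by
      rw [abs_of_nonneg (by positivity)]
      exact_mod_cast hc i) M a' g' hw').1 (d i) (hd i)
    rw [card_univ, Fintype.card_perm, Fintype.card_fin]
    exact (count_mono fun v _ hv hcon => hv (goodB_mono hk1 le_rfl (by omega) hcon)).trans h3)
  rw [Fintype.piFinset_univ, card_univ, Fintype.card_fun, Fintype.card_perm, Fintype.card_fin, Fintype.card_fin] at key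
  push_cast at key
  refine (count_mono fun v _ hv hcon => hv ?_).trans key
  refine equi_of_joint E g hg hg' _ ?_
  convert hcon using 2
  push_cast
  rfl

/-- values of quadratic polynomials at integers with restricted digits -/
theorem quad_equi (b B κ U : ℕ) (hb : 2 ≤ b) : ∃ k₀ : ℕ, ∀ k : ℕ, k₀ ≤ k → ∀ s L : ℕ, 2 ^ s ≤ k ^ κ → L ≤ k ^ κ →
    ∀ D : Fin s → ℕ → Finset ℕ, (∀ i, ∀ j < k, D i j ⊆ range b ∧ 2 ≤ (D i j).card) →
    ∀ c γ β : Fin s → ℕ, (∀ i, c i ≤ B * b ^ (2 * k)) → (∀ i, 1 ≤ γ i ∧ γ i ≤ B) → (∀ i, β i ≤ B) →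
    ∀ E : Fin L → Set ℕ,
    count (Fintype.piFinset fun i : Fin s => GQ.S b (D i) k)
      (fun m => ¬ Equi B U (b ^ (2 * k)) k E (fun i => c i + γ i * m i ^ 2 + β i * m i)) ≤
      (Fintype.piFinset fun i : Fin s => GQ.S b (D i) k).card / (k : ℝ) ^ U := by
  classical
  obtain ⟨k1, h1⟩ := quadU Pool.Agent.H373R2.T7.liR Pool.Agent.W93.LM.nice_liR lam lam_exI b B (2 * κ) (U + κ) hb
  refine ⟨k1 + 3, fun k hk s L hs hL D hD c γ β hc hγ hβ E => ?_⟩
  have hk1 : 1 ≤ k := by omega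
  obtain ⟨g, hg, hg', hw⟩ := weights_ind hk1 hL E
  have key := joint_tuples lam lam_le B κ U (b ^ (2 * k)) k hk1 hs (fun _ : Fin L => 1) g hw
    (fun i => GQ.S b (D i) k) (fun i m => GQ.value (γ i) (β i) (c i) m) (by
    intro i M a' g' hw'
    have h3 := h1 k (by omega) (γ i) (β i) (by have := (hγ i).1; omega) (by
      rw [abs_of_nonneg (by positivity)]
      exact_mod_cast (hγ i).2) (by
      rw [abs_of_nonneg (by positivity)]
      exact_mod_cast hβ i) (c i) (by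
      rw [abs_of_nonneg (by positivity)]
      exact_mod_cast hc i) M a' g' hw' (D i) (hD i)
    exact (count_mono fun v _ hv hcon => hv (goodB_mono hk1 le_rfl (by omega) hcon)).trans h3)
  refine (count_mono fun v _ hv hcon => hv ?_).trans key
  refine equi_of_joint E g hg hg' _ ?_
  convert hcon using 2 with i
  unfold GQ.value
  push_cast
  ring

/-- members of thin families -/
theorem thin_equi (B C κ U P : ℕ) :
    ∃ N₀ : ℕ, ∀ N : ℕ, N₀ ≤ N → ∀ k : ℕ, k = ⌊Real.log (N : ℝ)⌋₊ → ∀ s L : ℕ, 2 ^ s ≤ k ^ κ → L ≤ k ^ κ →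
    ∀ (x p : Fin s → ℕ) (b : Fin s → ℕ → ℕ), (∀ i, p i ≤ P) → (∀ i, ∀ m ∈ Icc 1 (x i), b i m ≤ B * N) →
    (∀ i, (energy (p i) (x i) (fun m => (b i m : ℤ)) : ℝ) * N ≤ Real.log N ^ C * (x i : ℝ) ^ (2 * p i)) →
    ∀ E : Fin L → Set ℕ,
    count (Fintype.piFinset fun i : Fin s => Icc 1 (x i)) (fun m => ¬ Equi B U N k E (fun i => b i (m i))) ≤
      (∏ i, (x i : ℝ)) / (k : ℝ) ^ U := by
  classical
  have h0 := fun p : ℕ => famF Pool.Agent.H373R2.T7.liR Pool.Agent.W93.LM.nice_liR lam lam_exI B C (2 * κ) (U + κ) p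
  choose K hK using h0
  obtain ⟨N₀, h1⟩ := uniform_bound (range (P + 1)) K
  obtain ⟨N1, h2⟩ := floor_log 1
  refine ⟨N₀ + N1, fun N hN k hk s L hs hL x p b hp hb hE E => ?_⟩
  obtain ⟨hk3, -, hkN, hkL⟩ := h2 N (by omega)
  rw [← hk] at hk3 hkN hkL
  have hk1 : 1 ≤ k := by omega
  obtain ⟨g, hg, hg', hw⟩ := weights_ind hk1 hL E
  have key := joint_tuples lam lam_le B κ U N k hk1 hs (fun _ : Fin L => 1) g hw
    (fun i => Icc 1 (x i)) (fun i m => (b i m : ℤ)) (by
    intro i M a' g' hw'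
    have h5 := hK (p i) N ((h1 (p i) (mem_range.2 (by have := hp i; omega))).trans (by omega)) k hk1 hkL (x i)
      (fun m => (b i m : ℤ)) (by
      intro m hm
      rw [abs_of_nonneg (by positivity)]
      exact_mod_cast hb i m hm) (hE i) M a' g' hw'
    rw [Nat.card_Icc, Nat.add_sub_cancel]
    exact (count_mono fun v _ hv hcon => hv (goodB_mono hk1 le_rfl (by omega) hcon)).trans h5)
  rw [Fintype.card_piFinset] at key
  simp only [Nat.card_Icc, Nat.add_sub_cancel] at key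
  push_cast at key
  exact (count_mono fun v _ hv hcon => hv (equi_of_joint E g hg hg' _ hcon)).trans key

end Pool.Agent.R501.PT
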