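import Pool.Agent.R501.PT2

set_option autoImplicit false

/-! Sets of positions at which all sign patterns of the Liouville function occur. -/

namespace Pool.Agent.R501.PT
open Finset
open Pool.Agent.R501.CP
open Pool.Agent.R459.Fams (count count_eq count_mono count_union)
open Pool.Agent.H373R2.T7 (energy)

/-- every sign pattern on the set `S` of positions occurs at some `n ≤ X` in `E` -/
def Full (E : Set ℕ) (X : ℕ) (S : Finset ℕ) : Prop :=
  ∀ ε : ℕ → ℤ, (∀ m, ε m = 1 ∨ ε m = -1) →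
    ∃ n, 1 ≤ n ∧ n ≤ X ∧ n ∈ E ∧ ∀ m ∈ S, (-1 : ℤ) ^ ArithmeticFunction.cardFactors (n + m) = ε m

lemma full_of {E : Set ℕ} {X s : ℕ} {h : Fin s → ℕ}
    (h1 : ∀ ε : Fin s → ℤ, (∀ i, ε i = 1 ∨ ε i = -1) →
      ∃ n, 1 ≤ n ∧ n ≤ X ∧ n ∈ E ∧ ∀ i, (-1 : ℤ) ^ ArithmeticFunction.cardFactors (n + h i) = ε i) :
    Function.Injective h ∧ Full E X (univ.image h) := by
  classical
  refine ⟨fun i j hij => ?_, fun ε hε => ?_⟩
  · by_contra hne
    obtain ⟨n, -, -, -, hn⟩ := h1 (fun l => if l = i then 1 else -1) (fun l => by split_ifs <;> simp)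
    have e1 := hn i
    have e2 := hn j
    rw [if_pos rfl] at e1
    rw [if_neg (fun h => hne h.symm), ← hij, e1] at e2
    norm_num at e2
  · obtain ⟨n, hn1, hn2, hn3, hn⟩ := h1 (fun i => ε (h i)) (fun i => hε _)
    refine ⟨n, hn1, hn2, hn3, fun m hm => ?_⟩
    obtain ⟨i, -, rfl⟩ := mem_image.1 hm
    exact hn i

lemma exists_of_count {τ : Type} (S : Finset τ) (P : τ → Prop) (hS : S.Nonempty) (k U : ℕ) (hk : 2 ≤ k) (hU : 1 ≤ U)
    (h : count S (fun v => ¬ P v) ≤ S.card / (k : ℝ) ^ U) : ∃ v ∈ S, P v := by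
  classical
  by_contra hcon
  push Not at hcon
  have h1 : count S (fun v => ¬ P v) = S.card := by
    rw [count_eq, filter_true_of_mem hcon]
  rw [h1] at h
  have hc : (0 : ℝ) < S.card := by exact_mod_cast card_pos.2 hS
  have hk2 : (2 : ℝ) ≤ k := by exact_mod_cast hk
  have h2 : (2 : ℝ) ≤ (k : ℝ) ^ U := hk2.trans (le_self_pow₀ (by linarith) (by omega))
  rw [le_div_iff₀ (by positivity)] at h
  nlinarith

/-- all members of the family have a shattered subset -/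
theorem full_exists {B U N k κ s : ℕ} {τ : Type} (Ω : Finset τ) (hΩ : Ω.Nonempty) (Y : τ → ℕ) (hk : 2 ≤ k)
    (hs : 2 ^ s ≤ k ^ κ) (hN : 1 ≤ N) (E : Set ℕ) (X : ℕ) (hX : X ≤ B * N) (hE : (N : ℝ) / (k : ℝ) ^ U ≤ tot E X)
    (h : count (Fintype.piFinset fun _ : Fin s => Ω)
      (fun v => ¬ Equi B (U + κ + 1) N k (fun _ : Fin 1 => E) (fun i => Y (v i))) ≤
      (Fintype.piFinset fun _ : Fin s => Ω).card / (k : ℝ) ^ (U + κ + 1)) :
    ∃ S : Finset ℕ, S.card = s ∧ (∀ m ∈ S, ∃ v ∈ Ω, Y v = m) ∧ Full E X S := by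
  classical
  obtain ⟨v, hv, h1⟩ := exists_of_count _ _ (Fintype.piFinset_nonempty.2 fun _ => hΩ) k (U + κ + 1) hk (by omega) h
  have h2 := fun ε hε => occurs (U := U) (κ := κ) hk hs h1 hN 0 X hX hE ε hε
  obtain ⟨h3, h4⟩ := full_of h2
  refine ⟨univ.image fun i => Y (v i), ?_, ?_, h4⟩
  · rw [card_image_of_injective _ h3, card_univ, Fintype.card_fin]
  · intro m hm
    obtain ⟨i, -, rfl⟩ := mem_image.1 hm
    exact ⟨v i, Fintype.mem_piFinset.1 hv i, rfl⟩

lemma energy_id (N : ℕ) : energy 1 N (fun m => (m : ℤ)) ≤ N := by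
  classical
  unfold energy
  have h1 : (((Fintype.piFinset fun _ : Fin 1 => Icc 1 N) ×ˢ (Fintype.piFinset fun _ : Fin 1 => Icc 1 N)).filter
      (fun q => ∑ i, ((q.1 i : ℕ) : ℤ) = ∑ i, ((q.2 i : ℕ) : ℤ))).card ≤ (Fintype.piFinset fun _ : Fin 1 => Icc 1 N).card := by
    apply card_le_card_of_injOn (fun q => q.1)
    · intro q hq
      exact (mem_product.1 (mem_filter.1 hq).1).1
    · intro q hq q' hq' h
      have e1 := (mem_filter.1 hq).2
      have e2 := (mem_filter.1 hq').2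
      simp only [univ_unique, Fin.default_eq_zero, sum_singleton, Nat.cast_inj] at e1 e2
      have h' : q.1 = q'.1 := h
      refine Prod.ext h' ?_
      funext i
      rw [Subsingleton.elim i 0, ← e1, ← e2, h']
  rw [Fintype.card_piFinset] at h1
  simpa using h1

/-- the condition on the length of the tuples -/
lemma len_ok (A : ℕ) : ∃ N₀ : ℕ, ∀ N : ℕ, N₀ ≤ N → 3 ≤ ⌊Real.log (N : ℝ)⌋₊ ∧ ∀ s : ℕ,
    (s : ℝ) ≤ A * Real.log (Real.log N) → 2 ^ s ≤ ⌊Real.log (N : ℝ)⌋₊ ^ (A + 1) := by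
  obtain ⟨N1, h1⟩ := floor_log A
  refine ⟨N1, fun N hN => ?_⟩
  obtain ⟨h2, h3, -, h4⟩ := h1 N hN
  refine ⟨h2, fun s hs => ?_⟩
  have hL : 0 < Real.log N := by
    have : (3 : ℝ) ≤ ⌊Real.log (N : ℝ)⌋₊ := by exact_mod_cast h2
    linarith
  have h5 : (2 : ℝ) ^ s ≤ Real.log N ^ A := by
    have e1 : (2 : ℝ) ^ s = Real.exp (s * Real.log 2) := by
      rw [mul_comm, ← Real.rpow_natCast, Real.rpow_def_of_pos (by norm_num)]
    have e2 : Real.log N ^ A = Real.exp (A * Real.log (Real.log N)) := by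
      rw [mul_comm, ← Real.rpow_natCast, Real.rpow_def_of_pos hL]
    rw [e1, e2]
    apply Real.exp_le_exp.2
    have hl2 : Real.log 2 ≤ 1 := by
      have := Real.log_two_lt_d9
      linarith
    have hs0 : (0 : ℝ) ≤ s := Nat.cast_nonneg s
    nlinarith
  exact_mod_cast h5.trans h3

end Pool.Agent.R501.PT
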