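import Pool.Agent.R501.PT3

set_option autoImplicit false

/-! Sign patterns at the members of thin families, in terms of `log N`. -/

namespace Pool.Agent.R501.PT
open Finset
open Pool.Agent.R501.CP
open Pool.Agent.R459.Fams (count count_eq count_mono count_union)
open Pool.Agent.H373R2.T7 (energy)

/-- equidistribution of the patterns up to `M`, with error `δ` -/
def EquiR (M : ℕ) (δ : ℝ) {s L : ℕ} (E : Fin L → Set ℕ) (h : Fin s → ℕ) : Prop :=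
  ∀ l, ∀ X : ℕ, X ≤ M → ∀ ε : Fin s → ℤ, (∀ i, ε i = 1 ∨ ε i = -1) →
    |(occ (E l) X h ε : ℝ) - tot (E l) X / 2 ^ s| ≤ δ

lemma equiR_mono {M : ℕ} {δ δ' : ℝ} (hδ : δ ≤ δ') {s L : ℕ} {E : Fin L → Set ℕ} {h : Fin s → ℕ} (h1 : EquiR M δ E h) :
    EquiR M δ' E h := fun l X hX ε hε => (h1 l X hX ε hε).trans hδ

theorem thin_log (B C A U P : ℕ) :
    ∃ N₀ : ℕ, ∀ N : ℕ, N₀ ≤ N → ∀ s L : ℕ, (s : ℝ) ≤ A * Real.log (Real.log N) → (L : ℝ) ≤ Real.log N ^ A →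
    ∀ (x p : Fin s → ℕ) (b : Fin s → ℕ → ℕ), (∀ i, p i ≤ P) → (∀ i, ∀ m ∈ Icc 1 (x i), b i m ≤ B * N) →
    (∀ i, (energy (p i) (x i) (fun m => (b i m : ℤ)) : ℝ) * N ≤ Real.log N ^ C * (x i : ℝ) ^ (2 * p i)) →
    ∀ E : Fin L → Set ℕ,
    count (Fintype.piFinset fun i : Fin s => Icc 1 (x i))
      (fun m => ¬ EquiR (B * N) (N / Real.log N ^ U) E (fun i => b i (m i))) ≤ (∏ i, (x i : ℝ)) / Real.log N ^ U := by
  obtain ⟨N₀, h1⟩ := thin_equi B C (A + 1) (U + 1) P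
  obtain ⟨N1, h2⟩ := len_ok A
  obtain ⟨N2, h3⟩ := floor_log U
  obtain ⟨N3, h4⟩ := floor_log A
  refine ⟨N₀ + N1 + N2 + N3, fun N hN s L hs hL x p b hp hb hE E => ?_⟩
  obtain ⟨hk3, h5⟩ := h2 N (by omega)
  obtain ⟨-, h6, -, h7⟩ := h3 N (by omega)
  obtain ⟨-, h8, -, -⟩ := h4 N (by omega)
  have hL0 : 0 < Real.log N := by
    have : (3 : ℝ) ≤ ⌊Real.log (N : ℝ)⌋₊ := by exact_mod_cast hk3
    linarith
  have hk0 : (0 : ℝ) < ⌊Real.log (N : ℝ)⌋₊ := by exact_mod_cast (by omega : 0 < ⌊Real.log (N : ℝ)⌋₊)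
  have key := h1 N (by omega) _ rfl s L (h5 s hs) (by exact_mod_cast hL.trans h8) x p b hp hb hE E
  have e1 : (∏ i, (x i : ℝ)) / (⌊Real.log (N : ℝ)⌋₊ : ℝ) ^ (U + 1) ≤ (∏ i, (x i : ℝ)) / Real.log N ^ U :=
    div_le_div_of_nonneg_left (prod_nonneg fun _ _ => Nat.cast_nonneg _) (by positivity) h6
  refine (count_mono fun m _ hm hcon => hm ?_).trans (key.trans e1)
  intro l X hX ε hε
  refine (hcon l X hX ε hε).trans ?_
  apply div_le_div_of_nonneg_left (Nat.cast_nonneg _) (by positivity) h6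

theorem thin_full (B C A U P : ℕ) :
    ∃ N₀ : ℕ, ∀ N : ℕ, N₀ ≤ N → ∀ (x p : ℕ) (b : ℕ → ℕ), 1 ≤ x → p ≤ P → (∀ m ∈ Icc 1 x, b m ≤ B * N) →
    (energy p x (fun m => (b m : ℤ)) : ℝ) * N ≤ Real.log N ^ C * (x : ℝ) ^ (2 * p) →
    ∀ E : Set ℕ, ∀ X : ℕ, X ≤ B * N → (N : ℝ) / Real.log N ^ U ≤ tot E X →
    ∃ S : Finset ℕ, (A : ℝ) * Real.log (Real.log N) ≤ S.card ∧ (∀ m ∈ S, ∃ v ∈ Icc 1 x, b v = m) ∧ Full E X S := by
  obtain ⟨N₀, h1⟩ := thin_equi B C (A + 2) (U + 1 + (A + 2) + 1) P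
  obtain ⟨N1, h2⟩ := len_ok (A + 1)
  obtain ⟨N2, h3⟩ := floor_log U
  obtain ⟨N3, h4⟩ := Pool.Agent.H373R2.T7.ev_L' (Real.exp 1)
  refine ⟨N₀ + N1 + N2 + N3, fun N hN x p b hx hp hb hE E X hX hEX => ?_⟩
  obtain ⟨hk3, h5⟩ := h2 N (by omega)
  obtain ⟨-, h6, h6', h7⟩ := h3 N (by omega)
  have h8 := h4 N (by omega)
  have hL0 : 0 < Real.log N := by
    have : (3 : ℝ) ≤ ⌊Real.log (N : ℝ)⌋₊ := by exact_mod_cast hk3
    linarith
  have hk0 : (0 : ℝ) < ⌊Real.log (N : ℝ)⌋₊ := by exact_mod_cast (by omega : 0 < ⌊Real.log (N : ℝ)⌋₊)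
  have hN1 : 1 ≤ N := by
    rcases Nat.eq_zero_or_pos N with h | h
    · subst h
      simp at hL0
    · exact h
  have hLL : 1 ≤ Real.log (Real.log N) := by
    rw [Real.le_log_iff_exp_le hL0]
    exact h8
  obtain ⟨s, hs⟩ : ∃ s : ℕ, s = ⌊((A + 1 : ℕ) : ℝ) * Real.log (Real.log N)⌋₊ := ⟨_, rfl⟩
  have hs1 : (s : ℝ) ≤ ((A + 1 : ℕ) : ℝ) * Real.log (Real.log N) := by
    rw [hs]
    exact Nat.floor_le (by positivity)
  have hs2 : (A : ℝ) * Real.log (Real.log N) ≤ s := by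
    have := Nat.lt_floor_add_one (((A + 1 : ℕ) : ℝ) * Real.log (Real.log N))
    rw [← hs] at this
    push_cast at this
    nlinarith
  have key := h1 N (by omega) _ rfl s 1 (h5 s hs1) (Nat.one_le_pow _ _ (by omega)) (fun _ => x) (fun _ => p) (fun _ => b)
    (fun _ => hp) (fun _ => hb) (fun _ => hE) (fun _ => E)
  obtain ⟨S, hS1, hS2, hS3⟩ := full_exists (κ := A + 2) (U := U + 1) (B := B) (N := N) (k := ⌊Real.log (N : ℝ)⌋₊) (s := s)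
    (Icc 1 x) (nonempty_Icc.2 hx) b (by omega) (h5 s hs1) hN1 E X hX (by
      refine le_trans ?_ hEX
      apply div_le_div_of_nonneg_left (Nat.cast_nonneg _) (by positivity) h6) (by
      refine key.trans (le_of_eq ?_)
      congr 1
      rw [Fintype.card_piFinset]
      simp)
  exact ⟨S, by rw [hS1]; exact hs2, hS2, hS3⟩

end Pool.Agent.R501.PT
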