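import Pool.Agent.R501.PT3

set_option autoImplicit false

/-! Sets of palindromes, of integers with permuted digits, and of quadratic values at which all sign patterns of the
Liouville function occur. -/

namespace Pool.Agent.R501.PT
open Finset
open Pool.Agent.R501.CP
open Pool.Agent.TH872
open Pool.Agent.R459.Fams (count count_eq count_mono count_union)

lemma len_k (A k : ℕ) (hk : 3 ≤ k) : ∃ s : ℕ, (A : ℝ) * Real.log k ≤ s ∧ 2 ^ s ≤ k ^ (A + 1) := by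
  have hk0 : (0 : ℝ) < k := by exact_mod_cast (by omega : 0 < k)
  have hl1 : 1 ≤ Real.log k := by
    rw [Real.le_log_iff_exp_le hk0]
    have h1 := Real.exp_one_lt_d9
    have h2 : (3 : ℝ) ≤ k := by exact_mod_cast hk
    linarith
  refine ⟨⌊((A + 1 : ℕ) : ℝ) * Real.log k⌋₊, ?_, ?_⟩
  · have := Nat.lt_floor_add_one (((A + 1 : ℕ) : ℝ) * Real.log k)
    push_cast at this ⊢
    nlinarith
  · have hs := Nat.floor_le (show (0 : ℝ) ≤ ((A + 1 : ℕ) : ℝ) * Real.log k by positivity)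
    obtain ⟨s, hs'⟩ : ∃ s : ℕ, s = ⌊((A + 1 : ℕ) : ℝ) * Real.log k⌋₊ := ⟨_, rfl⟩
    rw [← hs'] at hs ⊢
    have h5 : (2 : ℝ) ^ s ≤ (k : ℝ) ^ (A + 1) := by
      have e1 : (2 : ℝ) ^ s = Real.exp (s * Real.log 2) := by
        rw [mul_comm, ← Real.rpow_natCast, Real.rpow_def_of_pos (by norm_num)]
      have e2 : (k : ℝ) ^ (A + 1) = Real.exp (((A + 1 : ℕ) : ℝ) * Real.log k) := by
        rw [mul_comm, ← Real.rpow_natCast, Real.rpow_def_of_pos hk0]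
      rw [e1, e2]
      apply Real.exp_le_exp.2
      have hl2 : Real.log 2 ≤ 1 := by
        have := Real.log_two_lt_d9
        linarith
      have hs0 : (0 : ℝ) ≤ s := Nat.cast_nonneg s
      nlinarith
    exact_mod_cast h5

lemma pal_exists (b k : ℕ) (hb : 2 ≤ b) (hk : 1 ≤ k) : Tr.IsPalindrome b k (b ^ k - 1) := by
  have h0 : ∀ m, 1 ≤ b ^ m := fun m => Nat.one_le_pow _ _ (by omega)
  have hdig : ∀ j < k, (b ^ k - 1) / b ^ j % b = b - 1 := by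
    intro j hj
    have e : b ^ k = b ^ (k - j) * b ^ j := by rw [← pow_add]; congr 1; omega
    have h1 : (b ^ k - 1) / b ^ j = b ^ (k - j) - 1 := by
      apply Nat.div_eq_of_lt_le
      · rw [Nat.sub_mul, one_mul, ← e]
        have := h0 j
        omega
      · rw [Nat.sub_add_cancel (h0 _), ← e]
        have := h0 k
        omega
    rw [h1]
    have e2 : b ^ (k - j) - 1 = (b - 1) + b * (b ^ (k - j - 1) - 1) := by
      have e3 : b ^ (k - j) = b * b ^ (k - j - 1) := by rw [← pow_succ']; congr 1; omega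
      rw [Nat.mul_sub, mul_one, ← e3]
      have h4 : b ≤ b ^ (k - j) := by
        rw [e3]
        exact Nat.le_mul_of_pos_right _ (h0 _)
      omega
    rw [e2, Nat.add_mul_mod_self_left, Nat.mod_eq_of_lt (by omega)]
  refine ⟨?_, ?_, fun j hj => ?_⟩
  · have e3 : b ^ k = b * b ^ (k - 1) := by rw [← pow_succ']; congr 1; omega
    have := h0 (k - 1)
    rw [e3]
    have : 2 * b ^ (k - 1) ≤ b * b ^ (k - 1) := Nat.mul_le_mul_right _ hb
    omega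
  · have := h0 k
    omega
  · rw [hdig j hj, hdig (k - 1 - j) (by omega)]

lemma digits_exist (b : ℕ) (hb : 2 ≤ b) (δ : ℕ → ℕ) (k : ℕ) (hδ : ∀ i < k, δ i < b) :
    ∃ n, n < b ^ k ∧ ∀ i < k, n / b ^ i % b = δ i := by
  induction k with
  | zero => exact ⟨0, by simp, fun i hi => absurd hi (Nat.not_lt_zero i)⟩
  | succ k ih =>
    obtain ⟨n, hn, h1⟩ := ih (fun i hi => hδ i (by omega))
    have hk := hδ k (by omega)
    have hbk : 0 < b ^ k := by positivity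
    refine ⟨n + δ k * b ^ k, ?_, fun i hi => ?_⟩
    · calc n + δ k * b ^ k < b ^ k + δ k * b ^ k := by omega
        _ = (δ k + 1) * b ^ k := by ring
        _ ≤ b * b ^ k := Nat.mul_le_mul_right _ (by omega)
        _ = b ^ (k + 1) := by ring
    · rcases Nat.lt_or_ge i k with h2 | h2
      · have e : δ k * b ^ k = b ^ i * (b * (δ k * b ^ (k - i - 1))) := by
          have : b ^ k = b ^ i * (b * b ^ (k - i - 1)) := by
            rw [← pow_succ', ← pow_add]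
            congr 1
            omega
          rw [this]
          ring
        rw [e, Nat.add_mul_div_left _ _ (by positivity), Nat.add_mul_mod_self_left, h1 i h2]
      · have : i = k := by omega
        subst this
        rw [Nat.add_mul_div_right _ _ hbk, Nat.div_eq_of_lt hn, zero_add, Nat.mod_eq_of_lt hk]

lemma S_nonempty (b : ℕ) (hb : 2 ≤ b) (D : ℕ → Finset ℕ) (k : ℕ) (hD : ∀ j < k, D j ⊆ range b ∧ 2 ≤ (D j).card) :
    (GQ.S b D k).Nonempty := by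
  classical
  have h0 : ∀ j : ℕ, ∃ δ : ℕ, j < k → δ ∈ D j := by
    intro j
    by_cases hj : j < k
    · obtain ⟨δ, hδ⟩ := card_pos.1 (by have := (hD j hj).2; omega : 0 < (D j).card)
      exact ⟨δ, fun _ => hδ⟩
    · exact ⟨0, fun h => absurd h hj⟩
  choose δ hδ using h0
  obtain ⟨n, hn, h1⟩ := digits_exist b hb δ k (fun i hi => mem_range.1 ((hD i hi).1 (hδ i hi)))
  refine ⟨n, ?_⟩
  unfold GQ.S
  rw [mem_filter, mem_range]
  exact ⟨hn, fun i hi => by rw [h1 i hi]; exact hδ i hi⟩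

theorem pal_full (b B A U : ℕ) (hb : 2 ≤ b) : ∃ k₀ : ℕ, ∀ k : ℕ, k₀ ≤ k →
    ∀ Pal : Finset ℕ, (∀ v, v ∈ Pal ↔ Tr.IsPalindrome b k v) →
    ∀ c γ : ℕ, c ≤ B * b ^ k → 1 ≤ γ → γ ≤ B → ∀ E : Set ℕ, ∀ X : ℕ, X ≤ B * b ^ k →
    ((b ^ k : ℕ) : ℝ) / (k : ℝ) ^ U ≤ tot E X →
    ∃ S : Finset ℕ, (A : ℝ) * Real.log k ≤ S.card ∧ (∀ m ∈ S, ∃ v ∈ Pal, c + γ * v = m) ∧ Full E X S := by
  obtain ⟨k1, h1⟩ := pal_equi b B (A + 1) (U + (A + 1) + 1) hb
  refine ⟨k1 + 3, fun k hk Pal hPal c γ hc hγ1 hγ2 E X hX hE => ?_⟩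
  obtain ⟨s, hs1, hs2⟩ := len_k A k (by omega)
  have key := h1 k (by omega) s 1 hs2 (Nat.one_le_pow _ _ (by omega)) Pal hPal (fun _ => c) (fun _ => γ) (fun _ => hc)
    (fun _ => ⟨hγ1, hγ2⟩) (fun _ => E)
  obtain ⟨S, g1, g2, g3⟩ := full_exists (κ := A + 1) (U := U) (B := B) (N := b ^ k) (k := k) (s := s) Pal
    ⟨_, (hPal _).2 (pal_exists b k hb (by omega))⟩ (fun v => c + γ * v) (by omega) hs2 (Nat.one_le_pow _ _ (by omega)) E X hX
    hE key
  exact ⟨S, by rw [g1]; exact hs1, g2, g3⟩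

theorem perm_full (b B A U : ℕ) (hb : 2 ≤ b) (η : ℝ) (hη : 0 < η) : ∃ k₀ : ℕ, ∀ k : ℕ, k₀ ≤ k →
    ∀ d : Fin k → ℕ, An.Spread b k η d →
    ∀ c γ : ℕ, c ≤ B * b ^ k → 1 ≤ γ → γ ≤ B → ∀ E : Set ℕ, ∀ X : ℕ, X ≤ B * b ^ k →
    ((b ^ k : ℕ) : ℝ) / (k : ℝ) ^ U ≤ tot E X →
    ∃ S : Finset ℕ, (A : ℝ) * Real.log k ≤ S.card ∧ (∀ m ∈ S, ∃ σ : Equiv.Perm (Fin k), c + γ * An.V b d σ = m) ∧
      Full E X S := by
  classical
  obtain ⟨k1, h1⟩ := perm_equi b B (A + 1) (U + (A + 1) + 1) hb η hη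
  refine ⟨k1 + 3, fun k hk d hd c γ hc hγ1 hγ2 E X hX hE => ?_⟩
  obtain ⟨s, hs1, hs2⟩ := len_k A k (by omega)
  have key := h1 k (by omega) s 1 hs2 (Nat.one_le_pow _ _ (by omega)) (fun _ => d) (fun _ => hd) (fun _ => c) (fun _ => γ)
    (fun _ => hc) (fun _ => ⟨hγ1, hγ2⟩) (fun _ => E)
  obtain ⟨S, g1, g2, g3⟩ := full_exists (κ := A + 1) (U := U) (B := B) (N := b ^ k) (k := k) (s := s)
    (univ : Finset (Equiv.Perm (Fin k))) univ_nonempty (fun σ => c + γ * An.V b d σ) (by omega) hs2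
    (Nat.one_le_pow _ _ (by omega)) E X hX hE (by
      rw [Fintype.piFinset_univ, card_univ, Fintype.card_fun, Fintype.card_perm, Fintype.card_fin, Fintype.card_fin]
      push_cast
      exact key)
  exact ⟨S, by rw [g1]; exact hs1, fun m hm => by obtain ⟨σ, -, h⟩ := g2 m hm; exact ⟨σ, h⟩, g3⟩

theorem quad_full (b B A U : ℕ) (hb : 2 ≤ b) : ∃ k₀ : ℕ, ∀ k : ℕ, k₀ ≤ k →
    ∀ D : ℕ → Finset ℕ, (∀ j < k, D j ⊆ range b ∧ 2 ≤ (D j).card) →
    ∀ c γ β : ℕ, c ≤ B * b ^ (2 * k) → 1 ≤ γ → γ ≤ B → β ≤ B → ∀ E : Set ℕ, ∀ X : ℕ, X ≤ B * b ^ (2 * k) →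
    ((b ^ (2 * k) : ℕ) : ℝ) / (k : ℝ) ^ U ≤ tot E X →
    ∃ S : Finset ℕ, (A : ℝ) * Real.log k ≤ S.card ∧ (∀ m ∈ S, ∃ v ∈ GQ.S b D k, c + γ * v ^ 2 + β * v = m) ∧
      Full E X S := by
  classical
  obtain ⟨k1, h1⟩ := quad_equi b B (A + 1) (U + (A + 1) + 1) hb
  refine ⟨k1 + 3, fun k hk D hD c γ β hc hγ1 hγ2 hβ E X hX hE => ?_⟩
  obtain ⟨s, hs1, hs2⟩ := len_k A k (by omega)
  have key := h1 k (by omega) s 1 hs2 (Nat.one_le_pow _ _ (by omega)) (fun _ => D) (fun _ => hD) (fun _ => c) (fun _ => γ)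
    (fun _ => β) (fun _ => hc) (fun _ => ⟨hγ1, hγ2⟩) (fun _ => hβ) (fun _ => E)
  have hne : (GQ.S b D k).Nonempty := S_nonempty b hb D k hD
  obtain ⟨S, g1, g2, g3⟩ := full_exists (κ := A + 1) (U := U) (B := B) (N := b ^ (2 * k)) (k := k) (s := s)
    (GQ.S b D k) hne (fun v => c + γ * v ^ 2 + β * v) (by omega) hs2
    (Nat.one_le_pow _ _ (by omega)) E X hX hE key
  exact ⟨S, by rw [g1]; exact hs1, g2, g3⟩

end Pool.Agent.R501.PT
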