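import Pool.Agent.R501.PT4
import Pool.Agent.Y885.KP4

set_option autoImplicit false

/-! Sign patterns at the values of sums of independent random integers, and at sums of few elements of arbitrary sets. -/

namespace Pool.Agent.R501.PT
open Finset
open Pool.Agent.R501.CP
open Pool.Agent.R459.Shift (lam)

lemma equiR_of_sums {M s L : ℕ} {δ : ℝ} (hδ : 0 ≤ δ) (E : Fin L → Set ℕ) (g : Fin L → ℕ → ℂ)
    (hg : ∀ l n, n ∈ E l → g l n = 1) (hg' : ∀ l n, n ∉ E l → g l n = 0) (h : Fin s → ℕ) (φ : ℕ → ℂ)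
    (hφ : ∀ n, 1 ≤ n → φ n = (((-1 : ℤ) ^ ArithmeticFunction.cardFactors n : ℤ) : ℂ))
    (hj : ∀ l, ∀ I : Finset (Fin s), I.Nonempty → ∀ X : ℕ, X ≤ M →
      ‖∑ n ∈ Icc 1 X, g l n * ∏ i ∈ I, φ (n + h i)‖ ≤ δ) : EquiR M δ E h := by
  classical
  intro l X hX ε hε
  have h1 : (2 : ℂ) ^ s * (occ (E l) X h ε : ℂ) = ∑ I ∈ (univ : Finset (Fin s)).powerset,
      (∏ i ∈ I, (ε i : ℂ)) * ∑ n ∈ Icc 1 X, g l n * ∏ i ∈ I, φ (n + h i) := by
    have e1 : (occ (E l) X h ε : ℂ) = ∑ n ∈ Icc 1 X, g l n *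
        (if ∀ i, (-1 : ℤ) ^ ArithmeticFunction.cardFactors (n + h i) = ε i then 1 else 0) := by
      unfold occ
      rw [card_filter]
      push_cast
      apply sum_congr rfl
      intro n _
      by_cases hn : n ∈ E l
      · rw [hg l n hn, one_mul]
        simp only [hn, true_and]
      · rw [hg' l n hn, zero_mul]
        simp only [hn, false_and, if_false]
    rw [e1, mul_sum]
    simp_rw [mul_sum]
    rw [sum_comm]
    apply sum_congr rfl
    intro n hn
    have hn1 := (mem_Icc.1 hn).1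
    have e2 := expand (fun i => (-1 : ℤ) ^ ArithmeticFunction.cardFactors (n + h i)) ε (fun i => neg_one_pow_eq_or ℤ _) hε
    calc (2 : ℂ) ^ s * (g l n * (if ∀ i, (-1 : ℤ) ^ ArithmeticFunction.cardFactors (n + h i) = ε i then 1 else 0)) =
        g l n * ((2 : ℂ) ^ s * (if ∀ i, (-1 : ℤ) ^ ArithmeticFunction.cardFactors (n + h i) = ε i then 1 else 0)) := by ring
      _ = ∑ I ∈ (univ : Finset (Fin s)).powerset, (∏ i ∈ I, (ε i : ℂ)) * (g l n * ∏ i ∈ I, φ (n + h i)) := by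
          rw [e2, mul_sum]
          apply sum_congr rfl
          intro I _
          rw [prod_mul_distrib]
          have : ∏ i ∈ I, (((-1 : ℤ) ^ ArithmeticFunction.cardFactors (n + h i) : ℤ) : ℂ) = ∏ i ∈ I, φ (n + h i) := by
            apply prod_congr rfl
            intro i _
            rw [hφ _ (by omega)]
          rw [this]
          ring
  have h2 : (tot (E l) X : ℂ) = ∑ n ∈ Icc 1 X, g l n := by
    unfold tot
    rw [card_filter]
    push_cast
    apply sum_congr rfl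
    intro n _
    by_cases hn : n ∈ E l
    · rw [hg l n hn, if_pos hn]
    · rw [hg' l n hn, if_neg hn]
  have h3 : (2 : ℂ) ^ s * (occ (E l) X h ε : ℂ) - tot (E l) X = ∑ I ∈ (univ : Finset (Fin s)).powerset.erase ∅,
      (∏ i ∈ I, (ε i : ℂ)) * ∑ n ∈ Icc 1 X, g l n * ∏ i ∈ I, φ (n + h i) := by
    rw [h1, ← add_sum_erase _ _ (empty_mem_powerset _), h2]
    simp
  have h4 : ‖(2 : ℂ) ^ s * (occ (E l) X h ε : ℂ) - tot (E l) X‖ ≤ 2 ^ s * δ := by
    rw [h3]
    refine (norm_sum_le _ _).trans ((sum_le_card_nsmul _ _ δ fun I hI => ?_).trans ?_)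
    · have hI' : I.Nonempty := nonempty_iff_ne_empty.2 (mem_erase.1 hI).1
      have h5 := hj l I hI' X hX
      rw [norm_mul, norm_prod]
      have h6 : ∏ i ∈ I, ‖((ε i : ℤ) : ℂ)‖ = 1 := by
        apply prod_eq_one
        intro i _
        rcases hε i with h7 | h7 <;> rw [h7] <;> simp
      rw [h6, one_mul]
      exact h5
    · rw [nsmul_eq_mul]
      apply mul_le_mul_of_nonneg_right _ hδ
      have h8 : ((univ : Finset (Fin s)).powerset.erase ∅).card ≤ 2 ^ s := by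
        refine (card_erase_le).trans ?_
        rw [card_powerset, card_univ, Fintype.card_fin]
      exact_mod_cast h8
  have h9 : ‖(2 : ℂ) ^ s * (occ (E l) X h ε : ℂ) - tot (E l) X‖ = 2 ^ s * |(occ (E l) X h ε : ℝ) - tot (E l) X / 2 ^ s| := by
    have e3 : (2 : ℂ) ^ s * (occ (E l) X h ε : ℂ) - tot (E l) X =
        (((2 : ℝ) ^ s * ((occ (E l) X h ε : ℝ) - tot (E l) X / 2 ^ s) : ℝ) : ℂ) := by
      rw [mul_sub, mul_div_cancel₀ _ (by positivity : (2 : ℝ) ^ s ≠ 0)]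
      push_cast
      ring
    rw [e3, Complex.norm_real, Real.norm_eq_abs, abs_mul, abs_of_nonneg (by positivity : (0 : ℝ) ≤ 2 ^ s)]
  rw [h9] at h4
  exact le_of_mul_le_mul_left h4 (by positivity)

lemma ind_exists {L : ℕ} (E : Fin L → Set ℕ) : ∃ g : Fin L → ℕ → ℂ, (∀ l n, n ∈ E l → g l n = 1) ∧
    (∀ l n, n ∉ E l → g l n = 0) ∧ ∀ l n, ‖g l n‖ ≤ 1 := by
  classical
  refine ⟨fun l n => if n ∈ E l then 1 else 0, fun l n hn => if_pos hn, fun l n hn => if_neg hn, fun l n => ?_⟩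
  show ‖(if n ∈ E l then (1 : ℂ) else 0)‖ ≤ 1
  split_ifs <;> simp

lemma laR_eq (n : ℕ) (hn : 1 ≤ n) : ((Pool.Agent.Y885.laR n : ℝ) : ℂ) =
    (((-1 : ℤ) ^ ArithmeticFunction.cardFactors n : ℤ) : ℂ) := by
  unfold Pool.Agent.Y885.laR
  push_cast
  rfl

end Pool.Agent.R501.PT
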