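import Pool.Agent.Y958.RM.Lawh
import Pool.Agent.TH872.Mir3

set_option autoImplicit false

/-! Integers with mirror-dependent digits: all their multiples have a thin large spectrum. -/

namespace Pool.Agent.R501.PV
open Finset
open Pool.Agent.H807R2.Dav
open Pool.Agent.W93.DG
open Pool.Agent.Y885 (TLaw Spec Thin Dense FewFar Rich thin_of dense_of')
open Pool.Agent.TH872

/-- if `x` is not near an integer, then one of the first multiples by powers of `b` is far from the integers -/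
lemma far_step (b i₀ : ℕ) (hb : 2 ≤ b) (κ : ℝ) (hκ : 1 / (b : ℝ) ^ (i₀ + 2) ≤ κ) (x : ℝ) (hx : κ < |x - round x|) :
    ∃ i ≤ i₀, Mir.Far (1 / (b : ℝ) ^ 2) ((b : ℝ) ^ i * x) := by
  by_contra hcon
  push Not at hcon
  unfold Mir.Far at hcon
  push Not at hcon
  have hbr : (2 : ℝ) ≤ b := by exact_mod_cast hb
  have hb0 : (0 : ℝ) < b := by linarith
  obtain ⟨n₀, hn₀⟩ := hcon 0 (Nat.zero_le _)
  rw [pow_zero, one_mul] at hn₀
  have key : ∀ i ≤ i₀, |(b : ℝ) ^ i * x - (b : ℝ) ^ i * n₀| < 1 / (b : ℝ) ^ 2 := by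
    intro i
    induction i with
    | zero =>
      intro _
      rw [pow_zero, one_mul, one_mul]
      exact hn₀
    | succ i ih =>
      intro hi
      have h1 := ih (by omega)
      obtain ⟨n, hn⟩ := hcon (i + 1) hi
      have h2 : |(b : ℝ) ^ (i + 1) * x - (b : ℝ) ^ (i + 1) * n₀| < 1 / b := by
        have e1 : (b : ℝ) ^ (i + 1) * x - (b : ℝ) ^ (i + 1) * n₀ = b * ((b : ℝ) ^ i * x - (b : ℝ) ^ i * n₀) := by ring
        rw [e1, abs_mul, abs_of_pos hb0]
        calc (b : ℝ) * |(b : ℝ) ^ i * x - (b : ℝ) ^ i * n₀| < b * (1 / (b : ℝ) ^ 2) := mul_lt_mul_of_pos_left h1 hb0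
          _ = 1 / b := by field_simp
      have h3 : 1 / (b : ℝ) + 1 / (b : ℝ) ^ 2 < 1 := by
        have g1 : 1 / (b : ℝ) ≤ 1 / 2 := one_div_le_one_div_of_le (by norm_num) hbr
        have g2 : 1 / (b : ℝ) ^ 2 ≤ 1 / 4 := one_div_le_one_div_of_le (by norm_num) (by nlinarith)
        linarith
      have h4 : n = (b : ℤ) ^ (i + 1) * n₀ := by
        have g1 : |((n - (b : ℤ) ^ (i + 1) * n₀ : ℤ) : ℝ)| < 1 := by
          push_cast
          have e1 : (n : ℝ) - (b : ℝ) ^ (i + 1) * n₀ = ((b : ℝ) ^ (i + 1) * x - (b : ℝ) ^ (i + 1) * n₀) -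
              ((b : ℝ) ^ (i + 1) * x - n) := by ring
          rw [e1]
          refine lt_of_le_of_lt (abs_sub _ _) ?_
          linarith
        have g2 : |n - (b : ℤ) ^ (i + 1) * n₀| < 1 := by exact_mod_cast g1
        have g3 := Int.abs_lt_one_iff.1 g2
        linarith
      have h5 : (n : ℝ) = (b : ℝ) ^ (i + 1) * n₀ := by rw [h4]; push_cast; ring
      rw [← h5]
      exact hn
  have h1 := key i₀ le_rfl
  rw [← mul_sub, abs_mul, abs_of_pos (by positivity : (0 : ℝ) < (b : ℝ) ^ i₀)] at h1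
  have h2 := round_le x n₀
  have h3 : 1 / (b : ℝ) ^ (i₀ + 2) * (b : ℝ) ^ i₀ = 1 / (b : ℝ) ^ 2 := by
    rw [pow_add]
    field_simp
  have h4 : 1 / (b : ℝ) ^ 2 < (b : ℝ) ^ i₀ * |x - n₀| := by
    rw [← h3, mul_comm]
    apply mul_lt_mul_of_pos_left _ (by positivity)
    linarith
  linarith

open Classical in
/-- the number of the positions at which the frequency is not near an integer -/
lemma far_card (b F i₀ k : ℕ) (hb : 2 ≤ b) (κ : ℝ) (hκ : 1 / (b : ℝ) ^ (i₀ + 2) ≤ κ) (θ : ℝ) :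
    ((range k).filter (fun j => κ < |(F : ℝ) * ((b : ℝ) ^ j * θ) - round ((F : ℝ) * ((b : ℝ) ^ j * θ))|)).card ≤
      i₀ + (i₀ + 1) * Mir.farCount b F k θ := by
  obtain ⟨G, hG⟩ : ∃ G, G = (range k).filter (fun j => Mir.Far (1 / (b : ℝ) ^ 2) ((F : ℝ) * ((b : ℝ) ^ j * θ))) := ⟨_, rfl⟩
  have hGc : G.card = Mir.farCount b F k θ := by rw [hG]; rfl
  rw [← hGc]
  have hsub : (range k).filter (fun j => κ < |(F : ℝ) * ((b : ℝ) ^ j * θ) - round ((F : ℝ) * ((b : ℝ) ^ j * θ))|) ⊆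
      Ico (k - i₀) k ∪ (range (i₀ + 1)).biUnion (fun i => G.image (fun j => j - i)) := by
    intro j hj
    rw [mem_filter, mem_range] at hj
    rw [mem_union, mem_Ico, mem_biUnion]
    by_cases c : k - i₀ ≤ j
    · exact Or.inl ⟨c, hj.1⟩
    · right
      obtain ⟨i, hi, hfar⟩ := far_step b i₀ hb κ hκ _ hj.2
      refine ⟨i, mem_range.2 (by omega), mem_image.2 ⟨j + i, ?_, by omega⟩⟩
      rw [hG, mem_filter, mem_range]
      refine ⟨by omega, ?_⟩
      have e1 : (F : ℝ) * ((b : ℝ) ^ (j + i) * θ) = (b : ℝ) ^ i * ((F : ℝ) * ((b : ℝ) ^ j * θ)) := by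
        rw [pow_add]; ring
      rw [e1]
      exact hfar
  refine (card_le_card hsub).trans ((card_union_le _ _).trans ?_)
  apply Nat.add_le_add
  · rw [Nat.card_Ico]; omega
  · refine card_biUnion_le.trans ?_
    refine (sum_le_sum (g := fun _ => G.card) fun i _ => card_image_le).trans ?_
    rw [sum_const, card_range, smul_eq_mul]

lemma farCount_neg (b F k : ℕ) (θ : ℝ) : Mir.farCount b F k (-θ) = Mir.farCount b F k θ := by
  classical
  unfold Mir.farCount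
  congr 1
  apply filter_congr
  intro j _
  have e1 : (F : ℝ) * ((b : ℝ) ^ j * -θ) = -((F : ℝ) * ((b : ℝ) ^ j * θ)) := by ring
  rw [e1]
  constructor
  · intro h
    have := h.neg
    rwa [neg_neg] at this
  · exact fun h => h.neg

lemma rich_range (k : ℕ) : Rich (2 / 5) 0 k (range k) := by
  have h1 : ∀ m : ℕ, m ≤ k → (((range k).filter (fun j => j < m)).card) = m := by
    intro m hm
    have : (range k).filter (fun j => j < m) = range m := by
      ext j
      rw [mem_filter, mem_range, mem_range]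
      omega
    rw [this, card_range]
  have h2 : ∀ m : ℕ, m ≤ k → (((range k).filter (fun j => k - m ≤ j)).card) = m := by
    intro m hm
    have : (range k).filter (fun j => k - m ≤ j) = Ico (k - m) k := by
      ext j
      rw [mem_filter, mem_range, mem_Ico]
      omega
    rw [this, Nat.card_Ico]
    omega
  refine ⟨fun j hj => mem_range.1 hj, fun m hm => ?_, fun m hm => ?_, ?_⟩
  · rw [h1 m hm]
    have : (0 : ℝ) ≤ m := Nat.cast_nonneg _
    push_cast
    linarith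
  · rw [h2 m hm]
    have : (0 : ℝ) ≤ m := Nat.cast_nonneg _
    push_cast
    linarith
  · rw [card_range]
    have : (0 : ℝ) ≤ k := Nat.cast_nonneg _
    linarith

/-- all the multiples of an integer with mirror-dependent digits have a thin large spectrum -/
theorem pal_lawh (b : ℕ) (hb : 2 ≤ b) (η : ℝ) (hη : 0 < η) (κ₀ : ℤ) (hκ₀ : κ₀ ≠ 0) (s : ℕ) (W V : ℕ) :
    ∃ c m₀ : ℕ, ∀ m : ℕ, m₀ ≤ m → ∀ e : ℕ, (e : ℝ) ≤ W * Real.log ((2 * m + s : ℕ) : ℝ) →
      ∀ h : ℕ, 1 ≤ h → Nat.log b h ≤ e → ∀ w : ℕ → ℕ × ℕ → ℝ, Mir.Mirr b m η w → ∀ cc : ℤ,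
      TLaw b 15 c V (2 * m + s + e) (Mir.Gs b m) (Mir.pw w) (fun g => (h : ℤ) * (cc + κ₀ * (Mir.val b (2 * m + s) g : ℕ))) := by
  classical
  obtain ⟨η', hη'⟩ : ∃ η', η' = min η 1 := ⟨_, rfl⟩
  have hη0 : 0 < η' := by rw [hη']; exact lt_min hη one_pos
  have hη1 : η' ≤ 1 := by rw [hη']; exact min_le_right _ _
  have hbr : (2 : ℝ) ≤ b := by exact_mod_cast hb
  have hb0 : (0 : ℝ) < b := by linarith
  obtain ⟨F, hF⟩ : ∃ F, F = (b ^ 4).factorial := ⟨_, rfl⟩
  have hFn : 1 ≤ F := by rw [hF]; exact (b ^ 4).factorial_pos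
  have hFr : (1 : ℝ) ≤ F := by exact_mod_cast hFn
  obtain ⟨κ', hκ'⟩ : ∃ κ' : ℕ, κ' = κ₀.natAbs := ⟨_, rfl⟩
  have hκ'1 : 1 ≤ κ' := by rw [hκ']; exact Int.natAbs_pos.2 hκ₀
  have hFκ : 1 ≤ F * κ' := Nat.mul_pos hFn hκ'1
  obtain ⟨κ, ε₀, hκ0, hε₀, _, hthin⟩ := thin_of b (b * (F * κ')) 15 hb (Nat.mul_pos (by omega) hFκ) (by norm_num)
  obtain ⟨i₀, hi₀⟩ : ∃ i₀ : ℕ, 1 / (b : ℝ) ^ (i₀ + 2) ≤ κ := by
    obtain ⟨n, hn⟩ := exists_pow_lt_of_lt_one hκ0 (show 1 / (b : ℝ) < 1 by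
      rw [div_lt_one hb0]; linarith)
    refine ⟨n, ?_⟩
    rw [one_div_pow] at hn
    have g1 : 1 / (b : ℝ) ^ (n + 2) ≤ 1 / (b : ℝ) ^ n :=
      one_div_le_one_div_of_le (by positivity) (pow_le_pow_right₀ (by linarith) (by omega))
    linarith
  obtain ⟨γ, hγ⟩ : ∃ γ, γ = 1 - 4 * (η' / (b : ℝ) ^ 4) * (1 / (2 * (F : ℝ) * (b : ℝ) ^ 4)) ^ 2 := ⟨_, rfl⟩
  have hb4 : (16 : ℝ) ≤ (b : ℝ) ^ 4 := by
    calc (16 : ℝ) = 2 ^ 4 := by norm_num
      _ ≤ _ := pow_le_pow_left₀ (by norm_num) hbr 4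
  have hγ1 : γ < 1 := by
    rw [hγ]
    have : 0 < 4 * (η' / (b : ℝ) ^ 4) * (1 / (2 * (F : ℝ) * (b : ℝ) ^ 4)) ^ 2 := by positivity
    linarith
  have hγ0 : 0 ≤ γ := by
    rw [hγ]
    have c3 : η' / (b : ℝ) ^ 4 ≤ 1 / 16 := by
      rw [div_le_div_iff₀ (by positivity) (by norm_num)]
      nlinarith
    have c4 : 1 / (2 * (F : ℝ) * (b : ℝ) ^ 4) ≤ 1 / 32 := by
      apply div_le_div_of_nonneg_left (by norm_num) (by norm_num)
      nlinarith
    have c5 : 0 ≤ 1 / (2 * (F : ℝ) * (b : ℝ) ^ 4) := by positivity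
    have c6 : (1 / (2 * (F : ℝ) * (b : ℝ) ^ 4)) ^ 2 ≤ (1 / 32) ^ 2 := pow_le_pow_left₀ c5 c4 2
    have c7 : 0 ≤ η' / (b : ℝ) ^ 4 := by positivity
    nlinarith
  obtain ⟨v, hv⟩ : ∃ v : ℕ, γ ^ v < 1 / b := exists_pow_lt_of_lt_one (show (0 : ℝ) < 1 / b by positivity) hγ1
  obtain ⟨c₁, hc₁⟩ : ∃ c₁ : ℝ, c₁ = i₀ + (i₀ + 1) * (12 * (v * V) + (4 + s)) := ⟨_, rfl⟩
  obtain ⟨c, K₁, h1⟩ := hthin (((0 + 2 * (W + 1) : ℕ) : ℝ) + 4 * (W + 1)) c₁
  have hlim : ∃ k₂ : ℕ, ∀ k : ℕ, k₂ ≤ k → 4 * (W * Real.log k) ≤ (2 / 5) / 2 * k := by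
    have h := (Real.isLittleO_log_id_atTop).bound (show 0 < (2 / 5 : ℝ) / (8 * (W + 1)) by positivity)
    have h2 := (tendsto_natCast_atTop_atTop (R := ℝ)).eventually h
    obtain ⟨x0, hx0⟩ := Filter.eventually_atTop.1 h2
    refine ⟨x0 + 1, fun k hk => ?_⟩
    have h3 := hx0 k (by omega)
    have hk0 : (0 : ℝ) < k := by exact_mod_cast (by omega : 0 < k)
    simp only [id, Real.norm_eq_abs, abs_of_pos hk0] at h3
    have h4 := (le_abs_self _).trans h3
    have h5 : 4 * (W * Real.log k) ≤ 4 * (W + 1) * ((2 / 5) / (8 * (W + 1)) * k) := by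
      have g1 : 0 ≤ Real.log k := Real.log_natCast_nonneg _
      have g2 : 4 * (W * Real.log k) ≤ 4 * (W + 1) * Real.log k := by nlinarith
      exact g2.trans (mul_le_mul_of_nonneg_left h4 (by positivity))
    refine h5.trans (le_of_eq ?_)
    field_simp
    ring
  obtain ⟨k₂, h2⟩ := hlim
  refine ⟨c, K₁ + k₂ + 3, fun m hm e he h hh hle w hw cc => ?_⟩
  obtain ⟨k, hk⟩ : ∃ k, k = 2 * m + s := ⟨_, rfl⟩
  obtain ⟨l, hl⟩ : ∃ l, l = Nat.log b h := ⟨_, rfl⟩
  rw [← hl] at hle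
  rw [← hk] at he ⊢
  have hlW : (l : ℝ) ≤ W * Real.log k := le_trans (by exact_mod_cast hle) he
  have hrich := Pool.Agent.Y958.RM.rich_shift (2 / 5) 0 k l W (by norm_num) hlW (by omega) (h2 k (by omega)) (range k)
    (rich_range k) (by norm_num)
  have hlogkK : Real.log k ≤ Real.log ((k + l : ℕ) : ℝ) :=
    Real.log_le_log (by exact_mod_cast (by omega : 0 < k)) (by exact_mod_cast (by omega : k ≤ k + l))
  have hDense := dense_of' ((2 / 5) / 2) (0 + 2 * (W + 1)) (k + l) (e - l) 15 W (by norm_num) (by norm_num) (by omega) (by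
    have g1 : ((e - l : ℕ) : ℝ) ≤ e := by exact_mod_cast Nat.sub_le _ _
    have g2 : (W : ℝ) * Real.log k ≤ W * Real.log ((k + l : ℕ) : ℝ) := mul_le_mul_of_nonneg_left hlogkK (Nat.cast_nonneg _)
    linarith) _ hrich
  have hke : k + l + (e - l) = k + e := by omega
  rw [hke] at hDense
  obtain ⟨K, hK⟩ : ∃ K, K = k + e := ⟨_, rfl⟩
  rw [← hK] at hDense ⊢
  have hK3 : 3 ≤ K := by omega
  have hKr : (3 : ℝ) ≤ K := by exact_mod_cast hK3
  have hK0 : (0 : ℝ) < K := by linarith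
  have hlogK : 1 ≤ Real.log K := by
    rw [Real.le_log_iff_exp_le hK0]
    have := Real.exp_one_lt_d9
    linarith
  have hw' : Mir.Mirr b m η' w := ⟨hw.nonneg, hw.sum, fun i hi h1 => by
    have g1 := hw.mir i hi h1
    have g2 : η' ≤ η := by rw [hη']; exact min_le_left _ _
    linarith⟩
  refine ⟨fun g _ => Mir.pw_nonneg hw g, (Mir.pw_sum hw).le, ?_⟩
  apply h1 K (by omega) _ (by exact_mod_cast hDense)
  · intro t ht
    unfold Spec at ht
    rw [mem_filter, mem_range] at ht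
    exact ht.1
  intro T hT
  obtain ⟨d, hd⟩ : ∃ d : ℕ → ℕ, d = fun j => h * (F * κ') * b ^ (j - l) := ⟨_, rfl⟩
  have hdj : ∀ j, d (j + l) = h * (F * κ') * b ^ j := by
    intro j
    rw [hd]
    simp only [Nat.add_sub_cancel]
  have hhl : b ^ l ≤ h := by rw [hl]; exact Nat.pow_log_le_self b (by omega)
  have hhl' : h ≤ b ^ (l + 1) := by rw [hl]; exact (Nat.lt_pow_succ_log_self (by omega) h).le
  refine ⟨d, fun j' hj' => ?_, T, subset_rfl, by omega, ?_⟩
  · obtain ⟨j, hj, rfl⟩ := mem_image.1 hj'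
    rw [hdj]
    constructor
    · calc b ^ (j + l) = b ^ j * b ^ l := pow_add _ _ _
        _ ≤ b ^ j * h := Nat.mul_le_mul_left _ hhl
        _ ≤ (b * (F * κ') * (F * κ')) * (b ^ j * h) := Nat.le_mul_of_pos_left _ (by
            have : 0 < b := by omega
            positivity)
        _ = _ := by ring
    · calc h * (F * κ') * b ^ j ≤ b ^ (l + 1) * (F * κ') * b ^ j := by gcongr
        _ = _ := by rw [pow_add, pow_add]; ring
  · intro t ht
    have htS := hT ht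
    unfold Spec at htS
    rw [mem_filter, mem_range] at htS
    obtain ⟨θ, hθ⟩ : ∃ θ : ℝ, θ = (t : ℝ) / ((b ^ (K + 1) : ℕ) : ℝ) := ⟨_, rfl⟩
    obtain ⟨fc, hfc⟩ : ∃ fc, fc = Mir.farCount b F k ((h : ℝ) * κ₀ * θ) := ⟨_, rfl⟩
    -- few positions are far
    have hfew : fc < 4 * (v * V * (Nat.log b K + 1)) + (4 + s) := by
      by_contra hcon
      push Not at hcon
      have hdec := Mir.char_decay b m s hb η' hη0 w hw' ((h : ℝ) * κ₀ * θ) (v * V * (Nat.log b K + 1)) (by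
        rw [hfc, hk, hF] at hcon
        exact hcon) γ (by rw [hγ, hF]) hγ0
      have hshift : ∑ g ∈ Mir.Gs b m, ((Mir.pw w g : ℝ) : ℂ) * ee ((((h : ℤ) * (cc + κ₀ * (Mir.val b k g : ℕ)) : ℤ) : ℝ) * ((t : ℝ) / ((b ^ (K + 1) : ℕ) : ℝ))) =
          ee ((h : ℝ) * cc * θ) * ∑ g ∈ Mir.Gs b m, ((Mir.pw w g : ℝ) : ℂ) * ee ((Mir.val b (2 * m + s) g : ℝ) * ((h : ℝ) * κ₀ * θ)) := by
        rw [mul_sum]
        apply sum_congr rfl
        intro g _
        have : ee ((((h : ℤ) * (cc + κ₀ * (Mir.val b k g : ℕ)) : ℤ) : ℝ) * ((t : ℝ) / ((b ^ (K + 1) : ℕ) : ℝ))) =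
            ee ((h : ℝ) * cc * θ) * ee ((Mir.val b (2 * m + s) g : ℝ) * ((h : ℝ) * κ₀ * θ)) := by
          rw [← ee_add, ← hθ, ← hk]
          congr 1
          push_cast
          ring
        rw [this]
        ring
      have h3 := htS.2
      rw [hshift, norm_mul, norm_ee, one_mul] at h3
      have h5 : γ ^ (v * V * (Nat.log b K + 1)) ≤ (1 / (b : ℝ)) ^ (V * (Nat.log b K + 1)) := by
        rw [mul_assoc, pow_mul]
        exact pow_le_pow_left₀ (by positivity) hv.le _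
      have h6 : (1 / (b : ℝ)) ^ (V * (Nat.log b K + 1)) ≤ 1 / (K : ℝ) ^ V := by
        rw [one_div_pow]
        apply div_le_div_of_nonneg_left (by norm_num) (by positivity)
        have h7 : (K : ℝ) ≤ (b : ℝ) ^ (Nat.log b K + 1) := by
          have := Nat.lt_pow_succ_log_self (b := b) (by omega) K
          exact_mod_cast this.le
        calc (K : ℝ) ^ V ≤ ((b : ℝ) ^ (Nat.log b K + 1)) ^ V := pow_le_pow_left₀ (Nat.cast_nonneg _) h7 _
          _ = _ := by rw [← pow_mul]; congr 1; ring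
      linarith
    have hfarc := far_card b F i₀ k hb κ hi₀ ((h : ℝ) * κ' * θ)
    have hfc' : Mir.farCount b F k ((h : ℝ) * κ' * θ) = fc := by
      rw [hfc]
      rcases le_or_gt 0 κ₀ with h0 | h0
      · have : (κ₀ : ℝ) = (κ' : ℝ) := by rw [hκ', Nat.cast_natAbs, abs_of_nonneg h0]
        rw [this]
      · have : (κ₀ : ℝ) = -(κ' : ℝ) := by
          rw [hκ', Nat.cast_natAbs, abs_of_neg h0]
          push_cast
          ring
        rw [this]
        have e1 : (h : ℝ) * -(κ' : ℝ) * θ = -((h : ℝ) * κ' * θ) := by ring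
        rw [e1, farCount_neg]
    rw [hfc'] at hfarc
    obtain ⟨θf, hθf⟩ : ∃ θf : ℕ → ℝ, θf = fun t : ℕ => (t : ℝ) / ((b ^ (K + 1) : ℕ) : ℝ) := ⟨_, rfl⟩
    rw [← hθf]
    have hall : (((range k).image (fun j => j + l)).filter (fun i => Pool.Agent.Y885.Far κ d θf i t)).card ≤ i₀ + (i₀ + 1) * fc := by
      refine le_trans ?_ hfarc
      rw [filter_image]
      refine card_image_le.trans (le_of_eq ?_)
      congr 1
      apply filter_congr
      intro j _
      unfold Pool.Agent.Y885.Far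
      rw [hdj, hθf]
      simp only
      rw [← hθ]
      have e1 : ((h * (F * κ') * b ^ j : ℕ) : ℝ) * θ = (F : ℝ) * ((b : ℝ) ^ j * ((h : ℝ) * κ' * θ)) := by
        push_cast
        ring
      rw [e1]
    have hlogn : (Nat.log b K : ℝ) ≤ 2 * Real.log K := by
      have g1 : b ^ Nat.log b K ≤ K := Nat.pow_log_le_self b (by omega)
      have g2 : (2 : ℝ) ^ Nat.log b K ≤ K := by
        have : 2 ^ Nat.log b K ≤ K := (Nat.pow_le_pow_left hb _).trans g1
        exact_mod_cast this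
      have g3 := Real.log_le_log (by positivity) g2
      rw [Real.log_pow] at g3
      have g4 := Real.log_two_gt_d9
      have g5 : (0 : ℝ) ≤ (Nat.log b K : ℝ) := Nat.cast_nonneg _
      nlinarith
    have hbound : ((i₀ + (i₀ + 1) * fc : ℕ) : ℝ) ≤ c₁ * Real.log K := by
      have g1 : (fc : ℝ) ≤ 4 * (v * V * (Nat.log b K + 1)) + (4 + s) := by exact_mod_cast hfew.le
      have g2 : (fc : ℝ) ≤ (12 * (v * V) + (4 + s)) * Real.log K := by
        have g3 : (0 : ℝ) ≤ (v : ℝ) * V := by positivity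
        have g4 : (v : ℝ) * V * (Nat.log b K + 1) ≤ v * V * (3 * Real.log K) := mul_le_mul_of_nonneg_left (by linarith) g3
        have g5 : (4 + (s : ℝ)) ≤ (4 + s) * Real.log K := le_mul_of_one_le_right (by positivity) hlogK
        calc (fc : ℝ) ≤ 4 * (v * V * (Nat.log b K + 1)) + (4 + s) := g1
          _ ≤ 4 * (v * V * (3 * Real.log K)) + (4 + s) * Real.log K := by linarith
          _ = _ := by ring
      push_cast
      rw [hc₁]
      have g6 : (0 : ℝ) ≤ i₀ := Nat.cast_nonneg _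
      have g7 : ((i₀ : ℝ) + 1) * fc ≤ (i₀ + 1) * ((12 * (v * V) + (4 + s)) * Real.log K) :=
        mul_le_mul_of_nonneg_left g2 (by linarith)
      have g8 : (i₀ : ℝ) ≤ i₀ * Real.log K := le_mul_of_one_le_right g6 hlogK
      calc (i₀ : ℝ) + (i₀ + 1) * fc ≤ i₀ * Real.log K + (i₀ + 1) * ((12 * (v * V) + (4 + s)) * Real.log K) := add_le_add g8 g7
        _ = _ := by ring
    have hgen : ∀ (u : ℕ) (P : ℕ → Prop) [DecidablePred P],
        ((((range k).image (fun j => j + l)).filter (fun i => P i ∧ Pool.Agent.Y885.Far κ d θf i t)).card : ℝ) ≤ ε₀ * u + c₁ * Real.log K := by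
      intro u P _
      have g1 : (((range k).image (fun j => j + l)).filter (fun i => P i ∧ Pool.Agent.Y885.Far κ d θf i t)).card ≤ i₀ + (i₀ + 1) * fc := by
        refine le_trans (card_le_card ?_) hall
        intro i hi
        rw [mem_filter] at hi ⊢
        exact ⟨hi.1, hi.2.2⟩
      have g2 : ((((range k).image (fun j => j + l)).filter (fun i => P i ∧ Pool.Agent.Y885.Far κ d θf i t)).card : ℝ) ≤ ((i₀ + (i₀ + 1) * fc : ℕ) : ℝ) := by
        exact_mod_cast g1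
      have g3 : 0 ≤ ε₀ * u := by positivity
      linarith
    constructor
    · intro u _
      have g2 := hgen u (fun i => 0 ≤ i ∧ i < u)
      refine le_trans (le_of_eq ?_) g2
      congr 2
      ext j
      rw [mem_filter, mem_filter, and_assoc]
    · intro u _
      have g2 := hgen u (fun i => K + 1 - u ≤ i ∧ i < K + 1)
      refine le_trans (le_of_eq ?_) g2
      congr 2
      ext j
      rw [mem_filter, mem_filter, and_assoc]

end Pool.Agent.R501.PV
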