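import Pool.Agent.R501.PV1
import Pool.Agent.Y958.RM.Rnd
import Pool.Agent.Y958.RM.Cor
import Pool.Agent.TH872.Transfer

set_option autoImplicit false

/-! Hooley's variance conjecture for moduli with mirror-dependent digits. -/

namespace Pool.Agent.R501.PV
open Finset
open Pool.Agent.Y885 (TLaw)
open Pool.Agent.TH872
open Pool.Agent.Y958.RM (COR BadQ eH)

/-- what is needed from the laws of all the multiples -/
theorem pal_rare (b B κ U : ℕ) (hb : 2 ≤ b) (κ₀ : ℤ) (hκ₀ : κ₀ ≠ 0) (ε : ℝ) (hε : 0 < ε) (hε1 : ε ≤ 1) :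
    Tr.Rare b B U κ₀ (fun k bad => ∀ n : ℤ, bad n → BadQ ε κ k b n) := by
  classical
  intro η hη s hs
  obtain ⟨r, hr⟩ : ∃ r, r = B + 3 * κ₀.natAbs := ⟨_, rfl⟩
  obtain ⟨V, hV⟩ := Pool.Agent.Y958.RM.main Pool.Agent.Y958.RM.cor (κ + 1) U b 15 hb (by norm_num)
  obtain ⟨H, hH⟩ : ∃ H, H = 2 * (κ + 1 + 1) := ⟨_, rfl⟩
  rw [← hH] at hV
  obtain ⟨c, m1, h1⟩ := pal_lawh b hb η hη κ₀ hκ₀ s (4 * H + 2 * r + 2) V
  obtain ⟨k2, h2⟩ := hV ε hε hε1 c
  obtain ⟨k3, h3⟩ := Pool.Agent.Y958.RM.eH_le b r H hb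
  refine ⟨m1 + k2 + k3 + b ^ (2 * r) + 1, fun m hm w hw cc hcc bad hbad E _ hE => ?_⟩
  rw [← hr] at hcc
  obtain ⟨k, hk⟩ : ∃ k, k = 2 * m + s := ⟨_, rfl⟩
  have hk1 : 1 ≤ k := by omega
  obtain ⟨e, he⟩ : ∃ e, e = eH b H (k + 2 * r) := ⟨_, rfl⟩
  have hke : k + 2 * r + e = k + (2 * r + e) := by ring
  have hbz : (1 : ℤ) ≤ b := by exact_mod_cast (by omega : 1 ≤ b)
  rw [← hk] at hcc hbad hE ⊢
  have hY : ∀ g ∈ Mir.Gs b m, |cc + κ₀ * (Mir.val b k g : ℕ)| ≤ (b : ℤ) ^ (k + 2 * r) := by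
    intro g hg
    have h0 : ((Mir.val b k g : ℕ) : ℤ) < 2 * (b : ℤ) ^ k := by
      have := Mir.val_lt b m s (by omega) g hg
      rw [← hk] at this
      exact_mod_cast this
    calc |cc + κ₀ * (Mir.val b k g : ℕ)| ≤ |cc| + |κ₀ * (Mir.val b k g : ℕ)| := abs_add_le _ _
      _ = |cc| + |κ₀| * (Mir.val b k g : ℕ) := by
          rw [abs_mul, abs_of_nonneg (by positivity : (0 : ℤ) ≤ ((Mir.val b k g : ℕ) : ℤ))]
      _ ≤ |cc| + |κ₀| * (2 * (b : ℤ) ^ k) := by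
          have := mul_le_mul_of_nonneg_left h0.le (abs_nonneg κ₀)
          linarith
      _ ≤ (b : ℤ) ^ (k + r) := hcc
      _ ≤ _ := pow_le_pow_right₀ hbz (by omega)
  have key := h2 (k + 2 * r) (by omega) (Fin m → ℕ × ℕ) (Mir.Gs b m) (Mir.pw w)
    (fun g => cc + κ₀ * (Mir.val b k g : ℕ)) (Mir.pw_sum hw) (by
      intro h hh1 hh2
      rw [← he] at hh2 ⊢
      rw [hke]
      have := h1 m (by omega) (2 * r + e) (by rw [← hk, he]; exact h3 k (by omega)) h hh1 (by omega) w hw cc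
      rw [← hk] at this
      exact this) hY E (fun _ => Classical.propDecidable _) (by
      intro g hg hEg
      obtain ⟨g1, x, g2, g3, g4⟩ := hbad _ (hE g hg hEg)
      obtain ⟨Q, hQ⟩ : ∃ Q : ℤ, Q = cc + κ₀ * (Mir.val b k g : ℕ) := ⟨_, rfl⟩
      simp only [← hQ] at g1 g2 g3 g4 ⊢
      have hQ0 : 0 ≤ Q := by
        by_contra hcon
        push Not at hcon
        have e1 : Q * (k : ℤ) ^ κ ≤ 0 := mul_nonpos_of_nonpos_of_nonneg hcon.le (by positivity)
        have e2 : (0 : ℤ) < (b : ℤ) ^ k := by positivity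
        linarith
      refine ⟨?_, x, g2, g3.trans ?_, g4⟩
      · have e1 : (b : ℤ) ^ (k + 2 * r) ≤ (Q * (k : ℤ) ^ κ) * (k : ℤ) := by
          rw [pow_add]
          apply mul_le_mul g1 _ (by positivity) (mul_nonneg hQ0 (by positivity))
          exact_mod_cast (by omega : b ^ (2 * r) ≤ k)
        have e2 : (Q * (k : ℤ) ^ κ) * (k : ℤ) ≤ Q * ((k + 2 * r : ℕ) : ℤ) ^ (κ + 1) := by
          rw [mul_assoc, ← pow_succ]
          apply mul_le_mul_of_nonneg_left _ hQ0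
          apply pow_le_pow_left₀ (by positivity)
          push_cast
          have : (0 : ℤ) ≤ (r : ℤ) := Int.natCast_nonneg _
          linarith
        exact e1.trans e2
      · apply mul_le_mul_of_nonneg_left _ (by exact_mod_cast hQ0)
        have e1 : (1 : ℝ) ≤ k := by exact_mod_cast hk1
        have e2 : (k : ℝ) ≤ ((k + 2 * r : ℕ) : ℝ) := by exact_mod_cast (by omega : k ≤ k + 2 * r)
        calc (k : ℝ) ^ κ ≤ (k : ℝ) ^ (κ + 1) := pow_le_pow_right₀ e1 (by omega)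
          _ ≤ _ := pow_le_pow_left₀ (by positivity) e2 _)
  refine (le_trans (le_of_eq ?_) key).trans ?_
  · apply sum_congr rfl
    intro g _
    congr 1
  · have e1 : (1 : ℝ) ≤ k := by exact_mod_cast hk1
    apply one_div_le_one_div_of_le (by positivity)
    apply pow_le_pow_left₀ (by positivity)
    exact_mod_cast (by omega : k ≤ k + 2 * r)

end Pool.Agent.R501.PV
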