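import Pool.Agent.R501.PV1

set_option autoImplicit false

/-! All multiples of an integer have a thin large spectrum: the general principle. -/

namespace Pool.Agent.R501.PV
open Finset
open Pool.Agent.H807R2.Dav
open Pool.Agent.W93.DG
open Pool.Agent.Y885 (TLaw Spec Thin Dense FewFar Rich thin_of dense_of')
open Pool.Agent.TH872

/-- if large values of the characteristic function come from frequencies with few far positions, then all the multiples
have a thin large spectrum -/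
theorem gen_lawh (b F A : ℕ) (hb : 2 ≤ b) (hFn : 1 ≤ F) (κ₀ : ℤ) (hκ₀ : κ₀ ≠ 0) (W V : ℕ) :
    ∃ c k₀ : ℕ, ∀ k : ℕ, k₀ ≤ k → ∀ e : ℕ, (e : ℝ) ≤ W * Real.log (k : ℝ) → ∀ h : ℕ, 1 ≤ h → Nat.log b h ≤ e →
      ∀ (ι : Type) (Ω : Finset ι) (p : ι → ℝ) (val : ι → ℤ), (∀ g ∈ Ω, 0 ≤ p g) → ∑ g ∈ Ω, p g ≤ 1 →
      (∀ θ : ℝ, 1 / ((k + e : ℕ) : ℝ) ^ V < ‖∑ g ∈ Ω, ((p g : ℝ) : ℂ) * ee ((val g : ℝ) * θ)‖ →
        Mir.farCount b F k θ ≤ A * (Nat.log b (k + e) + 1)) → ∀ cc : ℤ,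
      TLaw b 15 c V (k + e) Ω p (fun g => (h : ℤ) * (cc + κ₀ * val g)) := by
  classical
  have hbr : (2 : ℝ) ≤ b := by exact_mod_cast hb
  have hb0 : (0 : ℝ) < b := by linarith
  have hFr : (1 : ℝ) ≤ F := by exact_mod_cast hFn
  obtain ⟨κ', hκ'⟩ : ∃ κ' : ℕ, κ' = κ₀.natAbs := ⟨_, rfl⟩
  have hκ'1 : 1 ≤ κ' := by rw [hκ']; exact Int.natAbs_pos.2 hκ₀
  have hFκ : 1 ≤ F * κ' := Nat.mul_pos hFn hκ'1
  obtain ⟨κ, ε₀, hκ0, hε₀, _, hthin⟩ := thin_of b (b * (F * κ')) 15 hb (Nat.mul_pos (by omega) hFκ) (by norm_num)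
  obtain ⟨i₀, hi₀⟩ : ∃ i₀ : ℕ, 1 / (b : ℝ) ^ (i₀ + 2) ≤ κ := by
    obtain ⟨n, hn⟩ := exists_pow_lt_of_lt_one hκ0 (show 1 / (b : ℝ) < 1 by
      rw [div_lt_one hb0]; linarith)
    refine ⟨n, ?_⟩
    rw [one_div_pow] at hn
    have g1 : 1 / (b : ℝ) ^ (n + 2) ≤ 1 / (b : ℝ) ^ n :=
      one_div_le_one_div_of_le (by positivity) (pow_le_pow_right₀ (by linarith) (by omega))
    linarith
  obtain ⟨c₁, hc₁⟩ : ∃ c₁ : ℝ, c₁ = i₀ + (i₀ + 1) * (3 * A) := ⟨_, rfl⟩
  obtain ⟨c, K₁, h1⟩ := hthin (((0 + 2 * (W + 1) : ℕ) : ℝ) + 4 * (W + 1)) c₁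
  have hlim : ∃ k₂ : ℕ, ∀ k : ℕ, k₂ ≤ k → 4 * (W * Real.log k) ≤ (2 / 5) / 2 * k := by
    have h := (Real.isLittleO_log_id_atTop).bound (show 0 < (2 / 5 : ℝ) / (8 * (W + 1)) by positivity)
    have h2 := (tendsto_natCast_atTop_atTop (R := ℝ)).eventually h
    obtain ⟨x0, hx0⟩ := Filter.eventually_atTop.1 h2
    refine ⟨x0 + 1, fun k hk => ?_⟩
    have h3 := hx0 k (by omega)
    have hk0 : (0 : ℝ) < k := by exact_mod_cast (by omega : 0 < k)
    simp only [id, Real.norm_eq_abs, abs_of_pos hk0] at h3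
    have h4 := (le_abs_self _).trans h3
    have h5 : 4 * (W * Real.log k) ≤ 4 * (W + 1) * ((2 / 5) / (8 * (W + 1)) * k) := by
      have g1 : 0 ≤ Real.log k := Real.log_natCast_nonneg _
      have g2 : 4 * (W * Real.log k) ≤ 4 * (W + 1) * Real.log k := by nlinarith
      exact g2.trans (mul_le_mul_of_nonneg_left h4 (by positivity))
    refine h5.trans (le_of_eq ?_)
    field_simp
    ring
  obtain ⟨k₂, h2⟩ := hlim
  refine ⟨c, K₁ + k₂ + 3, fun k hk e he h hh hle ι Ω p val hp0 hp1 hfar cc => ?_⟩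
  obtain ⟨l, hl⟩ : ∃ l, l = Nat.log b h := ⟨_, rfl⟩
  rw [← hl] at hle
  have hlW : (l : ℝ) ≤ W * Real.log k := le_trans (by exact_mod_cast hle) he
  have hrich := Pool.Agent.Y958.RM.rich_shift (2 / 5) 0 k l W (by norm_num) hlW (by omega) (h2 k (by omega)) (range k)
    (rich_range k) (by norm_num)
  have hlogkK : Real.log k ≤ Real.log ((k + l : ℕ) : ℝ) :=
    Real.log_le_log (by exact_mod_cast (by omega : 0 < k)) (by exact_mod_cast (by omega : k ≤ k + l))
  have hDense := dense_of' ((2 / 5) / 2) (0 + 2 * (W + 1)) (k + l) (e - l) 15 W (by norm_num) (by norm_num) (by omega) (by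
    have g1 : ((e - l : ℕ) : ℝ) ≤ e := by exact_mod_cast Nat.sub_le _ _
    have g2 : (W : ℝ) * Real.log k ≤ W * Real.log ((k + l : ℕ) : ℝ) := mul_le_mul_of_nonneg_left hlogkK (Nat.cast_nonneg _)
    linarith) _ hrich
  have hke : k + l + (e - l) = k + e := by omega
  rw [hke] at hDense
  obtain ⟨K, hK⟩ : ∃ K, K = k + e := ⟨_, rfl⟩
  rw [← hK] at hDense hfar ⊢
  have hK3 : 3 ≤ K := by omega
  have hKr : (3 : ℝ) ≤ K := by exact_mod_cast hK3
  have hK0 : (0 : ℝ) < K := by linarith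
  have hlogK : 1 ≤ Real.log K := by
    rw [Real.le_log_iff_exp_le hK0]
    have := Real.exp_one_lt_d9
    linarith
  refine ⟨hp0, hp1, ?_⟩
  apply h1 K (by omega) _ (by exact_mod_cast hDense)
  · intro t ht
    unfold Spec at ht
    rw [mem_filter, mem_range] at ht
    exact ht.1
  intro T hT
  obtain ⟨d, hd⟩ : ∃ d : ℕ → ℕ, d = fun j => h * (F * κ') * b ^ (j - l) := ⟨_, rfl⟩
  have hdj : ∀ j, d (j + l) = h * (F * κ') * b ^ j := by
    intro j
    rw [hd]
    simp only [Nat.add_sub_cancel]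
  have hhl : b ^ l ≤ h := by rw [hl]; exact Nat.pow_log_le_self b (by omega)
  have hhl' : h ≤ b ^ (l + 1) := by rw [hl]; exact (Nat.lt_pow_succ_log_self (by omega) h).le
  refine ⟨d, fun j' hj' => ?_, T, subset_rfl, by omega, ?_⟩
  · obtain ⟨j, hj, rfl⟩ := mem_image.1 hj'
    rw [hdj]
    constructor
    · calc b ^ (j + l) = b ^ j * b ^ l := pow_add _ _ _
        _ ≤ b ^ j * h := Nat.mul_le_mul_left _ hhl
        _ ≤ (b * (F * κ') * (F * κ')) * (b ^ j * h) := Nat.le_mul_of_pos_left _ (by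
            have : 0 < b := by omega
            positivity)
        _ = _ := by ring
    · calc h * (F * κ') * b ^ j ≤ b ^ (l + 1) * (F * κ') * b ^ j := by gcongr
        _ = _ := by rw [pow_add, pow_add]; ring
  · intro t ht
    have htS := hT ht
    unfold Spec at htS
    rw [mem_filter, mem_range] at htS
    obtain ⟨θ, hθ⟩ : ∃ θ : ℝ, θ = (t : ℝ) / ((b ^ (K + 1) : ℕ) : ℝ) := ⟨_, rfl⟩
    obtain ⟨fc, hfc⟩ : ∃ fc, fc = Mir.farCount b F k ((h : ℝ) * κ₀ * θ) := ⟨_, rfl⟩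
    -- few positions are far
    have hfew : fc ≤ A * (Nat.log b K + 1) := by
      rw [hfc]
      apply hfar
      have hshift : ∑ g ∈ Ω, ((p g : ℝ) : ℂ) * ee ((((h : ℤ) * (cc + κ₀ * val g) : ℤ) : ℝ) * ((t : ℝ) / ((b ^ (K + 1) : ℕ) : ℝ))) =
          ee ((h : ℝ) * cc * θ) * ∑ g ∈ Ω, ((p g : ℝ) : ℂ) * ee ((val g : ℝ) * ((h : ℝ) * κ₀ * θ)) := by
        rw [mul_sum]
        apply sum_congr rfl
        intro g _
        have : ee ((((h : ℤ) * (cc + κ₀ * val g) : ℤ) : ℝ) * ((t : ℝ) / ((b ^ (K + 1) : ℕ) : ℝ))) =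
            ee ((h : ℝ) * cc * θ) * ee ((val g : ℝ) * ((h : ℝ) * κ₀ * θ)) := by
          rw [← ee_add, ← hθ]
          congr 1
          push_cast
          ring
        rw [this]
        ring
      have h3 := htS.2
      rw [hshift, norm_mul, norm_ee, one_mul] at h3
      exact h3
    have hfarc := far_card b F i₀ k hb κ hi₀ ((h : ℝ) * κ' * θ)
    have hfc' : Mir.farCount b F k ((h : ℝ) * κ' * θ) = fc := by
      rw [hfc]
      rcases le_or_gt 0 κ₀ with h0 | h0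
      · have : (κ₀ : ℝ) = (κ' : ℝ) := by rw [hκ', Nat.cast_natAbs, abs_of_nonneg h0]
        rw [this]
      · have : (κ₀ : ℝ) = -(κ' : ℝ) := by
          rw [hκ', Nat.cast_natAbs, abs_of_neg h0]
          push_cast
          ring
        rw [this]
        have e1 : (h : ℝ) * -(κ' : ℝ) * θ = -((h : ℝ) * κ' * θ) := by ring
        rw [e1, farCount_neg]
    rw [hfc'] at hfarc
    obtain ⟨θf, hθf⟩ : ∃ θf : ℕ → ℝ, θf = fun t : ℕ => (t : ℝ) / ((b ^ (K + 1) : ℕ) : ℝ) := ⟨_, rfl⟩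
    rw [← hθf]
    have hall : (((range k).image (fun j => j + l)).filter (fun i => Pool.Agent.Y885.Far κ d θf i t)).card ≤ i₀ + (i₀ + 1) * fc := by
      refine le_trans ?_ hfarc
      rw [filter_image]
      refine card_image_le.trans (le_of_eq ?_)
      congr 1
      apply filter_congr
      intro j _
      unfold Pool.Agent.Y885.Far
      rw [hdj, hθf]
      simp only
      rw [← hθ]
      have e1 : ((h * (F * κ') * b ^ j : ℕ) : ℝ) * θ = (F : ℝ) * ((b : ℝ) ^ j * ((h : ℝ) * κ' * θ)) := by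
        push_cast
        ring
      rw [e1]
    have hlogn : (Nat.log b K : ℝ) ≤ 2 * Real.log K := by
      have g1 : b ^ Nat.log b K ≤ K := Nat.pow_log_le_self b (by omega)
      have g2 : (2 : ℝ) ^ Nat.log b K ≤ K := by
        have : 2 ^ Nat.log b K ≤ K := (Nat.pow_le_pow_left hb _).trans g1
        exact_mod_cast this
      have g3 := Real.log_le_log (by positivity) g2
      rw [Real.log_pow] at g3
      have g4 := Real.log_two_gt_d9
      have g5 : (0 : ℝ) ≤ (Nat.log b K : ℝ) := Nat.cast_nonneg _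
      nlinarith
    have hbound : ((i₀ + (i₀ + 1) * fc : ℕ) : ℝ) ≤ c₁ * Real.log K := by
      have g1 : (fc : ℝ) ≤ A * (Nat.log b K + 1) := by exact_mod_cast hfew
      have g2 : (fc : ℝ) ≤ (3 * A) * Real.log K := by
        have g3 : (0 : ℝ) ≤ (A : ℝ) := by positivity
        have g4 : (A : ℝ) * (Nat.log b K + 1) ≤ A * (3 * Real.log K) := mul_le_mul_of_nonneg_left (by linarith) g3
        linarith
      push_cast
      rw [hc₁]
      have g6 : (0 : ℝ) ≤ i₀ := Nat.cast_nonneg _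
      have g7 : ((i₀ : ℝ) + 1) * fc ≤ (i₀ + 1) * ((3 * A) * Real.log K) := mul_le_mul_of_nonneg_left g2 (by linarith)
      have g8 : (i₀ : ℝ) ≤ i₀ * Real.log K := le_mul_of_one_le_right g6 hlogK
      calc (i₀ : ℝ) + (i₀ + 1) * fc ≤ i₀ * Real.log K + (i₀ + 1) * ((3 * A) * Real.log K) := add_le_add g8 g7
        _ = _ := by ring
    have hgen : ∀ (u : ℕ) (P : ℕ → Prop) [DecidablePred P],
        ((((range k).image (fun j => j + l)).filter (fun i => P i ∧ Pool.Agent.Y885.Far κ d θf i t)).card : ℝ) ≤ ε₀ * u + c₁ * Real.log K := by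
      intro u P _
      have g1 : (((range k).image (fun j => j + l)).filter (fun i => P i ∧ Pool.Agent.Y885.Far κ d θf i t)).card ≤ i₀ + (i₀ + 1) * fc := by
        refine le_trans (card_le_card ?_) hall
        intro i hi
        rw [mem_filter] at hi ⊢
        exact ⟨hi.1, hi.2.2⟩
      have g2 : ((((range k).image (fun j => j + l)).filter (fun i => P i ∧ Pool.Agent.Y885.Far κ d θf i t)).card : ℝ) ≤ ((i₀ + (i₀ + 1) * fc : ℕ) : ℝ) := by
        exact_mod_cast g1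
      have g3 : 0 ≤ ε₀ * u := by positivity
      linarith
    constructor
    · intro u _
      have g2 := hgen u (fun i => 0 ≤ i ∧ i < u)
      refine le_trans (le_of_eq ?_) g2
      congr 2
      ext j
      rw [mem_filter, mem_filter, and_assoc]
    · intro u _
      have g2 := hgen u (fun i => K + 1 - u ≤ i ∧ i < K + 1)
      refine le_trans (le_of_eq ?_) g2
      congr 2
      ext j
      rw [mem_filter, mem_filter, and_assoc]

end Pool.Agent.R501.PV
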