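import Pool.Agent.Results.MP_122e00_nt.SparseRandomShifts
import Pool.Agent.TH872.Transfer
import Pool.Agent.Y447.SP.Pack

set_option autoImplicit false

/-! Power savings for the divisor correlations: few large Fourier coefficients. -/

namespace Pool.Agent.R501.SP
open Finset Polynomial
open Pool.Agent.TH872
open Pool.Agent.Y958.SP (nn ph)
open Pool.Agent.H807R2.Dav
open Pool.Agent.Results.MP_122e00_nt.SparseRandomShifts (FewLarge φ)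

lemma nn_le (x : ℝ) (n : ℤ) : nn x ≤ |x - n| := round_le x n

lemma nn_nonneg (x : ℝ) : 0 ≤ nn x := abs_nonneg _

lemma nn_half (x : ℝ) : nn x ≤ 1 / 2 := abs_sub_round x

lemma near_step (b : ℕ) (hb : 2 ≤ b) (x : ℝ) (h : ¬ Mir.Far (1 / (b : ℝ) ^ 2) x) : nn x ^ 2 ≤ nn (b * x) ^ 2 / 4 := by
  unfold Mir.Far at h
  push Not at h
  obtain ⟨n, hn⟩ := h
  have hbr : (2 : ℝ) ≤ b := by exact_mod_cast hb
  have hb0 : (0 : ℝ) < b := by linarith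
  have e1 : (b : ℝ) * x - (((b : ℤ) * n : ℤ) : ℝ) = b * (x - n) := by push_cast; ring
  have e2 : |(b : ℝ) * x - (((b : ℤ) * n : ℤ) : ℝ)| = b * |x - n| := by
    rw [e1, abs_mul, abs_of_pos hb0]
  have h1 : (b : ℝ) * |x - n| < 1 / 2 := by
    have g1 : (b : ℝ) * |x - n| < b * (1 / (b : ℝ) ^ 2) := mul_lt_mul_of_pos_left hn hb0
    have g2 : (b : ℝ) * (1 / (b : ℝ) ^ 2) = 1 / b := by field_simp
    have g3 : 1 / (b : ℝ) ≤ 1 / 2 := one_div_le_one_div_of_le (by norm_num) hbr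
    linarith
  have h2 : round ((b : ℝ) * x) = (b : ℤ) * n := by
    by_contra hcon
    have g1 : (1 : ℤ) ≤ |round ((b : ℝ) * x) - (b : ℤ) * n| := Int.one_le_abs (sub_ne_zero.2 hcon)
    have g2 : (1 : ℝ) ≤ |((round ((b : ℝ) * x) : ℤ) : ℝ) - (((b : ℤ) * n : ℤ) : ℝ)| := by exact_mod_cast g1
    have g3 := round_le ((b : ℝ) * x) ((b : ℤ) * n)
    rw [e2] at g3
    have g4 : |((round ((b : ℝ) * x) : ℤ) : ℝ) - (((b : ℤ) * n : ℤ) : ℝ)| ≤
        |(b : ℝ) * x - (round ((b : ℝ) * x) : ℤ)| + |(b : ℝ) * x - (((b : ℤ) * n : ℤ) : ℝ)| := by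
      have := abs_sub_le ((round ((b : ℝ) * x) : ℤ) : ℝ) ((b : ℝ) * x) (((b : ℤ) * n : ℤ) : ℝ)
      rwa [abs_sub_comm ((round ((b : ℝ) * x) : ℤ) : ℝ) ((b : ℝ) * x)] at this
    rw [e2] at g4
    linarith
  have h3 : nn ((b : ℝ) * x) = b * |x - n| := by
    unfold nn
    rw [h2, e2]
  have h4 := nn_le x n
  have h5 : nn x ^ 2 ≤ |x - n| ^ 2 := pow_le_pow_left₀ (nn_nonneg x) h4 2
  rw [h3]
  have h6 : (4 : ℝ) ≤ (b : ℝ) ^ 2 := by nlinarith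
  have h7 : 0 ≤ |x - n| ^ 2 := by positivity
  have h8 : ((b : ℝ) * |x - n|) ^ 2 = (b : ℝ) ^ 2 * |x - n| ^ 2 := by ring
  rw [h8]
  nlinarith

/-- the sum of the squares of the distances -/
lemma near_sum (b F : ℕ) (hb : 2 ≤ b) (θ : ℝ) (k : ℕ) :
    ∑ j ∈ range k, nn ((F : ℝ) * ((b : ℝ) ^ j * θ)) ^ 2 ≤ (Mir.farCount b F k θ : ℝ) / 3 + nn ((F : ℝ) * ((b : ℝ) ^ k * θ)) ^ 2 / 3 := by
  classical
  induction k with
  | zero =>
    rw [range_zero, sum_empty]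
    positivity
  | succ k ih =>
    rw [sum_range_succ]
    have e1 : (F : ℝ) * ((b : ℝ) ^ (k + 1) * θ) = b * ((F : ℝ) * ((b : ℝ) ^ k * θ)) := by ring
    have e2 : Mir.farCount b F (k + 1) θ = Mir.farCount b F k θ + if Mir.Far (1 / (b : ℝ) ^ 2) ((F : ℝ) * ((b : ℝ) ^ k * θ)) then 1 else 0 := by
      unfold Mir.farCount
      rw [range_add_one, filter_insert]
      split_ifs with h
      · rw [card_insert_of_notMem]
        intro hmem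
        rw [mem_filter, mem_range] at hmem
        omega
      · rfl
    rw [e1, e2]
    obtain ⟨x, hx⟩ : ∃ x, x = (F : ℝ) * ((b : ℝ) ^ k * θ) := ⟨_, rfl⟩
    rw [← hx] at ih ⊢
    split_ifs with h
    · have h1 := nn_half x
      have h2 := nn_nonneg x
      have h3 : nn x ^ 2 ≤ 1 / 4 := by nlinarith
      have h4 : 0 ≤ nn ((b : ℝ) * x) ^ 2 := by positivity
      push_cast
      linarith
    · have h1 := near_step b hb x h
      push_cast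
      linarith

/-- choice of the parameters -/
lemma parp (κ g : ℝ) (hκ : 0 < κ) (hg : 1 ≤ g) : ∃ lam σ₀ : ℝ, 1 ≤ lam ∧ 0 < σ₀ ∧ ∀ (N J : ℕ) (σ : ℝ), 1 ≤ N →
    (J : ℝ) ≤ 2 * Real.log N → σ ≤ σ₀ * Real.log N →
    lam ^ (16 * (g ^ 2 + 1) * σ) * Real.exp (J * (g + 3) / lam) ≤ (N : ℝ) ^ κ := by
  obtain ⟨lam, hlam⟩ : ∃ lam, lam = 1 + 4 * (g + 3) / κ := ⟨_, rfl⟩
  have hlam1 : 1 ≤ lam := by
    rw [hlam]
    have : 0 ≤ 4 * (g + 3) / κ := by positivity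
    linarith
  have hlam0 : 0 < lam := by linarith
  have hll : 0 ≤ Real.log lam := Real.log_nonneg hlam1
  refine ⟨lam, κ / (2 * (16 * (g ^ 2 + 1)) * (Real.log lam + 1)), hlam1, by positivity, fun N J σ hN hJ hσ => ?_⟩
  have hN0 : (0 : ℝ) < N := by exact_mod_cast (by omega : 0 < N)
  have hlog : 0 ≤ Real.log (N : ℝ) := Real.log_natCast_nonneg _
  have h1 : lam ^ (16 * (g ^ 2 + 1) * σ) ≤ Real.exp (κ / 2 * Real.log N) := by
    rw [Real.rpow_def_of_pos hlam0]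
    apply Real.exp_le_exp.2
    have h2 : 16 * (g ^ 2 + 1) * σ ≤ 16 * (g ^ 2 + 1) * (κ / (2 * (16 * (g ^ 2 + 1)) * (Real.log lam + 1)) * Real.log N) :=
      mul_le_mul_of_nonneg_left hσ (by positivity)
    have h3 : 16 * (g ^ 2 + 1) * (κ / (2 * (16 * (g ^ 2 + 1)) * (Real.log lam + 1)) * Real.log N) = κ / 2 * Real.log N / (Real.log lam + 1) := by
      field_simp
    rw [h3] at h2
    have h4 : 0 ≤ κ / 2 * Real.log N := by positivity
    calc Real.log lam * (16 * (g ^ 2 + 1) * σ) ≤ Real.log lam * (κ / 2 * Real.log N / (Real.log lam + 1)) :=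
          mul_le_mul_of_nonneg_left h2 hll
      _ = κ / 2 * Real.log N * (Real.log lam / (Real.log lam + 1)) := by ring
      _ ≤ κ / 2 * Real.log N * 1 := by
          apply mul_le_mul_of_nonneg_left _ h4
          rw [div_le_one (by linarith)]
          linarith
      _ = _ := mul_one _
  have h5 : Real.exp (J * (g + 3) / lam) ≤ Real.exp (κ / 2 * Real.log N) := by
    apply Real.exp_le_exp.2
    rw [div_le_iff₀ hlam0]
    have h6 : (4 * (g + 3) / κ) ≤ lam := by rw [hlam]; linarith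
    have h7 : κ / 2 * Real.log N * (4 * (g + 3) / κ) ≤ κ / 2 * Real.log N * lam := mul_le_mul_of_nonneg_left h6 (by positivity)
    have h8 : κ / 2 * Real.log N * (4 * (g + 3) / κ) = 2 * Real.log N * (g + 3) := by
      field_simp
      ring
    have h9 : (J : ℝ) * (g + 3) ≤ 2 * Real.log N * (g + 3) := mul_le_mul_of_nonneg_right hJ (by linarith)
    linarith
  calc lam ^ (16 * (g ^ 2 + 1) * σ) * Real.exp (J * (g + 3) / lam) ≤ Real.exp (κ / 2 * Real.log N) * Real.exp (κ / 2 * Real.log N) :=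
        mul_le_mul h1 h5 (Real.exp_pos _).le (Real.exp_pos _).le
    _ = (N : ℝ) ^ κ := by
        rw [← Real.exp_add, Real.rpow_def_of_pos hN0]
        congr 1
        ring

lemma farCount_neg (b F k : ℕ) (θ : ℝ) : Mir.farCount b F k (-θ) = Mir.farCount b F k θ := by
  classical
  unfold Mir.farCount
  congr 1
  apply filter_congr
  intro j _
  have e1 : (F : ℝ) * ((b : ℝ) ^ j * -θ) = -((F : ℝ) * ((b : ℝ) ^ j * θ)) := by ring
  rw [e1]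
  constructor
  · intro h
    have := h.neg
    rwa [neg_neg] at this
  · exact fun h => h.neg

/-- a large value of the characteristic function: few positions are far -/
lemma far_of_large (b : ℕ) (hb : 2 ≤ b) (η : ℝ) (hη : 0 < η) : ∃ v : ℕ, ∀ (m s : ℕ) (w : ℕ → ℕ × ℕ → ℝ), Mir.Mirr b m η w →
    ∀ (θ : ℝ) (n : ℕ), (1 / (b : ℝ)) ^ n < ‖∑ g ∈ Mir.Gs b m, ((Mir.pw w g : ℝ) : ℂ) * ee ((Mir.val b (2 * m + s) g : ℝ) * θ)‖ →
    Mir.farCount b (b ^ 4).factorial (2 * m + s) θ < 4 * (v * n) + (4 + s) := by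
  obtain ⟨η', hη'⟩ : ∃ η', η' = min η 1 := ⟨_, rfl⟩
  have hη0 : 0 < η' := by rw [hη']; exact lt_min hη one_pos
  have hη1 : η' ≤ 1 := by rw [hη']; exact min_le_right _ _
  have hbr : (2 : ℝ) ≤ b := by exact_mod_cast hb
  have hb0 : (0 : ℝ) < b := by linarith
  obtain ⟨F, hF⟩ : ∃ F, F = (b ^ 4).factorial := ⟨_, rfl⟩
  have hFn : 1 ≤ F := by rw [hF]; exact (b ^ 4).factorial_pos
  have hFr : (1 : ℝ) ≤ F := by exact_mod_cast hFn
  obtain ⟨γ, hγ⟩ : ∃ γ, γ = 1 - 4 * (η' / (b : ℝ) ^ 4) * (1 / (2 * (F : ℝ) * (b : ℝ) ^ 4)) ^ 2 := ⟨_, rfl⟩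
  have hb4 : (16 : ℝ) ≤ (b : ℝ) ^ 4 := by
    calc (16 : ℝ) = 2 ^ 4 := by norm_num
      _ ≤ _ := pow_le_pow_left₀ (by norm_num) hbr 4
  have hγ1 : γ < 1 := by
    rw [hγ]
    have : 0 < 4 * (η' / (b : ℝ) ^ 4) * (1 / (2 * (F : ℝ) * (b : ℝ) ^ 4)) ^ 2 := by positivity
    linarith
  have hγ0 : 0 ≤ γ := by
    rw [hγ]
    have c3 : η' / (b : ℝ) ^ 4 ≤ 1 / 16 := by
      rw [div_le_div_iff₀ (by positivity) (by norm_num)]
      nlinarith
    have c4 : 1 / (2 * (F : ℝ) * (b : ℝ) ^ 4) ≤ 1 / 32 := by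
      apply div_le_div_of_nonneg_left (by norm_num) (by norm_num)
      nlinarith
    have c5 : 0 ≤ 1 / (2 * (F : ℝ) * (b : ℝ) ^ 4) := by positivity
    have c6 : (1 / (2 * (F : ℝ) * (b : ℝ) ^ 4)) ^ 2 ≤ (1 / 32) ^ 2 := pow_le_pow_left₀ c5 c4 2
    have c7 : 0 ≤ η' / (b : ℝ) ^ 4 := by positivity
    nlinarith
  obtain ⟨v, hv⟩ : ∃ v : ℕ, γ ^ v < 1 / b := exists_pow_lt_of_lt_one (show (0 : ℝ) < 1 / b by positivity) hγ1
  refine ⟨v, fun m s w hw θ n hlarge => ?_⟩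
  have hw' : Mir.Mirr b m η' w := ⟨hw.nonneg, hw.sum, fun i hi h1 => by
    have g1 := hw.mir i hi h1
    have g2 : η' ≤ η := by rw [hη']; exact min_le_left _ _
    linarith⟩
  by_contra hcon
  push Not at hcon
  have hdec := Mir.char_decay b m s hb η' hη0 w hw' θ (v * n) hcon γ (by rw [hγ, hF]) hγ0
  have h5 : γ ^ (v * n) ≤ (1 / (b : ℝ)) ^ n := by
    rw [pow_mul]
    exact pow_le_pow_left₀ (by positivity) hv.le _
  linarith

/-- few points at which few positions are far -/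
theorem few_far (b F v A : ℕ) (hb : 2 ≤ b) (hF : 1 ≤ F) (c : ℝ) (hc : 0 < c) (κ : ℝ) (hκ : 0 < κ) : ∃ θ : ℝ, 0 < θ ∧ θ ≤ 1 ∧
    ∀ κ₀ : ℤ, κ₀ ≠ 0 → ∃ k₀ : ℕ, ∀ k : ℕ, k₀ ≤ k → ∀ N : ℕ, b ^ k ≤ N → (N : ℝ) ≤ (b : ℝ) ^ ((1 + θ) * k) →
    ∀ S : Finset ℝ, (∀ a ∈ S, 0 ≤ a ∧ a < 1 ∧ ∀ n : ℕ, (n : ℝ) ≤ c * k → (1 / (b : ℝ)) ^ n ≤ (N : ℝ) ^ (-θ) →
      Mir.farCount b F k (κ₀ * a) < v * n + A) →
    (∀ a ∈ S, ∀ b ∈ S, a ≠ b → 1 / (N : ℝ) ≤ |a - b|) → (S.card : ℝ) ≤ (N : ℝ) ^ κ := by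
  classical
  have hbr : (2 : ℝ) ≤ b := by exact_mod_cast hb
  have hb0 : (0 : ℝ) < b := by linarith
  have hlb : 1 / 2 < Real.log (b : ℝ) := by
    have h1 := Real.log_le_log (by norm_num) hbr
    have h2 := Real.log_two_gt_d9
    linarith
  obtain ⟨lam, σ₀, hlam, hσ₀, hpar⟩ := parp (κ / 2) b (by positivity) (by linarith)
  obtain ⟨θ, hθ⟩ : ∃ θ : ℝ, θ = min (min 1 (c / 4)) (min (κ / 8) (σ₀ * 3 / (4 * (v + 1)))) := ⟨_, rfl⟩
  have hθ0 : 0 < θ := by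
    rw [hθ]
    exact lt_min (lt_min one_pos (by positivity)) (lt_min (by positivity) (by positivity))
  have hθ1 : θ ≤ 1 := by rw [hθ]; exact (min_le_left _ _).trans (min_le_left _ _)
  have hθc : θ ≤ c / 4 := by rw [hθ]; exact (min_le_left _ _).trans (min_le_right _ _)
  have hθ2 : θ ≤ κ / 8 := by rw [hθ]; exact (min_le_right _ _).trans (min_le_left _ _)
  have hθ3 : θ ≤ σ₀ * 3 / (4 * (v + 1)) := by rw [hθ]; exact (min_le_right _ _).trans (min_le_right _ _)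
  refine ⟨θ, hθ0, hθ1, fun κ₀ hκ₀ => ?_⟩
  obtain ⟨κ', hκ'⟩ : ∃ κ' : ℕ, κ' = κ₀.natAbs := ⟨_, rfl⟩
  have hκ'1 : 1 ≤ κ' := by rw [hκ']; exact Int.natAbs_pos.2 hκ₀
  have hFκ : 1 ≤ F * κ' := Nat.mul_pos hF hκ'1
  -- large
  obtain ⟨C₀, hC₀⟩ : ∃ C₀ : ℝ, C₀ = (((F * κ' : ℕ) : ℝ) + 2) * (b + 2) := ⟨_, rfl⟩
  obtain ⟨k₁, hk₁⟩ : ∃ k₁ : ℕ, (((v : ℝ) + A + 1) / 3) / (σ₀ / 2) ≤ (k₁ : ℝ) * (1 / 2) := by
    obtain ⟨n, hn⟩ := exists_nat_ge (2 * ((((v : ℝ) + A + 1) / 3) / (σ₀ / 2)))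
    exact ⟨n, by linarith⟩
  obtain ⟨k₂, hk₂⟩ : ∃ k₂ : ℕ, Real.log C₀ / θ ≤ (k₂ : ℝ) * (1 / 2) := by
    obtain ⟨n, hn⟩ := exists_nat_ge (2 * (Real.log C₀ / θ))
    exact ⟨n, by linarith⟩
  obtain ⟨k₃, hk₃⟩ := exists_nat_ge (2 / c)
  refine ⟨k₁ + k₂ + k₃ + 1, fun k hk N hN1 hN2 S hS hsep => ?_⟩
  have hNn : 1 ≤ N := le_trans (Nat.one_le_pow _ _ (by omega)) hN1
  have hN0 : (0 : ℝ) < N := by exact_mod_cast (by omega : 0 < N)
  have hNb : (b : ℝ) ^ k ≤ N := by exact_mod_cast hN1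
  have hlogN : (k : ℝ) * Real.log b ≤ Real.log N := by
    rw [← Real.log_pow]
    exact Real.log_le_log (by positivity) hNb
  have hlogN2 : Real.log N ≤ (1 + θ) * k * Real.log b := by
    have := Real.log_le_log hN0 hN2
    rwa [Real.log_rpow hb0] at this
  have hk0 : (0 : ℝ) ≤ k := Nat.cast_nonneg _
  have hlogk : (k : ℝ) * (1 / 2) ≤ Real.log N := by nlinarith
  have hkr : (k : ℝ) ≤ 2 * Real.log N := by linarith
  have hlog0 : 0 ≤ Real.log (N : ℝ) := Real.log_natCast_nonneg _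
  -- threshold
  obtain ⟨n, hn⟩ : ∃ n, n = ⌈θ * Real.log N / Real.log b⌉₊ := ⟨_, rfl⟩
  have hn1 : θ * Real.log N / Real.log b ≤ n := by rw [hn]; exact Nat.le_ceil _
  have hn2 : (n : ℝ) < θ * Real.log N / Real.log b + 1 := by rw [hn]; exact Nat.ceil_lt_add_one (by positivity)
  have hthr : (1 / (b : ℝ)) ^ n ≤ (N : ℝ) ^ (-θ) := by
    rw [one_div_pow, Real.rpow_neg hN0.le, ← one_div]
    apply one_div_le_one_div_of_le (by positivity)
    rw [Real.rpow_def_of_pos hN0, ← Real.rpow_natCast, Real.rpow_def_of_pos hb0]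
    apply Real.exp_le_exp.2
    rw [div_le_iff₀ (by linarith)] at hn1
    linarith
  have hnc : (n : ℝ) ≤ c * k := by
    have g1 : θ * Real.log N / Real.log b ≤ θ * ((1 + θ) * k) := by
      rw [div_le_iff₀ (by linarith)]
      have := mul_le_mul_of_nonneg_left hlogN2 hθ0.le
      linarith
    have g2 : θ * ((1 + θ) * k) ≤ c / 2 * k := by
      have g3 : θ * (1 + θ) ≤ c / 4 * 2 := mul_le_mul hθc (by linarith) (by linarith) (by positivity)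
      have g4 := mul_le_mul_of_nonneg_right g3 hk0
      linarith
    have g5 : 1 ≤ c / 2 * k := by
      have g6 : (k₃ : ℝ) ≤ k := by exact_mod_cast (by omega : k₃ ≤ k)
      have g7 : 2 / c ≤ k := hk₃.trans g6
      rw [div_le_iff₀ hc] at g7
      linarith
    linarith
  obtain ⟨σ, hσ⟩ : ∃ σ : ℝ, σ = ((v : ℝ) * n + A + 1) / 3 := ⟨_, rfl⟩
  have hσ' : σ ≤ σ₀ * Real.log N := by
    have g1 : (n : ℝ) ≤ 2 * θ * Real.log N + 1 := by
      have : θ * Real.log N / Real.log b ≤ 2 * θ * Real.log N := by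
        rw [div_le_iff₀ (by linarith)]
        have g0 : 0 ≤ θ * Real.log N := by positivity
        nlinarith
      linarith
    have g2 : (v : ℝ) * n ≤ v * (2 * θ * Real.log N + 1) := mul_le_mul_of_nonneg_left g1 (Nat.cast_nonneg _)
    have g3 : 2 * (v : ℝ) * θ / 3 ≤ σ₀ / 2 := by
      have g4 : θ * (4 * (v + 1)) ≤ σ₀ * 3 := by
        rwa [le_div_iff₀ (by positivity)] at hθ3
      have g5 : 0 ≤ (v : ℝ) := Nat.cast_nonneg _
      nlinarith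
    have g6 : ((v : ℝ) + A + 1) / 3 ≤ σ₀ / 2 * Real.log N := by
      have g7 : (((v : ℝ) + A + 1) / 3) / (σ₀ / 2) ≤ Real.log N := by
        have : (k₁ : ℝ) ≤ k := by exact_mod_cast (by omega : k₁ ≤ k)
        linarith
      rwa [div_le_iff₀ (by positivity), mul_comm] at g7
    have g8 : 2 * (v : ℝ) * θ / 3 * Real.log N ≤ σ₀ / 2 * Real.log N := mul_le_mul_of_nonneg_right g3 hlog0
    rw [hσ]
    calc ((v : ℝ) * n + A + 1) / 3 ≤ (v * (2 * θ * Real.log N + 1) + A + 1) / 3 := by linarith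
      _ = 2 * (v : ℝ) * θ / 3 * Real.log N + ((v : ℝ) + A + 1) / 3 := by ring
      _ ≤ _ := by linarith
  have hk1 : 1 ≤ k := by omega
  obtain ⟨τ, hτ⟩ : ∃ τ : ℕ → ℕ, τ = fun j => F * κ' * b ^ j := ⟨_, rfl⟩
  have hτ1 : ∀ j, 1 ≤ τ j := fun j => by
    rw [hτ]
    exact Nat.mul_pos hFκ (Nat.pow_pos (by omega))
  have hpack := Pool.Agent.Y447.SP.t_PACK (k - 1) τ N b σ lam S hNn (by linarith) (by rw [hσ]; positivity) hlam (fun j _ => hτ1 j) (by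
    intro a ha
    obtain ⟨h1, h2, h3⟩ := hS a ha
    refine ⟨h1, h2, ?_⟩
    rw [Nat.sub_add_cancel hk1]
    have hfar := h3 n hnc hthr
    have hfar' : Mir.farCount b F k ((κ' : ℝ) * a) = Mir.farCount b F k ((κ₀ : ℝ) * a) := by
      rcases le_or_gt 0 κ₀ with h0 | h0
      · have : (κ₀ : ℝ) = (κ' : ℝ) := by rw [hκ', Nat.cast_natAbs, abs_of_nonneg h0]
        rw [this]
      · have : (κ₀ : ℝ) = -(κ' : ℝ) := by
          rw [hκ', Nat.cast_natAbs, abs_of_neg h0]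
          push_cast
          ring
        rw [this, neg_mul, farCount_neg]
    have hsum := near_sum b F hb ((κ' : ℝ) * a) k
    rw [hfar'] at hsum
    have e1 : ∀ j, nn (a * (τ j : ℝ)) = nn ((F : ℝ) * ((b : ℝ) ^ j * ((κ' : ℝ) * a))) := by
      intro j
      congr 1
      rw [hτ]
      push_cast
      ring
    simp only [e1]
    refine hsum.trans ?_
    have g1 : (Mir.farCount b F k ((κ₀ : ℝ) * a) : ℝ) ≤ (v : ℝ) * n + A := by
      exact_mod_cast hfar.le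
    have g2 := nn_half ((F : ℝ) * ((b : ℝ) ^ k * ((κ' : ℝ) * a)))
    have g3 := nn_nonneg ((F : ℝ) * ((b : ℝ) ^ k * ((κ' : ℝ) * a)))
    have g4 : nn ((F : ℝ) * ((b : ℝ) ^ k * ((κ' : ℝ) * a))) ^ 2 ≤ 1 := by nlinarith
    rw [hσ]
    linarith) hsep
  have hprod : (∏ j ∈ (range (k - 1)).filter (fun j => (b : ℝ) < (τ (j + 1) : ℝ) / τ j), ((τ (j + 1) : ℝ) / τ j + 3)) = 1 := by
    rw [filter_false_of_mem, prod_empty]
    intro j _
    have g1 : (0 : ℝ) < τ j := by exact_mod_cast hτ1 j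
    rw [not_lt, div_le_iff₀ g1, hτ]
    push_cast
    apply le_of_eq
    ring
  rw [hprod, mul_one] at hpack
  have hpar' := hpar N (k - 1) σ hNn (by
    have : ((k - 1 : ℕ) : ℝ) ≤ k := by exact_mod_cast Nat.sub_le _ _
    linarith) hσ'
  refine hpack.trans ?_
  have hτ0 : (τ 0 : ℝ) = ((F * κ' : ℕ) : ℝ) := by rw [hτ]; simp
  have hNτ : (N : ℝ) / τ (k - 1) ≤ b * (N : ℝ) ^ θ := by
    have g1 : (b : ℝ) ^ (k - 1) ≤ τ (k - 1) := by
      rw [hτ]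
      have : b ^ (k - 1) ≤ F * κ' * b ^ (k - 1) := Nat.le_mul_of_pos_left _ (by omega)
      exact_mod_cast this
    have g2 : (N : ℝ) ≤ (b : ℝ) ^ k * (N : ℝ) ^ θ := by
      have g3 : (b : ℝ) ^ ((1 + θ) * (k : ℕ)) = (b : ℝ) ^ k * ((b : ℝ) ^ k) ^ θ := by
        rw [add_mul, one_mul, Real.rpow_add hb0, Real.rpow_natCast, mul_comm θ, Real.rpow_mul hb0.le, Real.rpow_natCast]
      rw [g3] at hN2
      refine hN2.trans ?_
      apply mul_le_mul_of_nonneg_left _ (by positivity)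
      exact Real.rpow_le_rpow (by positivity) hNb hθ0.le
    have g4 : (b : ℝ) ^ k = b * (b : ℝ) ^ (k - 1) := by rw [← pow_succ']; congr 1; omega
    rw [g4] at g2
    rw [div_le_iff₀ (lt_of_lt_of_le (by positivity) g1)]
    calc (N : ℝ) ≤ b * (b : ℝ) ^ (k - 1) * (N : ℝ) ^ θ := g2
      _ = b * (N : ℝ) ^ θ * (b : ℝ) ^ (k - 1) := by ring
      _ ≤ _ := mul_le_mul_of_nonneg_left g1 (by positivity)
  have hNθ1 : 1 ≤ (N : ℝ) ^ θ := Real.one_le_rpow (by exact_mod_cast hNn) hθ0.le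
  have hC₀0 : 0 < C₀ := by rw [hC₀]; positivity
  have hC₀N : C₀ ≤ (N : ℝ) ^ θ := by
    rw [← Real.exp_log hC₀0, Real.rpow_def_of_pos hN0]
    apply Real.exp_le_exp.2
    have : Real.log C₀ / θ ≤ Real.log N := by
      have : (k₂ : ℝ) ≤ k := by exact_mod_cast (by omega : k₂ ≤ k)
      linarith
    rwa [div_le_iff₀ hθ0] at this
  have h1 : ((τ 0 : ℝ) + 2) * ((N : ℝ) / τ (k - 1) + 2) ≤ (N : ℝ) ^ (2 * θ) := by
    calc ((τ 0 : ℝ) + 2) * ((N : ℝ) / τ (k - 1) + 2) ≤ (((F * κ' : ℕ) : ℝ) + 2) * ((b + 2) * (N : ℝ) ^ θ) := by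
          rw [hτ0]
          apply mul_le_mul_of_nonneg_left _ (by positivity)
          nlinarith
      _ = C₀ * (N : ℝ) ^ θ := by rw [hC₀]; ring
      _ ≤ (N : ℝ) ^ θ * (N : ℝ) ^ θ := mul_le_mul_of_nonneg_right hC₀N (by positivity)
      _ = _ := by rw [← Real.rpow_add hN0]; congr 1; ring
  calc ((τ 0 : ℝ) + 2) * ((N : ℝ) / τ (k - 1) + 2) * (lam ^ (16 * ((b : ℝ) ^ 2 + 1) * σ) * Real.exp (((k - 1 : ℕ) : ℝ) * (b + 3) / lam))
      ≤ (N : ℝ) ^ (2 * θ) * (N : ℝ) ^ (κ / 2) := mul_le_mul h1 hpar' (by positivity) (by positivity)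
    _ = (N : ℝ) ^ (2 * θ + κ / 2) := by rw [← Real.rpow_add hN0]
    _ ≤ (N : ℝ) ^ κ := Real.rpow_le_rpow_of_exponent_le (by exact_mod_cast hNn) (by linarith)

/-- few large Fourier coefficients, integers with mirror-dependent digits -/
theorem few_mir (b : ℕ) (hb : 2 ≤ b) (η : ℝ) (hη : 0 < η) (κ : ℝ) (hκ : 0 < κ) : ∃ θ : ℝ, 0 < θ ∧ θ ≤ 1 ∧ ∀ κ₀ : ℤ, κ₀ ≠ 0 → ∃ k₀ : ℕ,
    ∀ m s : ℕ, s ≤ 1 → k₀ ≤ 2 * m + s → ∀ N : ℕ, b ^ (2 * m + s) ≤ N → (N : ℝ) ≤ (b : ℝ) ^ ((1 + θ) * (2 * m + s : ℕ)) →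
    ∀ w : ℕ → ℕ × ℕ → ℝ, Mir.Mirr b m η w → ∀ cc : ℤ,
    FewLarge (ι := {g // g ∈ Mir.Gs b m}) (fun g => Mir.pw w g.1) (fun g => cc + κ₀ * (Mir.val b (2 * m + s) g.1 : ℕ)) N
      ((N : ℝ) ^ (-θ)) ((N : ℝ) ^ κ) := by
  classical
  obtain ⟨v, hv⟩ := far_of_large b hb η hη
  obtain ⟨θ, hθ0, hθ1, h1⟩ := few_far b (b ^ 4).factorial (4 * v) 5 hb (b ^ 4).factorial_pos 1 one_pos κ hκ
  refine ⟨θ, hθ0, hθ1, fun κ₀ hκ₀ => ?_⟩
  obtain ⟨k₀, h2⟩ := h1 κ₀ hκ₀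
  refine ⟨k₀, fun m s hs hk N hN1 hN2 w hw cc S hS hsep => ?_⟩
  refine h2 (2 * m + s) hk N hN1 hN2 S (fun a ha => ?_) hsep
  obtain ⟨g1, g2, h3⟩ := hS a ha
  refine ⟨g1, g2, fun n _ hthr => ?_⟩
  have hshift : φ (fun g : {g // g ∈ Mir.Gs b m} => Mir.pw w g.1) (fun g => cc + κ₀ * (Mir.val b (2 * m + s) g.1 : ℕ)) a =
      ee ((cc : ℝ) * a) * ∑ g ∈ Mir.Gs b m, ((Mir.pw w g : ℝ) : ℂ) * ee ((Mir.val b (2 * m + s) g : ℝ) * (κ₀ * a)) := by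
    rw [mul_sum, ← Finset.sum_coe_sort]
    apply sum_congr rfl
    intro g _
    have : ee ((((cc + κ₀ * (Mir.val b (2 * m + s) g.1 : ℕ)) : ℤ) : ℝ) * a) =
        ee ((cc : ℝ) * a) * ee ((Mir.val b (2 * m + s) g.1 : ℝ) * (κ₀ * a)) := by
      rw [← ee_add]
      congr 1
      push_cast
      ring
    have h5 : (((Mir.pw w g.1 : ℝ)) : ℂ) * ee ((((cc + κ₀ * (Mir.val b (2 * m + s) g.1 : ℕ)) : ℤ) : ℝ) * a) =
        ee ((cc : ℝ) * a) * ((((Mir.pw w g.1 : ℝ)) : ℂ) * ee ((Mir.val b (2 * m + s) g.1 : ℝ) * (κ₀ * a))) := by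
      rw [this]; ring
    exact h5
  rw [hshift, norm_mul, norm_ee, one_mul] at h3
  have hfar := hv m s w hw (κ₀ * a) n (lt_of_le_of_lt hthr h3)
  have e1 : 4 * (v * n) = 4 * v * n := by ring
  rw [e1] at hfar
  omega

end Pool.Agent.R501.SP
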