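import Pool.Agent.R501.SP1

set_option autoImplicit false

/-! Power savings for the divisor correlations: mirror-dependent digits and palindromes. -/

namespace Pool.Agent.R501.SP
open Finset Polynomial
open Pool.Agent.TH872
open Pool.Agent.TH872.Tr
open Pool.Agent.TH872.Mir (Mirr Gs pw val Pals w0_mirr)

/-- from laws to statements about random integers and palindromes, with an arbitrary bound -/
theorem transfer' (b k : ℕ) (hb : 2 ≤ b) (hk : 4 ≤ k) (κ c : ℤ) (bad : ℤ → Prop) (δ : ℝ) (hδ : 0 ≤ δ) (η : ℝ)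
    (H : ∀ η' : ℝ, (η' = η ∨ η' = 1 / (b : ℝ) ^ 2) → ∀ w : ℕ → ℕ × ℕ → ℝ, Mirr b (k / 2) η' w → ∀ cc : ℤ,
      |cc - c| ≤ |κ| * (b : ℤ) ^ k → ∀ E : (Fin (k / 2) → ℕ × ℕ) → Prop, [DecidablePred E] →
      (∀ g ∈ Gs b (k / 2), E g → bad (cc + κ * (val b k g : ℕ))) →
      ∑ g ∈ Gs b (k / 2), (if E g then pw w g else 0) ≤ δ) :
    (∀ (w : ℕ → ℕ × ℕ → ℝ) (u : ℕ → ℝ), Pairs b k η w → (∀ a, 0 ≤ u a) → ∑ a ∈ range b, u a = 1 →
      Prob b k w u (fun d z => bad (value b k κ c d z)) ≤ δ) ∧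
    (num b k (fun v => bad (c + κ * v)) : ℝ) ≤ num b k (fun _ => True) * δ := by
  classical
  obtain ⟨m, hm⟩ : ∃ m, m = k / 2 := ⟨_, rfl⟩
  obtain ⟨s, hs⟩ : ∃ s, s = k % 2 := ⟨_, rfl⟩
  have hs1 : s ≤ 1 := by omega
  have hkms : k = 2 * m + s := by omega
  have hg : ∀ η' : ℝ, (η' = η ∨ η' = 1 / (b : ℝ) ^ 2) → ∀ w : ℕ → ℕ × ℕ → ℝ, Mirr b m η' w → ∀ z < b,
      ∑ g ∈ Gs b m, (if bad (c + κ * ((val b (2 * m + s) g + s * z * b ^ m : ℕ) : ℤ)) then pw w g else 0) ≤ δ := by
    intro η' hη' w hw z hz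
    have hval : ∀ g : Fin m → ℕ × ℕ, c + κ * ((val b (2 * m + s) g + s * z * b ^ m : ℕ) : ℤ) =
        (c + κ * ((s * z * b ^ m : ℕ) : ℤ)) + κ * ((val b (2 * m + s) g : ℕ) : ℤ) := by
      intro g
      push_cast
      ring
    simp only [hval]
    have h1 : |(c + κ * ((s * z * b ^ m : ℕ) : ℤ)) - c| ≤ |κ| * (b : ℤ) ^ k := by
      rw [add_sub_cancel_left, abs_mul, abs_of_nonneg (by positivity : (0 : ℤ) ≤ ((s * z * b ^ m : ℕ) : ℤ))]
      apply mul_le_mul_of_nonneg_left _ (abs_nonneg κ)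
      have h2 : s * z * b ^ m ≤ b ^ k := by
        calc s * z * b ^ m ≤ 1 * b * b ^ m := by gcongr
          _ = b ^ (m + 1) := by ring
          _ ≤ _ := Nat.pow_le_pow_right (by omega) (by omega)
      exact_mod_cast h2
    subst hm
    have h3 := H η' hη' w hw _ h1 (fun g => bad ((c + κ * ((s * z * b ^ (k / 2) : ℕ) : ℤ)) + κ * ((val b k g : ℕ) : ℤ))) (fun g _ hg => hg)
    rw [← hkms]
    exact h3
  constructor
  · intro w u hw hu hu1
    have hmir : Mirr b m η w := by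
      rw [hm]
      exact ⟨hw.nonneg, hw.sum, hw.differ⟩
    have hP : Prob b k w u (fun d z => bad (value b k κ c d z)) =
        ∑ z ∈ range b, u z * ∑ g ∈ Gs b m, (if bad (c + κ * ((val b (2 * m + s) g + s * z * b ^ m : ℕ) : ℤ))
        then pw w g else 0) := by
      unfold Prob
      rw [sum_comm]
      subst hm hs
      apply sum_congr rfl
      intro z _
      rw [mul_sum]
      apply sum_congr rfl
      intro d _
      rw [← hkms]
      unfold value Mir.val pw
      split_ifs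
      · ring
      · ring
    rw [hP]
    calc _ ≤ ∑ z ∈ range b, u z * δ :=
          sum_le_sum fun z hz => mul_le_mul_of_nonneg_left (hg η (Or.inl rfl) w hmir z (mem_range.1 hz)) (hu z)
      _ = _ := by rw [← sum_mul, hu1, one_mul]
  · have h5 := Mir.pals_of_prob b m s hb (by omega) hs1 (fun v => bad (c + κ * v)) δ hδ (by
        intro z hz
        convert hg _ (Or.inr rfl) _ (w0_mirr b m hb) z hz)
    have e1 : ∀ E : ℕ → Prop, num b k E = ((Pals b (2 * m + s)).filter E).card := by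
      intro E
      unfold num Pals
      rw [← hkms, filter_filter]
      rfl
    rw [e1, e1, filter_true]
    exact h5

end Pool.Agent.R501.SP
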