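import Pool.Agent.R501.SP2

set_option autoImplicit false

/-! Power savings for the divisor correlations: from few large Fourier coefficients to the bound of the exceptions. -/

namespace Pool.Agent.R501.SP
open Finset Polynomial
open Pool.Agent.Results.MP_122e00_nt.SparseRandomShifts (FewLarge φ Asymp)

lemma few_mono {ι : Type} [Fintype ι] (w : ι → ℝ) (v : ι → ℤ) (N : ℕ) (ρ ρ' K : ℝ) (h : ρ ≤ ρ') (hf : FewLarge w v N ρ K) :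
    FewLarge w v N ρ' K := fun S h1 h2 => hf S (fun a ha => ⟨(h1 a ha).1, (h1 a ha).2.1, lt_of_le_of_lt h (h1 a ha).2.2⟩) h2

lemma log_pow_le (C : ℕ) (θ : ℝ) (hθ : 0 < θ) : ∃ N₁ : ℕ, ∀ N : ℕ, N₁ ≤ N → Real.log N ^ C ≤ (N : ℝ) ^ θ := by
  have h := (isLittleO_log_rpow_rpow_atTop (C : ℝ) hθ).bound (show (0 : ℝ) < 1 by norm_num)
  have h2 := (tendsto_natCast_atTop_atTop (R := ℝ)).eventually h
  obtain ⟨x0, hx0⟩ := Filter.eventually_atTop.1 h2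
  refine ⟨x0 + 1, fun N hN => ?_⟩
  have h3 := hx0 N (by omega)
  have hN0 : (0 : ℝ) < N := by exact_mod_cast (by omega : 0 < N)
  have hl : 0 ≤ Real.log (N : ℝ) := Real.log_natCast_nonneg _
  rw [Real.rpow_natCast, one_mul, Real.norm_of_nonneg (by positivity), Real.norm_of_nonneg (by positivity)] at h3
  exact h3

open Classical in
/-- the criterion with a power saving -/
theorem crit_pow (r : ℕ) (P : ℕ → ℝ[X]) (T : ℤ → ℝ[X]) (θc : ℝ) (C : ℕ)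
    (hcrit : ∀ (B : ℕ) (η : ℝ), 0 < η → η ≤ 1 → ∃ N₀ : ℕ, ∀ N : ℕ, N₀ ≤ N →
      ∀ (ι : Type) [Fintype ι] (w : ι → ℝ) (v : ι → ℤ), (∀ i, 0 ≤ w i) → ∑ i, w i = 1 → (∀ i, |v i| ≤ B * N) →
      ∀ ρ : ℝ, (N : ℝ) ^ (-θc) ≤ ρ → ρ ≤ 1 → FewLarge w v N ρ ((N : ℝ) ^ θc) →
      ∑ i ∈ univ.filter (fun i : ι => v i ≠ 0 ∧ ¬ Asymp r N P T (ρ ^ (1 / 8 : ℝ) * N * Real.log N ^ C) η (v i)), w i ≤
        ρ ^ (1 / 2 : ℝ) * Real.log N ^ C) (θ₃ : ℝ) (h0 : 0 < θ₃) (hc : θ₃ ≤ θc) (B : ℕ) (η : ℝ) (hη : 0 < η) (hη1 : η ≤ 1) :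
    ∃ N₀ : ℕ, ∀ N : ℕ, N₀ ≤ N → ∀ (ι : Type) [Fintype ι] (w : ι → ℝ) (v : ι → ℤ), (∀ i, 0 ≤ w i) → ∑ i, w i = 1 → (∀ i, |v i| ≤ B * N) →
      FewLarge w v N ((N : ℝ) ^ (-θ₃)) ((N : ℝ) ^ θc) →
      ∑ i ∈ univ.filter (fun i : ι => v i ≠ 0 ∧ ¬ Asymp r N P T ((N : ℝ) ^ (1 - θ₃ / 16)) η (v i)), w i ≤ (N : ℝ) ^ (-(θ₃ / 16)) := by
  obtain ⟨N₀, h1⟩ := hcrit B η hη hη1
  obtain ⟨N₁, h2⟩ := log_pow_le C (θ₃ / 16) (by positivity)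
  refine ⟨N₀ + N₁ + 1, fun N hN ι _ w v hw hw1 hv hf => ?_⟩
  have hN1 : (1 : ℝ) ≤ N := by exact_mod_cast (by omega : 1 ≤ N)
  have hN0 : (0 : ℝ) < N := by linarith
  have hlog := h2 N (by omega)
  have hlog0 : 0 ≤ Real.log (N : ℝ) ^ C := pow_nonneg (Real.log_natCast_nonneg _) _
  have key := h1 N (by omega) ι w v hw hw1 hv ((N : ℝ) ^ (-θ₃)) (Real.rpow_le_rpow_of_exponent_le hN1 (by linarith))
    (Real.rpow_le_one_of_one_le_of_nonpos hN1 (by linarith)) hf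
  have e1 : ((N : ℝ) ^ (-θ₃)) ^ (1 / 8 : ℝ) * N * Real.log N ^ C ≤ (N : ℝ) ^ (1 - θ₃ / 16) := by
    rw [← Real.rpow_mul hN0.le]
    calc (N : ℝ) ^ (-θ₃ * (1 / 8)) * N * Real.log N ^ C ≤ (N : ℝ) ^ (-θ₃ * (1 / 8)) * N * (N : ℝ) ^ (θ₃ / 16) :=
          mul_le_mul_of_nonneg_left hlog (by positivity)
      _ = (N : ℝ) ^ (-θ₃ * (1 / 8)) * (N : ℝ) ^ (1 : ℝ) * (N : ℝ) ^ (θ₃ / 16) := by rw [Real.rpow_one]
      _ = _ := by rw [← Real.rpow_add hN0, ← Real.rpow_add hN0]; congr 1; ring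
  have e2 : ((N : ℝ) ^ (-θ₃)) ^ (1 / 2 : ℝ) * Real.log N ^ C ≤ (N : ℝ) ^ (-(θ₃ / 16)) := by
    rw [← Real.rpow_mul hN0.le]
    calc (N : ℝ) ^ (-θ₃ * (1 / 2)) * Real.log N ^ C ≤ (N : ℝ) ^ (-θ₃ * (1 / 2)) * (N : ℝ) ^ (θ₃ / 16) :=
          mul_le_mul_of_nonneg_left hlog (by positivity)
      _ = (N : ℝ) ^ (-θ₃ * (1 / 2) + θ₃ / 16) := by rw [← Real.rpow_add hN0]
      _ ≤ _ := Real.rpow_le_rpow_of_exponent_le hN1 (by linarith)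
  refine le_trans ?_ (key.trans e2)
  apply sum_le_sum_of_subset_of_nonneg
  · intro i hi
    rw [mem_filter] at hi ⊢
    refine ⟨mem_univ _, hi.2.1, fun hg => hi.2.2 fun x hx => ?_⟩
    obtain ⟨g1, g2⟩ := hg x hx
    exact ⟨g1.trans e1, fun hh => (g2 hh).trans (by linarith)⟩
  · intro i _ _
    exact hw i

end Pool.Agent.R501.SP
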