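import Pool.Agent.R501.SP3

set_option autoImplicit false

/-! Sums of independent integers: savings which depend on the amount of randomness. -/

namespace Pool.Agent.R501.SP
open Finset Polynomial
open Pool.Agent.Y958.SP (Spread2 few_gen prod_sum_one)
open Pool.Agent.TH212.DV (ev_pow ev_log)
open Pool.Agent.Results.MP_122e00_nt.SparseRandomShifts (FewLarge φ Asymp)

/-- choice of the parameters -/
lemma paru' (κ B : ℝ) (hκ : 0 < κ) (hB : 1 ≤ B) : ∃ a : ℝ, 0 < a ∧ ∀ (N J : ℕ) (G σ : ℝ), 3 ≤ N → (J : ℝ) ≤ 2 * Real.log N →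
    1 ≤ G → 0 ≤ σ → σ * (G ^ 2 * (1 + Real.log G)) ≤ a * Real.log N → ∃ lam : ℝ, 1 ≤ lam ∧
    (Real.exp 1 * lam) ^ (16 * ((B * (5 * G)) ^ 2 + 1) * σ) * Real.exp (J * (B * (5 * G) + 3) / lam) ≤ (N : ℝ) ^ κ := by
  have hB0 : 0 < B := zero_lt_one.trans_le hB
  obtain ⟨A, hA⟩ : ∃ A : ℝ, A = 1 + 4 / κ * (5 * B + 3) := ⟨_, rfl⟩
  have hA1 : 1 ≤ A := by
    have : 0 ≤ 4 / κ * (5 * B + 3) := by positivity
    rw [hA]
    linarith
  have hlA : 0 ≤ Real.log A := Real.log_nonneg hA1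
  refine ⟨κ / (2 * (416 * B ^ 2 * (1 + Real.log A))), by positivity, ?_⟩
  intro N J G σ hN hJ hG hσ hσG
  have hG0 : 0 < G := zero_lt_one.trans_le hG
  have hlG : 0 ≤ Real.log G := Real.log_nonneg hG
  obtain ⟨L, hL⟩ : ∃ L : ℝ, L = Real.log N := ⟨_, rfl⟩
  have hN3 : (3 : ℝ) ≤ N := by exact_mod_cast hN
  have hN0 : (0 : ℝ) < N := by linarith
  have hL1 : 1 ≤ L := by
    rw [hL, Real.le_log_iff_exp_le hN0]
    exact (Real.exp_one_lt_three.le).trans hN3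
  rw [← hL] at hJ hσG
  obtain ⟨lam, hlam⟩ : ∃ lam : ℝ, lam = 1 + 4 / κ * (B * (5 * G) + 3) := ⟨_, rfl⟩
  have hg0 : 0 ≤ B * (5 * G) + 3 := by positivity
  have hlam1 : 1 ≤ lam := by
    have : 0 ≤ 4 / κ * (B * (5 * G) + 3) := by positivity
    rw [hlam]
    linarith
  have hlam0 : 0 < lam := by linarith
  have hlog : 0 ≤ Real.log lam := Real.log_nonneg hlam1
  have he0 : 0 < Real.exp 1 * lam := by positivity
  refine ⟨lam, hlam1, ?_⟩
  rw [Real.rpow_def_of_pos he0, Real.rpow_def_of_pos hN0, ← Real.exp_add]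
  apply Real.exp_le_exp.mpr
  rw [Real.log_mul (Real.exp_pos 1).ne' hlam0.ne', Real.log_exp, ← hL]
  have h2 : (J : ℝ) * (B * (5 * G) + 3) / lam ≤ κ * L / 2 := by
    rw [div_le_iff₀ hlam0]
    have h5 : κ * lam = κ + 4 * (B * (5 * G) + 3) := by
      rw [hlam]
      field_simp
    have h6 : (J : ℝ) * (B * (5 * G) + 3) ≤ 2 * L * (B * (5 * G) + 3) := mul_le_mul_of_nonneg_right hJ hg0
    have h7 : κ * L / 2 * lam = L / 2 * (κ + 4 * (B * (5 * G) + 3)) := by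
      rw [← h5]
      ring
    rw [h7]
    have h8 : 0 ≤ L * κ := by positivity
    nlinarith
  have h3 : 1 + Real.log lam ≤ (1 + Real.log A) * (1 + Real.log G) := by
    have h4 : lam ≤ A * G := by
      rw [hlam, hA]
      have h5 : 0 < 4 / κ := by positivity
      have h6 : B * (5 * G) + 3 ≤ (5 * B + 3) * G := by nlinarith
      have h7 : 4 / κ * (B * (5 * G) + 3) ≤ 4 / κ * ((5 * B + 3) * G) := mul_le_mul_of_nonneg_left h6 h5.le
      linarith
    have h5 : Real.log lam ≤ Real.log A + Real.log G := by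
      rw [← Real.log_mul (by linarith) hG0.ne']
      exact Real.log_le_log hlam0 h4
    nlinarith [mul_nonneg hlA hlG]
  have h4 : 16 * ((B * (5 * G)) ^ 2 + 1) ≤ 416 * B ^ 2 * G ^ 2 := by
    have h5 : 1 ≤ (B * G) ^ 2 := by
      apply one_le_pow₀
      nlinarith
    nlinarith
  have h5 : (1 + Real.log lam) * (16 * ((B * (5 * G)) ^ 2 + 1) * σ) ≤ κ * L / 2 := by
    calc (1 + Real.log lam) * (16 * ((B * (5 * G)) ^ 2 + 1) * σ)
        ≤ ((1 + Real.log A) * (1 + Real.log G)) * ((416 * B ^ 2 * G ^ 2) * σ) := by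
          apply mul_le_mul h3 (mul_le_mul_of_nonneg_right h4 hσ) (by positivity) (by positivity)
      _ = (416 * B ^ 2 * (1 + Real.log A)) * (σ * (G ^ 2 * (1 + Real.log G))) := by ring
      _ ≤ (416 * B ^ 2 * (1 + Real.log A)) * (κ / (2 * (416 * B ^ 2 * (1 + Real.log A))) * L) :=
          mul_le_mul_of_nonneg_left hσG (by positivity)
      _ = κ * L / 2 := by field_simp
  calc _ ≤ κ * L / 2 + κ * L / 2 := add_le_add h5 h2
    _ = L * κ := by ring

/-- the savings exponent -/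
noncomputable def sv (a G μ : ℝ) : ℝ := min a (a * μ / (G ^ 2 * (1 + Real.log G)))

open Classical in
theorem ind_pow (r : ℕ) (P : ℕ → ℝ[X]) (T : ℤ → ℝ[X]) (θc : ℝ) (hθc : 0 < θc) (C : ℕ)
    (hcrit : ∀ (B : ℕ) (η : ℝ), 0 < η → η ≤ 1 → ∃ N₀ : ℕ, ∀ N : ℕ, N₀ ≤ N →
      ∀ (ι : Type) [Fintype ι] (w : ι → ℝ) (v : ι → ℤ), (∀ i, 0 ≤ w i) → ∑ i, w i = 1 → (∀ i, |v i| ≤ B * N) →
      ∀ ρ : ℝ, (N : ℝ) ^ (-θc) ≤ ρ → ρ ≤ 1 → FewLarge w v N ρ ((N : ℝ) ^ θc) →
      ∑ i ∈ univ.filter (fun i : ι => v i ≠ 0 ∧ ¬ Asymp r N P T (ρ ^ (1 / 8 : ℝ) * N * Real.log N ^ C) η (v i)), w i ≤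
        ρ ^ (1 / 2 : ℝ) * Real.log N ^ C) : ∃ κ : ℝ, 0 < κ ∧ ∀ B : ℕ, 2 ≤ B → ∃ a C₂ : ℝ, 0 < a ∧ 0 < C₂ ∧ ∀ (B₂ : ℕ) (η : ℝ),
    0 < η → η ≤ 1 → ∃ N₀ : ℕ, ∀ N : ℕ, N₀ ≤ N → ∀ (K m J : ℕ) (p : Fin K → Fin m → ℝ) (x : Fin K → Fin m → ℤ) (c : ℤ) (T' : ℕ → ℝ) (G μ : ℝ),
    Spread2 K m J p x T' B μ → T' J ≤ N → (∀ ω : Fin K → Fin m, |c + ∑ i, x i (ω i)| ≤ B₂ * N) → 1 ≤ G →
    C₂ * G ^ 2 * (1 + Real.log G) * Real.log (Real.log N) ≤ μ * Real.log N →
    T' 0 * ((N : ℝ) / T' J) * ∏ j ∈ (range J).filter (fun j => G < T' (j + 1) / T' j), (T' (j + 1) / T' j / G) ≤ (N : ℝ) ^ κ →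
    ∑ ω ∈ univ.filter (fun ω : Fin K → Fin m => c + ∑ i, x i (ω i) ≠ 0 ∧
      ¬ Asymp r N P T ((N : ℝ) ^ (1 - sv a G μ)) η (c + ∑ i, x i (ω i))), ∏ i, p i (ω i) ≤ (N : ℝ) ^ (-sv a G μ) := by
  refine ⟨θc / 4, by positivity, fun B hB => ?_⟩
  have hBr : (2 : ℝ) ≤ B := by exact_mod_cast hB
  obtain ⟨a₀, ha₀, hpar⟩ := paru' (θc / 4) B (by positivity) (by linarith)
  obtain ⟨a, ha⟩ : ∃ a : ℝ, a = min (θc / 16) (a₀ / 8) := ⟨_, rfl⟩
  have ha0 : 0 < a := by rw [ha]; exact lt_min (by positivity) (by positivity)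
  have ha1 : a ≤ θc / 16 := by rw [ha]; exact min_le_left _ _
  have ha2 : a ≤ a₀ / 8 := by rw [ha]; exact min_le_right _ _
  refine ⟨a, (C : ℝ) / a + 1, ha0, by positivity, fun B₂ η hη hη1 => ?_⟩
  obtain ⟨n1, h1⟩ := hcrit B₂ η hη hη1
  obtain ⟨n3, h3⟩ := log_pow_le C a ha0
  obtain ⟨n4, h4⟩ := ev_pow 0 (6 * (B + 2)) (θc / 4) (by positivity)
  obtain ⟨n5, h5⟩ := ev_log 3
  refine ⟨n1 + n3 + n4 + n5 + 3, fun N hN K m J p x c T' G μ hs hTN hbd hG hCG hprod => ?_⟩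
  have hT := hs.one_le hBr
  have a1 := h1 N (by omega)
  have a3 := h3 N (by omega)
  have a4 := h4 N (by omega)
  have a5 := h5 N (by omega)
  rw [pow_zero, mul_one] at a4
  have hN1 : 1 ≤ N := by omega
  have hN0 : (0 : ℝ) < N := by exact_mod_cast hN1
  have hNr : (1 : ℝ) ≤ N := by exact_mod_cast hN1
  have hlog0 : 0 < Real.log N := by linarith
  have hloglog : 0 < Real.log (Real.log N) := Real.log_pos (by linarith)
  have hlogG : 0 ≤ Real.log G := Real.log_nonneg hG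
  have hGG : 0 < G ^ 2 * (1 + Real.log G) := by positivity
  have hμ : 0 < μ := by
    have q1 : 0 < ((C : ℝ) / a + 1) * G ^ 2 * (1 + Real.log G) * Real.log (Real.log N) := by positivity
    have q2 : 0 < μ * Real.log N := lt_of_lt_of_le q1 hCG
    exact lt_of_mul_lt_mul_right (by rw [zero_mul]; exact q2) hlog0.le
  have hJ2 : (J : ℝ) ≤ 2 * Real.log N := by
    have q2 : ((2 : ℝ)) ^ J ≤ N := (hs.pow hBr J le_rfl).trans hTN
    have q3 := Real.log_le_log (by positivity) q2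
    rw [Real.log_pow] at q3
    have q4 := Real.log_two_gt_d9
    have q5 : (0 : ℝ) ≤ J := Nat.cast_nonneg _
    nlinarith
  obtain ⟨s, hsv⟩ : ∃ s, s = sv a G μ := ⟨_, rfl⟩
  rw [← hsv]
  have hs0 : 0 < s := by rw [hsv]; unfold sv; exact lt_min ha0 (by positivity)
  have hs1 : s ≤ a := by rw [hsv]; exact min_le_left _ _
  have hs2 : s * (G ^ 2 * (1 + Real.log G)) ≤ a * μ := by
    have : s ≤ a * μ / (G ^ 2 * (1 + Real.log G)) := by rw [hsv]; exact min_le_right _ _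
    rwa [le_div_iff₀ hGG] at this
  -- the level
  obtain ⟨ρ, hρ⟩ : ∃ ρ : ℝ, ρ = (N : ℝ) ^ (-(16 * s)) := ⟨_, rfl⟩
  have hρ0 : 0 < ρ := by rw [hρ]; positivity
  have hρ1 : ρ ≤ 1 := by rw [hρ]; exact Real.rpow_le_one_of_one_le_of_nonpos hNr (by linarith)
  have hρN : (N : ℝ) ^ (-θc) ≤ ρ := by rw [hρ]; exact Real.rpow_le_rpow_of_exponent_le hNr (by linarith)
  have hlogρ : Real.log (1 / ρ) = 16 * s * Real.log N := by
    rw [hρ, one_div, ← Real.rpow_neg hN0.le, neg_neg, Real.log_rpow hN0]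
  have hσ0 : 0 ≤ 16 * s * Real.log N / (2 * μ) := by positivity
  have hσG : 16 * s * Real.log N / (2 * μ) * (G ^ 2 * (1 + Real.log G)) ≤ a₀ * Real.log N := by
    have e1 : 16 * s * Real.log N / (2 * μ) * (G ^ 2 * (1 + Real.log G)) = 8 * (s * (G ^ 2 * (1 + Real.log G))) * Real.log N / μ := by
      field_simp
      ring
    rw [e1, div_le_iff₀ hμ]
    have e2 : 8 * (s * (G ^ 2 * (1 + Real.log G))) ≤ a₀ * μ := by
      have : a * μ ≤ a₀ / 8 * μ := mul_le_mul_of_nonneg_right ha2 hμ.le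
      linarith
    have := mul_le_mul_of_nonneg_right e2 hlog0.le
    linarith
  obtain ⟨lam, hlam, a2⟩ := hpar N J G (16 * s * Real.log N / (2 * μ)) (by omega) hJ2 hG hσ0 hσG
  have hfew := few_gen Pool.Agent.Y447.SP.P2.t_PACK2 Pool.Agent.Y958.SP.I2.t_IND2 K m J p x c T' B (5 * G) μ ρ lam N hN1 hBr (by linarith) hμ hρ0 hρ1 hlam hs
  rw [hlogρ] at hfew
  have hT0 := hT 0 (by omega)
  have hTJ := hT J le_rfl
  have hfew' : FewLarge (fun ω : Fin K → Fin m => ∏ i, p i (ω i)) (fun ω => c + ∑ i, x i (ω i)) N ρ ((N : ℝ) ^ θc) := by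
    intro S hS hsep
    refine (hfew S hS hsep).trans ?_
    have q1 : ∏ j ∈ (range J).filter (fun j => 5 * G < T' (j + 1) / T' j), (5 * (T' (j + 1) / T' j) / (5 * G)) ≤
        ∏ j ∈ (range J).filter (fun j => G < T' (j + 1) / T' j), (T' (j + 1) / T' j / G) := by
      calc ∏ j ∈ (range J).filter (fun j => 5 * G < T' (j + 1) / T' j), (5 * (T' (j + 1) / T' j) / (5 * G)) =
            ∏ j ∈ (range J).filter (fun j => 5 * G < T' (j + 1) / T' j), (T' (j + 1) / T' j / G) := by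
            apply prod_congr rfl
            intro j _
            rw [mul_div_mul_left _ _ (by norm_num)]
        _ ≤ _ := by
            apply Pool.Agent.Y958.SP.prod_mono
            · intro j hj
              rw [mem_filter] at hj ⊢
              exact ⟨hj.1, by linarith [hj.2]⟩
            · intro j hj
              rw [mem_filter] at hj
              rw [le_div_iff₀ (by positivity)]
              linarith [hj.2]
    have hNT : 1 ≤ (N : ℝ) / T' J := by rw [le_div_iff₀ (by linarith)]; linarith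
    have q2 : ((B : ℝ) * T' 0 + 2) * ((N : ℝ) / T' J + 2) ≤ (3 * (B + 2)) * (T' 0 * ((N : ℝ) / T' J)) := by
      have r1 : (B : ℝ) * T' 0 + 2 ≤ (B + 2) * T' 0 := by nlinarith
      have r2 : (N : ℝ) / T' J + 2 ≤ 3 * ((N : ℝ) / T' J) := by linarith
      calc ((B : ℝ) * T' 0 + 2) * ((N : ℝ) / T' J + 2) ≤ ((B + 2) * T' 0) * (3 * ((N : ℝ) / T' J)) :=
            mul_le_mul r1 r2 (by positivity) (by positivity)
        _ = _ := by ring
    have q3 : ((B : ℝ) * T' 0 + 2) * ((N : ℝ) / T' J + 2) *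
        ∏ j ∈ (range J).filter (fun j => 5 * G < T' (j + 1) / T' j), (5 * (T' (j + 1) / T' j) / (5 * G)) ≤ (3 * (B + 2)) * (N : ℝ) ^ (θc / 4) := by
      calc _ ≤ (3 * (B + 2)) * (T' 0 * ((N : ℝ) / T' J)) *
            ∏ j ∈ (range J).filter (fun j => G < T' (j + 1) / T' j), (T' (j + 1) / T' j / G) := by
              apply mul_le_mul q2 q1 _ (by positivity)
              apply prod_nonneg
              intro j hj
              rw [mem_filter] at hj
              have : 0 < T' (j + 1) / T' j := by linarith [hj.2]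
              positivity
        _ = (3 * (B + 2)) * (T' 0 * ((N : ℝ) / T' J) *
            ∏ j ∈ (range J).filter (fun j => G < T' (j + 1) / T' j), (T' (j + 1) / T' j / G)) := by ring
        _ ≤ _ := mul_le_mul_of_nonneg_left hprod (by positivity)
    have q4 : 0 ≤ (Real.exp 1 * lam) ^ (16 * (((B : ℝ) * (5 * G)) ^ 2 + 1) * (16 * s * Real.log N / (2 * μ))) *
        Real.exp (J * (B * (5 * G) + 3) / lam) := by positivity
    calc _ ≤ 2 * ((3 * (B + 2)) * (N : ℝ) ^ (θc / 4) * (N : ℝ) ^ (θc / 4)) := by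
          apply mul_le_mul_of_nonneg_left _ (by norm_num)
          exact mul_le_mul q3 a2 q4 (by positivity)
      _ = (6 * (B + 2)) * ((N : ℝ) ^ (θc / 4) * (N : ℝ) ^ (θc / 4)) := by ring
      _ ≤ (N : ℝ) ^ (θc / 4) * ((N : ℝ) ^ (θc / 4) * (N : ℝ) ^ (θc / 4)) := mul_le_mul_of_nonneg_right a4 (by positivity)
      _ = (N : ℝ) ^ (θc / 4 + (θc / 4 + θc / 4)) := by rw [← Real.rpow_add hN0, ← Real.rpow_add hN0]
      _ ≤ _ := Real.rpow_le_rpow_of_exponent_le hNr (by linarith)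
  have key := a1 (Fin K → Fin m) (fun ω => ∏ i, p i (ω i)) (fun ω => c + ∑ i, x i (ω i))
    (fun ω => prod_nonneg fun i _ => hs.nonneg i _) (prod_sum_one p hs.one) hbd ρ hρN hρ1 hfew'
  -- the powers of the logarithm
  have hlogC : Real.log N ^ C ≤ (N : ℝ) ^ s := by
    rcases le_or_gt a (a * μ / (G ^ 2 * (1 + Real.log G))) with h6 | h6
    · have : s = a := by rw [hsv]; exact min_eq_left h6
      rw [this]
      exact a3
    · have h7 : s = a * μ / (G ^ 2 * (1 + Real.log G)) := by rw [hsv]; exact min_eq_right h6.le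
      rw [Real.rpow_def_of_pos hN0, ← Real.exp_log (by positivity : 0 < Real.log N ^ C), Real.log_pow]
      apply Real.exp_le_exp.2
      rw [h7]
      have h8 : a * μ / (G ^ 2 * (1 + Real.log G)) = a * (μ / (G ^ 2 * (1 + Real.log G))) := by ring
      have h9 : ((C : ℝ) / a + 1) * Real.log (Real.log N) ≤ μ / (G ^ 2 * (1 + Real.log G)) * Real.log N := by
        rw [div_mul_eq_mul_div, le_div_iff₀ hGG]
        linarith
      have h10 := mul_le_mul_of_nonneg_left h9 ha0.le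
      have h11 : a * (((C : ℝ) / a + 1) * Real.log (Real.log N)) = C * Real.log (Real.log N) + a * Real.log (Real.log N) := by
        field_simp
      have h12 : 0 ≤ a * Real.log (Real.log N) := by positivity
      rw [h8]
      linarith
  have hlogC0 : 0 ≤ Real.log N ^ C := by positivity
  have e1 : ρ ^ (1 / 8 : ℝ) * N * Real.log N ^ C ≤ (N : ℝ) ^ (1 - s) := by
    rw [hρ, ← Real.rpow_mul hN0.le]
    calc (N : ℝ) ^ (-(16 * s) * (1 / 8)) * N * Real.log N ^ C ≤ (N : ℝ) ^ (-(16 * s) * (1 / 8)) * N * (N : ℝ) ^ s :=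
          mul_le_mul_of_nonneg_left hlogC (by positivity)
      _ = (N : ℝ) ^ (-(16 * s) * (1 / 8)) * (N : ℝ) ^ (1 : ℝ) * (N : ℝ) ^ s := by rw [Real.rpow_one]
      _ = _ := by rw [← Real.rpow_add hN0, ← Real.rpow_add hN0]; congr 1; ring
  have e2 : ρ ^ (1 / 2 : ℝ) * Real.log N ^ C ≤ (N : ℝ) ^ (-s) := by
    rw [hρ, ← Real.rpow_mul hN0.le]
    calc (N : ℝ) ^ (-(16 * s) * (1 / 2)) * Real.log N ^ C ≤ (N : ℝ) ^ (-(16 * s) * (1 / 2)) * (N : ℝ) ^ s :=
          mul_le_mul_of_nonneg_left hlogC (by positivity)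
      _ = (N : ℝ) ^ (-(16 * s) * (1 / 2) + s) := by rw [← Real.rpow_add hN0]
      _ ≤ _ := Real.rpow_le_rpow_of_exponent_le hNr (by linarith)
  refine le_trans ?_ (key.trans e2)
  apply sum_le_sum_of_subset_of_nonneg
  · intro ω hω
    rw [mem_filter] at hω ⊢
    refine ⟨mem_univ _, hω.2.1, fun hg => hω.2.2 fun x hx => ?_⟩
    obtain ⟨g1, g2⟩ := hg x hx
    exact ⟨g1.trans e1, fun hh => (g2 hh).trans (by linarith)⟩
  · intro ω _ _
    exact prod_nonneg fun i _ => hs.nonneg i _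

open Classical in
/-- subset sums -/
theorem sub_pow (r : ℕ) (P : ℕ → ℝ[X]) (T : ℤ → ℝ[X]) (θc : ℝ) (hθc : 0 < θc) (C : ℕ)
    (hcrit : ∀ (B : ℕ) (η : ℝ), 0 < η → η ≤ 1 → ∃ N₀ : ℕ, ∀ N : ℕ, N₀ ≤ N →
      ∀ (ι : Type) [Fintype ι] (w : ι → ℝ) (v : ι → ℤ), (∀ i, 0 ≤ w i) → ∑ i, w i = 1 → (∀ i, |v i| ≤ B * N) →
      ∀ ρ : ℝ, (N : ℝ) ^ (-θc) ≤ ρ → ρ ≤ 1 → FewLarge w v N ρ ((N : ℝ) ^ θc) →
      ∑ i ∈ univ.filter (fun i : ι => v i ≠ 0 ∧ ¬ Asymp r N P T (ρ ^ (1 / 8 : ℝ) * N * Real.log N ^ C) η (v i)), w i ≤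
        ρ ^ (1 / 2 : ℝ) * Real.log N ^ C) : ∃ κ : ℝ, 0 < κ ∧ ∃ a C₂ : ℝ, 0 < a ∧ 0 < C₂ ∧ ∀ (B : ℕ) (η : ℝ),
    0 < η → η ≤ 1 → ∃ N₀ : ℕ, ∀ N : ℕ, N₀ ≤ N → ∀ (J : ℕ) (s : ℕ → ℕ) (c : ℤ) (G : ℝ),
    1 ≤ s 0 → (∀ j, j < J → 2 * s j < s (j + 1) ∧ (s (j + 1) : ℝ) ≤ G * s j) → s J ≤ N → |c| ≤ B * N → 1 ≤ G →
    C₂ * G ^ 2 * (1 + Real.log G) * Real.log (Real.log N) ≤ Real.log N → (s 0 : ℝ) * ((N : ℝ) / s J) ≤ (N : ℝ) ^ κ →
    ((univ.filter (fun I : Finset (Fin (J + 1)) => c + ∑ j ∈ I, (s j : ℤ) ≠ 0 ∧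
      ¬ Asymp r N P T ((N : ℝ) ^ (1 - a / (G ^ 2 * (1 + Real.log G)))) η (c + ∑ j ∈ I, (s j : ℤ)))).card : ℝ) ≤
      2 ^ (J + 1) * (N : ℝ) ^ (-(a / (G ^ 2 * (1 + Real.log G)))) := by
  obtain ⟨κ, hκ0, h⟩ := ind_pow r P T θc hθc C hcrit
  obtain ⟨a, C₂, ha, hC, h⟩ := h 2 le_rfl
  refine ⟨κ, hκ0, a / 2, 2 * C₂, by positivity, by positivity, fun B η hη hη1 => ?_⟩
  obtain ⟨N₀, h⟩ := h (B + 2) η hη hη1
  refine ⟨N₀, fun N hN J s c G hs0 hs hsN hc hG hCG hprod => ?_⟩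
  have hs2 : ∀ j, j < J → 2 * s j < s (j + 1) := fun j hj => (hs j hj).1
  have hpos : ∀ j, j ≤ J → 1 ≤ s j := by
    intro j
    induction j with
    | zero => intro _; exact hs0
    | succ j ih => intro hj; have := hs2 j (by omega); omega
  have hlogG : 0 ≤ Real.log G := Real.log_nonneg hG
  have hG1 : 1 ≤ G ^ 2 * (1 + Real.log G) := by nlinarith [sq_nonneg (G - 1), one_le_pow₀ hG (n := 2)]
  have hsv : sv a G (1 / 2) = a / 2 / (G ^ 2 * (1 + Real.log G)) := by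
    unfold sv
    rw [min_eq_right]
    · ring
    · rw [div_le_iff₀ (by linarith)]
      nlinarith
  have key := h N hN (J + 1) 2 J (fun _ _ => 1 / 2) (fun (j : Fin (J + 1)) k => if k = 1 then (s j : ℤ) else 0) c (fun j => (s j : ℝ)) G (1 / 2)
    (Pool.Agent.Y958.SP.spread_half J s hs0 hs2) (by exact_mod_cast hsN) (fun ω => by
      have q0 : 0 ≤ ∑ j : Fin (J + 1), (if ω j = 1 then (s j : ℤ) else 0) := sum_nonneg fun j _ => by split_ifs <;> positivity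
      have q1 : ∑ j : Fin (J + 1), (if ω j = 1 then (s j : ℤ) else 0) ≤ 2 * N := by
        calc ∑ j : Fin (J + 1), (if ω j = 1 then (s j : ℤ) else 0) ≤ ∑ j : Fin (J + 1), (s j : ℤ) := by
              apply sum_le_sum
              intro j _
              split_ifs
              · exact le_rfl
              · positivity
          _ = ((∑ i ∈ range (J + 1), s i : ℕ) : ℤ) := by
              push_cast
              rw [← Fin.sum_univ_eq_sum_range (fun j => (s j : ℤ))]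
          _ ≤ ((2 * s J : ℕ) : ℤ) := by exact_mod_cast Pool.Agent.Y958.SP.sum_le_two J s hs2 J le_rfl
          _ ≤ 2 * N := by
              push_cast
              have : (s J : ℤ) ≤ N := by exact_mod_cast hsN
              linarith
      calc |c + ∑ j : Fin (J + 1), (if ω j = 1 then (s j : ℤ) else 0)| ≤ |c| + |∑ j : Fin (J + 1), (if ω j = 1 then (s j : ℤ) else 0)| := abs_add_le _ _
        _ ≤ B * N + 2 * N := add_le_add hc (by rw [abs_of_nonneg q0]; exact q1)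
        _ = _ := by push_cast; ring) hG (by linarith) (by
      have e : (range J).filter (fun j => G < (s (j + 1) : ℝ) / s j) = ∅ := by
        apply filter_eq_empty_iff.2
        intro j hj
        rw [mem_range] at hj
        push Not
        have q1 : (1 : ℝ) ≤ s j := by exact_mod_cast hpos j (by omega)
        rw [div_le_iff₀ (by linarith)]
        exact (hs j hj).2
      rw [e, prod_empty, mul_one]
      exact hprod)
  rw [hsv] at key
  have e1 := Pool.Agent.Y958.SP.half_card J s c (fun h => h ≠ 0 ∧ ¬ Asymp r N P T ((N : ℝ) ^ (1 - a / 2 / (G ^ 2 * (1 + Real.log G)))) η h)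
  have key2 : ((univ.filter (fun I : Finset (Fin (J + 1)) => c + ∑ j ∈ I, (s j : ℤ) ≠ 0 ∧
      ¬ Asymp r N P T ((N : ℝ) ^ (1 - a / 2 / (G ^ 2 * (1 + Real.log G)))) η (c + ∑ j ∈ I, (s j : ℤ)))).card : ℝ) / 2 ^ (J + 1) ≤
      (N : ℝ) ^ (-(a / 2 / (G ^ 2 * (1 + Real.log G)))) := by
    refine le_trans (le_of_eq ?_) key
    refine Eq.trans ?_ (e1.symm.trans ?_)
    · congr
    apply sum_congr
    · ext ω
      simp only [mem_filter]
    · intro ω _
      rfl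
  rw [div_le_iff₀ (by positivity)] at key2
  refine key2.trans (le_of_eq ?_)
  ring

end Pool.Agent.R501.SP
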