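import Pool.Agent.R501.SP3
import Pool.Agent.TH872.An3

set_option autoImplicit false

/-! Power savings for the divisor correlations: permuted digits. -/

namespace Pool.Agent.R501.SP
open Finset Polynomial
open Pool.Agent.TH872
open Pool.Agent.TH872.Mir (Far farCount)
open Pool.Agent.TH872.An (V Spread GG GG_pos far_pair char_small eta_le V_lt)
open Pool.Agent.H807R2.Dav
open Pool.Agent.Results.MP_122e00_nt.SparseRandomShifts (FewLarge φ Asymp)

/-- a large value of the characteristic function of the permuted digits: few positions are far -/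
lemma far_of_large_perm (b : ℕ) (hb : 2 ≤ b) (η : ℝ) (hη : 0 < η) : ∃ v : ℕ, 1 ≤ v ∧ ∀ (k : ℕ) (d : Fin k → ℕ), 1 ≤ k → Spread b k η d →
    ∀ (θ : ℝ) (n : ℕ), 4 * ((v : ℝ) * n) ≤ η * k →
    (1 / (b : ℝ)) ^ n < ‖∑ σ : Equiv.Perm (Fin k), (((1 : ℝ) / k.factorial : ℝ) : ℂ) * ee ((V b d σ : ℝ) * θ)‖ →
    farCount b (GG b) k θ < 2 * (v * n) + 2 := by
  classical
  have hbr : (2 : ℝ) ≤ b := by exact_mod_cast hb
  have hb0 : (0 : ℝ) < b := by linarith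
  have hG0 : (0 : ℝ) < GG b := by exact_mod_cast GG_pos b hb
  have hG1 : (1 : ℝ) ≤ GG b := by exact_mod_cast GG_pos b hb
  obtain ⟨δ, hδ⟩ : ∃ δ, δ = 1 / ((b : ℝ) ^ 2 * GG b) := ⟨_, rfl⟩
  have hδ0 : 0 < δ := by rw [hδ]; positivity
  have hδ1 : δ ≤ 1 / 2 := by
    rw [hδ]
    apply div_le_div_of_nonneg_left (by norm_num) (by norm_num)
    nlinarith
  obtain ⟨γ, hγ⟩ : ∃ γ, γ = 1 - 2 * δ ^ 2 * (η / 2) := ⟨_, rfl⟩
  have hγ1 : γ < 1 := by
    rw [hγ]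
    have : 0 < 2 * δ ^ 2 * (η / 2) := by positivity
    linarith
  obtain ⟨v, hv⟩ : ∃ v : ℕ, (max γ 0) ^ v < 1 / b :=
    exists_pow_lt_of_lt_one (show (0 : ℝ) < 1 / b by positivity) (max_lt hγ1 one_pos)
  have hv1 : 1 ≤ v := by
    by_contra hcon
    have : v = 0 := by omega
    rw [this, pow_zero, lt_div_iff₀ hb0] at hv
    linarith
  refine ⟨v, hv1, fun k d hk0 hd θ n hn hlarge => ?_⟩
  have hη1 := eta_le hd hk0
  have hγ0 : 0 ≤ γ := by
    rw [hγ]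
    have h1 : δ ^ 2 ≤ (1 / 2) ^ 2 := pow_le_pow_left₀ hδ0.le hδ1 2
    nlinarith [sq_nonneg δ]
  by_contra hcon
  push Not at hcon
  obtain ⟨R, hR⟩ : ∃ R, R = v * n := ⟨_, rfl⟩
  rw [← hR] at hcon
  obtain ⟨T, hT⟩ : ∃ T : Finset ℕ, T = (range (k - 1)).filter (fun j => Far (1 / (b : ℝ) ^ 2) ((GG b : ℝ) * ((b : ℝ) ^ j * θ))) := ⟨_, rfl⟩
  have hTc : 2 * R + 1 ≤ T.card := by
    have h2 : (range k).filter (fun j => Far (1 / (b : ℝ) ^ 2) ((GG b : ℝ) * ((b : ℝ) ^ j * θ))) ⊆ insert (k - 1) T := by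
      intro j hj
      rw [mem_filter, mem_range] at hj
      rw [mem_insert, hT, mem_filter, mem_range]
      by_cases c : j = k - 1
      · left; exact c
      · right; exact ⟨by omega, hj.2⟩
    have h3 := (card_le_card h2).trans (card_insert_le _ _)
    unfold farCount at hcon
    omega
  have hpar : ∃ r : ℕ, R ≤ (T.filter (fun j => j % 2 = r)).card := by
    have h2 := card_filter_add_card_filter_not (s := T) (fun j => j % 2 = 0)
    by_cases c : R ≤ (T.filter (fun j => j % 2 = 0)).card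
    · exact ⟨0, c⟩
    · refine ⟨1, ?_⟩
      have h3 : (T.filter (fun j => j % 2 = 1)).card = (T.filter (fun j => ¬ j % 2 = 0)).card := by
        congr 1
        apply filter_congr
        intro j _
        omega
      omega
  obtain ⟨r, hr⟩ := hpar
  obtain ⟨J, hJs, hJc⟩ := exists_subset_card_eq hr
  have hJT : ∀ j ∈ J, j + 1 < k ∧ j % 2 = r ∧ Far (1 / (b : ℝ) ^ 2) ((GG b : ℝ) * ((b : ℝ) ^ j * θ)) := by
    intro j hj
    have h2 := hJs hj
    rw [mem_filter, hT, mem_filter, mem_range] at h2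
    exact ⟨by omega, h2.2, h2.1.2⟩
  obtain ⟨x, hx⟩ : ∃ x : ℕ → Fin k, ∀ j, j + 1 < k → ((x j : Fin k) : ℕ) = j + 1 := by
    refine ⟨fun j => if h : j + 1 < k then ⟨j + 1, h⟩ else ⟨0, hk0⟩, fun j hj => ?_⟩
    simp only [hj, dif_pos]
  obtain ⟨y, hy⟩ : ∃ y : ℕ → Fin k, ∀ j, j + 1 < k → ((y j : Fin k) : ℕ) = j := by
    refine ⟨fun j => if h : j + 1 < k then ⟨j, by omega⟩ else ⟨0, hk0⟩, fun j hj => ?_⟩
    simp only [hj, dif_pos]
  have hdec := char_small b hd hη.le θ δ hδ0.le hδ1 x y J (by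
      intro i hi j hj hcon
      have a1 := hJT i hi
      have a2 := hJT j hj
      have a3 := congrArg Fin.val hcon
      rw [hx i a1.1, hy j a2.1] at a3
      omega) (by
      intro i hi j hj hcon
      have a1 := hJT i hi
      have a2 := hJT j hj
      have a3 := congrArg Fin.val hcon
      rw [hx i a1.1, hx j a2.1] at a3
      omega) (by
      intro i hi j hj hcon
      have a1 := hJT i hi
      have a2 := hJT j hj
      have a3 := congrArg Fin.val hcon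
      rw [hy i a1.1, hy j a2.1] at a3
      omega) (by
      rw [hJc, hR]
      push_cast
      linarith) (by
      intro j hj D hD0 hD
      have a1 := hJT j hj
      rw [hx j a1.1, hy j a1.1, hδ]
      exact far_pair b hb j θ a1.2.2 D hD0 hD)
  rw [← hγ, hJc, hR] at hdec
  have h5 : γ ^ (v * n) ≤ (1 / (b : ℝ)) ^ n := by
    rw [pow_mul]
    apply pow_le_pow_left₀ (by positivity)
    refine (pow_le_pow_left₀ hγ0 (le_max_left γ 0) v).trans hv.le
  linarith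

/-- few large Fourier coefficients, permuted digits -/
theorem few_perm (b : ℕ) (hb : 2 ≤ b) (η : ℝ) (hη : 0 < η) (κ : ℝ) (hκ : 0 < κ) : ∃ θ : ℝ, 0 < θ ∧ θ ≤ 1 ∧ ∀ κ₀ : ℤ, κ₀ ≠ 0 → ∃ k₀ : ℕ,
    ∀ k : ℕ, k₀ ≤ k → ∀ N : ℕ, b ^ k ≤ N → (N : ℝ) ≤ (b : ℝ) ^ ((1 + θ) * k) → ∀ d : Fin k → ℕ, Spread b k η d → ∀ cc : ℤ,
    FewLarge (ι := Equiv.Perm (Fin k)) (fun _ => 1 / (k.factorial : ℝ)) (fun σ => cc + κ₀ * (V b d σ : ℕ)) N
      ((N : ℝ) ^ (-θ)) ((N : ℝ) ^ κ) := by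
  classical
  obtain ⟨v, hv1, hv⟩ := far_of_large_perm b hb η hη
  have hvr : (1 : ℝ) ≤ v := by exact_mod_cast hv1
  obtain ⟨θ, hθ0, hθ1, h1⟩ := few_far b (GG b) (2 * v) 2 hb (GG_pos b hb) (η / (4 * v)) (by positivity) κ hκ
  refine ⟨θ, hθ0, hθ1, fun κ₀ hκ₀ => ?_⟩
  obtain ⟨k₀, h2⟩ := h1 κ₀ hκ₀
  refine ⟨k₀ + 1, fun k hk N hN1 hN2 d hd cc S hS hsep => ?_⟩
  refine h2 k (by omega) N hN1 hN2 S (fun a ha => ?_) hsep
  obtain ⟨g1, g2, h3⟩ := hS a ha
  refine ⟨g1, g2, fun n hn hthr => ?_⟩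
  have hshift : φ (fun _ : Equiv.Perm (Fin k) => 1 / (k.factorial : ℝ)) (fun σ => cc + κ₀ * (V b d σ : ℕ)) a =
      ee ((cc : ℝ) * a) * ∑ σ : Equiv.Perm (Fin k), (((1 : ℝ) / k.factorial : ℝ) : ℂ) * ee ((V b d σ : ℝ) * (κ₀ * a)) := by
    rw [mul_sum]
    apply sum_congr rfl
    intro σ _
    have : ee ((((cc + κ₀ * (V b d σ : ℕ)) : ℤ) : ℝ) * a) = ee ((cc : ℝ) * a) * ee ((V b d σ : ℝ) * (κ₀ * a)) := by
      rw [← ee_add]
      congr 1
      push_cast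
      ring
    have h5 : (((1 / (k.factorial : ℝ) : ℝ)) : ℂ) * ee ((((cc + κ₀ * (V b d σ : ℕ)) : ℤ) : ℝ) * a) =
        ee ((cc : ℝ) * a) * ((((1 / (k.factorial : ℝ) : ℝ)) : ℂ) * ee ((V b d σ : ℝ) * (κ₀ * a))) := by
      rw [this]; ring
    exact h5
  rw [hshift, norm_mul, norm_ee, one_mul] at h3
  have hfar := hv k d (by omega) hd (κ₀ * a) n (by
    have g3 : (0 : ℝ) < 4 * v := by linarith
    have g4 : η / (4 * v) * k = η * k / (4 * v) := by ring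
    rw [g4, le_div_iff₀ g3] at hn
    linarith) (lt_of_le_of_lt hthr h3)
  have e1 : 2 * (v * n) = 2 * v * n := by ring
  rw [e1] at hfar
  exact hfar

end Pool.Agent.R501.SP
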