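import Mathlib

set_option autoImplicit false

/-! Exponential sums over integers with restricted digits: the sum of the absolute values at well spaced points. -/

namespace Pool.Agent.R501.ZD
open Finset Real

/-- `e(x) = exp(2πix)` -/
noncomputable def e (x : ℝ) : ℂ := Complex.exp (((2 * π * x : ℝ) : ℂ) * Complex.I)

lemma norm_e (x : ℝ) : ‖e x‖ = 1 := by
  unfold e
  exact Complex.norm_exp_ofReal_mul_I _

lemma e_add (x y : ℝ) : e (x + y) = e x * e y := by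
  unfold e
  rw [← Complex.exp_add]
  congr 1
  push_cast
  ring

lemma e_zero : e 0 = 1 := by simp [e]

lemma e_nat (n : ℕ) : e n = 1 := by
  unfold e
  rw [Complex.exp_eq_one_iff]
  exact ⟨n, by push_cast; ring⟩

lemma e_add_nat (x : ℝ) (n : ℕ) : e (x + n) = e x := by
  rw [e_add, e_nat, mul_one]

lemma e_sum {ι : Type*} (s : Finset ι) (a : ι → ℝ) : e (∑ i ∈ s, a i) = ∏ i ∈ s, e (a i) := by
  classical
  induction s using Finset.induction_on with
  | empty => simp [e_zero]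
  | insert i s hi ih => rw [sum_insert hi, prod_insert hi, e_add, ih]

/-- the exponential sum of a set of digits -/
noncomputable def P (D : Finset ℕ) (θ : ℝ) : ℂ := ∑ d ∈ D, e (d * θ)

lemma P_add_nat (D : Finset ℕ) (θ : ℝ) (n : ℕ) : P D (θ + n) = P D θ := by
  unfold P
  apply sum_congr rfl
  intro d _
  rw [mul_add, ← Nat.cast_mul, e_add_nat]

lemma norm_P_le (D : Finset ℕ) (θ : ℝ) : ‖P D θ‖ ≤ D.card := by
  unfold P
  refine (norm_sum_le _ _).trans ?_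
  simp [norm_e]

/-- the exponential sum of the digits is small on average: `u r` bounds it at the points `(r + y) / g`, `0 ≤ y ≤ 1` -/
def Flat (g : ℕ) (lam : ℝ) (D : Finset ℕ) : Prop :=
  ∃ u : ℕ → ℝ, (∀ r < g, ∀ y : ℝ, 0 ≤ y → y ≤ 1 → ‖P D ((r + y) / g)‖ ≤ u r) ∧
    ∑ r ∈ range g, u r ≤ lam * √g * D.card

lemma sum_split (g n : ℕ) (f h : ℕ → ℝ) :
    ∑ a ∈ range (n * g), f (a / g) * h (a % g) = (∑ a ∈ range n, f a) * ∑ r ∈ range g, h r := by
  induction n with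
  | zero => simp
  | succ n ih =>
    rw [add_mul, one_mul, sum_range_add, ih, sum_range_succ, add_mul]
    congr 1
    rw [mul_sum]
    apply sum_congr rfl
    intro x hx
    rw [mem_range] at hx
    have h1 : (n * g + x) / g = n := by
      rw [mul_comm, Nat.mul_add_div (by omega), Nat.div_eq_of_lt hx, add_zero]
    have h2 : (n * g + x) % g = x := by
      rw [mul_comm, Nat.mul_add_mod, Nat.mod_eq_of_lt hx]
    rw [h1, h2]

/-- a majorant of the exponential sum -/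
lemma major (g : ℕ) (hg : 1 ≤ g) (D : ℕ → Finset ℕ) (lam : ℕ → ℝ) (hlam : ∀ i, 1 ≤ lam i) (j : ℕ)
    (hD : ∀ i < j, Flat g (lam i) (D i)) :
    ∃ U : ℕ → ℝ, (∀ (z : ℕ) (x : ℝ), 0 ≤ x → x ≤ 1 →
      ∏ i ∈ range j, ‖P (D i) ((g : ℝ) ^ i * (((z : ℝ) + x) / (g : ℝ) ^ j))‖ ≤ U (z % g ^ j)) ∧
      ∑ a ∈ range (g ^ j), U a ≤ ∏ i ∈ range j, (lam i * √g * (D i).card) := by
  have hg0 : (0 : ℝ) < g := by exact_mod_cast hg
  induction j with
  | zero =>
    refine ⟨fun _ => 1, fun z x _ _ => by simp, by simp⟩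
  | succ j ih =>
    obtain ⟨U, h1, h2⟩ := ih (fun i hi => hD i (by omega))
    obtain ⟨u, h3, h4⟩ := hD j (by omega)
    have hu0 : ∀ r ∈ range g, 0 ≤ u r := fun r hr =>
      (norm_nonneg _).trans (h3 r (mem_range.1 hr) 0 le_rfl zero_le_one)
    refine ⟨fun a => U (a / g) * u (a % g), fun z x hx0 hx1 => ?_, ?_⟩
    · have hzr : z % g < g := Nat.mod_lt _ (by omega)
      have hz : (z : ℝ) = g * (z / g : ℕ) + (z % g : ℕ) := by exact_mod_cast (Nat.div_add_mod z g).symm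
      have hx0' : 0 ≤ (((z % g : ℕ) : ℝ) + x) / g := by positivity
      have hx1' : (((z % g : ℕ) : ℝ) + x) / g ≤ 1 := by
        rw [div_le_one hg0]
        have : ((z % g : ℕ) : ℝ) + 1 ≤ g := by exact_mod_cast hzr
        linarith
      have e1 : ((z : ℝ) + x) / (g : ℝ) ^ (j + 1) = (((z / g : ℕ) : ℝ) + (((z % g : ℕ) : ℝ) + x) / g) / (g : ℝ) ^ j := by
        rw [hz, pow_succ]
        field_simp
        push_cast
        ring
      have e2 : (g : ℝ) ^ j * (((z : ℝ) + x) / (g : ℝ) ^ (j + 1)) = (((z % g : ℕ) : ℝ) + x) / g + (z / g : ℕ) := by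
        rw [hz, pow_succ]
        field_simp
        push_cast
        ring
      have h5 := h1 (z / g) _ hx0' hx1'
      rw [← e1] at h5
      have h6 := h3 (z % g) hzr x hx0 hx1
      rw [prod_range_succ, e2, P_add_nat]
      have e3 : z % g ^ (j + 1) / g = z / g % g ^ j := by
        rw [pow_succ, mul_comm, Nat.mod_mul_right_div_self]
      have e4 : z % g ^ (j + 1) % g = z % g := Nat.mod_mod_of_dvd _ (dvd_pow_self g (by omega))
      beta_reduce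
      rw [e3, e4]
      exact mul_le_mul h5 h6 (norm_nonneg _) ((prod_nonneg fun i _ => norm_nonneg _).trans h5)
    · rw [pow_succ, sum_split, prod_range_succ]
      exact mul_le_mul h2 h4 (sum_nonneg hu0) (prod_nonneg fun i _ => by have := hlam i; positivity)

/-- well spaced points of a short interval -/
lemma card_spaced {ι : Type*} (S : Finset ι) (θ : ι → ℝ) (δ a b : ℝ) (hδ : 0 < δ) (hab : a ≤ b)
    (hS : ∀ i ∈ S, a ≤ θ i ∧ θ i ≤ b) (hsp : ∀ i ∈ S, ∀ j ∈ S, i ≠ j → δ ≤ |θ i - θ j|) :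
    (S.card : ℝ) ≤ (b - a) / δ + 2 := by
  classical
  have hinj : Set.InjOn (fun i => ⌊θ i / δ⌋) (S : Set ι) := by
    intro i hi j hj hij
    by_contra hne
    have h1 := hsp i hi j hj hne
    simp only at hij
    have h2 : |θ i / δ - θ j / δ| < 1 := Int.abs_sub_lt_one_of_floor_eq_floor hij
    rw [← sub_div, abs_div, abs_of_pos hδ, div_lt_one hδ] at h2
    linarith
  have hmaps : S.image (fun i => ⌊θ i / δ⌋) ⊆ Finset.Icc ⌊a / δ⌋ ⌊b / δ⌋ := by
    intro z hz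
    rw [mem_image] at hz
    obtain ⟨i, hi, rfl⟩ := hz
    obtain ⟨h1, h2⟩ := hS i hi
    rw [Finset.mem_Icc]
    exact ⟨Int.floor_le_floor (div_le_div_of_nonneg_right h1 hδ.le), Int.floor_le_floor (div_le_div_of_nonneg_right h2 hδ.le)⟩
  have h1 := card_le_card hmaps
  rw [card_image_of_injOn hinj, Int.card_Icc] at h1
  have h2 : ⌊a / δ⌋ ≤ ⌊b / δ⌋ := Int.floor_le_floor (div_le_div_of_nonneg_right hab hδ.le)
  have h3 : (((⌊b / δ⌋ + 1 - ⌊a / δ⌋).toNat : ℕ) : ℝ) = (⌊b / δ⌋ : ℝ) + 1 - ⌊a / δ⌋ := by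
    have : (((⌊b / δ⌋ + 1 - ⌊a / δ⌋).toNat : ℕ) : ℤ) = ⌊b / δ⌋ + 1 - ⌊a / δ⌋ := Int.toNat_of_nonneg (by omega)
    exact_mod_cast this
  have h4 : (S.card : ℝ) ≤ (⌊b / δ⌋ : ℝ) + 1 - ⌊a / δ⌋ := by
    rw [← h3]
    exact_mod_cast h1
  have h5 := Int.floor_le (b / δ)
  have h6 := Int.lt_floor_add_one (a / δ)
  rw [sub_div]
  linarith

lemma sum_periodic (q W : ℕ) (U : ℕ → ℝ) : ∑ z ∈ range (W * q), U (z % q) = W * ∑ a ∈ range q, U a := by
  have h := sum_split q W (fun _ => 1) U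
  simp only [one_mul, sum_const, card_range, nsmul_eq_mul, mul_one] at h
  exact h

/-- the sum over well spaced points -/
lemma spaced_sum (g : ℕ) (hg : 1 ≤ g) (D : ℕ → Finset ℕ) (lam : ℕ → ℝ) (hlam : ∀ i, 1 ≤ lam i) (j : ℕ)
    (hD : ∀ i < j, Flat g (lam i) (D i)) {ι : Type*}
    (S : Finset ι) (θ : ι → ℝ) (δ : ℝ) (W : ℕ) (hδ : 0 < δ) (hS : ∀ i ∈ S, 0 ≤ θ i ∧ θ i < W)
    (hsp : ∀ i ∈ S, ∀ l ∈ S, i ≠ l → δ ≤ |θ i - θ l|) :
    ∑ i ∈ S, ∏ l ∈ range j, ‖P (D l) ((g : ℝ) ^ l * θ i)‖ ≤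
      (1 / (δ * (g : ℝ) ^ j) + 2) * (W * ∏ l ∈ range j, (lam l * √g * (D l).card)) := by
  classical
  have hg0 : (0 : ℝ) < g := by exact_mod_cast hg
  have hgj : (0 : ℝ) < (g : ℝ) ^ j := by positivity
  obtain ⟨U, h1, h2⟩ := major g hg D lam hlam j hD
  have hU0 : ∀ a < g ^ j, 0 ≤ U a := by
    intro a ha
    have h3 := h1 a 0 le_rfl zero_le_one
    rw [Nat.mod_eq_of_lt ha] at h3
    exact (prod_nonneg fun i _ => norm_nonneg _).trans h3
  have hpt : ∀ i ∈ S, ∏ l ∈ range j, ‖P (D l) ((g : ℝ) ^ l * θ i)‖ ≤ U (⌊θ i * (g : ℝ) ^ j⌋₊ % g ^ j) := by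
    intro i hi
    have h0 : 0 ≤ θ i * (g : ℝ) ^ j := mul_nonneg (hS i hi).1 hgj.le
    have h3 := h1 ⌊θ i * (g : ℝ) ^ j⌋₊ (θ i * (g : ℝ) ^ j - ⌊θ i * (g : ℝ) ^ j⌋₊) (by
      have := Nat.floor_le h0
      linarith) (by
      have := Nat.lt_floor_add_one (θ i * (g : ℝ) ^ j)
      linarith)
    have e1 : (((⌊θ i * (g : ℝ) ^ j⌋₊ : ℕ) : ℝ) + (θ i * (g : ℝ) ^ j - ⌊θ i * (g : ℝ) ^ j⌋₊)) / (g : ℝ) ^ j = θ i := by
      field_simp
      ring
    rw [e1] at h3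
    exact h3
  refine (sum_le_sum hpt).trans ?_
  have hmaps : ∀ i ∈ S, ⌊θ i * (g : ℝ) ^ j⌋₊ ∈ range (W * g ^ j) := by
    intro i hi
    rw [mem_range, Nat.floor_lt (mul_nonneg (hS i hi).1 hgj.le)]
    push_cast
    exact mul_lt_mul_of_pos_right (hS i hi).2 hgj
  rw [← sum_fiberwise_of_maps_to hmaps]
  have hfib : ∀ z ∈ range (W * g ^ j), ∑ i ∈ S.filter (fun i => ⌊θ i * (g : ℝ) ^ j⌋₊ = z), U (⌊θ i * (g : ℝ) ^ j⌋₊ % g ^ j) ≤
      (1 / (δ * (g : ℝ) ^ j) + 2) * U (z % g ^ j) := by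
    intro z _
    have hz0 : 0 ≤ U (z % g ^ j) := hU0 _ (Nat.mod_lt _ (by positivity))
    have e1 : ∑ i ∈ S.filter (fun i => ⌊θ i * (g : ℝ) ^ j⌋₊ = z), U (⌊θ i * (g : ℝ) ^ j⌋₊ % g ^ j) =
        ((S.filter (fun i => ⌊θ i * (g : ℝ) ^ j⌋₊ = z)).card : ℝ) * U (z % g ^ j) := by
      rw [← nsmul_eq_mul, ← sum_const]
      apply sum_congr rfl
      intro i hi
      rw [(mem_filter.1 hi).2]
    rw [e1]
    apply mul_le_mul_of_nonneg_right _ hz0
    have h3 := card_spaced (S.filter (fun i => ⌊θ i * (g : ℝ) ^ j⌋₊ = z)) θ δ ((z : ℝ) / (g : ℝ) ^ j)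
      (((z : ℝ) + 1) / (g : ℝ) ^ j) hδ (by gcongr; linarith) (fun i hi => by
        obtain ⟨hi1, hi2⟩ := mem_filter.1 hi
        have h0 : 0 ≤ θ i * (g : ℝ) ^ j := mul_nonneg (hS i hi1).1 hgj.le
        rw [Nat.floor_eq_iff h0] at hi2
        constructor
        · rw [div_le_iff₀ hgj]; exact hi2.1
        · rw [le_div_iff₀ hgj]; exact hi2.2.le) (fun i hi l hl hne =>
        hsp i (mem_filter.1 hi).1 l (mem_filter.1 hl).1 hne)
    refine h3.trans (le_of_eq ?_)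
    congr 1
    field_simp
    ring
  refine (sum_le_sum hfib).trans ?_
  rw [← mul_sum, sum_periodic]
  apply mul_le_mul_of_nonneg_left _ (by positivity)
  exact mul_le_mul_of_nonneg_left h2 (Nat.cast_nonneg _)

end Pool.Agent.R501.ZD
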