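import Pool.Agent.R501.ZD1

set_option autoImplicit false

/-! Exponential sums over integers with restricted digits at the points `α (log m₂ - log m₁) / 2π`. -/

namespace Pool.Agent.R501.ZD
open Finset Real

/-- the absolute value of the exponential sum over the integers with the digits `a i ∈ D i`, `i < k` -/
noncomputable def Q (g : ℕ) (D : ℕ → Finset ℕ) (k : ℕ) (θ : ℝ) : ℝ := ∏ i ∈ range k, ‖P (D i) ((g : ℝ) ^ i * θ)‖

lemma Q_nonneg (g : ℕ) (D : ℕ → Finset ℕ) (k : ℕ) (θ : ℝ) : 0 ≤ Q g D k θ := prod_nonneg fun _ _ => norm_nonneg _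

lemma Q_add_nat (g : ℕ) (D : ℕ → Finset ℕ) (k : ℕ) (θ : ℝ) (n : ℕ) : Q g D k (θ + n) = Q g D k θ := by
  unfold Q
  apply prod_congr rfl
  intro i _
  have : (g : ℝ) ^ i * (θ + n) = (g : ℝ) ^ i * θ + ((g ^ i * n : ℕ) : ℝ) := by push_cast; ring
  rw [this, P_add_nat]

lemma Q_le (g : ℕ) (D : ℕ → Finset ℕ) {j k : ℕ} (hjk : j ≤ k) (θ : ℝ) :
    Q g D k θ ≤ Q g D j θ * ∏ i ∈ Ico j k, ((D i).card : ℝ) := by
  unfold Q
  rw [← prod_range_mul_prod_Ico _ hjk]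
  apply mul_le_mul_of_nonneg_left _ (prod_nonneg fun _ _ => norm_nonneg _)
  exact prod_le_prod (fun _ _ => norm_nonneg _) fun i _ => norm_P_le _ _

/-- the weight -/
noncomputable def wt (lam : ℕ → ℝ) (D : ℕ → Finset ℕ) (k : ℕ) : ℝ := ∏ i ∈ range k, (lam i * ((D i).card : ℝ))

lemma choose_j (s : ℝ) (hs : 1 ≤ s) (k : ℕ) (B : ℝ) (hB : 0 ≤ B) :
    ∃ j ≤ k, B ^ 2 / s ^ j + s ^ j ≤ 2 * s * (B + 1) * (1 + B / s ^ k) := by
  have hs0 : 0 < s := by linarith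
  have hk0 : 0 < s ^ k := by positivity
  rcases le_or_gt (s ^ k) B with h | h
  · refine ⟨k, le_rfl, ?_⟩
    have h1 : B ^ 2 / s ^ k + s ^ k ≤ B * (B / s ^ k) + B := by
      have : B ^ 2 / s ^ k = B * (B / s ^ k) := by ring
      linarith
    have h2 : 0 ≤ B / s ^ k := by positivity
    have h3 : B * (B / s ^ k) + B = 1 * B * (1 + B / s ^ k) := by ring
    have h4 : 1 * B * (1 + B / s ^ k) ≤ 2 * s * (B + 1) * (1 + B / s ^ k) := by
      apply mul_le_mul_of_nonneg_right _ (by positivity)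
      nlinarith
    linarith
  · have hex : ∃ j, B < s ^ j := ⟨k, h⟩
    classical
    obtain ⟨j, hj⟩ : ∃ j, j = Nat.find hex := ⟨_, rfl⟩
    have hj1 : B < s ^ j := hj ▸ Nat.find_spec hex
    have hjk : j ≤ k := hj ▸ Nat.find_le h
    refine ⟨j, hjk, ?_⟩
    have h2 : (0 : ℝ) ≤ B / s ^ k := by positivity
    have h3 : 2 * s * (B + 1) ≤ 2 * s * (B + 1) * (1 + B / s ^ k) := le_mul_of_one_le_right (by positivity) (by linarith)
    refine le_trans ?_ h3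
    have hsj : 0 < s ^ j := by positivity
    rcases Nat.eq_zero_or_pos j with h0 | h0
    · rw [h0, pow_zero] at hj1 ⊢
      nlinarith
    · have h4 : s ^ (j - 1) ≤ B := by
        by_contra hcon
        push Not at hcon
        have := Nat.find_min' hex hcon
        omega
      have h5 : s ^ j ≤ s * B := by
        have : s ^ j = s * s ^ (j - 1) := by rw [← pow_succ']; congr 1; omega
        rw [this]
        exact mul_le_mul_of_nonneg_left h4 hs0.le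
      have h6 : B ^ 2 / s ^ j ≤ B := by
        rw [div_le_iff₀ hsj]
        nlinarith
      nlinarith

lemma log_diff {X Y R : ℝ} (hX : 0 < X) (hY : 0 < Y) (hXR : X ≤ R) (hYR : Y ≤ R) : |X - Y| / R ≤ |log X - log Y| := by
  have key : ∀ {X Y : ℝ}, 0 < X → 0 < Y → X ≤ R → Y ≤ X → |X - Y| / R ≤ |log X - log Y| := by
    intro X Y hX hY hXR hYX
    have h1 := Real.one_sub_inv_le_log_of_pos (div_pos hX hY)
    rw [Real.log_div hX.ne' hY.ne', inv_div] at h1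
    have hR : 0 < R := by linarith
    rw [abs_of_nonneg (by linarith)]
    refine le_trans ?_ (h1.trans (le_abs_self _))
    have h2 : 1 - Y / X = (X - Y) / X := by field_simp
    rw [h2]
    exact div_le_div_of_nonneg_left (by linarith) hX hXR
  rcases le_total Y X with h | h
  · exact key hX hY hXR h
  · rw [abs_sub_comm X Y, abs_sub_comm (log X)]
    exact key hY hX hYR h

lemma pair_ne {d a b a' b' : ℕ} (hd : 0 < d) (ha : 0 < a) (h1 : Nat.gcd a b = d) (h2 : Nat.gcd a' b' = d)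
    (h : b * a' = a * b') : (a, b) = (a', b') := by
  obtain ⟨a₁, ha₁⟩ : d ∣ a := h1 ▸ Nat.gcd_dvd_left a b
  obtain ⟨b₁, hb₁⟩ : d ∣ b := h1 ▸ Nat.gcd_dvd_right a b
  obtain ⟨a₂, ha₂⟩ : d ∣ a' := h2 ▸ Nat.gcd_dvd_left a' b'
  obtain ⟨b₂, hb₂⟩ : d ∣ b' := h2 ▸ Nat.gcd_dvd_right a' b'
  subst ha₁ hb₁ ha₂ hb₂
  rw [Nat.gcd_mul_left] at h1 h2
  have hc1 : Nat.Coprime a₁ b₁ := by
    have : d * Nat.gcd a₁ b₁ = d * 1 := by rw [h1, mul_one]
    exact Nat.eq_of_mul_eq_mul_left hd this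
  have hc2 : Nat.Coprime a₂ b₂ := by
    have : d * Nat.gcd a₂ b₂ = d * 1 := by rw [h2, mul_one]
    exact Nat.eq_of_mul_eq_mul_left hd this
  have h3 : b₁ * a₂ = a₁ * b₂ := by
    have : (d * d) * (b₁ * a₂) = (d * d) * (a₁ * b₂) := by
      calc (d * d) * (b₁ * a₂) = d * b₁ * (d * a₂) := by ring
        _ = d * a₁ * (d * b₂) := h
        _ = _ := by ring
    exact Nat.eq_of_mul_eq_mul_left (by positivity) this
  have ha₁0 : 0 < a₁ := Nat.pos_of_mul_pos_left ha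
  have e1 : a₁ ∣ a₂ := by
    have : a₁ ∣ b₁ * a₂ := ⟨b₂, h3⟩
    exact hc1.dvd_of_dvd_mul_left this
  have e2 : a₂ ∣ a₁ := by
    have : a₂ ∣ b₂ * a₁ := ⟨b₁, by rw [mul_comm b₂, ← h3, mul_comm]⟩
    exact hc2.dvd_of_dvd_mul_left this
  have e3 : a₁ = a₂ := Nat.dvd_antisymm e1 e2
  subst e3
  have e4 : b₁ = b₂ := by
    have : a₁ * b₁ = a₁ * b₂ := by rw [mul_comm, h3]
    exact Nat.eq_of_mul_eq_mul_left ha₁0 this
  rw [e4]

lemma pair_gap {d a b a' b' : ℕ} (hd : 0 < d) (ha : 0 < a) (h1 : Nat.gcd a b = d) (h2 : Nat.gcd a' b' = d)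
    (hne : (a, b) ≠ (a', b')) : ((d : ℝ)) ^ 2 ≤ |((b * a' : ℕ) : ℝ) - ((a * b' : ℕ) : ℝ)| := by
  have h3 : (b * a' : ℕ) ≠ (a * b' : ℕ) := fun h => hne (pair_ne hd ha h1 h2 h)
  obtain ⟨a₁, ha₁⟩ : d ∣ a := h1 ▸ Nat.gcd_dvd_left a b
  obtain ⟨b₁, hb₁⟩ : d ∣ b := h1 ▸ Nat.gcd_dvd_right a b
  obtain ⟨a₂, ha₂⟩ : d ∣ a' := h2 ▸ Nat.gcd_dvd_left a' b'
  obtain ⟨b₂, hb₂⟩ : d ∣ b' := h2 ▸ Nat.gcd_dvd_right a' b'
  have e1 : ((b * a' : ℕ) : ℝ) - ((a * b' : ℕ) : ℝ) = (d : ℝ) ^ 2 * (((b₁ * a₂ : ℤ) - (a₁ * b₂ : ℤ) : ℤ) : ℝ) := by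
    rw [ha₁, hb₁, ha₂, hb₂]
    push_cast
    ring
  rw [e1, abs_mul, abs_of_nonneg (by positivity)]
  have h4 : ((b₁ * a₂ : ℤ) - (a₁ * b₂ : ℤ) : ℤ) ≠ 0 := by
    intro h5
    apply h3
    have h6 : b₁ * a₂ = a₁ * b₂ := by
      have : (b₁ : ℤ) * a₂ = a₁ * b₂ := by linarith
      exact_mod_cast this
    rw [ha₁, hb₁, ha₂, hb₂]
    calc d * b₁ * (d * a₂) = d * d * (b₁ * a₂) := by ring
      _ = d * d * (a₁ * b₂) := by rw [h6]
      _ = _ := by ring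
  have h5 : (1 : ℝ) ≤ |(((b₁ * a₂ : ℤ) - (a₁ * b₂ : ℤ) : ℤ) : ℝ)| := by exact_mod_cast Int.one_le_abs h4
  exact le_mul_of_one_le_right (by positivity) h5

/-- the points -/
noncomputable def th (α : ℝ) (p : ℕ × ℕ) : ℝ := α * (log p.2 - log p.1) / (2 * π)

/-- the constant -/
noncomputable def CC (α : ℝ) : ℝ := (8 * π / α + 2) * (2 * ⌈α⌉₊ + 1)

lemma CC_pos {α : ℝ} (hα : 0 < α) : 0 < CC α := by
  unfold CC
  positivity

/-- pairs with a given greatest common divisor -/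
lemma gcd_sum (g : ℕ) (hg : 1 ≤ g) (D : ℕ → Finset ℕ) (lam : ℕ → ℝ) (hlam : ∀ i, 1 ≤ lam i) (k : ℕ)
    (hD : ∀ i < k, Flat g (lam i) (D i)) (α : ℝ) (hα : 0 < α)
    (M d : ℕ) (hM : 1 ≤ M) (hd : 1 ≤ d) :
    ∑ p ∈ (Ico M (2 * M) ×ˢ Ico M (2 * M)).filter (fun p => Nat.gcd p.1 p.2 = d), Q g D k (th α p) ≤
      CC α * (2 * √g * ((M : ℝ) / d + 1) * (1 + M / √g ^ k)) * wt lam D k := by
  have hlam0 : ∀ i, 0 < lam i := fun i => lt_of_lt_of_le one_pos (hlam i)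
  have hMR : (1 : ℝ) ≤ M := by exact_mod_cast hM
  have hdR : (1 : ℝ) ≤ d := by exact_mod_cast hd
  have hs : 1 ≤ √(g : ℝ) := by
    rw [Real.one_le_sqrt]
    exact_mod_cast hg
  obtain ⟨s, hs'⟩ : ∃ s, s = √(g : ℝ) := ⟨_, rfl⟩
  rw [← hs'] at hs ⊢
  have hs0 : 0 < s := by linarith
  have hsg : ∀ j : ℕ, (g : ℝ) ^ j = s ^ j * s ^ j := by
    intro j
    rw [← mul_pow, hs', Real.mul_self_sqrt (Nat.cast_nonneg _)]
  obtain ⟨B, hB⟩ : ∃ B, B = (M : ℝ) / d := ⟨_, rfl⟩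
  have hB0 : 0 ≤ B := by rw [hB]; positivity
  have hBM : B ≤ M := by rw [hB]; exact div_le_self (by positivity) hdR
  obtain ⟨j, hjk, hj⟩ := choose_j s hs k B hB0
  obtain ⟨S, hS⟩ : ∃ S, S = (Ico M (2 * M) ×ˢ Ico M (2 * M)).filter (fun p : ℕ × ℕ => Nat.gcd p.1 p.2 = d) := ⟨_, rfl⟩
  rw [← hS, ← hB]
  have hmem : ∀ p ∈ S, (M ≤ p.1 ∧ p.1 < 2 * M) ∧ (M ≤ p.2 ∧ p.2 < 2 * M) ∧ Nat.gcd p.1 p.2 = d := by
    intro p hp
    rw [hS, mem_filter, mem_product, mem_Ico, mem_Ico] at hp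
    exact ⟨hp.1.1, hp.1.2, hp.2⟩
  have hpi : 0 < π := Real.pi_pos
  obtain ⟨w, hw⟩ : ∃ w, w = ⌈α⌉₊ := ⟨_, rfl⟩
  have hwα : α ≤ w := hw ▸ Nat.le_ceil α
  have key := spaced_sum g hg D lam hlam j (fun i hi => hD i (by omega)) S (fun p => th α p + w)
    (α * (d : ℝ) ^ 2 / (8 * π * (M : ℝ) ^ 2)) (2 * w + 1) (by positivity) (fun p hp => ?_) (fun p hp p' hp' hne => ?_)
  · have h1 : ∀ p ∈ S, Q g D k (th α p) ≤ (∏ l ∈ range j, ‖P (D l) ((g : ℝ) ^ l * (th α p + w))‖) *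
        ∏ i ∈ Ico j k, (lam i * ((D i).card : ℝ)) := by
      intro p _
      have h2 := Q_le g D hjk (th α p)
      rw [← Q_add_nat g D j (th α p) w] at h2
      refine h2.trans ?_
      apply mul_le_mul_of_nonneg_left _ (Q_nonneg _ _ _ _)
      apply prod_le_prod (fun i _ => Nat.cast_nonneg _)
      intro i _
      exact le_mul_of_one_le_left (Nat.cast_nonneg _) (hlam i)
    refine (sum_le_sum h1).trans ?_
    rw [← sum_mul]
    have hP0 : (0 : ℝ) ≤ ∏ i ∈ Ico j k, (lam i * ((D i).card : ℝ)) := prod_nonneg fun i _ => by have := hlam0 i; positivity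
    refine (mul_le_mul_of_nonneg_right key hP0).trans ?_
    have e1 : ∏ l ∈ range j, (lam l * √(g : ℝ) * ((D l).card : ℝ)) = s ^ j * ∏ l ∈ range j, (lam l * ((D l).card : ℝ)) := by
      rw [← card_range j, ← prod_const, card_range, ← prod_mul_distrib, hs']
      apply prod_congr rfl
      intro i _
      ring
    have e2 : wt lam D k = (∏ l ∈ range j, (lam l * ((D l).card : ℝ))) * ∏ i ∈ Ico j k, (lam i * ((D i).card : ℝ)) :=
      (prod_range_mul_prod_Ico _ hjk).symm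
    have e3 : 1 / (α * (d : ℝ) ^ 2 / (8 * π * (M : ℝ) ^ 2) * (g : ℝ) ^ j) + 2 ≤ (8 * π / α + 2) * (B ^ 2 / (g : ℝ) ^ j + 1) := by
      have hgj : (0 : ℝ) < (g : ℝ) ^ j := by rw [hsg]; positivity
      have h3 : 1 / (α * (d : ℝ) ^ 2 / (8 * π * (M : ℝ) ^ 2) * (g : ℝ) ^ j) = 8 * π / α * (B ^ 2 / (g : ℝ) ^ j) := by
        rw [hB]
        field_simp
      rw [h3]
      have h4 : 0 ≤ 8 * π / α := by positivity
      have h5 : 0 ≤ B ^ 2 / (g : ℝ) ^ j := by positivity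
      nlinarith
    rw [e1, e2]
    have hprod0 : (0 : ℝ) ≤ ∏ l ∈ range j, (lam l * ((D l).card : ℝ)) := prod_nonneg fun i _ => by have := hlam0 i; positivity
    have e4 : (8 * π / α + 2) * (B ^ 2 / (g : ℝ) ^ j + 1) * (((2 * w + 1 : ℕ) : ℝ) * (s ^ j * ∏ l ∈ range j, (lam l * ((D l).card : ℝ)))) =
        CC α * (B ^ 2 / s ^ j + s ^ j) * ∏ l ∈ range j, (lam l * ((D l).card : ℝ)) := by
      unfold CC
      rw [← hw, hsg]
      push_cast
      field_simp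
    calc (1 / (α * (d : ℝ) ^ 2 / (8 * π * (M : ℝ) ^ 2) * (g : ℝ) ^ j) + 2) *
          (((2 * w + 1 : ℕ) : ℝ) * (s ^ j * ∏ l ∈ range j, (lam l * ((D l).card : ℝ)))) * ∏ i ∈ Ico j k, (lam i * ((D i).card : ℝ))
        ≤ (8 * π / α + 2) * (B ^ 2 / (g : ℝ) ^ j + 1) * (((2 * w + 1 : ℕ) : ℝ) * (s ^ j * ∏ l ∈ range j, (lam l * ((D l).card : ℝ)))) *
          ∏ i ∈ Ico j k, (lam i * ((D i).card : ℝ)) := by
          apply mul_le_mul_of_nonneg_right _ hP0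
          exact mul_le_mul_of_nonneg_right e3 (by positivity)
      _ = CC α * (B ^ 2 / s ^ j + s ^ j) * (∏ l ∈ range j, (lam l * ((D l).card : ℝ))) * ∏ i ∈ Ico j k, (lam i * ((D i).card : ℝ)) := by
          rw [e4]
      _ ≤ CC α * (2 * s * (B + 1) * (1 + M / s ^ k)) * (∏ l ∈ range j, (lam l * ((D l).card : ℝ))) * ∏ i ∈ Ico j k, (lam i * ((D i).card : ℝ)) := by
          apply mul_le_mul_of_nonneg_right _ hP0
          apply mul_le_mul_of_nonneg_right _ hprod0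
          apply mul_le_mul_of_nonneg_left _ (CC_pos hα).le
          refine hj.trans ?_
          apply mul_le_mul_of_nonneg_left _ (by positivity)
          have : B / s ^ k ≤ M / s ^ k := div_le_div_of_nonneg_right hBM (by positivity)
          linarith
      _ = _ := by ring
  · obtain ⟨⟨h1, h2⟩, ⟨h3, h4⟩, _⟩ := hmem p hp
    have hp1 : (0 : ℝ) < p.1 := by exact_mod_cast (by omega : 0 < p.1)
    have hp2 : (0 : ℝ) < p.2 := by exact_mod_cast (by omega : 0 < p.2)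
    have hlog : |log (p.2 : ℝ) - log p.1| ≤ 1 := by
      have hlog2 : log 2 ≤ 1 := by have := Real.log_two_lt_d9; linarith
      have h5 : log (p.2 : ℝ) ≤ log 2 + log M := by
        rw [← Real.log_mul (by norm_num) (by positivity)]
        apply Real.log_le_log hp2
        exact_mod_cast h4.le
      have h6 : log (p.1 : ℝ) ≤ log 2 + log M := by
        rw [← Real.log_mul (by norm_num) (by positivity)]
        apply Real.log_le_log hp1
        exact_mod_cast h2.le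
      have h7 : log (M : ℝ) ≤ log p.1 := Real.log_le_log (by positivity) (by exact_mod_cast h1)
      have h8 : log (M : ℝ) ≤ log p.2 := Real.log_le_log (by positivity) (by exact_mod_cast h3)
      rw [abs_le]
      constructor <;> linarith
    have hth : |th α p| ≤ α := by
      unfold th
      rw [abs_div, abs_mul, abs_of_pos hα, abs_of_pos (by positivity : 0 < 2 * π), div_le_iff₀ (by positivity)]
      have : 1 ≤ 2 * π := by linarith [Real.pi_gt_three]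
      nlinarith [abs_nonneg (log (p.2 : ℝ) - log p.1)]
    rw [abs_le] at hth
    constructor
    · linarith [hth.1]
    · push_cast
      linarith [hth.2]
  · obtain ⟨⟨h1, h2⟩, ⟨h3, h4⟩, h5⟩ := hmem p hp
    obtain ⟨⟨h1', h2'⟩, ⟨h3', h4'⟩, h5'⟩ := hmem p' hp'
    have hp1 : (0 : ℝ) < p.1 := by exact_mod_cast (by omega : 0 < p.1)
    have hp2 : (0 : ℝ) < p.2 := by exact_mod_cast (by omega : 0 < p.2)
    have hp1' : (0 : ℝ) < p'.1 := by exact_mod_cast (by omega : 0 < p'.1)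
    have hp2' : (0 : ℝ) < p'.2 := by exact_mod_cast (by omega : 0 < p'.2)
    have hgap := pair_gap (a := p.1) (b := p.2) (a' := p'.1) (b' := p'.2) (by omega) (by omega) h5 h5' hne
    have hX : ((p.2 * p'.1 : ℕ) : ℝ) ≤ 4 * (M : ℝ) ^ 2 := by
      have : p.2 * p'.1 ≤ (2 * M) * (2 * M) := Nat.mul_le_mul h4.le h2'.le
      have h6 : ((p.2 * p'.1 : ℕ) : ℝ) ≤ (((2 * M) * (2 * M) : ℕ) : ℝ) := by exact_mod_cast this
      push_cast at h6 ⊢
      linarith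
    have hY : ((p.1 * p'.2 : ℕ) : ℝ) ≤ 4 * (M : ℝ) ^ 2 := by
      have : p.1 * p'.2 ≤ (2 * M) * (2 * M) := Nat.mul_le_mul h2.le h4'.le
      have h6 : ((p.1 * p'.2 : ℕ) : ℝ) ≤ (((2 * M) * (2 * M) : ℕ) : ℝ) := by exact_mod_cast this
      push_cast at h6 ⊢
      linarith
    have hlogd := log_diff (X := ((p.2 * p'.1 : ℕ) : ℝ)) (Y := ((p.1 * p'.2 : ℕ) : ℝ)) (by push_cast; positivity)
      (by push_cast; positivity) hX hY
    have e1 : th α p + w - (th α p' + w) = α / (2 * π) * (log ((p.2 * p'.1 : ℕ) : ℝ) - log ((p.1 * p'.2 : ℕ) : ℝ)) := by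
      unfold th
      push_cast
      rw [Real.log_mul hp2.ne' hp1'.ne', Real.log_mul hp1.ne' hp2'.ne']
      ring
    rw [e1, abs_mul, abs_of_pos (by positivity)]
    have h6 : (d : ℝ) ^ 2 / (4 * (M : ℝ) ^ 2) ≤ |log ((p.2 * p'.1 : ℕ) : ℝ) - log ((p.1 * p'.2 : ℕ) : ℝ)| :=
      le_trans (div_le_div_of_nonneg_right hgap (by positivity)) hlogd
    calc α * (d : ℝ) ^ 2 / (8 * π * (M : ℝ) ^ 2) = α / (2 * π) * ((d : ℝ) ^ 2 / (4 * (M : ℝ) ^ 2)) := by
          field_simp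
          norm_num
      _ ≤ _ := mul_le_mul_of_nonneg_left h6 (by positivity)

lemma inv_sum (n : ℕ) : ∑ d ∈ Icc 1 n, 1 / (d : ℝ) ≤ 1 + log n := by
  have h := harmonic_le_one_add_log n
  rw [harmonic_eq_sum_Icc] at h
  push_cast at h
  simp only [one_div]
  exact h

/-- all pairs -/
lemma all_pairs (g : ℕ) (hg : 1 ≤ g) (D : ℕ → Finset ℕ) (lam : ℕ → ℝ) (hlam : ∀ i, 1 ≤ lam i) (k : ℕ)
    (hD : ∀ i < k, Flat g (lam i) (D i)) (α : ℝ) (hα : 0 < α)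
    (M : ℕ) (hM : 1 ≤ M) :
    ∑ p ∈ Ico M (2 * M) ×ˢ Ico M (2 * M), Q g D k (th α p) ≤
      CC α * (2 * √g * (1 + M / √g ^ k)) * wt lam D k * (M * (3 + log (2 * M))) := by
  have hlam0 : ∀ i, 0 < lam i := fun i => lt_of_lt_of_le one_pos (hlam i)
  have hMR : (1 : ℝ) ≤ M := by exact_mod_cast hM
  have hmaps : ∀ p ∈ Ico M (2 * M) ×ˢ Ico M (2 * M), Nat.gcd p.1 p.2 ∈ Icc 1 (2 * M) := by
    intro p hp
    rw [mem_product, mem_Ico, mem_Ico] at hp
    rw [mem_Icc]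
    exact ⟨Nat.gcd_pos_of_pos_left _ (by omega), (Nat.gcd_le_left _ (by omega)).trans (by omega)⟩
  rw [← sum_fiberwise_of_maps_to hmaps]
  have h1 : ∀ d ∈ Icc 1 (2 * M), ∑ p ∈ (Ico M (2 * M) ×ˢ Ico M (2 * M)).filter (fun p => Nat.gcd p.1 p.2 = d), Q g D k (th α p) ≤
      CC α * (2 * √g * (1 + M / √g ^ k)) * wt lam D k * (M * (1 / (d : ℝ)) + 1) := by
    intro d hd
    refine (gcd_sum g hg D lam hlam k hD α hα M d hM (mem_Icc.1 hd).1).trans (le_of_eq ?_)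
    ring
  refine (sum_le_sum h1).trans ?_
  rw [← mul_sum]
  apply mul_le_mul_of_nonneg_left
  · rw [sum_add_distrib, ← mul_sum, sum_const, Nat.card_Icc, nsmul_eq_mul, mul_one]
    have h2 := inv_sum (2 * M)
    push_cast at h2 ⊢
    have h4 : (M : ℝ) * ∑ d ∈ Icc 1 (2 * M), 1 / (d : ℝ) ≤ M * (1 + log (2 * M)) := mul_le_mul_of_nonneg_left h2 (by linarith)
    linarith
  · have := (CC_pos hα).le
    have h2 : 0 ≤ wt lam D k := prod_nonneg fun i _ => by have := hlam0 i; positivity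
    positivity

end Pool.Agent.R501.ZD
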