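import Pool.Agent.R501.ZD2

set_option autoImplicit false

/-! Dirichlet polynomials at the points `α v + β`, `v` an integer with restricted digits: the mean square. -/

namespace Pool.Agent.R501.ZD
open Finset Real

lemma conj_e (x : ℝ) : (starRingEnd ℂ) (e x) = e (-x) := by
  unfold e
  rw [← Complex.exp_conj]
  congr 1
  rw [map_mul, Complex.conj_I, Complex.conj_ofReal]
  push_cast
  ring

/-- the integer with the digits `a` -/
def val (g : ℕ) {k : ℕ} (a : Fin k → ℕ) : ℕ := ∑ i : Fin k, a i * g ^ (i : ℕ)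

/-- the digit strings -/
def strings (D : ℕ → Finset ℕ) (k : ℕ) : Finset (Fin k → ℕ) := Fintype.piFinset fun i : Fin k => D i

lemma card_strings (D : ℕ → Finset ℕ) (k : ℕ) : ((strings D k).card : ℝ) = ∏ i ∈ range k, ((D i).card : ℝ) := by
  unfold strings
  rw [Fintype.card_piFinset, ← Fin.prod_univ_eq_prod_range (fun i => ((D i).card : ℝ))]
  push_cast
  rfl

lemma norm_F (g : ℕ) (D : ℕ → Finset ℕ) (k : ℕ) (θ : ℝ) :
    ‖∑ a ∈ strings D k, e (val g a * θ)‖ = Q g D k θ := by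
  have h1 : ∀ a ∈ strings D k, e (val g a * θ) = ∏ i : Fin k, e (a i * ((g : ℝ) ^ (i : ℕ) * θ)) := by
    intro a _
    rw [← e_sum]
    congr 1
    unfold val
    push_cast
    rw [sum_mul]
    apply sum_congr rfl
    intro i _
    ring
  rw [sum_congr rfl h1]
  have h2 := prod_univ_sum (fun i : Fin k => D i) (fun (i : Fin k) (d : ℕ) => e ((d : ℝ) * ((g : ℝ) ^ (i : ℕ) * θ)))
  unfold strings
  rw [← h2, norm_prod]
  unfold Q
  rw [← Fin.prod_univ_eq_prod_range (fun i => ‖P (D i) ((g : ℝ) ^ i * θ)‖)]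
  rfl

/-- the mean square as a double sum -/
lemma sq_expand {ι : Type*} (A : Finset ι) (t : ι → ℝ) (S : Finset ℕ) (c : ℕ → ℂ) (lam : ℕ → ℝ) :
    ∑ a ∈ A, ‖∑ m ∈ S, c m * e (-(t a * lam m))‖ ^ 2 ≤
      ∑ p ∈ S ×ˢ S, ‖c p.1‖ * ‖c p.2‖ * ‖∑ a ∈ A, e (t a * (lam p.2 - lam p.1))‖ := by
  have h1 : ((∑ a ∈ A, ‖∑ m ∈ S, c m * e (-(t a * lam m))‖ ^ 2 : ℝ) : ℂ) =
      ∑ p ∈ S ×ˢ S, c p.1 * (starRingEnd ℂ) (c p.2) * ∑ a ∈ A, e (t a * (lam p.2 - lam p.1)) := by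
    have h2 : ∀ a ∈ A, ((‖∑ m ∈ S, c m * e (-(t a * lam m))‖ ^ 2 : ℝ) : ℂ) =
        ∑ p ∈ S ×ˢ S, c p.1 * (starRingEnd ℂ) (c p.2) * e (t a * (lam p.2 - lam p.1)) := by
      intro a _
      have h3 : ∀ z : ℂ, ((‖z‖ ^ 2 : ℝ) : ℂ) = z * (starRingEnd ℂ) z := by
        intro z
        rw [Complex.mul_conj, Complex.normSq_eq_norm_sq]
      rw [h3, map_sum, sum_mul_sum, sum_product]
      apply sum_congr rfl
      intro m _
      apply sum_congr rfl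
      intro n _
      rw [map_mul, conj_e, neg_neg]
      have : e (t a * (lam n - lam m)) = e (-(t a * lam m)) * e (t a * lam n) := by
        rw [← e_add]
        congr 1
        ring
      simp only
      rw [this]
      ring
    push_cast
    have h4 : ∀ a ∈ A, (((‖∑ m ∈ S, c m * e (-(t a * lam m))‖ : ℝ) : ℂ)) ^ 2 =
        ∑ p ∈ S ×ˢ S, c p.1 * (starRingEnd ℂ) (c p.2) * e (t a * (lam p.2 - lam p.1)) := by
      intro a ha
      rw [← h2 a ha]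
      push_cast
      rfl
    rw [sum_congr rfl h4, sum_comm]
    apply sum_congr rfl
    intro p _
    rw [mul_sum]
  have h5 : ∑ a ∈ A, ‖∑ m ∈ S, c m * e (-(t a * lam m))‖ ^ 2 =
      ‖((∑ a ∈ A, ‖∑ m ∈ S, c m * e (-(t a * lam m))‖ ^ 2 : ℝ) : ℂ)‖ := by
    rw [Complex.norm_real, Real.norm_eq_abs, abs_of_nonneg (sum_nonneg fun _ _ => sq_nonneg _)]
  rw [h5, h1]
  refine (norm_sum_le _ _).trans (le_of_eq ?_)
  apply sum_congr rfl
  intro p _
  rw [norm_mul, norm_mul, Complex.norm_conj]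

lemma cpow_eq {m : ℕ} (hm : 1 ≤ m) (t : ℝ) :
    (m : ℂ) ^ (-(1 / 2 + (t : ℂ) * Complex.I)) = (((m : ℝ) ^ (-(1 / 2) : ℝ) : ℝ) : ℂ) * e (-(t * (log m / (2 * π)))) := by
  have hm0 : (m : ℂ) ≠ 0 := by exact_mod_cast (by omega : m ≠ 0)
  have hmR : (0 : ℝ) < m := by exact_mod_cast hm
  have e1 : (((m : ℝ) ^ (-(1 / 2) : ℝ) : ℝ) : ℂ) = Complex.exp (Complex.log m * (-(1 / 2))) := by
    rw [Complex.ofReal_cpow hmR.le]
    push_cast
    rw [Complex.cpow_def_of_ne_zero hm0]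
  rw [e1, Complex.cpow_def_of_ne_zero hm0]
  unfold e
  rw [← Complex.exp_add]
  congr 1
  have h2 : Complex.log (m : ℂ) = ((log m : ℝ) : ℂ) := by
    rw [Complex.ofReal_log hmR.le]
    push_cast
    rfl
  rw [h2]
  push_cast
  have hpi : (π : ℂ) ≠ 0 := by exact_mod_cast Real.pi_ne_zero
  field_simp
  ring

/-- one dyadic block -/
lemma block (g : ℕ) (hg : 1 ≤ g) (D : ℕ → Finset ℕ) (lam : ℕ → ℝ) (hlam : ∀ i, 1 ≤ lam i) (k : ℕ)
    (hD : ∀ i < k, Flat g (lam i) (D i)) (α β : ℝ) (hα : 0 < α)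
    (M : ℕ) (hM : 1 ≤ M) (c : ℕ → ℂ) (hc : ∀ m, ‖c m‖ ≤ 1) :
    ∑ a ∈ strings D k, ‖∑ m ∈ Ico M (2 * M), c m * (m : ℂ) ^ (-(1 / 2 + ((α * val g a + β : ℝ) : ℂ) * Complex.I))‖ ^ 2 ≤
      CC α * (2 * √g * (1 + M / √g ^ k)) * wt lam D k * (3 + log (2 * M)) := by
  have hMR : (1 : ℝ) ≤ M := by exact_mod_cast hM
  have hM0 : (0 : ℝ) < M := by linarith
  have e1 : ∀ a ∈ strings D k, ‖∑ m ∈ Ico M (2 * M), c m * (m : ℂ) ^ (-(1 / 2 + ((α * val g a + β : ℝ) : ℂ) * Complex.I))‖ ^ 2 =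
      ‖∑ m ∈ Ico M (2 * M), (c m * (((m : ℝ) ^ (-(1 / 2) : ℝ) : ℝ) : ℂ)) *
        e (-((α * val g a + β) * (log m / (2 * π))))‖ ^ 2 := by
    intro a _
    congr 2
    apply sum_congr rfl
    intro m hm
    rw [cpow_eq (by have := (mem_Ico.1 hm).1; omega)]
    ring
  rw [sum_congr rfl e1]
  refine (sq_expand (strings D k) (fun a => α * val g a + β) _ _ (fun m => log m / (2 * π))).trans ?_
  have h1 : ∀ p ∈ Ico M (2 * M) ×ˢ Ico M (2 * M),
      ‖c p.1 * (((p.1 : ℝ) ^ (-(1 / 2) : ℝ) : ℝ) : ℂ)‖ * ‖c p.2 * (((p.2 : ℝ) ^ (-(1 / 2) : ℝ) : ℝ) : ℂ)‖ *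
        ‖∑ a ∈ strings D k, e ((α * val g a + β) * (log p.2 / (2 * π) - log p.1 / (2 * π)))‖ ≤
      1 / M * Q g D k (th α p) := by
    intro p hp
    rw [mem_product, mem_Ico, mem_Ico] at hp
    have hb : ∀ m : ℕ, M ≤ m → ‖c m * (((m : ℝ) ^ (-(1 / 2) : ℝ) : ℝ) : ℂ)‖ ≤ (M : ℝ) ^ (-(1 / 2) : ℝ) := by
      intro m hm
      rw [norm_mul, Complex.norm_real, Real.norm_eq_abs, abs_of_nonneg (by positivity)]
      have h2 : (m : ℝ) ^ (-(1 / 2) : ℝ) ≤ (M : ℝ) ^ (-(1 / 2) : ℝ) :=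
        Real.rpow_le_rpow_of_nonpos hM0 (by exact_mod_cast hm) (by norm_num)
      calc ‖c m‖ * (m : ℝ) ^ (-(1 / 2) : ℝ) ≤ 1 * (M : ℝ) ^ (-(1 / 2) : ℝ) :=
            mul_le_mul (hc m) h2 (by positivity) zero_le_one
        _ = _ := one_mul _
    have h2 : ‖∑ a ∈ strings D k, e ((α * val g a + β) * (log p.2 / (2 * π) - log p.1 / (2 * π)))‖ = Q g D k (th α p) := by
      rw [← norm_F]
      have h3 : ∀ a ∈ strings D k, e ((α * val g a + β) * (log p.2 / (2 * π) - log p.1 / (2 * π))) =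
          e (β * (log p.2 / (2 * π) - log p.1 / (2 * π))) * e (val g a * th α p) := by
        intro a _
        rw [← e_add]
        congr 1
        unfold th
        ring
      rw [sum_congr rfl h3, ← mul_sum, norm_mul, norm_e, one_mul]
    rw [h2]
    apply mul_le_mul_of_nonneg_right _ (Q_nonneg _ _ _ _)
    calc ‖c p.1 * (((p.1 : ℝ) ^ (-(1 / 2) : ℝ) : ℝ) : ℂ)‖ * ‖c p.2 * (((p.2 : ℝ) ^ (-(1 / 2) : ℝ) : ℝ) : ℂ)‖
        ≤ (M : ℝ) ^ (-(1 / 2) : ℝ) * (M : ℝ) ^ (-(1 / 2) : ℝ) :=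
          mul_le_mul (hb _ hp.1.1) (hb _ hp.2.1) (norm_nonneg _) (by positivity)
      _ = 1 / M := by
          rw [← Real.rpow_add hM0]
          norm_num
          rw [Real.rpow_neg_one]
  refine (sum_le_sum h1).trans ?_
  rw [← mul_sum]
  have h2 := all_pairs g hg D lam hlam k hD α hα M hM
  calc 1 / (M : ℝ) * ∑ p ∈ Ico M (2 * M) ×ˢ Ico M (2 * M), Q g D k (th α p)
      ≤ 1 / (M : ℝ) * (CC α * (2 * √g * (1 + M / √g ^ k)) * wt lam D k * (M * (3 + log (2 * M)))) :=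
        mul_le_mul_of_nonneg_left h2 (by positivity)
    _ = CC α * (2 * √g * (1 + M / √g ^ k)) * wt lam D k * (3 + log (2 * M)) := by
        field_simp

/-- **the mean square of a Dirichlet polynomial** -/
theorem mean_sq (g : ℕ) (hg : 1 ≤ g) (D : ℕ → Finset ℕ) (lam : ℕ → ℝ) (hlam : ∀ i, 1 ≤ lam i) (k : ℕ)
    (hD : ∀ i < k, Flat g (lam i) (D i)) (α β : ℝ) (hα : 0 < α)
    (N : ℕ) (hN : 1 ≤ N) (c : ℕ → ℂ) (hc : ∀ m, ‖c m‖ ≤ 1) :
    ∑ a ∈ strings D k, ‖∑ m ∈ Icc 1 N, c m * (m : ℂ) ^ (-(1 / 2 + ((α * val g a + β : ℝ) : ℂ) * Complex.I))‖ ^ 2 ≤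
      CC α * 12 * √g * (1 + N / √g ^ k) * (3 + log (2 * N)) ^ 3 * wt lam D k := by
  classical
  have hNR : (1 : ℝ) ≤ N := by exact_mod_cast hN
  have hN0 : (0 : ℝ) < N := by linarith
  obtain ⟨J, hJ⟩ : ∃ J, J = Nat.log 2 N + 1 := ⟨_, rfl⟩
  have hJN : N < 2 ^ J := hJ ▸ Nat.lt_pow_succ_log_self (by norm_num) N
  obtain ⟨c', hc'⟩ : ∃ c' : ℕ → ℂ, c' = fun m => if m ≤ N then c m else 0 := ⟨_, rfl⟩
  have hc'1 : ∀ m, ‖c' m‖ ≤ 1 := by
    intro m
    rw [hc']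
    simp only
    split_ifs
    · exact hc m
    · simp
  have hsplit : ∀ f : ℕ → ℂ, ∑ m ∈ Icc 1 N, c m * f m = ∑ j ∈ range J, ∑ m ∈ Ico (2 ^ j) (2 * 2 ^ j), c' m * f m := by
    intro f
    have h1 : ∀ J : ℕ, ∑ j ∈ range J, ∑ m ∈ Ico (2 ^ j) (2 * 2 ^ j), c' m * f m = ∑ m ∈ Ico 1 (2 ^ J), c' m * f m := by
      intro J
      induction J with
      | zero => simp
      | succ J ih =>
        rw [sum_range_succ, ih, ← pow_succ']
        exact sum_Ico_consecutive _ Nat.one_le_two_pow (Nat.pow_le_pow_right (by norm_num) (by omega))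
    rw [h1]
    have h2 : Icc 1 N ⊆ Ico 1 (2 ^ J) := by
      intro m hm
      rw [mem_Icc] at hm
      rw [mem_Ico]
      omega
    rw [← sum_subset h2]
    · apply sum_congr rfl
      intro m hm
      rw [hc']
      simp only
      rw [if_pos (mem_Icc.1 hm).2]
    · intro m hm hm'
      rw [mem_Ico] at hm
      rw [mem_Icc] at hm'
      rw [hc']
      simp only
      rw [if_neg (by omega), zero_mul]
  have hpt : ∀ a ∈ strings D k, ‖∑ m ∈ Icc 1 N, c m * (m : ℂ) ^ (-(1 / 2 + ((α * val g a + β : ℝ) : ℂ) * Complex.I))‖ ^ 2 ≤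
      J * ∑ j ∈ range J, ‖∑ m ∈ Ico (2 ^ j) (2 * 2 ^ j), c' m * (m : ℂ) ^ (-(1 / 2 + ((α * val g a + β : ℝ) : ℂ) * Complex.I))‖ ^ 2 := by
    intro a _
    rw [hsplit]
    have h1 := norm_sum_le (range J) (fun j => ∑ m ∈ Ico (2 ^ j) (2 * 2 ^ j), c' m * (m : ℂ) ^ (-(1 / 2 + ((α * val g a + β : ℝ) : ℂ) * Complex.I)))
    have h2 := sq_sum_le_card_mul_sum_sq (s := range J)
      (f := fun j => ‖∑ m ∈ Ico (2 ^ j) (2 * 2 ^ j), c' m * (m : ℂ) ^ (-(1 / 2 + ((α * val g a + β : ℝ) : ℂ) * Complex.I))‖)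
    rw [card_range] at h2
    exact (pow_le_pow_left₀ (norm_nonneg _) h1 2).trans h2
  refine (sum_le_sum hpt).trans ?_
  rw [← mul_sum, sum_comm]
  have hl0 : 0 ≤ log (2 * (N : ℝ)) := Real.log_nonneg (by linarith)
  have hCC := (CC_pos hα).le
  have hwt : 0 ≤ wt lam D k := prod_nonneg fun i _ => by
    have := hlam i
    positivity
  have hb : ∀ j ∈ range J, ∑ a ∈ strings D k, ‖∑ m ∈ Ico (2 ^ j) (2 * 2 ^ j), c' m * (m : ℂ) ^ (-(1 / 2 + ((α * val g a + β : ℝ) : ℂ) * Complex.I))‖ ^ 2 ≤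
      CC α * (2 * √g * (1 + N / √g ^ k)) * wt lam D k * (3 + log (2 * N)) := by
    intro j hj
    have hjN : 2 ^ j ≤ N := by
      rw [mem_range, hJ] at hj
      exact (Nat.pow_le_pow_right (by norm_num) (by omega : j ≤ Nat.log 2 N)).trans (Nat.pow_log_le_self 2 (by omega))
    have hjR : (((2 ^ j : ℕ)) : ℝ) ≤ N := by exact_mod_cast hjN
    have hj0 : (0 : ℝ) < ((2 ^ j : ℕ) : ℝ) := by positivity
    have hj1 : (1 : ℝ) ≤ ((2 ^ j : ℕ) : ℝ) := by exact_mod_cast Nat.one_le_two_pow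
    refine (block g hg D lam hlam k hD α β hα (2 ^ j) Nat.one_le_two_pow c' hc'1).trans ?_
    apply mul_le_mul
    · apply mul_le_mul_of_nonneg_right _ hwt
      apply mul_le_mul_of_nonneg_left _ hCC
      apply mul_le_mul_of_nonneg_left _ (by positivity)
      have : ((2 ^ j : ℕ) : ℝ) / √g ^ k ≤ N / √g ^ k := div_le_div_of_nonneg_right hjR (by positivity)
      linarith
    · have : log (2 * ((2 ^ j : ℕ) : ℝ)) ≤ log (2 * N) := Real.log_le_log (by positivity) (by linarith)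
      linarith
    · have : 0 ≤ log (2 * ((2 ^ j : ℕ) : ℝ)) := Real.log_nonneg (by linarith)
      linarith
    · positivity
  have hJR : (J : ℝ) ≤ 2 * (3 + log (2 * N)) := by
    have h1 : (J : ℝ) * log 2 ≤ log (2 * N) := by
      have h2 : (2 : ℝ) ^ J ≤ 2 * N := by
        rw [hJ, pow_succ]
        have : (2 : ℝ) ^ (Nat.log 2 N) ≤ N := by exact_mod_cast Nat.pow_log_le_self 2 (by omega)
        linarith
      have h3 := Real.log_le_log (by positivity) h2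
      rwa [Real.log_pow] at h3
    have h4 : (1 : ℝ) / 2 ≤ log 2 := by have := Real.log_two_gt_d9; linarith
    have h5 : (J : ℝ) * (1 / 2) ≤ J * log 2 := mul_le_mul_of_nonneg_left h4 (Nat.cast_nonneg _)
    linarith
  calc (J : ℝ) * ∑ j ∈ range J, ∑ a ∈ strings D k, ‖∑ m ∈ Ico (2 ^ j) (2 * 2 ^ j), c' m * (m : ℂ) ^ (-(1 / 2 + ((α * val g a + β : ℝ) : ℂ) * Complex.I))‖ ^ 2
      ≤ (J : ℝ) * ∑ j ∈ range J, CC α * (2 * √g * (1 + N / √g ^ k)) * wt lam D k * (3 + log (2 * N)) :=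
        mul_le_mul_of_nonneg_left (sum_le_sum hb) (Nat.cast_nonneg _)
    _ = (J * J) * (CC α * (2 * √g * (1 + N / √g ^ k)) * wt lam D k * (3 + log (2 * N))) := by
        rw [sum_const, card_range, nsmul_eq_mul]
        ring
    _ ≤ ((2 * (3 + log (2 * N))) * (2 * (3 + log (2 * N)))) * (CC α * (2 * √g * (1 + N / √g ^ k)) * wt lam D k * (3 + log (2 * N))) := by
        apply mul_le_mul_of_nonneg_right _ (by positivity)
        exact mul_le_mul hJR hJR (Nat.cast_nonneg _) (by positivity)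
    _ ≤ CC α * 12 * √g * (1 + N / √g ^ k) * (3 + log (2 * N)) ^ 3 * wt lam D k := by
        have : 0 ≤ CC α * √g * (1 + N / √g ^ k) * (3 + log (2 * N)) ^ 3 * wt lam D k := by positivity
        nlinarith

end Pool.Agent.R501.ZD
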