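import Pool.Agent.R501.ZD3
import Pool.Agent.TH110.N4_AFP
import Pool.Agent.TH75.N4_AFE

set_option autoImplicit false

/-! The zeta function at the points `α v + β`, `v` an integer with restricted digits. -/

namespace Pool.Agent.R501.ZD
open Finset Real MeasureTheory
open Pool.Agent.H306R2.SM (cl)
open Pool.Agent.H448R2.GC (cu cs XX)
open Pool.Agent.TH110.N4_AFP (gs cs_ext gs_cont norm_XX_cl t_AFP)

lemma norm_cu (k : ℕ) (c r : ℝ) (hc : 0 < c) : ‖(cu k c r : ℂ)‖ ≤ 1 := by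
  rw [Complex.norm_real, Real.norm_eq_abs, abs_of_nonneg (Pool.Agent.H448R2.GC.cu_nonneg k c r hc)]
  exact Pool.Agent.H448R2.GC.cu_le_one k c r hc

lemma three_sq (z a b r : ℂ) (h : z = a + b + r) : ‖z‖ ^ 2 ≤ 3 * ‖a‖ ^ 2 + 3 * ‖b‖ ^ 2 + 3 * ‖r‖ ^ 2 := by
  have h1 : ‖z‖ ≤ ‖a‖ + ‖b‖ + ‖r‖ := by
    rw [h]
    exact (norm_add_le _ _).trans (add_le_add (norm_add_le _ _) le_rfl)
  have h2 : ‖z‖ ^ 2 ≤ (‖a‖ + ‖b‖ + ‖r‖) ^ 2 := pow_le_pow_left₀ (norm_nonneg _) h1 2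
  nlinarith [sq_nonneg (‖a‖ - ‖b‖), sq_nonneg (‖a‖ - ‖r‖), sq_nonneg (‖b‖ - ‖r‖)]

/-- from Dirichlet polynomials to the zeta function -/
theorem window (η : ℝ) (hη : 0 < η) (hη1 : η ≤ 1 / 100) : ∃ C T₀ : ℝ, 0 < C ∧ 1 ≤ T₀ ∧ ∀ X : ℝ, T₀ ≤ X →
    ∀ N : ℕ, 4 * X ^ (1 / 2 + 2 * η) ≤ N → ∀ (ι : Type) (A A' : Finset ι) (t : ι → ℝ), A' ⊆ A →
    (∀ i ∈ A', X / 8 ≤ t i ∧ t i ≤ 8 * X) → ∀ B : ℝ,
    (∀ c : ℕ → ℂ, (∀ m, ‖c m‖ ≤ 1) → ∑ i ∈ A, ‖∑ m ∈ Icc 1 N, c m * (m : ℂ) ^ (-(1 / 2 + (t i : ℂ) * Complex.I))‖ ^ 2 ≤ B) →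
    ∑ i ∈ A', ‖riemannZeta (1 / 2 + (t i : ℂ) * Complex.I)‖ ^ 2 ≤ C * (B + A'.card) := by
  obtain ⟨k₀, hk₀⟩ := t_AFP Pool.Agent.TH75.N4_AFE.t_AFE η hη hη1
  obtain ⟨C₁, T₁, hC₁, H⟩ := hk₀ (k₀ + 1) (by omega)
  refine ⟨6 + 36 * C₁, max T₁ (exp 1), by positivity, (Real.one_le_exp zero_le_one).trans (le_max_right _ _), ?_⟩
  intro X hX N hN ι A A' t hsub ht B hB
  have hXT : T₁ ≤ X := (le_max_left _ _).trans hX
  have hXe : exp 1 ≤ X := (le_max_right _ _).trans hX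
  have hX0 : 0 < X := (Real.exp_pos _).trans_le hXe
  have hX1 : 1 ≤ X := (Real.one_le_exp zero_le_one).trans hXe
  obtain ⟨L, hL⟩ : ∃ L, L = log X := ⟨_, rfl⟩
  have hL1 : 1 ≤ L := by rw [hL, Real.le_log_iff_exp_le hX0]; exact hXe
  obtain ⟨k, hk⟩ : ∃ k, k = k₀ + 1 := ⟨_, rfl⟩
  rw [← hk] at H
  obtain ⟨c, hc⟩ : ∃ c : ℝ, c = η * log X / ((k : ℝ) + 1) := ⟨_, rfl⟩
  obtain ⟨D1, hD1⟩ : ∃ D1 : ℝ, D1 = (1 / 2 - 2 * η) * log X := ⟨_, rfl⟩
  obtain ⟨D2, hD2⟩ : ∃ D2 : ℝ, D2 = log (X / (2 * π)) - D1 - η * log X := ⟨_, rfl⟩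
  have hc0 : 0 < c := by rw [hc, ← hL]; positivity
  have hkc : ((k : ℝ) + 1) * c = η * L := by rw [hc, ← hL]; field_simp
  have hkc' : (k : ℝ) * c ≤ η * L := by
    have : (k : ℝ) * c ≤ ((k : ℝ) + 1) * c := mul_le_mul_of_nonneg_right (by linarith) hc0.le
    linarith
  have hpi : 3 < π := Real.pi_gt_three
  have hlogpi : log (X / (2 * π)) = L - log (2 * π) := by
    rw [Real.log_div hX0.ne' (by positivity), ← hL]
  have hpow : X ^ (1 / 2 + 2 * η) = exp ((1 / 2 + 2 * η) * L) := by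
    rw [Real.rpow_def_of_pos hX0, ← hL]
    congr 1
    ring
  have hD2' : D2 = (1 / 2 + η) * L - log (2 * π) := by rw [hD2, hlogpi, hD1, ← hL]; ring
  have hlog2pi : 1 ≤ log (2 * π) := by
    rw [Real.le_log_iff_exp_le (by positivity)]
    have := Real.exp_one_lt_d9
    linarith
  -- the lengths
  have hlen1 : exp (D1 + ((k + 1 : ℕ) : ℝ) * c) ≤ N := by
    refine le_trans ?_ hN
    push_cast
    rw [hkc, hD1, ← hL, hpow]
    have h1 : exp ((1 / 2 - 2 * η) * L + η * L) ≤ exp ((1 / 2 + 2 * η) * L) := by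
      apply Real.exp_le_exp.2
      nlinarith
    have h2 := Real.exp_pos ((1 / 2 + 2 * η) * L)
    linarith
  have hlen2 : exp (D2 + ((k + 1 : ℕ) : ℝ) * c) ≤ N := by
    refine le_trans ?_ hN
    push_cast
    rw [hkc, hD2', hpow]
    have h1 : exp ((1 / 2 + η) * L - log (2 * π) + η * L) ≤ exp ((1 / 2 + 2 * η) * L) := by
      apply Real.exp_le_exp.2
      nlinarith
    have h2 := Real.exp_pos ((1 / 2 + 2 * η) * L)
    linarith
  have hlen3 : ∀ u : ℝ, u ≤ 3 → exp (D2 + u + (k : ℝ) * c) ≤ N ∧ exp (D2 + u + c + (k : ℝ) * c) ≤ N := by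
    intro u hu
    have h0 : exp (D2 + u + c + (k : ℝ) * c) ≤ N := by
      refine le_trans ?_ hN
      rw [hpow]
      have e1 : D2 + u + c + (k : ℝ) * c = D2 + u + ((k : ℝ) + 1) * c := by ring
      rw [e1, hkc, hD2']
      have h1 : exp ((1 / 2 + η) * L - log (2 * π) + u + η * L) ≤ exp ((1 / 2 + 2 * η) * L + (3 - log (2 * π))) := by
        apply Real.exp_le_exp.2
        nlinarith
      have h2 : exp (3 - log (2 * π)) ≤ 4 := by
        rw [Real.exp_sub, Real.exp_log (by positivity), div_le_iff₀ (by positivity)]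
        have h3 : exp 3 = exp 1 ^ 3 := by rw [← Real.exp_nat_mul]; norm_num
        have h4 : exp 1 ^ 3 ≤ 24 :=
          (pow_le_pow_left₀ (Real.exp_pos _).le Real.exp_one_lt_d9.le 3).trans (by norm_num)
        rw [h3]
        linarith
      rw [Real.exp_add ((1 / 2 + 2 * η) * L) (3 - log (2 * π))] at h1
      have h5 := Real.exp_pos ((1 / 2 + 2 * η) * L)
      have h6 := mul_le_mul_of_nonneg_left h2 h5.le
      linarith
    refine ⟨le_trans ?_ h0, h0⟩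
    apply Real.exp_le_exp.2
    linarith
  -- mean squares of the pieces
  have hgs : ∀ (j : ℕ) (D : ℝ), ∑ i ∈ A, ‖gs N j c (cl (t i)) D‖ ^ 2 ≤ B := by
    intro j D
    exact hB (fun m => (cu j c (log m - D) : ℂ)) (fun m => norm_cu _ _ _ hc0)
  have hB0 : 0 ≤ B := (sum_nonneg fun i _ => sq_nonneg _).trans (hgs 0 0)
  -- the pointwise bound
  have hpt : ∀ i ∈ A', ‖riemannZeta (1 / 2 + (t i : ℂ) * Complex.I)‖ ^ 2 ≤ 3 * ‖gs N (k + 1) c (cl (t i)) D1‖ ^ 2 +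
      3 * ‖gs N (k + 1) c (cl (t i)) D2‖ ^ 2 + 3 * (1 + C₁ *
        ∫ u in (-3 : ℝ)..3, (‖gs N k c (cl (t i)) (D2 + u + c)‖ ^ 2 + ‖gs N k c (cl (t i)) (D2 + u)‖ ^ 2)) := by
    intro i hi
    obtain ⟨h1, h2⟩ := ht i hi
    have h3 := H X hXT (t i) h1 h2 c D1 D2 hc hD1 hD2
    rw [cs_ext (k + 1) c D1 hc0 N hlen1, cs_ext (k + 1) c D2 hc0 N hlen2] at h3
    have h4 : ∫ u in (-3 : ℝ)..3, (‖cs k c (D2 + u + c) (cl (t i))‖ ^ 2 + ‖cs k c (D2 + u) (cl (t i))‖ ^ 2) =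
        ∫ u in (-3 : ℝ)..3, (‖gs N k c (cl (t i)) (D2 + u + c)‖ ^ 2 + ‖gs N k c (cl (t i)) (D2 + u)‖ ^ 2) := by
      apply intervalIntegral.integral_congr
      intro u hu
      rw [Set.uIcc_of_le (by norm_num)] at hu
      simp only
      rw [cs_ext k c (D2 + u + c) hc0 N (hlen3 u hu.2).2, cs_ext k c (D2 + u) hc0 N (hlen3 u hu.2).1]
    rw [h4] at h3
    have h5 := three_sq (riemannZeta (cl (t i))) (gs N (k + 1) c (cl (t i)) D1)
      (XX (1 - cl (t i)) * (starRingEnd ℂ) (gs N (k + 1) c (cl (t i)) D2))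
      (riemannZeta (cl (t i)) - gs N (k + 1) c (cl (t i)) D1 - XX (1 - cl (t i)) * (starRingEnd ℂ) (gs N (k + 1) c (cl (t i)) D2))
      (by ring)
    rw [norm_mul, norm_XX_cl, one_mul, Complex.norm_conj] at h5
    have h6 : 0 ≤ ∫ u in (-3 : ℝ)..3, (‖gs N k c (cl (t i)) (D2 + u + c)‖ ^ 2 + ‖gs N k c (cl (t i)) (D2 + u)‖ ^ 2) :=
      intervalIntegral.integral_nonneg (by norm_num) fun u _ => by positivity
    have h7 : X ^ (-(1 / 3) : ℝ) ≤ 1 := Real.rpow_le_one_of_one_le_of_nonpos hX1 (by norm_num)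
    have h8 : C₁ / log X ^ 2 ≤ C₁ := by
      rw [← hL]
      exact div_le_self hC₁.le (by nlinarith)
    have h9 := mul_le_mul_of_nonneg_right h8 h6
    have e0 : riemannZeta (1 / 2 + (t i : ℂ) * Complex.I) = riemannZeta (cl (t i)) := rfl
    rw [e0]
    linarith
  -- the integrals
  have hint : ∑ i ∈ A, ∫ u in (-3 : ℝ)..3, (‖gs N k c (cl (t i)) (D2 + u + c)‖ ^ 2 + ‖gs N k c (cl (t i)) (D2 + u)‖ ^ 2) ≤
      12 * B := by
    have hcont : ∀ i, Continuous fun u : ℝ => ‖gs N k c (cl (t i)) (D2 + u + c)‖ ^ 2 + ‖gs N k c (cl (t i)) (D2 + u)‖ ^ 2 := by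
      intro i
      have h1 : Continuous (gs N k c (cl (t i))) := by rw [hk]; exact gs_cont N k₀ c hc0 _
      have h2 : Continuous fun u : ℝ => gs N k c (cl (t i)) (D2 + u + c) := h1.comp (by fun_prop)
      have h3 : Continuous fun u : ℝ => gs N k c (cl (t i)) (D2 + u) := h1.comp (by fun_prop)
      exact (h2.norm.pow 2).add (h3.norm.pow 2)
    rw [← intervalIntegral.integral_finsetSum (fun i _ => (hcont i).intervalIntegrable _ _)]
    have h1 := intervalIntegral.norm_integral_le_of_norm_le_const (a := (-3 : ℝ)) (b := 3) (C := 2 * B)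
      (f := fun u : ℝ => ∑ i ∈ A, (‖gs N k c (cl (t i)) (D2 + u + c)‖ ^ 2 + ‖gs N k c (cl (t i)) (D2 + u)‖ ^ 2)) (by
        intro u _
        rw [Real.norm_eq_abs, abs_of_nonneg (sum_nonneg fun i _ => by positivity), sum_add_distrib]
        have h2 := hgs k (D2 + u + c)
        have h3 := hgs k (D2 + u)
        linarith)
    have h2 := (le_abs_self _).trans h1
    norm_num at h2
    linarith
  have hnn : ∀ i, 0 ≤ ∫ u in (-3 : ℝ)..3, (‖gs N k c (cl (t i)) (D2 + u + c)‖ ^ 2 + ‖gs N k c (cl (t i)) (D2 + u)‖ ^ 2) :=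
    fun i => intervalIntegral.integral_nonneg (by norm_num) fun u _ => by positivity
  refine (sum_le_sum hpt).trans ?_
  rw [sum_add_distrib, sum_add_distrib, ← mul_sum, ← mul_sum, ← mul_sum, sum_add_distrib, ← mul_sum, sum_const, nsmul_eq_mul,
    mul_one]
  have h1 : ∑ i ∈ A', ‖gs N (k + 1) c (cl (t i)) D1‖ ^ 2 ≤ B :=
    (sum_le_sum_of_subset_of_nonneg hsub fun _ _ _ => sq_nonneg _).trans (hgs _ _)
  have h2 : ∑ i ∈ A', ‖gs N (k + 1) c (cl (t i)) D2‖ ^ 2 ≤ B :=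
    (sum_le_sum_of_subset_of_nonneg hsub fun _ _ _ => sq_nonneg _).trans (hgs _ _)
  have h3 : ∑ i ∈ A', ∫ u in (-3 : ℝ)..3, (‖gs N k c (cl (t i)) (D2 + u + c)‖ ^ 2 + ‖gs N k c (cl (t i)) (D2 + u)‖ ^ 2) ≤
      12 * B := (sum_le_sum_of_subset_of_nonneg hsub fun i _ _ => hnn i).trans hint
  have h4 := mul_le_mul_of_nonneg_left h3 hC₁.le
  have h5 : (0 : ℝ) ≤ (A'.card : ℝ) := Nat.cast_nonneg _
  nlinarith [mul_nonneg hC₁.le h5]

end Pool.Agent.R501.ZD
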