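import Pool.Agent.R501.ZD1

set_option autoImplicit false

/-! Sets of digits with small exponential sums: intervals from which few digits are removed. -/

namespace Pool.Agent.R501.ZD
open Finset Real

lemma e_sub_one (θ : ℝ) : ‖e θ - 1‖ = 2 * |sin (π * θ)| := by
  unfold e
  have h := Complex.norm_exp_I_mul_ofReal_sub_one (2 * π * θ)
  rw [mul_comm (((2 * π * θ : ℝ) : ℂ)) Complex.I, h, norm_mul, Real.norm_eq_abs, Real.norm_eq_abs, abs_of_pos (by norm_num : (0 : ℝ) < 2)]
  congr 2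
  congr 1
  ring

lemma geom_bound (s l : ℕ) (θ : ℝ) (h : e θ ≠ 1) : ‖∑ d ∈ Ico s (s + l), e (d * θ)‖ ≤ 2 / ‖e θ - 1‖ := by
  have h1 : ∀ d : ℕ, e (d * θ) = e θ ^ d := by
    intro d
    induction d with
    | zero => simp [e_zero]
    | succ d ih => rw [pow_succ, ← ih, ← e_add]; congr 1; push_cast; ring
  have h2 : ∑ d ∈ Ico s (s + l), e (d * θ) = e θ ^ s * ((e θ ^ l - 1) / (e θ - 1)) := by
    rw [sum_congr rfl fun d _ => h1 d, sum_Ico_eq_sum_range, Nat.add_sub_cancel_left, ← geom_sum_eq h, mul_sum]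
    apply sum_congr rfl
    intro i _
    rw [pow_add]
  rw [h2, norm_mul, norm_pow, norm_e, one_pow, one_mul, norm_div]
  apply div_le_div_of_nonneg_right _ (norm_nonneg _)
  refine (norm_sub_le _ _).trans ?_
  rw [norm_pow, norm_e, one_pow, norm_one]
  norm_num

lemma geom_left (s l : ℕ) {θ : ℝ} (h0 : 0 < θ) (h1 : θ ≤ 1 / 2) : ‖∑ d ∈ Ico s (s + l), e (d * θ)‖ ≤ 1 / (2 * θ) := by
  have hpi := Real.pi_pos
  have hs : 2 * θ ≤ sin (π * θ) := by
    have h2 := Real.mul_le_sin (x := π * θ) (by positivity) (by nlinarith)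
    have e1 : 2 / π * (π * θ) = 2 * θ := by field_simp
    linarith
  have hn : ‖e θ - 1‖ = 2 * sin (π * θ) := by rw [e_sub_one, abs_of_nonneg (by linarith)]
  have hne : e θ ≠ 1 := by
    intro h
    rw [h, sub_self, norm_zero] at hn
    linarith
  refine (geom_bound s l θ hne).trans ?_
  rw [hn, div_le_div_iff₀ (by linarith) (by positivity)]
  linarith

lemma geom_right (s l : ℕ) {θ : ℝ} (h0 : 1 / 2 ≤ θ) (h1 : θ < 1) : ‖∑ d ∈ Ico s (s + l), e (d * θ)‖ ≤ 1 / (2 * (1 - θ)) := by
  have hpi := Real.pi_pos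
  have hs : 2 * (1 - θ) ≤ sin (π * θ) := by
    have h2 := Real.mul_le_sin (x := π * (1 - θ)) (by apply mul_nonneg hpi.le; linarith) (by nlinarith)
    have e1 : 2 / π * (π * (1 - θ)) = 2 * (1 - θ) := by field_simp
    have e2 : sin (π * (1 - θ)) = sin (π * θ) := by
      rw [mul_sub, mul_one, Real.sin_pi_sub]
    linarith
  have hn : ‖e θ - 1‖ = 2 * sin (π * θ) := by rw [e_sub_one, abs_of_nonneg (by linarith)]
  have hne : e θ ≠ 1 := by
    intro h
    rw [h, sub_self, norm_zero] at hn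
    linarith
  refine (geom_bound s l θ hne).trans ?_
  rw [hn, div_le_div_iff₀ (by linarith) (by linarith)]
  linarith

/-- an interval of digits from which a few digits are removed -/
def NearInterval (g : ℕ) (lam : ℝ) (D : Finset ℕ) : Prop :=
  ∃ (s l : ℕ) (R : Finset ℕ), s + l ≤ g ∧ D = Ico s (s + l) \ R ∧ √g * (R.card + 3 + log g) ≤ lam * D.card

lemma inv_sum' (n : ℕ) : ∑ d ∈ Icc 1 n, 1 / (d : ℝ) ≤ 1 + log n := by
  have h := harmonic_le_one_add_log n
  rw [harmonic_eq_sum_Icc] at h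
  push_cast at h
  simp only [one_div]
  exact h

theorem flat_of_near {g : ℕ} (hg : 2 ≤ g) {lam : ℝ} {D : Finset ℕ} (h : NearInterval g lam D) : Flat g lam D := by
  obtain ⟨s, l, R, hsl, hD, hcard⟩ := h
  have hgR : (2 : ℝ) ≤ g := by exact_mod_cast hg
  have hg0 : (0 : ℝ) < g := by linarith
  obtain ⟨f1, hf1⟩ : ∃ f1 : ℕ → ℝ, f1 = fun r : ℕ => if r = 0 then (g : ℝ) else g / (2 * (r : ℝ)) := ⟨_, rfl⟩
  have hf1n : ∀ r, 0 ≤ f1 r := by
    intro r
    rw [hf1]
    simp only
    split_ifs <;> positivity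
  have hf1s : ∑ r ∈ range g, f1 r ≤ g + g / 2 * (1 + log g) := by
    obtain ⟨n, rfl⟩ : ∃ n, g = n + 1 := ⟨g - 1, by omega⟩
    rw [sum_range_succ']
    have e1 : ∀ r ∈ range n, f1 (r + 1) = ((n + 1 : ℕ) : ℝ) / 2 * (1 / ((r + 1 : ℕ) : ℝ)) := by
      intro r _
      rw [hf1]
      simp only
      rw [if_neg (by omega)]
      field_simp
    have e2 : f1 0 = ((n + 1 : ℕ) : ℝ) := by rw [hf1]; simp
    rw [sum_congr rfl e1, ← mul_sum, e2]
    have e3 : ∑ r ∈ range n, 1 / ((r + 1 : ℕ) : ℝ) = ∑ d ∈ Icc 1 n, 1 / (d : ℝ) := by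
      rw [← Finset.Ico_succ_right_eq_Icc, Finset.sum_Ico_eq_sum_range]
      simp only [Order.succ_eq_add_one, Nat.add_sub_cancel]
      apply sum_congr rfl
      intro i _
      rw [add_comm 1 i]
    rw [e3]
    have h1 := inv_sum' n
    have h2 : log (n : ℝ) ≤ log ((n + 1 : ℕ) : ℝ) := by
      rcases Nat.eq_zero_or_pos n with h0 | h0
      · omega
      · apply Real.log_le_log (by exact_mod_cast h0)
        push_cast
        linarith
    have h3 : (0 : ℝ) ≤ ((n + 1 : ℕ) : ℝ) / 2 := by positivity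
    have h4 := mul_le_mul_of_nonneg_left (h1.trans (by linarith : 1 + log (n : ℝ) ≤ 1 + log ((n + 1 : ℕ) : ℝ))) h3
    linarith
  refine ⟨fun r => R.card + f1 r + f1 (g - 1 - r), fun r hr y hy0 hy1 => ?_, ?_⟩
  · obtain ⟨θ, hθ⟩ : ∃ θ : ℝ, θ = (r + y) / g := ⟨_, rfl⟩
    rw [← hθ]
    have hP : ‖P D θ‖ ≤ ‖∑ d ∈ Ico s (s + l), e (d * θ)‖ + R.card := by
      have h1 : P D θ = ∑ d ∈ Ico s (s + l), e (d * θ) - ∑ d ∈ Ico s (s + l) ∩ R, e (d * θ) := by
        unfold P
        rw [hD, eq_sub_iff_add_eq, add_comm]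
        rw [← sum_inter_add_sum_sdiff (Ico s (s + l)) R]
      rw [h1]
      refine (norm_sub_le _ _).trans ?_
      apply add_le_add le_rfl
      refine (norm_sum_le _ _).trans ?_
      simp only [norm_e, sum_const, nsmul_eq_mul, mul_one]
      exact_mod_cast card_le_card inter_subset_right
    have hl : ‖∑ d ∈ Ico s (s + l), e (d * θ)‖ ≤ g := by
      refine (norm_sum_le _ _).trans ?_
      simp only [norm_e, sum_const, nsmul_eq_mul, mul_one, Nat.card_Ico]
      exact_mod_cast (by omega : s + l - s ≤ g)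
    have hgr : (r : ℝ) + 1 ≤ g := by exact_mod_cast hr
    have key : ‖∑ d ∈ Ico s (s + l), e (d * θ)‖ ≤ f1 r + f1 (g - 1 - r) := by
      by_cases h0 : r = 0
      · have : f1 r = g := by rw [hf1]; simp [h0]
        have := hf1n (g - 1 - r)
        linarith
      by_cases h1 : g - 1 - r = 0
      · have : f1 (g - 1 - r) = g := by rw [hf1]; simp [h1]
        have := hf1n r
        linarith
      have hr1 : (1 : ℝ) ≤ r := by exact_mod_cast (by omega : 1 ≤ r)
      have hθ0 : (r : ℝ) / g ≤ θ := by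
        rw [hθ]
        exact div_le_div_of_nonneg_right (by linarith) hg0.le
      have hgr' : ((g - 1 - r : ℕ) : ℝ) = g - 1 - r := by
        rw [Nat.cast_sub (by omega), Nat.cast_sub (by omega)]
        push_cast
        ring
      have hgr1 : (1 : ℝ) ≤ ((g - 1 - r : ℕ) : ℝ) := by exact_mod_cast (by omega : 1 ≤ g - 1 - r)
      have hθ1 : ((g - 1 - r : ℕ) : ℝ) / g ≤ 1 - θ := by
        rw [hθ, hgr', div_le_iff₀ hg0]
        field_simp
        linarith
      have hθpos : 0 < θ := lt_of_lt_of_le (by positivity) hθ0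
      have hθlt : 0 < 1 - θ := lt_of_lt_of_le (by positivity) hθ1
      rcases le_total θ (1 / 2) with h2 | h2
      · have h3 := geom_left s l hθpos h2
        have h4 : 1 / (2 * θ) ≤ f1 r := by
          rw [hf1]
          simp only
          rw [if_neg h0, div_le_div_iff₀ (by positivity) (by positivity)]
          rw [div_le_iff₀ hg0] at hθ0
          linarith
        have := hf1n (g - 1 - r)
        linarith
      · have h3 := geom_right s l h2 (by linarith)
        have h4 : 1 / (2 * (1 - θ)) ≤ f1 (g - 1 - r) := by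
          rw [hf1]
          simp only
          rw [if_neg h1, div_le_div_iff₀ (by positivity) (by positivity)]
          rw [div_le_iff₀ hg0] at hθ1
          linarith
        have := hf1n r
        linarith
    linarith
  · rw [sum_add_distrib, sum_add_distrib, sum_const, card_range, nsmul_eq_mul, Finset.sum_range_reflect f1 g]
    have h1 : (g : ℝ) * R.card + (g + g / 2 * (1 + log g)) + (g + g / 2 * (1 + log g)) = √g * (√g * (R.card + 3 + log g)) := by
      rw [← mul_assoc, Real.mul_self_sqrt hg0.le]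
      ring
    have h2 := mul_le_mul_of_nonneg_left hcard (Real.sqrt_nonneg (g : ℝ))
    linarith

/-- a missing digit, for all bases `g ≥ 100` -/
theorem near_missing {g : ℕ} (hg : 100 ≤ g) (a : ℕ) : NearInterval g 1 (range g \ {a}) := by
  refine ⟨0, g, {a}, by omega, by rw [zero_add, range_eq_Ico], ?_⟩
  rw [one_mul]
  have hgR : (100 : ℝ) ≤ g := by exact_mod_cast hg
  have hg0 : (0 : ℝ) < g := by linarith
  obtain ⟨x, hx⟩ : ∃ x, x = √(g : ℝ) := ⟨_, rfl⟩
  have hx10 : 10 ≤ x := by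
    rw [hx]
    apply Real.le_sqrt_of_sq_le
    norm_num
    linarith
  have hxx : x * x = g := by rw [hx]; exact Real.mul_self_sqrt hg0.le
  have hcard : (g : ℝ) - 1 ≤ ((range g \ {a}).card : ℝ) := by
    have h1 := le_card_sdiff {a} (range g)
    rw [card_range, card_singleton] at h1
    have h2 : ((g - 1 : ℕ) : ℝ) = g - 1 := by rw [Nat.cast_sub (by omega)]; simp
    rw [← h2]
    exact_mod_cast h1
  refine le_trans ?_ hcard
  rw [card_singleton, ← hx]
  have hlog : log (g : ℝ) ≤ 2 * (1354 / 1000 + x / 10) := by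
    have h1 : log (g : ℝ) = 2 * log x := by
      rw [← hxx, Real.log_mul (by linarith) (by linarith)]
      ring
    have h2 : log x ≤ 1354 / 1000 + x / 10 := by
      have h3 : log (x / 10) ≤ x / 10 - 1 := Real.log_le_sub_one_of_pos (by positivity)
      rw [Real.log_div (by linarith) (by norm_num)] at h3
      have h4 : log (10 : ℝ) ≤ 2354 / 1000 := by
        have h5 : log (10 / (exp 1 ^ 2)) ≤ 10 / (exp 1 ^ 2) - 1 := Real.log_le_sub_one_of_pos (by positivity)
        rw [Real.log_div (by norm_num) (by positivity), Real.log_pow, Real.log_exp] at h5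
        have h6 : 10 / (exp 1 ^ 2) ≤ 1353 / 1000 + 1 / 1000 := by
          rw [div_le_iff₀ (by positivity)]
          have h7 : (2.7182818283 : ℝ) ^ 2 ≤ exp 1 ^ 2 := pow_le_pow_left₀ (by norm_num) Real.exp_one_gt_d9.le 2
          nlinarith
        push_cast at h5
        linarith
      linarith
    linarith
  push_cast
  nlinarith

/-- long intervals, for large bases -/
theorem near_interval {κ : ℝ} (hκ : 0 < κ) : ∃ g₀ : ℕ, ∀ g : ℕ, g₀ ≤ g → ∀ (s l : ℕ) (lam : ℝ), s + l ≤ g →
    (g : ℝ) ^ (1 / 2 + κ) ≤ lam * l → NearInterval g lam (Ico s (s + l)) := by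
  have h := (isLittleO_log_rpow_atTop hκ).bound (show (0 : ℝ) < 1 / 2 by norm_num)
  have h1 := (tendsto_natCast_atTop_atTop (R := ℝ)).eventually h
  have h2 : Filter.Tendsto (fun g : ℕ => ((g : ℝ)) ^ κ) Filter.atTop Filter.atTop :=
    (tendsto_rpow_atTop hκ).comp tendsto_natCast_atTop_atTop
  obtain ⟨g₁, hg₁⟩ := Filter.eventually_atTop.1 (h1.and (h2.eventually_ge_atTop 6))
  refine ⟨g₁ + 1, fun g hg s l lam hsl hl => ⟨s, l, ∅, hsl, by rw [sdiff_empty], ?_⟩⟩
  obtain ⟨h3, h4⟩ := hg₁ g (by omega)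
  have hg0 : (1 : ℝ) ≤ g := by exact_mod_cast (by omega : 1 ≤ g)
  have hgp : (0 : ℝ) < g := by linarith
  rw [Real.norm_eq_abs, Real.norm_eq_abs, abs_of_nonneg (Real.log_nonneg hg0), abs_of_nonneg (by positivity)] at h3
  rw [card_empty, Nat.card_Ico, Nat.add_sub_cancel_left]
  refine le_trans ?_ hl
  rw [Real.rpow_add hgp, ← Real.sqrt_eq_rpow]
  apply mul_le_mul_of_nonneg_left _ (Real.sqrt_nonneg _)
  push_cast
  linarith

end Pool.Agent.R501.ZD
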