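import Pool.Agent.R501.ZD4
import Pool.Agent.R501.ZD5

set_option autoImplicit false

/-! The mean square of the zeta function over the integers with restricted digits. -/

namespace Pool.Agent.R501.ZD
open Finset Real

lemma poly_le (δ : ℝ) (hδ : 0 < δ) : ∃ K : ℝ, 0 < K ∧ ∀ k : ℕ, ((k : ℝ) + 1) ^ 4 ≤ K * exp (δ * k) := by
  refine ⟨24 / δ ^ 4 * exp δ, by positivity, fun k => ?_⟩
  have h := Real.pow_div_factorial_le_exp (δ * (k + 1)) (by positivity) 4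
  have h1 : ((4 : ℕ).factorial : ℝ) = 24 := by norm_num [Nat.factorial]
  rw [h1, div_le_iff₀ (by norm_num), mul_pow] at h
  have h2 : exp (δ * ((k : ℝ) + 1)) = exp δ * exp (δ * k) := by rw [← Real.exp_add]; congr 1; ring
  rw [h2] at h
  rw [div_mul_eq_mul_div, div_mul_eq_mul_div, le_div_iff₀ (by positivity)]
  nlinarith

lemma val_lt {g : ℕ} : ∀ (k : ℕ) (a : Fin k → ℕ), (∀ i, a i < g) → val g a < g ^ k := by
  unfold val
  intro k
  induction k with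
  | zero => intro a _; simp
  | succ k ih =>
    intro a ha
    rw [Fin.sum_univ_castSucc]
    have h1 := ih (fun i => a i.castSucc) (fun i => ha _)
    have h2 := ha (Fin.last k)
    simp only [Fin.val_castSucc, Fin.val_last] at h1 ⊢
    calc ∑ i : Fin k, a i.castSucc * g ^ (i : ℕ) + a (Fin.last k) * g ^ k < g ^ k + a (Fin.last k) * g ^ k :=
          Nat.add_lt_add_right h1 _
      _ = (a (Fin.last k) + 1) * g ^ k := by ring
      _ ≤ g * g ^ k := Nat.mul_le_mul_right _ h2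
      _ = g ^ (k + 1) := by ring

lemma zeta_bdd (T : ℝ) : ∃ M : ℝ, 0 ≤ M ∧ ∀ t : ℝ, 0 ≤ t → t ≤ T → ‖riemannZeta (1 / 2 + (t : ℂ) * Complex.I)‖ ^ 2 ≤ M := by
  have hc : ContinuousOn (fun t : ℝ => ‖riemannZeta (1 / 2 + (t : ℂ) * Complex.I)‖ ^ 2) (Set.Icc 0 T) := by
    apply ContinuousOn.pow
    apply ContinuousOn.norm
    intro t _
    apply ContinuousAt.continuousWithinAt
    have h1 : DifferentiableAt ℂ riemannZeta (1 / 2 + (t : ℂ) * Complex.I) := by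
      apply differentiableAt_riemannZeta
      intro h
      have := congrArg Complex.re h
      simp at this
    exact ContinuousAt.comp (f := fun t : ℝ => (1 / 2 + (t : ℂ) * Complex.I)) h1.continuousAt (by fun_prop)
  obtain ⟨M, hM⟩ := isCompact_Icc.exists_bound_of_continuousOn hc
  refine ⟨|M|, abs_nonneg _, fun t h0 h1 => ?_⟩
  have := hM t ⟨h0, h1⟩
  rw [Real.norm_eq_abs] at this
  exact (le_abs_self _).trans (this.trans (le_abs_self _))

theorem main_sum (g : ℕ) (hg : 2 ≤ g) (α β ε : ℝ) (hα : 0 < α) (hβ : 0 ≤ β) (hε : 0 < ε) :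
    ∃ C : ℝ, 0 < C ∧ ∀ (k : ℕ) (D : ℕ → Finset ℕ) (lam : ℕ → ℝ), (∀ i, 1 ≤ lam i) →
      (∀ i < k, D i ⊆ range g ∧ Flat g (lam i) (D i)) →
      ∑ a ∈ strings D k, ‖riemannZeta (1 / 2 + ((α * val g a + β : ℝ) : ℂ) * Complex.I)‖ ^ 2 ≤
        C * (g : ℝ) ^ (ε * k) * wt lam D k := by
  classical
  have hgR : (2 : ℝ) ≤ g := by exact_mod_cast hg
  have hg0 : (0 : ℝ) < g := by linarith
  have hg1 : (1 : ℝ) ≤ g := by linarith
  have hlg : 0 < log (g : ℝ) := Real.log_pos (by linarith)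
  obtain ⟨η, hη⟩ : ∃ η, η = min (1 / 100) (ε / 8) := ⟨_, rfl⟩
  have hη0 : 0 < η := by rw [hη]; exact lt_min (by norm_num) (by positivity)
  have hη1 : η ≤ 1 / 100 := by rw [hη]; exact min_le_left _ _
  have hη2 : η ≤ ε / 8 := by rw [hη]; exact min_le_right _ _
  obtain ⟨C₁, T₀, hC₁, hT₀, hwin⟩ := window η hη0 hη1
  obtain ⟨M₀, hM₀, hM⟩ := zeta_bdd (2 * T₀)
  obtain ⟨y₀, hy₀⟩ : ∃ y₀, y₀ = α + β + 1 := ⟨_, rfl⟩
  have hy1 : 1 ≤ y₀ := by rw [hy₀]; linarith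
  have hly : 0 ≤ log y₀ := Real.log_nonneg hy1
  obtain ⟨c₁, hc₁⟩ : ∃ c₁, c₁ = 3 + log y₀ + log g := ⟨_, rfl⟩
  have hc₁0 : 3 ≤ c₁ := by rw [hc₁]; linarith
  obtain ⟨K₂, hK₂, hpoly⟩ := poly_le (ε / 2 * log g) (by positivity)
  obtain ⟨K₀, hK₀⟩ : ∃ K₀, K₀ = CC α * 12 * √g * (1 + 5 * y₀) * (3 + c₁) ^ 3 + 1 := ⟨_, rfl⟩
  have hCC := CC_pos hα
  have hK₀0 : 0 < K₀ := by rw [hK₀]; positivity
  obtain ⟨K₁, hK₁⟩ : ∃ K₁, K₁ = (2 * c₁ + 1) * (C₁ * K₀) := ⟨_, rfl⟩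
  have hK₁0 : 0 < K₁ := by rw [hK₁]; positivity
  refine ⟨M₀ + K₁ * K₂, by positivity, fun k D lam hlam hD => ?_⟩
  obtain ⟨W, hW⟩ : ∃ W, W = wt lam D k := ⟨_, rfl⟩
  have hWc : ((strings D k).card : ℝ) ≤ W := by
    rw [card_strings, hW]
    apply prod_le_prod (fun i _ => Nat.cast_nonneg _)
    intro i _
    exact le_mul_of_one_le_left (Nat.cast_nonneg _) (hlam i)
  have hcard0 : (0 : ℝ) ≤ W := (Nat.cast_nonneg _).trans hWc
  rw [← hW]
  obtain ⟨Y, hY⟩ : ∃ Y, Y = y₀ * (g : ℝ) ^ k := ⟨_, rfl⟩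
  have hgk : (1 : ℝ) ≤ (g : ℝ) ^ k := one_le_pow₀ hg1
  have hY1 : 1 ≤ Y := by rw [hY]; nlinarith
  have hlogY : log Y = log y₀ + k * log g := by
    rw [hY, Real.log_mul (by linarith) (by positivity), Real.log_pow]
  obtain ⟨t, ht⟩ : ∃ t : (Fin k → ℕ) → ℝ, t = fun a => α * val g a + β := ⟨_, rfl⟩
  have ht0 : ∀ a, 0 ≤ t a := by
    intro a
    rw [ht]
    positivity
  have htY : ∀ a ∈ strings D k, t a ≤ Y := by
    intro a ha
    have h1 : val g a < g ^ k := by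
      apply val_lt
      intro i
      unfold strings at ha
      rw [Fintype.mem_piFinset] at ha
      exact mem_range.1 ((hD i i.2).1 (ha i))
    have h2 : (val g a : ℝ) ≤ (g : ℝ) ^ k := by exact_mod_cast h1.le
    rw [ht, hY, hy₀]
    simp only
    have h3 := mul_le_mul_of_nonneg_left h2 hα.le
    have h4 := mul_le_mul_of_nonneg_left hgk hβ
    linarith
  obtain ⟨f, hf⟩ : ∃ f : (Fin k → ℕ) → ℝ, f = fun a => ‖riemannZeta (1 / 2 + ((t a : ℝ) : ℂ) * Complex.I)‖ ^ 2 := ⟨_, rfl⟩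
  have hf0 : ∀ a, 0 ≤ f a := fun a => by rw [hf]; positivity
  have e0 : ∑ a ∈ strings D k, ‖riemannZeta (1 / 2 + ((α * val g a + β : ℝ) : ℂ) * Complex.I)‖ ^ 2 = ∑ a ∈ strings D k, f a := by
    rw [hf, ht]
  rw [e0, ← sum_filter_add_sum_filter_not (strings D k) (fun a => t a < 2 * T₀)]
  -- the growth factors
  obtain ⟨G, hG⟩ : ∃ G, G = (g : ℝ) ^ (2 * η * k) := ⟨_, rfl⟩
  have hG1 : 1 ≤ G := by rw [hG]; exact Real.one_le_rpow hg1 (by positivity)
  have hkR : (0 : ℝ) ≤ k := Nat.cast_nonneg _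
  -- the dyadic pieces
  obtain ⟨R, hR⟩ : ∃ R, R = Nat.log 2 ⌊Y⌋₊ + 1 := ⟨_, rfl⟩
  have hmaps : ∀ a ∈ (strings D k).filter (fun a => ¬ t a < 2 * T₀), Nat.log 2 ⌊t a⌋₊ ∈ range R := by
    intro a ha
    rw [mem_range, hR, Nat.lt_succ_iff]
    exact Nat.log_mono_right (Nat.floor_le_floor (htY a (mem_filter.1 ha).1))
  have hpiece : ∀ r ∈ range R, ∑ a ∈ ((strings D k).filter (fun a => ¬ t a < 2 * T₀)).filter (fun a => Nat.log 2 ⌊t a⌋₊ = r), f a ≤
      C₁ * (K₀ * (((k : ℝ) + 1) ^ 3 * G * W)) := by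
    intro r _
    obtain ⟨S, hS⟩ : ∃ S, S = ((strings D k).filter (fun a => ¬ t a < 2 * T₀)).filter (fun a => Nat.log 2 ⌊t a⌋₊ = r) := ⟨_, rfl⟩
    rw [← hS]
    rcases S.eq_empty_or_nonempty with h0 | hne
    · rw [h0, sum_empty]
      positivity
    have hSsub : S ⊆ strings D k := by
      rw [hS]
      exact (filter_subset _ _).trans (filter_subset _ _)
    obtain ⟨X, hX⟩ : ∃ X : ℝ, X = 2 ^ r := ⟨_, rfl⟩
    have hX0 : 0 < X := by rw [hX]; positivity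
    have hX1 : 1 ≤ X := by rw [hX]; exact one_le_pow₀ (by norm_num)
    have hSX : ∀ a ∈ S, X ≤ t a ∧ t a ≤ 2 * X ∧ 2 * T₀ ≤ t a := by
      intro a ha
      rw [hS, mem_filter, mem_filter] at ha
      obtain ⟨⟨_, h1⟩, h2⟩ := ha
      push Not at h1
      have hfl : ⌊t a⌋₊ ≠ 0 := by
        have : 1 ≤ ⌊t a⌋₊ := Nat.le_floor (by push_cast; linarith)
        omega
      have h3 : 2 ^ r ≤ ⌊t a⌋₊ := by rw [← h2]; exact Nat.pow_log_le_self 2 hfl
      have h4 : ⌊t a⌋₊ < 2 ^ (r + 1) := by rw [← h2]; exact Nat.lt_pow_succ_log_self (by norm_num) _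
      refine ⟨?_, ?_, h1⟩
      · have h5 : ((2 ^ r : ℕ) : ℝ) ≤ ⌊t a⌋₊ := by exact_mod_cast h3
        have h6 := Nat.floor_le (ht0 a)
        rw [hX]
        push_cast at h5
        linarith
      · have h5 : ((⌊t a⌋₊ : ℕ) : ℝ) + 1 ≤ ((2 ^ (r + 1) : ℕ) : ℝ) := by exact_mod_cast h4
        have h6 := Nat.lt_floor_add_one (t a)
        rw [hX]
        push_cast at h5
        rw [pow_succ] at h5
        linarith
    obtain ⟨a₀, ha₀⟩ := hne
    obtain ⟨h1, h2, h3⟩ := hSX a₀ ha₀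
    have hXT : T₀ ≤ X := by linarith
    have hXY : X ≤ Y := h1.trans (htY a₀ (hSsub ha₀))
    obtain ⟨N, hN⟩ : ∃ N, N = ⌈4 * X ^ (1 / 2 + 2 * η)⌉₊ := ⟨_, rfl⟩
    have hXp : 1 ≤ X ^ (1 / 2 + 2 * η) := Real.one_le_rpow hX1 (by positivity)
    have hN4 : 4 * X ^ (1 / 2 + 2 * η) ≤ N := by rw [hN]; exact Nat.le_ceil _
    have hN1 : 1 ≤ N := by
      have : (1 : ℝ) ≤ N := by linarith
      exact_mod_cast this
    have hN5 : (N : ℝ) ≤ 5 * Y ^ (1 / 2 + 2 * η) := by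
      have h4 : (N : ℝ) < 4 * X ^ (1 / 2 + 2 * η) + 1 := by rw [hN]; exact Nat.ceil_lt_add_one (by positivity)
      have h5 : X ^ (1 / 2 + 2 * η) ≤ Y ^ (1 / 2 + 2 * η) := Real.rpow_le_rpow hX0.le hXY (by positivity)
      linarith
    have hw := hwin X hXT N hN4 _ (strings D k) S t hSsub (fun a ha => by
      obtain ⟨h4, h5, _⟩ := hSX a ha
      constructor <;> linarith) _ (fun c hc => by
      have h4 := mean_sq g (by omega) D lam hlam k (fun i hi => (hD i hi).2) α β hα N hN1 c hc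
      rw [ht]
      exact h4)
    rw [← hW] at hw
    have e1 : ∑ a ∈ S, f a = ∑ a ∈ S, ‖riemannZeta (1 / 2 + ((t a : ℝ) : ℂ) * Complex.I)‖ ^ 2 := by rw [hf]
    rw [e1]
    refine hw.trans ?_
    apply mul_le_mul_of_nonneg_left _ hC₁.le
    have hScard : (S.card : ℝ) ≤ W := le_trans (by exact_mod_cast card_le_card hSsub) hWc
    have hsg : 0 < √(g : ℝ) ^ k := by positivity
    have hNg : (N : ℝ) / √g ^ k ≤ 5 * y₀ * G := by
      rw [div_le_iff₀ hsg]
      refine hN5.trans ?_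
      have h4 : Y ^ (1 / 2 + 2 * η) ≤ y₀ * (√g ^ k * G) := by
        rw [hY, Real.mul_rpow (by linarith) (by positivity)]
        apply mul_le_mul
        · calc y₀ ^ (1 / 2 + 2 * η) ≤ y₀ ^ (1 : ℝ) := Real.rpow_le_rpow_of_exponent_le hy1 (by linarith)
            _ = y₀ := Real.rpow_one _
        · apply le_of_eq
          rw [Real.rpow_add (by positivity), hG, Real.sqrt_eq_rpow, ← Real.rpow_natCast ((g : ℝ) ^ (1 / 2 : ℝ)), ← Real.rpow_mul hg0.le,
            ← Real.rpow_natCast (g : ℝ), ← Real.rpow_mul hg0.le, ← Real.rpow_mul hg0.le]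
          congr 2 <;> ring
        · positivity
        · linarith
      linarith
    have hlogN : 3 + log (2 * N) ≤ (3 + c₁) * (k + 1) := by
      have hNR : (1 : ℝ) ≤ N := by exact_mod_cast hN1
      have h4 : log (2 * (N : ℝ)) ≤ log (10 * Y ^ (1 / 2 + 2 * η)) := Real.log_le_log (by linarith) (by linarith)
      have h4' : log (10 * Y ^ (1 / 2 + 2 * η)) = log 10 + (1 / 2 + 2 * η) * log Y := by
        rw [Real.log_mul (by norm_num) (Real.rpow_pos_of_pos (by linarith) _).ne', Real.log_rpow (by linarith)]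
      rw [h4'] at h4
      have h5 : log (10 : ℝ) ≤ 3 := by
        rw [Real.log_le_iff_le_exp (by norm_num)]
        have h6 : exp 3 = exp 1 ^ 3 := by rw [← Real.exp_nat_mul]; norm_num
        have h7 : (2.7 : ℝ) ^ 3 ≤ exp 1 ^ 3 := pow_le_pow_left₀ (by norm_num) (by have := Real.exp_one_gt_d9; linarith) 3
        rw [h6]
        norm_num at h7
        linarith
      have hlY : 0 ≤ log Y := Real.log_nonneg hY1
      have h6 : (1 / 2 + 2 * η) * log Y ≤ log Y := mul_le_of_le_one_left hlY (by linarith)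
      have h6' : (1 / 2 + 2 * η) * log Y ≤ log y₀ + k * log g := h6.trans (le_of_eq hlogY)
      have h7 : 3 + log (2 * (N : ℝ)) ≤ 6 + log y₀ + k * log g := by linarith
      refine h7.trans ?_
      rw [hc₁]
      have h8 := mul_nonneg hkR hly
      linarith
    have hlog0 : 0 ≤ 3 + log (2 * (N : ℝ)) := by
      have hNR : (1 : ℝ) ≤ N := by exact_mod_cast hN1
      have : 0 ≤ log (2 * (N : ℝ)) := Real.log_nonneg (by linarith)
      linarith
    have hcub : (3 + log (2 * (N : ℝ))) ^ 3 ≤ (3 + c₁) ^ 3 * ((k : ℝ) + 1) ^ 3 := by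
      rw [← mul_pow]
      exact pow_le_pow_left₀ hlog0 hlogN 3
    have hk13 : 1 ≤ ((k : ℝ) + 1) ^ 3 := one_le_pow₀ (by linarith)
    have hmain : CC α * 12 * √g * (1 + N / √g ^ k) * (3 + log (2 * N)) ^ 3 * W ≤
        CC α * 12 * √g * ((1 + 5 * y₀) * G) * ((3 + c₁) ^ 3 * ((k : ℝ) + 1) ^ 3) * W := by
      apply mul_le_mul_of_nonneg_right _ hcard0
      apply mul_le_mul _ hcub (by positivity) (by positivity)
      apply mul_le_mul_of_nonneg_left _ (by positivity)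
      linarith
    have hone : (S.card : ℝ) ≤ 1 * (((k : ℝ) + 1) ^ 3 * G * W) := by
      refine hScard.trans ?_
      rw [one_mul]
      refine le_mul_of_one_le_left hcard0 ?_
      exact one_le_mul_of_one_le_of_one_le hk13 hG1
    calc CC α * 12 * √g * (1 + N / √g ^ k) * (3 + log (2 * N)) ^ 3 * W + S.card
        ≤ CC α * 12 * √g * ((1 + 5 * y₀) * G) * ((3 + c₁) ^ 3 * ((k : ℝ) + 1) ^ 3) * W +
          1 * (((k : ℝ) + 1) ^ 3 * G * W) := add_le_add hmain hone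
      _ = K₀ * (((k : ℝ) + 1) ^ 3 * G * W) := by rw [hK₀]; ring
  -- the sum over the pieces
  have hRle : (R : ℝ) ≤ (2 * c₁ + 1) * (k + 1) := by
    have hfl : ⌊Y⌋₊ ≠ 0 := by
      have : 1 ≤ ⌊Y⌋₊ := Nat.le_floor (by push_cast; exact hY1)
      omega
    have h1 : (2 : ℝ) ^ (Nat.log 2 ⌊Y⌋₊) ≤ Y := by
      have h2 : ((2 ^ (Nat.log 2 ⌊Y⌋₊) : ℕ) : ℝ) ≤ ⌊Y⌋₊ := by exact_mod_cast Nat.pow_log_le_self 2 hfl
      have h3 := Nat.floor_le (by linarith : 0 ≤ Y)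
      push_cast at h2
      linarith
    have h2 := Real.log_le_log (by positivity) h1
    rw [Real.log_pow, hlogY] at h2
    have h3 : (1 : ℝ) / 2 ≤ log 2 := by have := Real.log_two_gt_d9; linarith
    have h4 : ((Nat.log 2 ⌊Y⌋₊ : ℕ) : ℝ) * (1 / 2) ≤ (Nat.log 2 ⌊Y⌋₊ : ℕ) * log 2 := mul_le_mul_of_nonneg_left h3 (Nat.cast_nonneg _)
    rw [hR]
    push_cast
    have h5 : ((Nat.log 2 ⌊Y⌋₊ : ℕ) : ℝ) ≤ 2 * (log y₀ + k * log g) := by linarith
    rw [hc₁]
    have h6 := mul_nonneg hkR hly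
    linarith
  have hbig : ∑ a ∈ (strings D k).filter (fun a => ¬ t a < 2 * T₀), f a ≤ K₁ * (((k : ℝ) + 1) ^ 4 * G * W) := by
    rw [← sum_fiberwise_of_maps_to hmaps]
    refine (sum_le_sum hpiece).trans ?_
    rw [sum_const, card_range, nsmul_eq_mul]
    calc (R : ℝ) * (C₁ * (K₀ * (((k : ℝ) + 1) ^ 3 * G * W)))
        ≤ ((2 * c₁ + 1) * (k + 1)) * (C₁ * (K₀ * (((k : ℝ) + 1) ^ 3 * G * W))) :=
          mul_le_mul_of_nonneg_right hRle (by positivity)
      _ = K₁ * (((k : ℝ) + 1) ^ 4 * G * W) := by rw [hK₁]; ring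
  have hsmall : ∑ a ∈ (strings D k).filter (fun a => t a < 2 * T₀), f a ≤ M₀ * W := by
    have h1 : ∀ a ∈ (strings D k).filter (fun a => t a < 2 * T₀), f a ≤ M₀ := by
      intro a ha
      rw [hf]
      exact hM (t a) (ht0 a) (mem_filter.1 ha).2.le
    refine (sum_le_sum h1).trans ?_
    rw [sum_const, nsmul_eq_mul, mul_comm]
    apply mul_le_mul_of_nonneg_left _ hM₀
    refine le_trans ?_ hWc
    exact_mod_cast card_le_card (filter_subset _ _)
  have hGE : ((k : ℝ) + 1) ^ 4 * G ≤ K₂ * (g : ℝ) ^ (ε * k) := by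
    have h1 := hpoly k
    have h2 : exp (ε / 2 * log g * k) = (g : ℝ) ^ (ε / 2 * k) := by
      rw [Real.rpow_def_of_pos hg0]
      congr 1
      ring
    rw [h2] at h1
    calc ((k : ℝ) + 1) ^ 4 * G ≤ (K₂ * (g : ℝ) ^ (ε / 2 * k)) * (g : ℝ) ^ (ε / 2 * k) := by
          apply mul_le_mul h1 _ (by linarith) (by positivity)
          rw [hG]
          apply Real.rpow_le_rpow_of_exponent_le hg1
          apply mul_le_mul_of_nonneg_right _ hkR
          linarith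
      _ = K₂ * (g : ℝ) ^ (ε * k) := by
          rw [mul_assoc, ← Real.rpow_add hg0]
          congr 2
          ring
  have hE1 : 1 ≤ (g : ℝ) ^ (ε * k) := Real.one_le_rpow hg1 (by positivity)
  calc ∑ a ∈ (strings D k).filter (fun a => t a < 2 * T₀), f a + ∑ a ∈ (strings D k).filter (fun a => ¬ t a < 2 * T₀), f a
      ≤ M₀ * W + K₁ * (((k : ℝ) + 1) ^ 4 * G * W) := add_le_add hsmall hbig
    _ = (M₀ * 1 + K₁ * (((k : ℝ) + 1) ^ 4 * G)) * W := by ring
    _ ≤ (M₀ * (g : ℝ) ^ (ε * k) + K₁ * (K₂ * (g : ℝ) ^ (ε * k))) * W := by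
        apply mul_le_mul_of_nonneg_right _ hcard0
        apply add_le_add
        · exact mul_le_mul_of_nonneg_left hE1 hM₀
        · exact mul_le_mul_of_nonneg_left hGE hK₁0.le
    _ = (M₀ + K₁ * K₂) * (g : ℝ) ^ (ε * k) * W := by ring

end Pool.Agent.R501.ZD
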